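import Pool.Agent.Lib.MP_19b52f_al.XL.Let

/-! Chambers, colours and walls of one cell. -/

namespace Pool.Agent.Lib.MP_19b52f_al.XL

open Pool.Agent.Lib.MP_19b52f_al.EA Pool.Agent.Lib.MP_19b52f_al.EA2

variable {S : Type} {M : CoxeterMatrix S} {s t : S}

lemma Lk.symm (h : Lk M s t) : Lk M t s := ⟨h.1.symm, by rw [M.symmetric t s]; exact h.2⟩

lemma Lk.lt (h : Lk M s t) (j : ℤ) : Lk M (lt s t (j + 1)) (lt s t j) := by
  rcases lt_cases s t j with ⟨h1, h2⟩ | ⟨h1, h2⟩ <;> rw [h1, h2]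
  · exact h
  · exact h.symm

lemma M_lt (s t : S) (j : ℤ) : M (lt s t (j + 1)) (lt s t j) = M s t := by
  rcases lt_cases s t j with ⟨h1, h2⟩ | ⟨h1, h2⟩ <;> rw [h1, h2]
  exact M.symmetric t s

lemma Lk.braid (h : Lk M s t) : W (ag M s) (ag M t) (M s t) = W (ag M t) (ag M s) (M s t) := by
  simpa only [omega_eq_W] using ag_rel M h.1 h.2

lemma ag_lt (s t : S) (j : ℤ) : ag M (lt s t j) = lt (ag M s) (ag M t) j :=
  map_lt s t j (ag M)

namespace GS
variable (G : GS M) (x : G.Φ) (i : Option (S × S))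

include G in
lemma seven' (h : Lk M s t) : (7 : ℤ) ≤ M s t := by exact_mod_cast G.seven s t h

lemma θ_inv (s : S) : G.θ (ag M s)⁻¹ = G.θ (ag M s) := by
  rw [map_inv]
  exact inv_eq_of_mul_eq_one_right (G.sq s)

lemma cm_iff (φ : G.Φ) (v w : G.V) : G.cm (φ • v) (φ • w) ↔ G.cm v w :=
  ⟨fun h => by simpa only [inv_smul_smul] using G.cm_smul φ⁻¹ _ _ h, G.cm_smul φ v w⟩

lemma cr_iff (φ : G.Φ) (v : G.V) (c : G.C) : G.cr i (φ • v) (φ • c) ↔ G.cr i v c :=
  ⟨fun h => by simpa only [inv_smul_smul] using G.cr_smul i φ⁻¹ _ _ h, G.cr_smul i φ v c⟩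

lemma ch_zero (s t : S) : G.ch x s t 0 = x := by simp [ch]

lemma ch_one (s t : S) : G.ch x s t 1 = x * G.θ (ag M s) := by simp [ch, W]

lemma ch_succ (s t : S) (k : ℤ) :
    G.ch x s t (k + 1) = G.ch x s t k * G.θ (ag M (lt s t (k + 1))) := by
  rw [ch, ch, W_succ, map_mul, mul_assoc, ag_lt]

lemma ch_back (s t : S) (k : ℤ) : G.ch x s t k * G.θ (ag M (lt s t k)) = G.ch x s t (k - 1) := by
  have e := G.ch_succ x s t (k - 1)
  rw [sub_add_cancel] at e
  rw [e, mul_assoc, G.sq, mul_one]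

lemma ch_swap (s t : S) (k : ℤ) : G.ch x t s k = G.ch x s t (-k) := by
  induction k using Int.induction_on with
  | zero => rw [neg_zero, ch_zero, ch_zero]
  | succ k ih =>
    have e : lt s t (k : ℤ) = lt s t (-k) := by
      rw [← lt_add_even s t (-(k : ℤ)) (k := k + k) ⟨k, rfl⟩]
      congr 1
      ring
    rw [ch_succ, ih, lt_succ, e, ch_back]
    congr 1
    ring
  | pred k ih =>
    have e : lt t s (-(k : ℤ)) = lt s t (k + 1) := by
      rw [← lt_succ, ← lt_add_even s t (-(k : ℤ) + 1) (k := k + k) ⟨k, rfl⟩]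
      congr 1
      ring
    rw [← ch_back, ih, neg_neg, e, ← ch_succ]
    congr 1
    ring

lemma ch_shift (s t : S) (j k : ℤ) :
    G.ch (G.ch x s t j) (lt s t (j + 1)) (lt s t j) k = G.ch x s t (j + k) := by
  rw [ch, ch, ch, mul_assoc, ← map_mul, ag_lt, ag_lt, W_shift]

lemma cell_θ_Pe (h : Lk M s t) : Pe (ag M s) (ag M t) (M s t) ≤ G.θ.ker := by
  refine (Subgroup.closure_le _).mpr ?_
  rintro g (rfl | ⟨j, rfl⟩)
  · have e1 := G.ch_swap 1 s t (M s t)
    rw [ch, ch, one_mul, one_mul, ← h.braid] at e1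
    have e2 := W_add (-(M s t : ℤ)) h.braid
    rw [neg_add_cancel, W_zero] at e2
    show G.θ _ = 1
    rw [zz, map_mul]
    nth_rewrite 1 [e1]
    rw [← map_mul, ← e2, map_one]
  · show G.θ _ = 1
    rw [Mj, ← ag_lt, map_mul, map_mul, map_mul, G.sq, mul_one, map_inv, mul_inv_cancel]

lemma ch_congr (h : Lk M s t) {k l : ℤ} (e : 2 * (M s t : ℤ) ∣ k - l) :
    G.ch x s t k = G.ch x s t l := by
  have e1 : G.θ _ = 1 := G.cell_θ_Pe h (W_congr h.braid e)
  rw [map_mul, map_inv, mul_inv_eq_one] at e1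
  rw [ch, ch, e1]

lemma θ_Pe (h : Lk M s t) {g : Artin M} (hg : g ∈ Pe (ag M s) (ag M t) (M s t)) : G.θ g = 1 :=
  G.cell_θ_Pe h hg

lemma θ_FI {I : Set S} {g : Artin M} (hg : g ∈ FI M I) : G.θ g = 1 := by
  refine (Subgroup.closure_le G.θ.ker).mpr ?_ hg
  rintro _ ⟨s, -, rfl⟩
  show G.θ _ = 1
  rw [map_mul, G.sq]

lemma col_edge (h : Lk M s t) (k : ℤ) :
    G.ch x s t (k - 1) • G.α i (lt s t k) = G.col i x s t k := by
  rw [ch, mul_smul, G.root i s t h, col]

lemma col_back (h : Lk M s t) (k : ℤ) :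
    G.ch x s t k • G.α i (lt s t k) = G.col i x s t (k + M s t) := by
  have e := G.ch_succ x s t (k - 1)
  rw [sub_add_cancel] at e
  rw [e, mul_smul, G.refl, G.smul_neg, G.col_edge x i h, col, col, G.add_m i s t h, G.smul_neg]

lemma col_add_m (h : Lk M s t) (k : ℤ) : G.col i x s t (k + M s t) = -G.col i x s t k := by
  rw [col, col, G.add_m i s t h, G.smul_neg]

lemma col_congr (h : Lk M s t) {k l : ℤ} (e : 2 * (M s t : ℤ) ∣ k - l) :
    G.col i x s t k = G.col i x s t l := by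
  obtain ⟨q, hq⟩ := e
  have two : ∀ j, G.col i x s t (j + 2 * M s t) = G.col i x s t j := fun j => by
    rw [show j + 2 * (M s t : ℤ) = j + M s t + M s t by ring, G.col_add_m x i h,
      G.col_add_m x i h, neg_neg]
  rw [show k = l + 2 * M s t * q by omega]
  clear hq
  induction q using Int.induction_on with
  | zero => simp
  | succ n ih =>
    rw [show l + 2 * (M s t : ℤ) * ((n : ℤ) + 1) = l + 2 * M s t * n + 2 * M s t by ring, two, ih]
  | pred n ih =>
    rw [← two, ← ih]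
    congr 1
    ring

lemma col_eq_iff (h : Lk M s t) (k l : ℤ) :
    G.col i x s t k = G.col i x s t l ↔ 2 * (M s t : ℤ) ∣ k - l :=
  ⟨fun e => G.inj i s t h k l (MulAction.injective x e), G.col_congr x i h⟩

lemma col_pm_iff (h : Lk M s t) (k l : ℤ) :
    (G.col i x s t k = G.col i x s t l ∨ G.col i x s t k = -G.col i x s t l) ↔
      (M s t : ℤ) ∣ k - l := by
  rw [← G.col_add_m x i h, G.col_eq_iff x i h, G.col_eq_iff x i h]
  constructor
  · rintro (⟨q, e⟩ | ⟨q, e⟩)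
    · exact ⟨2 * q, by linarith⟩
    · exact ⟨2 * q + 1, by linarith⟩
  · rintro ⟨q, e⟩
    rcases Int.even_or_odd' q with ⟨r, rfl | rfl⟩
    · exact Or.inl ⟨r, by linarith⟩
    · exact Or.inr ⟨r, by linarith⟩

lemma col_swap (h : Lk M s t) (k : ℤ) : G.col i x t s k = G.col i x s t (M s t + 1 - k) := by
  rw [col, col, G.swap i s t h]

lemma col_shift (h : Lk M s t) (j k : ℤ) :
    G.col i (G.ch x s t j) (lt s t (j + 1)) (lt s t j) k = G.col i x s t (j + k) := by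
  rw [← G.col_edge _ i (h.lt j), ← G.col_edge x i h, ch_shift, dih_lt_lt, add_sub_assoc]

lemma col_one (h : Lk M s t) : G.col i x s t 1 = x • G.α i s := by
  rw [← G.col_edge x i h, sub_self, ch_zero, lt_one]

lemma col_m (h : Lk M s t) : G.col i x s t (M s t) = x • G.α i t := by
  have e := G.col_back x i h 0
  rw [ch_zero, lt_zero, zero_add] at e
  exact e.symm

open Classical in
lemma cell_η_succ (h : Lk M s t) (p : G.C) (k : ℤ) :
    G.η i (G.ch x s t (k + 1)) p = G.η i (G.ch x s t k) p +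
      if p = G.col i x s t (k + 1) ∨ p = -G.col i x s t (k + 1) then 1 else 0 := by
  have e := G.col_edge x i h (k + 1)
  rw [add_sub_cancel_right] at e
  rw [ch_succ, G.η_step, e]

lemma η_out (h : Lk M s t) {p : G.C} (hp : ∀ k, p ≠ G.col i x s t k) (k : ℤ) :
    G.η i (G.ch x s t k) p = G.η i x p := by
  have step : ∀ k, G.η i (G.ch x s t (k + 1)) p = G.η i (G.ch x s t k) p := fun k => by
    rw [G.cell_η_succ x i h, if_neg, add_zero]
    rw [← G.col_add_m x i h]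
    exact fun e => e.elim (hp _) (hp _)
  induction k using Int.induction_on with
  | zero => rw [ch_zero]
  | succ n ih => rw [step, ih]
  | pred n ih => rw [← step, sub_add_cancel, ih]

lemma η_in (h : Lk M s t) (p k : ℤ) : G.η i (G.ch x s t k) (G.col i x s t p) =
    G.η i x (G.col i x s t p) + (Nw (M s t) p k : ℤ) := by
  have hm : (0 : ℤ) < M s t := by have := G.seven' h; omega
  have step : ∀ k, G.η i (G.ch x s t (k + 1)) (G.col i x s t p) - (Nw (M s t) p (k + 1) : ℤ) =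
      G.η i (G.ch x s t k) (G.col i x s t p) - (Nw (M s t) p k : ℤ) := fun k => by
    rw [G.cell_η_succ x i h, Nw_succ hm]
    by_cases e : (M s t : ℤ) ∣ k + 1 - p
    · rw [if_pos e, if_pos ((G.col_pm_iff x i h _ _).mpr (dvd_sub_comm.mp e))]
      push_cast
      ring
    · rw [if_neg e, if_neg fun e' => e (dvd_sub_comm.mp ((G.col_pm_iff x i h _ _).mp e'))]
      push_cast
      ring
  rw [← sub_eq_iff_eq_add]
  induction k using Int.induction_on with
  | zero => rw [ch_zero, Nw_zero, Int.cast_zero, sub_zero]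
  | succ n ih => rw [step, ih]
  | pred n ih => rw [← step, sub_add_cancel, ih]

lemma mu_swap (h : Lk M s t) : G.mu t s = G.mu s t := (G.ξ_swap s t h).symm

lemma mu_lt (h : Lk M s t) (j : ℤ) : G.mu (lt s t (j + 1)) (lt s t j) = G.mu s t := by
  rcases lt_cases s t j with ⟨a, b⟩ | ⟨a, b⟩ <;> rw [a, b]
  exact G.mu_swap h

lemma cell_twice (r : S) (v : G.V) : G.θ (ag M r) • G.θ (ag M r) • v = v := by
  rw [← mul_smul, G.sq, one_smul]

lemma bt_zero (s t : S) : G.bt x s t 0 = x • G.mu s t := by rw [bt, ch_zero]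

lemma bt_succ (h : Lk M s t) (l : ℤ) : G.ch x s t l • G.ξ (lt s t l) = G.bt x s t (l + 1) := by
  rw [bt, ch_succ, ← G.mu_lt h l, mu, mul_smul, cell_twice]

lemma bt_pred (h : Lk M s t) (l : ℤ) :
    G.ch x s t l • G.ξ (lt s t (l + 1)) = G.bt x s t (l - 1) := by
  rw [bt, ← ch_back, ← G.mu_lt h l, ← G.mu_swap (h.lt l), mu, mul_smul, cell_twice]

lemma bt_shift (h : Lk M s t) (j l : ℤ) :
    G.bt (G.ch x s t j) (lt s t (j + 1)) (lt s t j) l = G.bt x s t (j + l) := by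
  rw [bt, bt, ch_shift, G.mu_lt h]

lemma bt_swap (h : Lk M s t) (l : ℤ) : G.bt x t s l = G.bt x s t (-l) := by
  rw [bt, bt, ch_swap, G.mu_swap h]

lemma cell_base (h : Lk M s t) (k : ℤ) : G.bt x s t k =
    G.ch x s t k • G.θ (ag M (lt s t (k + 1))) • G.ξ (lt s t k) := by
  rw [bt, ← G.mu_lt h k, mu]

lemma cell_rel (h : Lk M s t) (k l : ℤ) : G.bt x s t l =
    G.ch x s t k • G.θ (W (ag M (lt s t (k + 1))) (ag M (lt s t k)) (l - k)) •
      G.θ (ag M (lt s t (k + 1))) • G.ξ (lt s t k) := by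
  have e := G.bt_shift x h k (l - k)
  rw [add_sub_cancel] at e
  rw [← e, bt, ch, mu, mul_smul]

lemma bt_eq_iff (h : Lk M s t) (k l : ℤ) :
    G.bt x s t k = G.bt x s t l ↔ 2 * (M s t : ℤ) ∣ k - l := by
  constructor
  · intro e
    rw [G.cell_rel x h l k, G.cell_base x h l] at e
    have := G.poly_eq _ _ (h.lt l) _ (smul_left_cancel _ e)
    rwa [M_lt] at this
  · intro e
    rw [bt, bt, G.ch_congr x h e]

lemma bt_cm (h : Lk M s t) {k l : ℤ} (e : G.cm (G.bt x s t k) (G.bt x s t l)) :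
    ∃ d : ℤ, -2 ≤ d ∧ d ≤ 2 ∧ 2 * (M s t : ℤ) ∣ l - k - d := by
  rw [G.cell_rel x h k l, G.cell_base x h k, cm_iff] at e
  have := G.poly_cm _ _ (h.lt k) _ e
  rwa [M_lt] at this

lemma bt_cr (h : Lk M s t) {k l : ℤ} (e : G.cr i (G.bt x s t l) (G.col i x s t k)) :
    (M s t : ℤ) ∣ k - l ∨ (M s t : ℤ) ∣ k - l - 1 := by
  have e2 := G.col_shift x i h l (k - l)
  rw [add_sub_cancel] at e2
  rw [← e2, G.cell_base x h l, col, cr_iff] at e
  have := G.cr_poly i _ _ (h.lt l) _ e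
  rwa [M_lt] at this

lemma far_far (h : Lk M s t) : G.θ (ag M s) • G.ξ s ≠ G.θ (ag M t) • G.ξ t ∧
    ¬ G.cm (G.θ (ag M s) • G.ξ s) (G.θ (ag M t) • G.ξ t) := by
  have e1 := G.bt_succ 1 h 1
  have e2 := G.bt_pred 1 h (-1)
  rw [ch_one, one_mul, lt_one] at e1
  rw [← ch_swap, ch_one, one_mul, neg_add_cancel, lt_zero] at e2
  have h7 : (7 : ℤ) ≤ M s t := by exact_mod_cast G.seven s t h
  rw [e1, e2]
  constructor
  · intro e
    have := Int.le_of_dvd (by norm_num) ((G.bt_eq_iff 1 h _ _).1 e)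
    omega
  · intro e
    obtain ⟨d, d1, d2, e⟩ := G.bt_cm 1 h e
    have := Int.le_of_dvd (by omega) (Int.dvd_neg.2 e)
    omega

lemma obB_congr (h : Lk M s t) {k l : ℤ} (e : 2 * (M s t : ℤ) ∣ k - l) :
    G.obB x s t k = G.obB x s t l := by
  rw [obB, obB, G.ch_congr x h e, (G.bt_eq_iff x h k l).2 e,
    (G.bt_eq_iff x h (k - 1) (l - 1)).2 (by rwa [sub_sub_sub_cancel_right]),
    (G.bt_eq_iff x h (k + 1) (l + 1)).2 (by rwa [add_sub_add_right_eq_sub])]

lemma obB_shift (h : Lk M s t) (j k : ℤ) :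
    G.obB (G.ch x s t j) (lt s t (j + 1)) (lt s t j) k = G.obB x s t (j + k) := by
  rw [obB, obB, ch_shift, G.bt_shift x h, G.bt_shift x h, G.bt_shift x h, add_sub_assoc,
    add_assoc]

lemma obB_swap (h : Lk M s t) (k : ℤ) : G.obB x t s k = G.obB x s t (-k) := by
  rw [obB, obB, ch_swap, G.bt_swap x h, G.bt_swap x h, G.bt_swap x h,
    show -(k - 1) = -k + 1 by ring, show -(k + 1) = -k - 1 by ring]
  congr 1
  ext v
  simp only [Set.mem_insert_iff, Set.mem_singleton_iff]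
  tauto

lemma free_symm {l l' : G.BL} (h : G.Free l l') : G.Free l' l :=
  ⟨fun x r => (h.1 x r).symm, fun x s t a => (h.2 x s t a).symm⟩

lemma adj_vv (v w : G.V) : G.Γ.Adj (.inl v) (.inl w) ↔ G.cm v w := by
  rw [Γ, SimpleGraph.fromRel_adj]
  constructor
  · rintro ⟨-, e | e⟩
    · exact e
    · exact G.cm_symm _ _ e
  · intro e
    refine ⟨fun a => ?_, Or.inl e⟩
    rw [Sum.inl.inj a] at e
    exact G.cm_irrefl _ e

lemma adj_vl (v : G.V) (l : G.BL) : G.Γ.Adj (.inl v) (.inr l) ↔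
    ∃ x r, G.L l x r ≠ 0 ∧ G.cr (G.kd l) v (x • G.α (G.kd l) r) := by
  rw [Γ, SimpleGraph.fromRel_adj]
  constructor
  · rintro ⟨-, e | e⟩
    · exact e
    · exact e.elim
  · exact fun e => ⟨Sum.inl_ne_inr, Or.inl e⟩

lemma adj_ll (l l' : G.BL) : G.Γ.Adj (.inr l) (.inr l') ↔ l ≠ l' ∧ ¬ G.Free l l' := by
  rw [Γ, SimpleGraph.fromRel_adj]
  constructor
  · rintro ⟨a, e | e⟩
    · exact ⟨fun b => a (congrArg _ b), e⟩
    · exact ⟨fun b => a (congrArg _ b), fun f => e (G.free_symm f)⟩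
  · exact fun e => ⟨fun a => e.1 (Sum.inr.inj a), Or.inl e.2⟩

end GS

end Pool.Agent.Lib.MP_19b52f_al.XL
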