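import Pool.Agent.Lib.MP_19b52f_al.XL.Word

/-! Elements of a parabolic subgroup that stay in it after conjugation by a new generator. -/

namespace Pool.Agent.Lib.MP_19b52f_al.XL

open Pool.Agent.Lib.MP_19b52f_al.EA Pool.Agent.Lib.MP_19b52f_al.EA2

variable {Ω : Type} {Γ : SimpleGraph Ω}

lemma cent_append (w w' : List (Ω × Bool)) : ev Γ (w ++ w') = ev Γ w * ev Γ w' := by
  rw [ev, List.map_append, List.prod_append, ev, ev]

lemma cent_word {D : Set Ω} {r : GP Γ Zm} (hr : r ∈ PX Γ Zm D) :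
    ∃ w, (∀ a ∈ w, a.1 ∈ D) ∧ ev Γ w = r := by
  let S : Submonoid (GP Γ Zm) :=
    { carrier := {r | ∃ w, (∀ a ∈ w, a.1 ∈ D) ∧ ev Γ w = r}
      one_mem' := ⟨[], by simp, rfl⟩
      mul_mem' := by
        rintro _ _ ⟨w, h, rfl⟩ ⟨w', h', rfl⟩
        exact ⟨w ++ w', List.forall_mem_append.2 ⟨h, h'⟩, cent_append w w'⟩ }
  have k : ∀ v ∈ D, ∀ k, gen Γ v k ∈ S := fun v hv k => by
    have e : ∀ ε, gen Γ v (sgn ε) ∈ S := fun ε => ⟨[(v, ε)], by simpa using hv, mul_one _⟩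
    induction k using Int.induction_on with
    | zero => exact gen_zero (Γ := Γ) v ▸ one_mem S
    | succ i ih => exact gen_add (Γ := Γ) v _ _ ▸ mul_mem ih (e true)
    | pred i ih => exact (sub_eq_add_neg _ (1 : ℤ)).symm ▸ gen_add (Γ := Γ) v _ _ ▸ mul_mem ih (e false)
  change r ∈ S
  induction hr using Subgroup.closure_induction'' with
  | mem x hx =>
    obtain ⟨v, hv, l, rfl⟩ := hx
    exact k v hv l.toAdd
  | inv_mem x hx =>
    obtain ⟨v, hv, l, rfl⟩ := hx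
    exact gen_neg (Γ := Γ) v l.toAdd ▸ k v hv (-l.toAdd)
  | one => exact one_mem S
  | mul x y _ _ hx hy => exact mul_mem hx hy

lemma cent_occ {t : Ω} (ε : Bool) {w : List (Ω × Bool)} (hw : ∀ a ∈ w, a.1 ≠ t) (p : GP Γ Zm) :
    word_occ Γ t (w ++ [(t, ε)]) p = [(↑(p * ev Γ w), ε)] := by
  induction w generalizing p with
  | nil => simp [word_occ, ev]
  | cons a w ih =>
    rw [List.cons_append, word_occ, if_neg (hw a (by simp)), ih fun b hb => hw b (by simp [hb]),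
      word_cons, mul_assoc]

theorem mem_lk_of_conj {D : Set Ω} {t : Ω} (ht : t ∉ D) {r : GP Γ Zm} (hr : r ∈ PX Γ Zm D)
    (ε : Bool) (h : (gen Γ t (sgn ε))⁻¹ * r * gen Γ t (sgn ε) ∈ PX Γ Zm D) :
    r ∈ PX Γ Zm (Γ.neighborSet t ∩ D) := by
  refine mem_PX_inter ?_ hr
  obtain ⟨w, hw, rfl⟩ := cent_word hr
  have e : ev Γ ((t, !ε) :: (w ++ [(t, ε)])) =
      (gen Γ t (sgn ε))⁻¹ * ev Γ w * gen Γ t (sgn ε) := by
    rw [word_cons, cent_append, mul_assoc, ← gen_neg, word_cons]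
    cases ε <;> simp [sgn, ev]
  have h1 := word_free ht (e ▸ h)
  rw [word_occ, if_pos rfl, cent_occ ε fun a ha (b : a.1 = t) => ht (b ▸ hw a ha), one_mul] at h1
  have h2 : ((1 : GP Γ Zm) : GP Γ Zm ⧸ PX Γ Zm (Γ.neighborSet t)) = ↑(ev Γ w) := by
    generalize ((1 : GP Γ Zm) : GP Γ Zm ⧸ PX Γ Zm (Γ.neighborSet t)) = x at h1 ⊢
    generalize ((ev Γ w : GP Γ Zm) : GP Γ Zm ⧸ PX Γ Zm (Γ.neighborSet t)) = y at h1 ⊢
    cases ε
    · exact FreeGroup.of_injective (mul_inv_eq_one.1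
        (show FreeGroup.of x * (FreeGroup.of y)⁻¹ = 1 from h1))
    · exact FreeGroup.of_injective (inv_mul_eq_one.1
        (show (FreeGroup.of x)⁻¹ * FreeGroup.of y = 1 from h1))
  rwa [QuotientGroup.eq, inv_one, one_mul] at h2

end Pool.Agent.Lib.MP_19b52f_al.XL
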