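import Pool.Agent.Lib.MP_19b52f_al.XL.Obj

/-! Classes of the first kind: moves and carried removals. -/

namespace Pool.Agent.Lib.MP_19b52f_al.XL

open Pool.Agent.Lib.MP_19b52f_al.EA Pool.Agent.Lib.MP_19b52f_al.EA2

variable {S : Type} {M : CoxeterMatrix S} {s t : S} {I J : Set S}

lemma FI_mono (h : I ⊆ J) : FI M I ≤ FI M J := Subgroup.closure_mono (Set.image_mono h)

lemma sq_mem_FI (h : s ∈ I) : ag M s * ag M s ∈ FI M I := Subgroup.subset_closure ⟨s, h, rfl⟩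

lemma mem_FI_single {g : Artin M} (h : g ∈ FI M {s}) : ∃ k : ℤ, g = (ag M s * ag M s) ^ k := by
  rw [FI, Set.image_singleton, Subgroup.mem_closure_singleton] at h
  exact h.imp fun _ e => e.symm

namespace GS
variable {G : GS M} {x : G.Φ} {o o' : G.Φ × Set G.V} {g q : Artin M}

lemma mem_obA (r : S) : x • G.ξ r ∈ (G.obA x I).2 ↔ r ∈ I :=
  ⟨fun ⟨_, hu, e⟩ => obja_inj e ▸ hu, fun h => ⟨r, h, rfl⟩⟩

lemma mem_mv_obA (hI : Clq M I) (hs : s ∈ I) (r : S) :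
    (G.mv (G.obA x I) s).1 • G.ξ r ∈ (G.mv (G.obA x I) s).2 ↔ r = s := by
  refine ⟨?_, fun e => e ▸ mem_mv _ _⟩
  rintro (e | ⟨⟨u, hu, e⟩, hn⟩)
  · exact obja_inj (x := x * G.θ (ag M s)) (e.trans (mul_smul _ _ _).symm)
  · have e' : x • G.ξ u = (x * G.θ (ag M s)) • G.ξ r := e
    have hl : Lk M s u := hI s hs u hu fun c => hn (by
      show (x * G.θ (ag M s)) • G.ξ r = x • G.ξ s
      rw [← e', c])
    rw [← obja_sq' x s (G.ξ u)] at e'
    exact absurd (smul_left_cancel _ e').symm (G.ξ_ne r s u hl)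

lemma vx_FI (hI : Clq M I) (hg : g ∈ FI M I) : G.Vx (G.obA x I) g (G.obA x I) := by
  have ok := ok_obA (G := G) x hI
  induction hg using Subgroup.closure_induction with
  | mem _ h =>
    obtain ⟨r, hr, rfl⟩ := h
    have k := ((Vx.refl ok).step r ((mem_obA r).2 hr)).step r (mem_mv _ r)
    rwa [mv_mv ok ((mem_obA r).2 hr), one_mul] at k
  | one => exact .refl ok
  | mul _ _ _ _ h1 h2 => exact h1.mul h2
  | inv _ _ h1 => exact h1.inv

lemma InA.vx (hI : Clq M I) (h : G.InA x I o g) : G.Vx (G.obA x I) g o := by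
  rcases h with ⟨h, rfl⟩ | ⟨r, hr, h, rfl⟩
  · exact vx_FI hI h
  · have k := (vx_FI (G := G) (x := x) hI h).step r ((mem_obA r).2 hr)
    rwa [inv_mul_cancel_right] at k

lemma InA.of_vx (hI : Clq M I) (h : G.InA x I o g) (h1 : G.Vx o q o') :
    G.InA x I o' (g * q) := by
  have ok := ok_obA (G := G) x hI
  induction h1 with
  | refl _ => rwa [mul_one]
  | step r _ hs ih =>
    rcases ih with ⟨k, rfl⟩ | ⟨u, hu, k, rfl⟩
    · exact Or.inr ⟨r, (mem_obA r).1 hs, by rwa [← mul_assoc, mul_inv_cancel_right], rfl⟩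
    · obtain rfl := (mem_mv_obA hI hu r).1 hs
      refine Or.inl ⟨?_, mv_mv ok ((mem_obA r).2 hu)⟩
      have := mul_mem k (sq_mem_FI hu)
      rwa [← mul_assoc, inv_mul_cancel_right, mul_assoc] at this
  | back r _ hs ih =>
    rcases ih with ⟨k, rfl⟩ | ⟨u, hu, k, rfl⟩
    · refine Or.inr ⟨r, (mem_obA r).1 hs, ?_, rfl⟩
      have := mul_mem k (inv_mem (sq_mem_FI ((mem_obA r).1 hs)))
      rwa [mul_inv_rev, ← mul_assoc, mul_assoc g] at this
    · obtain rfl := (mem_mv_obA hI hu r).1 hs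
      exact Or.inl ⟨by rwa [← mul_assoc], mv_mv ok ((mem_obA r).2 hu)⟩

lemma cla_car (hI : Clq M I) (hs : s ∈ I) (ht : t ∈ I) (h : s ≠ t) :
    G.Car (G.obA x I) (x • G.ξ t) false (ag M s) (G.mv (G.obA x I) s) :=
  ((fv_remove (ok_obA x hI) ((mem_obA t).2 ht)).car_step ((mem_obA s).2 hs)
    fun e => h (obja_inj e).symm).1

lemma car_FI (hI : Clq M I) (hs : s ∈ I) (hg : g ∈ FI M (I \ {s})) :
    G.Car (G.obA x I) (x • G.ξ s) false g (G.obA x I) := by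
  have ok := ok_obA (G := G) x hI
  induction hg using Subgroup.closure_induction with
  | mem _ h =>
    obtain ⟨r, ⟨hr, hn⟩, rfl⟩ := h
    have k1 := cla_car (G := G) (x := x) hI hr hs hn
    obtain ⟨z, z', -, k2, -⟩ := k1.2
    have k3 := (k2.car_step (mem_mv _ r) fun e => by
      have e' : x • G.ξ s = x • G.θ (ag M r) • G.ξ r := e.trans (mul_smul _ _ _)
      exact (G.far_self r).2 (smul_left_cancel _ e' ▸ (G.cm_ξξ r s).2 (hI r hr s hs hn))).1
    rw [mv_mv ok ((mem_obA r).2 hr)] at k3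
    exact k1.mul k3
  | one => exact (fv_remove ok ((mem_obA s).2 hs)).car
  | mul _ _ _ _ h1 h2 => exact h1.mul h2
  | inv _ _ h1 => exact h1.inv

lemma car_mv_obA (hI : Clq M I) (hs : s ∈ I) (ht : t ∈ I) (h : s ≠ t) :
    G.Car (G.obA x I) (x • G.ξ t) false (ag M s) (G.mv (G.obA x I) s) :=
  cla_car hI hs ht h

/-- Every removal in the class is carried from one of two standard removals. -/
lemma InA.std (hI : Clq M I) (h : G.InA x I o g) {v : G.V} (hv : v ∈ o.2) :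
    ∃ g1, ∃ s ∈ I, (v = x • G.ξ s ∧ G.Car (G.obA x I) v false g1 o ∧ g * g1⁻¹ ∈ FI M I) ∨
      (v = x • G.θ (ag M s) • G.ξ s ∧ o = G.mv (G.obA x I) s ∧ g * (ag M s)⁻¹ ∈ FI M I) := by
  rcases h with ⟨h, rfl⟩ | ⟨r, hr, h, rfl⟩
  · obtain ⟨u, hu, rfl⟩ := hv
    exact ⟨1, u, hu, Or.inl ⟨rfl, (fv_remove (ok_obA x hI) ((mem_obA u).2 hu)).car,
      by rwa [inv_one, mul_one]⟩⟩
  · rcases hv with rfl | ⟨⟨u, hu, rfl⟩, hn⟩
    · exact ⟨1, r, hr, Or.inr ⟨rfl, rfl, h⟩⟩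
    · exact ⟨ag M r, u, hu, Or.inl ⟨rfl, car_mv_obA hI hr hu fun e => hn (by rw [e]; rfl), h⟩⟩

end GS

end Pool.Agent.Lib.MP_19b52f_al.XL
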