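import Pool.Agent.Lib.MP_19b52f_al.XL.Obj

/-! Classes of the second kind: moves and carried removals. -/

namespace Pool.Agent.Lib.MP_19b52f_al.XL

open Pool.Agent.Lib.MP_19b52f_al.EA Pool.Agent.Lib.MP_19b52f_al.EA2

variable {S : Type} {M : CoxeterMatrix S} {s t : S}

namespace GS
variable {G : GS M} {x : G.Φ} {o o' : G.Φ × Set G.V} {g q : Artin M}

lemma clb_letter (h : Lk M s t) {j : ℤ} {r : S}
    (hr : (G.obB x s t j).1 • G.ξ r ∈ (G.obB x s t j).2) : r = lt s t (j + 1) ∨ r = lt s t j := by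
  have := (mem_obB h x j r).1 hr
  rcases lt_cases s t j with ⟨h1, h2⟩ | ⟨h1, h2⟩ <;> rw [h1, h2]
  exacts [this, this.symm]

lemma clb_mem (h : Lk M s t) (j k : ℤ) :
    (G.obB x s t j).1 • G.ξ (lt s t k) ∈ (G.obB x s t j).2 := by
  rw [mem_obB h]
  rcases lt_cases s t k with ⟨h1, -⟩ | ⟨h1, -⟩
  exacts [Or.inr h1, Or.inl h1]

lemma clb_fv (h : Lk M s t) (l : ℤ) : ∃ z, G.Fv (G.obB x s t l) (G.bt x s t l) false z :=
  ⟨_, fv_remove (ok_obB h x l) (Or.inr (Or.inl rfl))⟩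

lemma clb_ne_succ (h : Lk M s t) (l : ℤ) :
    G.bt x s t l ≠ (G.obB x s t l).1 • G.ξ (lt s t (l + 1)) := fun e =>
  obja_bt h x (k := l) (l := l - 1) (by omega) (by omega) (by omega) (e.trans (G.bt_pred x h l))

lemma clb_ne_pred (h : Lk M s t) (l : ℤ) :
    G.bt x s t l ≠ (G.obB x s t l).1 • G.ξ (lt s t l) := fun e =>
  obja_bt h x (k := l) (l := l + 1) (by omega) (by omega) (by omega) (e.trans (G.bt_succ x h l))

lemma clb_sq {v : G.V} {ε : Bool} {z : G.Φ × Set G.V} {r : S} (h : G.Fv o v ε z)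
    (hs : o.1 • G.ξ r ∈ o.2) (hv : v ≠ o.1 • G.ξ r) : G.Car o v ε (ag M r * ag M r) o := by
  have k := (h.car_step hs hv).1.mul (h.car_step hs hv).2.inv
  rwa [inv_inv] at k

lemma clb_idx {i : ℤ} {v : G.V} (hv : v ∈ (G.obB x s t i).2) :
    ∃ l, l - 1 ≤ i ∧ i ≤ l + 1 ∧ v = G.bt x s t l := by
  rcases hv with e | e | e
  exacts [⟨i - 1, by omega, by omega, e⟩, ⟨i, by omega, by omega, e⟩,
    ⟨i + 1, by omega, by omega, e⟩]

lemma InB.of_vx (h : Lk M s t) (h0 : G.InB x s t o g) (h1 : G.Vx o q o') :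
    G.InB x s t o' (g * q) := by
  induction h1 with
  | refl _ => rwa [mul_one]
  | @step q o' r _ hs ih =>
    obtain ⟨j, hj, rfl⟩ := ih
    rcases clb_letter h hs with rfl | rfl
    · refine ⟨j + 1, ?_, mv_obB_succ h x j⟩
      rw [W_succ, ag_lt]
      simpa [mul_assoc] using hj
    · refine ⟨j - 1, ?_, mv_obB_pred h x j⟩
      have e : g * (q * ag M (lt s t j)) * (W (ag M s) (ag M t) (j - 1))⁻¹ =
          g * q * (W (ag M s) (ag M t) j)⁻¹ * Mj (ag M s) (ag M t) j := by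
        rw [ag_lt, Mj, dih_W_pred _ _ j]
        group
      rw [e]
      exact mul_mem hj (dih_Mj_mem _ _ _ j)
  | @back q o' r _ hs ih =>
    obtain ⟨j, hj, rfl⟩ := ih
    rcases clb_letter h hs with rfl | rfl
    · refine ⟨j + 1, ?_, mv_obB_succ h x j⟩
      have e : g * (q * (ag M (lt s t (j + 1)))⁻¹) * (W (ag M s) (ag M t) (j + 1))⁻¹ =
          g * q * (W (ag M s) (ag M t) j)⁻¹ * (Mj (ag M s) (ag M t) (j + 1))⁻¹ := by
        rw [ag_lt, Mj, W_succ, add_sub_cancel_right]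
        group
      rw [e]
      exact mul_mem hj (inv_mem (dih_Mj_mem _ _ _ _))
    · refine ⟨j - 1, ?_, mv_obB_pred h x j⟩
      rw [dih_W_pred _ _ j, ← ag_lt] at hj
      simpa [mul_assoc] using hj

lemma obB_inj (h : Lk M s t) {i j : ℤ} (e : G.obB x s t i = G.obB x s t j) :
    2 * (M s t : ℤ) ∣ i - j := by
  have e1 : G.ch x s t i = G.ch x s t j := congrArg Prod.fst e
  rw [← G.bt_eq_iff x h, bt, bt, e1]

lemma exists_obB (h : Lk M s t) (h1 : G.Vx (G.obB x s t 0) q o') : ∃ j, o' = G.obB x s t j := by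
  obtain ⟨j, -, e⟩ := InB.of_vx (g := 1) h ⟨0, by simp, rfl⟩ h1
  exact ⟨j, e⟩

lemma mem_Pe_of_vx (h : Lk M s t) (h1 : G.Vx (G.obB x s t 0) q (G.obB x s t 0)) :
    q ∈ Pe (ag M s) (ag M t) (M s t) := by
  obtain ⟨j, hj, e⟩ := InB.of_vx (g := 1) h ⟨0, by simp, rfl⟩ h1
  simpa using mul_mem hj (W_congr h.braid (obB_inj h e.symm))

lemma car_W (h : Lk M s t) {l i : ℤ} (h1 : l - 1 ≤ i) (h2 : i ≤ l + 1) :
    G.Car (G.obB x s t l) (G.bt x s t l) false
      ((W (ag M s) (ag M t) l)⁻¹ * W (ag M s) (ag M t) i) (G.obB x s t i) := by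
  obtain ⟨z, hz⟩ := clb_fv (G := G) (x := x) h l
  obtain rfl | rfl | rfl : i = l - 1 ∨ i = l ∨ i = l + 1 := by omega
  · rw [dih_W_pred _ _ l, mul_inv_rev, inv_mul_cancel_right, ← ag_lt, ← mv_obB_pred h]
    exact (hz.car_step (clb_mem h _ _) (clb_ne_pred h l)).2
  · rw [inv_mul_cancel]
    exact hz.car
  · rw [W_succ, inv_mul_cancel_left, ← ag_lt, ← mv_obB_succ h]
    exact (hz.car_step (clb_mem h _ _) (clb_ne_succ h l)).1

lemma car_Hl (h : Lk M s t) {l : ℤ} (hg : g ∈ Hl (ag M s) (ag M t) l) :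
    G.Car (G.obB x s t l) (G.bt x s t l) false
      ((W (ag M s) (ag M t) l)⁻¹ * g * W (ag M s) (ag M t) l) (G.obB x s t l) := by
  obtain ⟨z, hz⟩ := clb_fv (G := G) (x := x) h l
  induction hg using Subgroup.closure_induction with
  | mem g hg =>
    rcases hg with rfl | rfl
    · have e : (W (ag M s) (ag M t) l)⁻¹ * Mj (ag M s) (ag M t) l * W (ag M s) (ag M t) l =
          ag M (lt s t l) * ag M (lt s t l) := by
        rw [ag_lt, Mj, dih_W_pred _ _ l]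
        group
      rw [e]
      exact clb_sq hz (clb_mem h _ _) (clb_ne_pred h l)
    · have e : (W (ag M s) (ag M t) l)⁻¹ * Mj (ag M s) (ag M t) (l + 1) * W (ag M s) (ag M t) l =
          ag M (lt s t (l + 1)) * ag M (lt s t (l + 1)) := by
        rw [ag_lt, Mj, add_sub_cancel_right]
        group
      rw [e]
      exact clb_sq hz (clb_mem h _ _) (clb_ne_succ h l)
  | one =>
    rw [mul_one, inv_mul_cancel]
    exact hz.car
  | mul a b _ _ ha hb =>
    have k := ha.mul hb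
    rwa [mul_assoc, mul_assoc _ b, mul_inv_cancel_left, ← mul_assoc, mul_assoc _ a] at k
  | inv a _ ha =>
    have k := ha.inv
    rwa [mul_inv_rev, mul_inv_rev, inv_inv, ← mul_assoc] at k

lemma car_zero (h : Lk M s t) {l : ℤ} (h1 : -1 ≤ l) (h2 : l ≤ 1)
    (hg : g ∈ Hl (ag M s) (ag M t) l) :
    G.Car (G.obB x s t 0) (G.bt x s t l) false g (G.obB x s t 0) := by
  have k0 := car_W (G := G) (x := x) h (l := l) (i := 0) (by omega) (by omega)
  simpa [mul_assoc] using (k0.inv.mul (car_Hl h hg)).mul k0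

/-- Two removals of equal or commuting walls are carried to a common chamber. -/
lemma exists_common (h : Lk M s t) {i j : ℤ} {v w : G.V} (hv : v ∈ (G.obB x s t i).2)
    (hw : w ∈ (G.obB x s t j).2) (hvw : v = w ∨ G.cm v w) :
    ∃ x' s' t' l l' g1 g2, Lk M s' t' ∧ -1 ≤ l ∧ l ≤ 1 ∧ -1 ≤ l' ∧ l' ≤ 1 ∧
      v = G.bt x' s' t' l ∧ w = G.bt x' s' t' l' ∧
      G.Car (G.obB x' s' t' 0) v false g1 (G.obB x s t i) ∧
      G.Car (G.obB x s t j) w false g2 (G.obB x' s' t' 0) := by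
  obtain ⟨l0, a1, a2, rfl⟩ := clb_idx hv
  obtain ⟨l1, b1, b2, rfl⟩ := clb_idx hw
  obtain ⟨d, d1, d2, hd⟩ : ∃ d : ℤ, -2 ≤ d ∧ d ≤ 2 ∧ 2 * (M s t : ℤ) ∣ l1 - l0 - d := by
    rcases hvw with e | e
    · exact ⟨0, by omega, by omega, by rw [sub_zero]; exact (G.bt_eq_iff x h _ _).1 e.symm⟩
    · exact G.bt_cm x h e
  rw [sub_sub] at hd
  obtain ⟨c, c1, c2, c3, c4⟩ : ∃ c, l0 - 1 ≤ c ∧ c ≤ l0 + 1 ∧ l0 + d - 1 ≤ c ∧ c ≤ l0 + d + 1 :=
    ⟨l0 + d / 2, by omega, by omega, by omega, by omega⟩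
  have e1 := (G.bt_eq_iff x h _ _).2 hd
  have k1 := (car_W (G := G) (x := x) h c1 c2).inv.mul (car_W h a1 a2)
  have k2 := car_W (G := G) (x := x) h c3 c4
  rw [← e1, ← G.obB_congr x h hd] at k2
  have k3 := (car_W (G := G) (x := x) h b1 b2).inv.mul k2
  have e0 : G.obB x s t c = G.obB (G.ch x s t c) (lt s t (c + 1)) (lt s t c) 0 := by
    rw [G.obB_shift x h, add_zero]
  rw [e0] at k1 k3
  refine ⟨_, _, _, l0 - c, l0 + d - c, _, _, h.lt c, by omega, by omega, by omega, by omega,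
    ?_, ?_, k1, k3⟩
  · rw [G.bt_shift x h, add_sub_cancel]
  · rw [G.bt_shift x h, add_sub_cancel, e1]

end GS

end Pool.Agent.Lib.MP_19b52f_al.XL
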