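import Pool.Agent.Lib.MP_19b52f_al.XL.Cell

/-! Points, moves and flips. -/

namespace Pool.Agent.Lib.MP_19b52f_al.XL

open Pool.Agent.Lib.MP_19b52f_al.EA Pool.Agent.Lib.MP_19b52f_al.EA2

variable {S : Type} {M : CoxeterMatrix S} {s t : S}

namespace GS
variable {G : GS M} {o o' o'' z z' : G.Φ × Set G.V} {g h : Artin M} {v w : G.V} {ε ε' : Bool}

lemma near_of_cm {x : G.Φ} (hv : ∃ w ∈ G.Nb, v = x • w) (hc : G.cm (x • G.ξ s) v) :
    ∃ t, Lk M s t ∧ (v = x • G.ξ t ∨ v = x • G.mu s t) := by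
  obtain ⟨w, hw, rfl⟩ := hv
  rw [cm_iff] at hc
  rcases hw with ⟨t, rfl⟩ | ⟨a, b, hab, rfl⟩
  · exact ⟨t, (G.cm_ξξ s t).1 hc, Or.inl rfl⟩
  · rcases (G.cm_ξμ s a b hab).1 hc with rfl | rfl
    · exact ⟨b, hab, Or.inr rfl⟩
    · exact ⟨a, hab.symm, Or.inr (by rw [G.mu_swap hab])⟩

lemma obja_sq (x : G.Φ) (s : S) : x * G.θ (ag M s) * G.θ (ag M s) = x := by
  rw [mul_assoc, G.sq, mul_one]

lemma obja_sq' (x : G.Φ) (s : S) (v : G.V) : (x * G.θ (ag M s)) • G.θ (ag M s) • v = x • v := by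
  rw [← mul_smul, obja_sq]

lemma obja_inj {x : G.Φ} (h : x • G.ξ s = x • G.ξ t) : s = t :=
  G.ξ_inj s t (smul_left_cancel x h)

lemma obja_ne {x : G.Φ} (h : Lk M s t) (r : S) : x • G.ξ r ≠ x • G.mu s t :=
  fun e => G.ξ_ne r s t h (smul_left_cancel x e)

lemma obja_near (h : G.Ok o) (hs : o.1 • G.ξ s ∈ o.2) (hv : v ∈ o.2) (hn : v ≠ o.1 • G.ξ s) :
    ∃ t, Lk M s t ∧ (v = o.1 • G.ξ t ∨ v = o.1 • G.mu s t) :=
  near_of_cm (h.1 v hv) (h.2 _ hs v hv hn.symm)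

lemma obja_flip (h : G.Ok o) (hs : o.1 • G.ξ s ∈ o.2) (hv : v ∈ o.2) (hn : v ≠ o.1 • G.ξ s) :
    (∃ w ∈ G.Nb, v = (o.1 * G.θ (ag M s)) • w) ∧ G.cm (o.1 • G.θ (ag M s) • G.ξ s) v := by
  obtain ⟨t, ht, rfl | rfl⟩ := obja_near h hs hv hn
  · refine ⟨⟨G.mu s t, Or.inr ⟨s, t, ht, rfl⟩, (obja_sq' _ _ _).symm⟩, ?_⟩
    rw [← obja_sq' o.1 s (G.ξ t), ← mul_smul o.1, cm_iff]
    exact (G.cm_ξμ s s t ht).2 (Or.inl rfl)
  · refine ⟨⟨G.ξ t, Or.inl ⟨t, rfl⟩, (mul_smul _ _ _).symm⟩, ?_⟩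
    rw [mu, cm_iff, cm_iff]
    exact (G.cm_ξξ s t).2 ht

lemma obja_two (h : G.Ok o) {r : S} (ht : Lk M s t) (hm : o.1 • G.mu s t ∈ o.2)
    (hr : o.1 • G.ξ r ∈ o.2) : r = s ∨ r = t :=
  (G.cm_ξμ r s t ht).1 ((G.cm_iff _ _ _).1 (h.2 _ hr _ hm (obja_ne ht r)))

lemma obja_obB (h : Lk M s t) (x : G.Φ) (j : ℤ) : G.obB x s t j = (G.ch x s t j,
    {G.ch x s t j • G.ξ (lt s t (j + 1)), G.ch x s t j • G.mu (lt s t (j + 1)) (lt s t j),
      G.ch x s t j • G.ξ (lt s t j)}) := by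
  rw [G.bt_pred x h, G.bt_succ x h, G.mu_lt h]
  rfl

lemma obja_bt (h : Lk M s t) (x : G.Φ) {k l : ℤ} (h1 : k ≠ l) (h2 : k - l ≤ 2) (h3 : l - k ≤ 2) :
    G.bt x s t k ≠ G.bt x s t l := by
  have : (7 : ℤ) ≤ M s t := by exact_mod_cast G.seven s t h
  rw [Ne, G.bt_eq_iff x h]
  exact seq_nd (by omega) (by omega)

lemma Ok.mv (h : G.Ok o) (hs : o.1 • G.ξ s ∈ o.2) : G.Ok (G.mv o s) := by
  constructor
  · rintro v (rfl | ⟨hv, hn⟩)
    · exact ⟨G.ξ s, Or.inl ⟨s, rfl⟩, (mul_smul _ _ _).symm⟩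
    · exact (obja_flip h hs hv hn).1
  · rintro v (rfl | ⟨hv, hn⟩) w (rfl | ⟨hw, hm⟩) e
    · exact absurd rfl e
    · exact (obja_flip h hs hw hm).2
    · exact G.cm_symm _ _ (obja_flip h hs hv hn).2
    · exact h.2 v hv w hw e

lemma mem_mv (o : G.Φ × Set G.V) (s : S) : (G.mv o s).1 • G.ξ s ∈ (G.mv o s).2 :=
  Or.inl (mul_smul _ _ _)

lemma mv_mv (h : G.Ok o) (hs : o.1 • G.ξ s ∈ o.2) : G.mv (G.mv o s) s = o := by
  have hn : o.1 • G.θ (ag M s) • G.ξ s ∉ o.2 := fun e =>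
    (G.far_self s).2 ((G.cm_iff _ _ _).1
      (h.2 _ hs _ e fun e' => (G.far_self s).1 (smul_left_cancel _ e')))
  refine Prod.ext (obja_sq _ _) ?_
  simp only [mv]
  rw [obja_sq', mul_smul, Set.insert_sdiff_self_of_notMem fun e => hn e.1,
    Set.insert_sdiff_singleton, Set.insert_eq_of_mem hs]

lemma ok_empty (x : G.Φ) : G.Ok (x, ∅) :=
  ⟨fun _ hv => hv.elim, fun _ hv => hv.elim⟩

lemma ok_obA (x : G.Φ) {I : Set S} (hI : Clq M I) : G.Ok (G.obA x I) := by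
  constructor
  · rintro _ ⟨r, -, rfl⟩
    exact ⟨G.ξ r, Or.inl ⟨r, rfl⟩, rfl⟩
  · rintro _ ⟨r, hr, rfl⟩ _ ⟨r', hr', rfl⟩ e
    exact G.cm_smul _ _ _ ((G.cm_ξξ r r').2 (hI r hr r' hr' fun e' => e (by rw [e'])))

lemma ok_obB (h : Lk M s t) (x : G.Φ) (j : ℤ) : G.Ok (G.obB x s t j) := by
  have h1 := h.lt j
  have c1 := G.cm_smul (G.ch x s t j) _ _ ((G.cm_ξξ _ _).2 h1)
  have c2 := G.cm_smul (G.ch x s t j) _ _ ((G.cm_ξμ _ _ _ h1).2 (Or.inl rfl))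
  have c3 := G.cm_smul (G.ch x s t j) _ _ ((G.cm_ξμ _ _ _ h1).2 (Or.inr rfl))
  rw [obja_obB h]
  constructor
  · rintro v (rfl | rfl | rfl)
    · exact ⟨_, Or.inl ⟨_, rfl⟩, rfl⟩
    · exact ⟨_, Or.inr ⟨_, _, h1, rfl⟩, rfl⟩
    · exact ⟨_, Or.inl ⟨_, rfl⟩, rfl⟩
  · rintro v (rfl | rfl | rfl) w (rfl | rfl | rfl) e
    exacts [absurd rfl e, c2, c1, G.cm_symm _ _ c2, absurd rfl e, G.cm_symm _ _ c3,
      G.cm_symm _ _ c1, c3, absurd rfl e]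

lemma mv_obB_succ (h : Lk M s t) (x : G.Φ) (j : ℤ) :
    G.mv (G.obB x s t j) (lt s t (j + 1)) = G.obB x s t (j + 1) := by
  refine Prod.ext (G.ch_succ x s t j).symm ?_
  have n1 := obja_bt h x (k := j) (l := j - 1) (by omega) (by omega) (by omega)
  have n2 := obja_bt h x (k := j + 1) (l := j - 1) (by omega) (by omega) (by omega)
  simp only [mv, obB]
  rw [← mul_smul, ← G.ch_succ, G.bt_succ x h, G.bt_pred x h, add_sub_cancel_right,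
    Set.insert_sdiff_self_of_notMem (by rintro (e | e); exacts [n1 e.symm, n2 e.symm])]
  ext v
  simp only [Set.mem_insert_iff, Set.mem_singleton_iff]
  tauto

lemma mv_obB_pred (h : Lk M s t) (x : G.Φ) (j : ℤ) :
    G.mv (G.obB x s t j) (lt s t j) = G.obB x s t (j - 1) := by
  refine Prod.ext (G.ch_back x s t j) ?_
  have n1 := obja_bt h x (k := j) (l := j + 1) (by omega) (by omega) (by omega)
  have n2 := obja_bt h x (k := j - 1) (l := j + 1) (by omega) (by omega) (by omega)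
  have e := G.bt_pred x h (j - 1)
  rw [sub_add_cancel] at e
  simp only [mv, obB]
  rw [← mul_smul, G.ch_back, e, G.bt_succ x h, sub_add_cancel]
  ext v
  simp only [Set.mem_insert_iff, Set.mem_singleton_iff, Set.mem_sdiff]
  constructor
  · tauto
  · rintro (rfl | rfl | rfl) <;> tauto

lemma mem_obB (h : Lk M s t) (x : G.Φ) (j : ℤ) (r : S) :
    (G.obB x s t j).1 • G.ξ r ∈ (G.obB x s t j).2 ↔ r = s ∨ r = t := by
  rw [obja_obB h]
  have key : G.ch x s t j • G.ξ r ∈ ({G.ch x s t j • G.ξ (lt s t (j + 1)),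
      G.ch x s t j • G.mu (lt s t (j + 1)) (lt s t j), G.ch x s t j • G.ξ (lt s t j)} : Set G.V) ↔
      r = lt s t (j + 1) ∨ r = lt s t j := by
    constructor
    · rintro (e | e | e)
      exacts [Or.inl (obja_inj e), absurd e (obja_ne (h.lt j) r), Or.inr (obja_inj e)]
    · rintro (rfl | rfl)
      exacts [Or.inl rfl, Or.inr (Or.inr rfl)]
  refine key.trans ?_
  rcases lt_cases s t j with ⟨h1, h2⟩ | ⟨h1, h2⟩ <;> rw [h1, h2]
  exact or_comm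

lemma Vx.ok (h : G.Vx o g o') : G.Ok o ∧ G.Ok o' := by
  induction h with
  | refl h => exact ⟨h, h⟩
  | step s _ hs ih => exact ⟨ih.1, ih.2.mv hs⟩
  | back s _ hs ih => exact ⟨ih.1, ih.2.mv hs⟩

lemma Vx.mul (h1 : G.Vx o g o') (h2 : G.Vx o' h o'') : G.Vx o (g * h) o'' := by
  induction h2 with
  | refl _ => rwa [mul_one]
  | step s _ hs ih => exact mul_assoc g _ _ ▸ ih.step s hs
  | back s _ hs ih => exact mul_assoc g _ _ ▸ ih.back s hs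

lemma Vx.inv (h1 : G.Vx o g o') : G.Vx o' g⁻¹ o := by
  induction h1 with
  | refl h => exact inv_one (G := Artin M) ▸ .refl h
  | step s h hs ih =>
    have k := (Vx.refl (h.ok.2.mv hs)).back s (mem_mv _ s)
    rw [mv_mv h.ok.2 hs, one_mul] at k
    exact mul_inv_rev _ (ag M s) ▸ k.mul ih
  | back s h hs ih =>
    have k := (Vx.refl (h.ok.2.mv hs)).step s (mem_mv _ s)
    rw [mv_mv h.ok.2 hs, one_mul] at k
    rw [mul_inv_rev, inv_inv]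
    exact k.mul ih

lemma Vx.fst (h1 : G.Vx o g o') : o.1 * G.θ g = o'.1 := by
  induction h1 with
  | refl _ => rw [map_one, mul_one]
  | step s _ _ ih => rw [map_mul, ← mul_assoc, ih, mv]
  | back s _ _ ih => rw [map_mul, ← mul_assoc, ih, θ_inv, mv]

lemma Vx.rigid (h1 : G.Vx o g o') (h0 : ∀ s, o.1 • G.ξ s ∉ o.2) : g = 1 ∧ o' = o := by
  induction h1 with
  | refl _ => exact ⟨rfl, rfl⟩
  | step s _ hs ih => exact absurd (ih.2 ▸ hs) (h0 s)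
  | back s _ hs ih => exact absurd (ih.2 ▸ hs) (h0 s)

lemma obj_fv_iff : G.Fv o v ε z ↔ z.1 = o.1 ∧ G.Ok o ∧ G.Ok z ∧ (v ∈ o.2 ↔ ε = false) ∧
    (v ∈ z.2 ↔ ε = true) ∧ ∀ u, u ≠ v → (u ∈ z.2 ↔ u ∈ o.2) := by
  refine and_congr_right' (and_congr_right' (and_congr_right' ⟨?_, fun ⟨h1, h2, h3⟩ => ?_⟩))
  · rintro (⟨rfl, h1, h2⟩ | ⟨rfl, h1, h2⟩)
    · exact ⟨by simp [h1], by simp [h2], fun u hu => by simp [h2, hu]⟩
    · exact ⟨by simp [h2], by simp [h1], fun u hu => by simp [h2, hu]⟩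
  · cases ε
    · refine .inr ⟨rfl, by simp [h2], Set.ext fun u => ?_⟩
      by_cases hu : u = v
      · simp [hu, h1]
      · simp [hu, h3 u hu]
    · refine .inl ⟨rfl, by simp [h1], Set.ext fun u => ?_⟩
      by_cases hu : u = v
      · simp [hu, h2]
      · simp [hu, h3 u hu]

lemma Fv.symm (h : G.Fv o v ε z) : G.Fv z v (!ε) o := by
  obtain ⟨h1, h2, h3, h4, h5, h6⟩ := obj_fv_iff.1 h
  exact obj_fv_iff.2 ⟨h1.symm, h3, h2, by simp [h5], by simp [h4], fun u hu => (h6 u hu).symm⟩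

lemma Fv.unique (h : G.Fv o v ε z) (h' : G.Fv o v ε z') : z = z' := by
  obtain ⟨h1, -, -, -, h5, h6⟩ := obj_fv_iff.1 h
  obtain ⟨k1, -, -, -, k5, k6⟩ := obj_fv_iff.1 h'
  refine Prod.ext (h1.trans k1.symm) (Set.ext fun u => ?_)
  by_cases hu : u = v
  · rw [hu, h5, k5]
  · rw [h6 u hu, k6 u hu]

lemma fv_remove (h : G.Ok o) (hv : v ∈ o.2) : G.Fv o v false (o.1, o.2 \ {v}) :=
  obj_fv_iff.2 ⟨rfl, h, ⟨fun u hu => h.1 u hu.1, fun u hu w hw => h.2 u hu.1 w hw.1⟩, by simp [hv],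
    by simp, fun u hu => by simp [hu]⟩

lemma Fv.square (h : G.Fv o v ε z) (h' : G.Fv o w ε' z') (hc : G.cm v w) :
    ∃ y, G.Fv z w ε' y ∧ G.Fv z' v ε y := by
  obtain ⟨h1, -, h3, h4, h5, h6⟩ := obj_fv_iff.1 h
  obtain ⟨k1, -, k3, k4, k5, k6⟩ := obj_fv_iff.1 h'
  have hn : v ≠ w := fun e => G.cm_irrefl v (e ▸ hc)
  have ok : G.Ok (o.1, {u | (u ≠ w → u ∈ z.2) ∧ (u ≠ v → u ∈ z'.2)}) := by
    refine ⟨fun u hu => ?_, fun u hu u' hu' hne => ?_⟩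
    · by_cases e : u = w
      · exact k1 ▸ k3.1 u (hu.2 (e ▸ hn.symm))
      · exact h1 ▸ h3.1 u (hu.1 e)
    · by_cases e : u ≠ w ∧ u' ≠ w
      · exact h3.2 u (hu.1 e.1) u' (hu'.1 e.2) hne
      by_cases e' : u ≠ v ∧ u' ≠ v
      · exact k3.2 u (hu.2 e'.1) u' (hu'.2 e'.2) hne
      rw [not_and_or, not_not, not_not] at e e'
      rcases e with rfl | rfl <;> rcases e' with rfl | rfl
      exacts [absurd rfl hn, G.cm_symm _ _ hc, hc, absurd rfl hn]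
  refine ⟨(o.1, {u | (u ≠ w → u ∈ z.2) ∧ (u ≠ v → u ∈ z'.2)}),
    obj_fv_iff.2 ⟨h1.symm, h3, ok, (h6 w hn.symm).trans k4, ?_, fun u hu => ?_⟩,
    obj_fv_iff.2 ⟨k1.symm, k3, ok, (k6 v hn).trans h4, ?_, fun u hu => ?_⟩⟩
  · simp [hn.symm, k5]
  · exact ⟨fun e => e.1 hu, fun e => ⟨fun _ => e, fun d => (k6 u hu).2 ((h6 u d).1 e)⟩⟩
  · simp [hn, h5]
  · exact ⟨fun e => e.2 hu, fun e => ⟨fun d => (h6 u hu).2 ((k6 u d).1 e), fun _ => e⟩⟩

lemma Fv.car (h : G.Fv o v ε z) : G.Car o v ε 1 o :=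
  ⟨.refl h.2.1, z, z, h, h, .refl h.2.2.1⟩

lemma Car.mul (h1 : G.Car o v ε g o') (h2 : G.Car o' v ε h o'') : G.Car o v ε (g * h) o'' := by
  obtain ⟨a1, y, y', a2, a3, a4⟩ := h1
  obtain ⟨b1, z, z', b2, b3, b4⟩ := h2
  exact ⟨a1.mul b1, y, z', a2, b3, a4.mul (b2.unique a3 ▸ b4)⟩

lemma Car.inv (h1 : G.Car o v ε g o') : G.Car o' v ε g⁻¹ o := by
  obtain ⟨a1, y, y', a2, a3, a4⟩ := h1
  exact ⟨a1.inv, y', y, a3, a2, a4.inv⟩

lemma Fv.car_step (h : G.Fv o v ε z) (hs : o.1 • G.ξ s ∈ o.2) (hv : v ≠ o.1 • G.ξ s) :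
    G.Car o v ε (ag M s) (G.mv o s) ∧ G.Car o v ε (ag M s)⁻¹ (G.mv o s) := by
  obtain ⟨h1, h2, h3, h4, h5, h6⟩ := obj_fv_iff.1 h
  have hz := (h6 _ hv.symm).2 hs
  have hc : G.cm (o.1 • G.ξ s) v := by
    cases ε
    · exact h2.2 _ hs v (h4.2 rfl) hv.symm
    · exact h3.2 _ hz v (h5.2 rfl) hv.symm
  have hn : v ≠ o.1 • G.θ (ag M s) • G.ξ s := fun e =>
    (G.far_self s).2 ((G.cm_iff o.1 _ _).1 (e ▸ hc))
  rw [← h1] at hz
  have k : G.Fv (G.mv o s) v ε (G.mv z s) := obj_fv_iff.2 ⟨by rw [mv, mv, h1], h2.mv hs, h3.mv hz,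
    by simp [mv, hn, hv, h4], by simp [mv, h1, hn, hv, h5], fun u hu => by simp [mv, h1, h6 u hu]⟩
  have a1 := (Vx.refl h2).step s hs
  have a2 := (Vx.refl h2).back s hs
  have b1 := (Vx.refl h3).step s hz
  have b2 := (Vx.refl h3).back s hz
  rw [one_mul] at a1 a2 b1 b2
  exact ⟨⟨a1, z, _, h, k, b1⟩, a2, z, _, h, k, b2⟩

/-- An added wall is carried by every sequence of moves. -/
lemma Fv.car_add (h : G.Fv o v true z) (h1 : G.Vx o g o') : G.Car o v true g o' := by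
  have key : ∀ {o y : G.Φ × Set G.V} {s : S}, G.Fv o v true y → o.1 • G.ξ s ∈ o.2 →
      v ≠ o.1 • G.ξ s := fun k hs e => by simpa using (obj_fv_iff.1 k).2.2.2.1.1 (e ▸ hs)
  induction h1 with
  | refl _ => exact h.car
  | step s _ hs ih =>
    obtain ⟨y, y', -, k, -⟩ := ih.2
    exact ih.mul (k.car_step hs (key k hs)).1
  | back s _ hs ih =>
    obtain ⟨y, y', -, k, -⟩ := ih.2
    exact ih.mul (k.car_step hs (key k hs)).2

/-- The three kinds of points. -/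
theorem Ok.classify (h : G.Ok o) : (∀ s, o.1 • G.ξ s ∉ o.2) ∨
    (∃ x I g, Clq M I ∧ G.InA x I o g) ∨ ∃ s t, Lk M s t ∧ o = G.obB o.1 s t 0 := by
  by_cases h0 : ∀ s, o.1 • G.ξ s ∉ o.2
  · exact Or.inl h0
  obtain ⟨s, hs⟩ := not_forall_not.1 h0
  right
  by_cases h1 : ∃ t, Lk M s t ∧ o.1 • G.mu s t ∈ o.2 ∧ o.1 • G.ξ t ∈ o.2
  · obtain ⟨t, ht, hm, h2⟩ := h1
    refine Or.inr ⟨s, t, ht, ?_⟩
    rw [obja_obB ht, G.ch_zero, zero_add, lt_one, lt_zero]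
    refine Prod.ext rfl (Set.ext fun v => ⟨fun hv => ?_, ?_⟩)
    · by_cases hn : v = o.1 • G.ξ s
      · exact Or.inl hn
      obtain ⟨u, hu, rfl | rfl⟩ := obja_near h hs hv hn
      · rcases obja_two h ht hm hv with rfl | rfl
        exacts [Or.inl rfl, Or.inr (Or.inr rfl)]
      · rcases obja_two h hu hv h2 with rfl | rfl
        exacts [absurd rfl ht.1, Or.inr (Or.inl rfl)]
    · rintro (rfl | rfl | rfl)
      exacts [hs, hm, h2]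
  left
  by_cases h2 : ∃ t, Lk M s t ∧ o.1 • G.mu s t ∈ o.2
  · obtain ⟨t, ht, hm⟩ := h2
    refine ⟨o.1 * G.θ (ag M s), insert s {u | Lk M s u ∧ o.1 • G.mu s u ∈ o.2}, ag M s, ?_,
      Or.inr ⟨s, Or.inl rfl, by rw [mul_inv_cancel]; exact one_mem _, ?_⟩⟩
    · rintro a (rfl | ha) b (rfl | hb) e
      · exact absurd rfl e
      · exact hb.1
      · exact ha.1.symm
      · have := h.2 _ ha.2 _ hb.2 fun e' =>
          e (G.ξ_inj _ _ (smul_left_cancel _ (smul_left_cancel _ e')))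
        rw [mu, mu, cm_iff, cm_iff] at this
        exact (G.cm_ξξ a b).1 this
    · refine Prod.ext (obja_sq _ _).symm ?_
      rw [GS.mv, obA]
      dsimp only
      rw [obja_sq']
      refine Set.ext fun v => ⟨fun hv => ?_, ?_⟩
      · by_cases hn : v = o.1 • G.ξ s
        · exact Or.inl hn
        obtain ⟨u, hu, rfl | rfl⟩ := obja_near h hs hv hn
        · rcases obja_two h ht hm hv with rfl | rfl
          exacts [Or.inl rfl, absurd ⟨u, ht, hm, hv⟩ h1]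
        · refine Or.inr ⟨⟨u, Or.inr ⟨hu, hv⟩, mul_smul _ _ _⟩, fun e => hu.1 ?_⟩
          rw [Set.mem_singleton_iff, mu, ← mul_smul] at e
          exact (obja_inj e).symm
      · rintro (rfl | ⟨⟨u, rfl | hu, rfl⟩, hn⟩)
        · exact hs
        · exact absurd rfl hn
        · simp only [mul_smul]
          exact hu.2
  · refine ⟨o.1, {r | o.1 • G.ξ r ∈ o.2}, 1, fun a ha b hb e => ?_, Or.inl ⟨one_mem _, ?_⟩⟩
    · exact (G.cm_ξξ a b).1 ((G.cm_iff _ _ _).1 (h.2 _ ha _ hb fun e' => e (obja_inj e')))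
    · refine Prod.ext rfl (Set.ext fun v => ⟨fun hv => ?_, ?_⟩)
      · by_cases hn : v = o.1 • G.ξ s
        · exact ⟨s, hs, hn.symm⟩
        obtain ⟨u, hu, rfl | rfl⟩ := obja_near h hs hv hn
        exacts [⟨u, hv, rfl⟩, absurd ⟨u, hu, hv⟩ h2]
      · rintro ⟨r, hr, rfl⟩
        exact hr

end GS

end Pool.Agent.Lib.MP_19b52f_al.XL
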