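import Pool.Agent.Lib.MP_19b52f_al.XL.Win
import Pool.Agent.Lib.MP_19b52f_al.XL.Obj

/-! The cocycle exists, and its values on moves are base labels. -/

namespace Pool.Agent.Lib.MP_19b52f_al.XL

open Pool.Agent.Lib.MP_19b52f_al.EA Pool.Agent.Lib.MP_19b52f_al.EA2

variable {S : Type} {M : CoxeterMatrix S} {s t : S}

namespace GS
variable [Finite S] {G : GS M} {o o' o'' z : G.Φ × Set G.V} {g h : Artin M} {v : G.V} {ε : Bool}

lemma u_mem (x : G.Φ) (r : S) : G.u x r ∈ PX G.Γ Zm (Set.range Sum.inl)ᶜ := by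
  refine pw_mem fun v hv => ?_
  rintro ⟨w, rfl⟩
  exact hv rfl

lemma coca_mem (X : Set G.Lt) : pw G.Γ (ind X) ∈ PX G.Γ Zm X := pw_mem fun v hv => by
  by_contra e
  exact hv (if_neg e)

lemma γ_mem (o : G.Φ × Set G.V) : G.γ o ∈ PX G.Γ Zm (Set.range Sum.inl) :=
  pw_mem fun _ hv => Set.image_subset_range _ _ (by_contra fun e => hv (if_neg e))

lemma γ_empty (x : G.Φ) : G.γ (x, ∅) = 1 := by
  rw [γ, Set.image_empty, show ind (∅ : Set G.Lt) = fun _ => 0 from funext fun v => if_neg id]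
  exact pw_zero

lemma coca_ins {X : Set G.V} (hv : v ∉ X) (hc : ∀ w ∈ X, G.cm v w) :
    pw G.Γ (ind (Sum.inl '' insert v X)) = pw G.Γ (ind (Sum.inl '' X)) * gen G.Γ (.inl v) 1 := by
  rw [Set.image_insert_eq]
  refine pw_insert ?_ ?_
  · rintro ⟨w, hw, e⟩
    exact hv (Sum.inl_injective e ▸ hw)
  · rintro _ ⟨w, hw, rfl⟩
    exact (G.adj_vv v w).2 (hc w hw)

lemma Fv.gauge (h : G.Fv o v ε z) : G.γ z = G.γ o * gen G.Γ (.inl v) (sgn ε) := by
  obtain ⟨-, h2, h3, ⟨rfl, h4, h5⟩ | ⟨rfl, h4, h5⟩⟩ := h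
  · rw [γ, γ, h5]
    exact coca_ins h4 fun w hw => h3.2 v (h5 ▸ Set.mem_insert _ _) w
      (h5 ▸ Set.mem_insert_of_mem _ hw) fun e => h4 (e ▸ hw)
  · rw [γ, γ, h5, coca_ins h4 fun w hw => h2.2 v (h5 ▸ Set.mem_insert _ _) w
      (h5 ▸ Set.mem_insert_of_mem _ hw) fun e => h4 (e ▸ hw), show sgn false = -1 from rfl,
      gen_neg, mul_inv_cancel_right]

omit [Finite S] in
lemma coca_grp {H : Type} [Group H] {p a b u : H} (h : Commute p (a * u * b⁻¹)) :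
    (p * a)⁻¹ * (a * u * b⁻¹) * (p * b) = u := by
  rw [← mul_assoc, mul_assoc _ _ p, ← h.eq]
  group

lemma coca_cg {X : Set G.V} (ha : ∀ w ∈ X, G.cm v w) (k : ℤ) :
    Commute (pw G.Γ (ind (Sum.inl '' X))) (gen G.Γ (.inl v) k) := by
  refine comm_PX2 (Y := {Sum.inl v}) ?_ (coca_mem _) (gen_mem (Set.mem_singleton _) k)
  rintro _ ⟨w, hw, rfl⟩ _ rfl
  exact Or.inr ((G.adj_vv _ _).2 (G.cm_symm _ _ (ha w hw)))

lemma coca_cu {X : Set G.V} {x : G.Φ}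
    (hX : ∀ w ∈ X, ∃ t, Lk M s t ∧ (w = x • G.ξ t ∨ w = x • G.mu s t)) :
    Commute (pw G.Γ (ind (Sum.inl '' X))) (G.u x s) := by
  refine comm_PX2 (Y := Sum.inr '' {l | G.L l x s ≠ 0}) ?_ (coca_mem _) (pw_mem ?_)
  · rintro _ ⟨w, hw, rfl⟩ _ ⟨l, hl, rfl⟩
    refine Or.inr ((G.adj_vl _ _).2 ⟨x, s, hl, ?_⟩)
    obtain ⟨t, ht, rfl | rfl⟩ := hX w hw
    · exact G.cr_smul _ _ _ _ (G.cr_lk _ s t ht)
    · refine G.cr_smul _ _ _ _ ?_
      have := G.cr_neg _ _ _ (G.cr_smul _ (G.θ (ag M s)) _ _ (G.cr_lk (G.kd l) s t ht))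
      rwa [G.refl, neg_neg] at this
  · rintro (a | l) hl
    exacts [absurd rfl hl, ⟨l, hl, rfl⟩]

/-- The label of a move in the gauge of its end points. -/
lemma star (h : G.Ok o) (hs : o.1 • G.ξ s ∈ o.2) :
    (G.γ o)⁻¹ * G.cs o.1 s * G.γ (G.mv o s) = G.u o.1 s := by
  have hn : o.1 • G.θ (ag M s) • G.ξ s ∉ o.2 \ {o.1 • G.ξ s} := fun e =>
    (G.far_self s).2 ((G.cm_iff _ _ _).1
      (h.2 _ hs _ e.1 fun e' => (G.far_self s).1 (smul_left_cancel _ e')))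
  have c1 : ∀ w ∈ o.2 \ {o.1 • G.ξ s}, G.cm (o.1 • G.ξ s) w := fun w hw =>
    h.2 _ hs w hw.1 fun e => hw.2 e.symm
  have c2 : ∀ w ∈ o.2 \ {o.1 • G.ξ s}, G.cm (o.1 • G.θ (ag M s) • G.ξ s) w := fun w hw =>
    (obja_flip h hs hw.1 hw.2).2
  have e1 := coca_ins (fun e => e.2 rfl) c1
  rw [Set.insert_sdiff_singleton, Set.insert_eq_of_mem hs] at e1
  have e2 := coca_ins hn c2
  have hu := coca_cu (X := o.2 \ {o.1 • G.ξ s}) fun w hw => obja_near h hs hw.1 hw.2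
  have hc := ((coca_cg c1 1).mul_right hu).mul_right (coca_cg c2 1).inv_right
  rw [γ, γ, e1, GS.mv, e2, cs, gen_neg]
  exact coca_grp hc

omit [Finite S] in
lemma coc_W_c {Φ R : Type} [Group Φ] [Group R] (x y : Wm Φ R) (n : ℕ) (φ : Φ) :
    (W x y n).c φ = pp (fun j : ℕ => (lt x y (j + 1)).c (φ * (W x y j).a)) n := by
  induction n with
  | zero => simp [pp]
  | succ n ih => rw [Nat.cast_succ, W_succ, Wm.mul_c, ih, pp]

omit [Finite S] in
lemma coc_lab {Φ R : Type} [Group Φ] [Group R] (θ : Artin M →* Φ) (l : Φ → S → R)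
    (h : ∀ φ r r', r ≠ r' → M r r' ≠ 0 →
      pp (fun j : ℕ => l (φ * θ (W (ag M r) (ag M r') j)) (lt r r' (j + 1))) (M r r') =
      pp (fun j : ℕ => l (φ * θ (W (ag M r') (ag M r) j)) (lt r' r (j + 1))) (M r r')) :
    ∃ c : Φ → Artin M → R, (∀ φ g g', c φ (g * g') = c φ g * c (φ * θ g) g') ∧
      ∀ φ s, c φ (ag M s) = l φ s := by
  let f : S → Wm Φ R := fun s => ⟨fun φ => l φ s, θ (ag M s)⟩
  have h1 : ∀ r r' j, (W (f r) (f r') j).a = θ (W (ag M r) (ag M r') j) := fun r r' j =>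
    (map_W _ _ _ Wm.aHom).trans (map_W _ _ _ θ).symm
  let Ψ : Artin M →* Wm Φ R := artinLift M f (fun r r' hr h0 => by
    rw [omega_eq_W, omega_eq_W]
    ext φ
    · simpa only [coc_W_c, h1, ← map_lt _ _ _ f] using h φ r r' hr h0
    · rw [h1, h1, ← omega_eq_W, ← omega_eq_W, ag_rel M hr h0])
  have h2 : ∀ g, (Ψ g).a = θ g := fun g =>
    DFunLike.congr_fun (artin_ext (f := Wm.aHom.comp Ψ) (g := θ) fun s => by
      simp [Ψ, f, Wm.aHom]) g
  exact ⟨fun φ g => (Ψ g).c φ, fun φ g g' => by simp only [map_mul, Wm.mul_c, h2], fun φ s => by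
    simp [Ψ, f]⟩

lemma coc_tel (h : Lk M s t) (x : G.Φ) (n : ℕ) :
    pp (fun j : ℕ => G.cs (G.ch x s t j) (lt s t (j + 1))) n =
      G.γ (G.obB x s t 0) * pp (fun j : ℕ => G.U x s t (j + 1)) n * (G.γ (G.obB x s t n))⁻¹ := by
  induction n with
  | zero => simp [pp]
  | succ n ih =>
    have hm : (G.obB x s t n).1 • G.ξ (lt s t (n + 1)) ∈ (G.obB x s t n).2 := by
      rw [mem_obB h]
      rcases lt_cases s t (n : ℤ) with ⟨-, e⟩ | ⟨-, e⟩
      exacts [Or.inl e, Or.inr e]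
    have e := star (ok_obB h x n) hm
    rw [mv_obB_succ h] at e
    have e1 : (G.obB x s t n).1 = G.ch x s t n := rfl
    have e2 : G.U x s t (n + 1) = G.u (G.ch x s t n) (lt s t (n + 1)) := by
      rw [U, add_sub_cancel_right]
    rw [e1] at e
    rw [pp, pp, ih, e2, ← e]
    push_cast
    group

theorem c_spec (G : GS M) : G.IsC G.c := by
  refine Classical.epsilon_spec (p := G.IsC) (coc_lab G.θ G.cs fun x r r' h1 h0 => ?_)
  have h : Lk M r r' := ⟨h1, h0⟩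
  have a1 := coc_tel (G := G) h x (M r r')
  have a2 := coc_tel (G := G) h.symm x (M r r')
  have a3 : G.obB x r' r (M r r' : ℕ) = G.obB x r r' (M r r' : ℕ) := by
    rw [G.obB_swap x h]
    exact G.obB_congr x h ⟨-1, by ring⟩
  have a4 : (fun j : ℕ => G.U x r' r (j + 1)) = fun j : ℕ => G.U x r r' ((M r r' : ℕ) - j) := by
    funext j
    rw [G.U_swap h, add_sub_add_right_eq_sub]
  have a5 : pp (fun j : ℕ => G.U x r r' (j + 1)) (M r r') =
      pp (fun j : ℕ => G.U x r r' ((M r r' : ℕ) - j)) (M r r') := G.window h x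
  rw [a3, a4, ← a5, G.obB_swap x h, neg_zero, ← a1] at a2
  exact a2.symm

lemma c_mul (x : G.Φ) (g h : Artin M) : G.c x (g * h) = G.c x g * G.c (x * G.θ g) h :=
  G.c_spec.1 x g h

lemma c_gen (x : G.Φ) (s : S) : G.c x (ag M s) = G.cs x s := G.c_spec.2 x s

lemma c_one (x : G.Φ) : G.c x 1 = 1 := by
  have := c_mul x 1 1
  rw [mul_one, map_one, mul_one] at this
  exact mul_eq_left.mp this.symm

lemma c_inv (x : G.Φ) (g : Artin M) : G.c (x * G.θ g) g⁻¹ = (G.c x g)⁻¹ := by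
  refine eq_inv_of_mul_eq_one_right ?_
  rw [← c_mul, mul_inv_cancel, c_one]

lemma ct_one (o : G.Φ × Set G.V) : G.ct o 1 o = 1 := by
  rw [ct, c_one, mul_one, inv_mul_cancel]

lemma ct_mul (e : o.1 * G.θ g = o'.1) (h : Artin M) (o'' : G.Φ × Set G.V) :
    G.ct o (g * h) o'' = G.ct o g o' * G.ct o' h o'' := by
  rw [ct, ct, ct, c_mul, e]
  group

lemma ct_inv (e : o.1 * G.θ g = o'.1) : G.ct o' g⁻¹ o = (G.ct o g o')⁻¹ := by
  rw [ct, ct, ← e, c_inv]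
  group

lemma ct_step (h : G.Ok o) (hs : o.1 • G.ξ s ∈ o.2) :
    G.ct o (ag M s) (G.mv o s) = G.u o.1 s := by
  rw [ct, c_gen, star h hs]

lemma Vx.ct_mem (h : G.Vx o g o') : G.ct o g o' ∈ PX G.Γ Zm (Set.range Sum.inl)ᶜ := by
  induction h with
  | refl _ =>
    rw [ct_one]
    exact one_mem _
  | step s h hs ih =>
    rw [ct_mul h.fst, ct_step h.ok.2 hs]
    exact mul_mem ih (u_mem _ _)
  | back s h hs ih =>
    have k := ct_step (h.ok.2.mv hs) (mem_mv _ s)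
    rw [mv_mv h.ok.2 hs] at k
    rw [ct_mul h.fst, ct_inv (obja_sq _ s), k]
    exact mul_mem ih (inv_mem (u_mem _ _))

omit [Finite S] in
lemma coca_kill {H : Type} [Group H] (κ : G.Lt → H) (hκ) (h0 : ∀ v, κ (.inl v) = 1)
    {a : GP G.Γ Zm} (ha : a ∈ PX G.Γ Zm (Set.range Sum.inl)) : kap G.Γ κ hκ a = 1 :=
  Subgroup.mem_bot.mp (kap_mem κ hκ (by rintro _ ⟨v, rfl⟩; exact Subgroup.mem_bot.mpr (h0 v)) ha)

/-- A homomorphism that kills the letters of the walls does not see the gauge. -/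
lemma kap_ct {H : Type} [Group H] (κ : G.Lt → H) (hκ) (h0 : ∀ v, κ (.inl v) = 1)
    (o : G.Φ × Set G.V) (g : Artin M) (o' : G.Φ × Set G.V) :
    kap G.Γ κ hκ (G.ct o g o') = kap G.Γ κ hκ (G.c o.1 g) := by
  rw [ct, map_mul, map_mul, map_inv, coca_kill κ hκ h0 (γ_mem o), coca_kill κ hκ h0 (γ_mem o'),
    inv_one, one_mul, mul_one]

lemma kap_c_gen {H : Type} [Group H] (κ : G.Lt → H) (hκ) (h0 : ∀ v, κ (.inl v) = 1) (x : G.Φ)
    (s : S) : kap G.Γ κ hκ (G.c x (ag M s)) = kap G.Γ κ hκ (G.u x s) := by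
  rw [c_gen, cs, map_mul, map_mul, kap_gen, kap_gen, h0, h0, one_zpow, one_zpow, one_mul, mul_one]

end GS

end Pool.Agent.Lib.MP_19b52f_al.XL
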