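import Pool.Agent.Lib.MP_19b52f_al.XL.Geo

/-! Meridians and the pure subgroup of a dihedral Artin group. -/

namespace Pool.Agent.Lib.MP_19b52f_al.XL

open Pool.Agent.Lib.MP_19b52f_al.EA Pool.Agent.Lib.MP_19b52f_al.EA2

variable {G : Type} [Group G] (a b : G) (m : ℤ)

/-- The meridian of the wall `j`. -/
def Mj (j : ℤ) : G := W a b (j - 1) * (lt a b j * lt a b j) * (W a b (j - 1))⁻¹

/-- The central element. -/
def zz : G := W a b m * W a b m

/-- The pure subgroup. -/
def Pe : Subgroup G := Subgroup.closure (insert (zz a b m) (Set.range (Mj a b)))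

/-- The values of the arcs. -/
def kp (r : ℤ) : G := W a b r * Wv a b r * if 3 ≤ r then (zz a b m)⁻¹ else 1

/-- The group generated by two consecutive meridians. -/
def Hl (l : ℤ) : Subgroup G := Subgroup.closure {Mj a b l, Mj a b (l + 1)}

omit [Group G] in
lemma dih_lt_lt (i k : ℤ) : lt (lt a b (i + 1)) (lt a b i) k = lt a b (i + k) := by
  by_cases hk : Even k
  · rw [lt_add_even a b i hk, lt, if_pos hk]
  · have h1 : Even (k - 1) := by simpa [Int.even_sub_one] using hk
    rw [show i + k = i + 1 + (k - 1) by ring, lt_add_even a b _ h1, lt, if_neg hk]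

lemma dih_W_pred (j : ℤ) : W a b j = W a b (j - 1) * lt a b j := by
  have := W_succ a b (j - 1)
  rwa [sub_add_cancel] at this

lemma dih_Wv_pred (j : ℤ) : Wv a b j = lt a b j * Wv a b (j - 1) := by
  have := Wv_succ a b (j - 1)
  rwa [sub_add_cancel] at this

lemma dih_lt_mem (j : ℤ) : lt a b j ∈ Subgroup.closure {a, b} := by
  apply Subgroup.subset_closure
  rcases lt_cases a b j with ⟨h, -⟩ | ⟨h, -⟩ <;> simp [h]

lemma dih_Mj_mem (j : ℤ) : Mj a b j ∈ Pe a b m :=
  Subgroup.subset_closure (Or.inr ⟨j, rfl⟩)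

lemma dih_zz_mem : zz a b m ∈ Pe a b m := Subgroup.subset_closure (Or.inl rfl)

lemma dih_dvd {m x : ℤ} (h : m ∣ x) (h1 : -m < x) (h2 : x < 2 * m) : x = 0 ∨ x = m := by
  obtain ⟨q, rfl⟩ := h
  have hm : 0 < m := by omega
  have q1 : -1 < q := by nlinarith
  have q2 : q < 2 := by nlinarith
  obtain rfl | rfl : q = 0 ∨ q = 1 := by omega
  · simp
  · simp

lemma W_shift (i j : ℤ) : W a b i * W (lt a b (i + 1)) (lt a b i) j = W a b (i + j) := by
  induction j using Int.induction_on with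
  | zero => simp
  | succ k ih => rw [W_succ, ← mul_assoc, ih, dih_lt_lt, ← add_assoc, W_succ]
  | pred k ih =>
    rw [dih_W_pred _ _ (-k), ← mul_assoc, dih_lt_lt, dih_W_pred a b (i + -k)] at ih
    rw [mul_right_cancel ih, add_sub_assoc]

lemma W_lt (j : ℤ) : W a b j * lt a b j = Mj a b j * W a b (j - 1) := by
  rw [Mj, dih_W_pred a b j]
  group

lemma Mj_one : Mj a b 1 = a * a := by simp [Mj]

lemma Mj_zero : Mj a b 0 = b * b := by
  have e := dih_W_pred a b 0
  rw [W_zero, lt_zero] at e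
  rw [Mj, eq_inv_of_mul_eq_one_left e.symm, lt_zero]
  group

lemma exists_W {g : G} (hg : g ∈ Subgroup.closure {a, b}) :
    ∃ j, g * (W a b j)⁻¹ ∈ Pe a b m := by
  have key : ∀ x ∈ ({a, b} : Set G), ∀ j, x = lt a b j ∨ x = lt a b (j + 1) := by
    intro x hx j
    rcases hx with hx | hx <;> rcases lt_cases a b j with ⟨h1, h2⟩ | ⟨h1, h2⟩
    · exact Or.inr (hx.trans h2.symm)
    · exact Or.inl (hx.trans h1.symm)
    · exact Or.inl (hx.trans h1.symm)
    · exact Or.inr (hx.trans h2.symm)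
  induction hg using Subgroup.closure_induction_right with
  | one => exact ⟨0, by simp⟩
  | mul_right g _ x hx ih =>
    obtain ⟨j, hj⟩ := ih
    rcases key x hx j with e | e
    · refine ⟨j - 1, ?_⟩
      have : g * x * (W a b (j - 1))⁻¹ = g * (W a b j)⁻¹ * Mj a b j := by
        rw [e, Mj, dih_W_pred a b j]
        group
      rw [this]
      exact mul_mem hj (dih_Mj_mem a b m j)
    · refine ⟨j + 1, ?_⟩
      rw [W_succ, ← e]
      simpa [mul_assoc] using hj
  | mul_inv_cancel g _ x hx ih =>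
    obtain ⟨j, hj⟩ := ih
    rcases key x hx j with e | e
    · refine ⟨j - 1, ?_⟩
      rw [dih_W_pred a b j, ← e] at hj
      simpa [mul_assoc] using hj
    · refine ⟨j + 1, ?_⟩
      have : g * x⁻¹ * (W a b (j + 1))⁻¹ = g * (W a b j)⁻¹ * (Mj a b (j + 1))⁻¹ := by
        rw [e, Mj, W_succ, add_sub_cancel_right]
        group
      rw [this]
      exact mul_mem hj (inv_mem (dih_Mj_mem a b m _))

lemma dih_W_mem (j : ℤ) : W a b j ∈ Subgroup.closure {a, b} :=
  W_mem a b j (Subgroup.subset_closure (by simp)) (Subgroup.subset_closure (by simp))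

lemma dih_Wv_mem (j : ℤ) : Wv a b j ∈ Subgroup.closure {a, b} := by
  have ha : a ∈ Subgroup.closure {a, b} := Subgroup.subset_closure (by simp)
  have hb : b ∈ Subgroup.closure {a, b} := Subgroup.subset_closure (by simp)
  refine mul_mem ?_ (zpow_mem (mul_mem hb ha) _)
  split_ifs
  · exact one_mem _
  · exact ha

lemma Pe_le : Pe a b m ≤ Subgroup.closure {a, b} := by
  refine (Subgroup.closure_le _).mpr ?_
  rintro x (rfl | ⟨j, rfl⟩)
  · exact mul_mem (dih_W_mem a b m) (dih_W_mem a b m)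
  · exact mul_mem (mul_mem (dih_W_mem a b _) (mul_mem (dih_lt_mem a b j) (dih_lt_mem a b j)))
      (inv_mem (dih_W_mem a b _))

lemma kp_zero : kp a b m 0 = 1 := by simp [kp]

lemma dih_WW (r : ℤ) : W a b r * Wv a b r = Mj a b r * (W a b (r - 1) * Wv a b (r - 1)) := by
  rw [Mj, dih_W_pred a b r, dih_Wv_pred a b r]
  group

variable {a b m} (h : W a b m = W b a m) (hm : 7 ≤ m)
include h

lemma W_add_two (j : ℤ) : W a b (j + 2 * m) = zz a b m * W a b j := by
  rw [show j + 2 * m = j + m + m by ring, W_add _ h, W_add _ h, mul_assoc]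
  exact (zed_mem h (dih_W_mem a b j)).symm.eq

lemma dih_W_mul (j q : ℤ) : W a b (j + 2 * m * q) = zz a b m ^ q * W a b j := by
  induction q using Int.induction_on with
  | zero => simp
  | succ k ih =>
    rw [show j + 2 * m * ((k : ℤ) + 1) = j + 2 * m * k + 2 * m by ring, W_add_two h, ih,
      ← mul_assoc, ← zpow_one_add, add_comm]
  | pred k ih =>
    have e := W_add_two h (j + 2 * m * (-(k : ℤ) - 1))
    rw [show j + 2 * m * (-(k : ℤ) - 1) + 2 * m = j + 2 * m * -k by ring, ih] at e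
    rw [eq_inv_mul_of_mul_eq e.symm]
    group

lemma W_congr {i j : ℤ} (e : 2 * m ∣ i - j) : W a b i * (W a b j)⁻¹ ∈ Pe a b m := by
  obtain ⟨q, hq⟩ := e
  rw [show i = j + 2 * m * q by omega, dih_W_mul h, mul_inv_cancel_right]
  exact zpow_mem (dih_zz_mem a b m) q

lemma Mj_add_m (j : ℤ) : Mj a b (j + m) = Mj a b j := by
  have e : lt a b (j + m) = (W a b m)⁻¹ * (lt a b j * W a b m) :=
    eq_inv_mul_of_mul_eq (delta_conj j h)
  rw [Mj, Mj, show j + m - 1 = j - 1 + m by ring, W_add _ h, e]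
  group

lemma zz_comm {g : G} (hg : g ∈ Subgroup.closure {a, b}) : Commute (zz a b m) g :=
  zed_mem h hg

lemma zz_comm_kp (r : ℤ) : Commute (zz a b m) (kp a b m r) := by
  refine zz_comm h (mul_mem (mul_mem (dih_W_mem a b r) (dih_Wv_mem a b r)) ?_)
  split_ifs
  · exact inv_mem (Pe_le a b m (dih_zz_mem a b m))
  · exact one_mem _

lemma kp_succ (r : ℤ) :
    kp a b m r * (if r = 3 then zz a b m else 1) = Mj a b r * kp a b m (r - 1) := by
  have _ := h
  rw [kp, kp, dih_WW a b r]
  rcases lt_trichotomy r 3 with c | c | c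
  · rw [if_neg (by omega), if_neg (by omega), if_neg (by omega)]
    group
  · rw [if_pos (by omega), if_pos c, if_neg (by omega)]
    group
  · rw [if_pos (by omega), if_neg (by omega), if_pos (by omega)]
    group

lemma dih_Mj_mul (j q : ℤ) : Mj a b (j + m * q) = Mj a b j := by
  induction q using Int.induction_on with
  | zero => simp
  | succ k ih => rw [show j + m * ((k : ℤ) + 1) = j + m * k + m by ring, Mj_add_m h, ih]
  | pred k ih =>
    rw [← Mj_add_m h, show j + m * (-(k : ℤ) - 1) + m = j + m * -k by ring, ih]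

include hm

lemma kp_m : kp a b m m = 1 := by
  have e := Wv_add 0 h
  rw [zero_add, Wv_zero, mul_one] at e
  rw [kp, e, if_pos (by omega), zz, mul_inv_cancel]

lemma Pe_eq : Pe a b m =
    Subgroup.closure (insert (zz a b m) {g | ∃ j, 1 ≤ j ∧ j ≤ m ∧ g = Mj a b j}) := by
  rw [Pe]
  congr 2
  ext g
  constructor
  · rintro ⟨j, rfl⟩
    have h0 : 0 < m := by omega
    have h1 := Int.emod_nonneg (j - 1) h0.ne'
    have h2 := Int.emod_lt_of_pos (j - 1) h0
    have h3 := Int.emod_add_mul_ediv (j - 1) m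
    refine ⟨(j - 1) % m + 1, by omega, by omega, ?_⟩
    rw [← dih_Mj_mul h ((j - 1) % m + 1) ((j - 1) / m)]
    congr 1
    omega
  · rintro ⟨j, -, -, rfl⟩
    exact ⟨j, rfl⟩

lemma kp_mem_Hl {l r : ℤ} (h1 : -1 ≤ l) (h2 : l ≤ 1) (h3 : 1 ≤ r) (h4 : r ≤ m - 1)
    (hr : m ∣ r - (l - 1) ∨ m ∣ r - l ∨ m ∣ r - (l + 1)) : kp a b m r ∈ Hl a b l := by
  have k1 : kp a b m 1 = Mj a b 1 := by
    have e := kp_succ h 1
    rwa [if_neg (by omega), mul_one, sub_self, kp_zero, mul_one] at e
  have k2 : kp a b m 2 = Mj a b 2 * Mj a b 1 := by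
    have e := kp_succ h 2
    rwa [if_neg (by omega), mul_one, show (2 : ℤ) - 1 = 1 by norm_num, k1] at e
  have k3 : kp a b m (m - 1) = (Mj a b 0)⁻¹ := by
    have e := kp_succ h m
    have e0 := Mj_add_m h 0
    rw [zero_add] at e0
    rw [if_neg (by omega), mul_one, kp_m h hm, e0] at e
    exact eq_inv_of_mul_eq_one_right e.symm
  have k4 : kp a b m (m - 1 - 1) = (Mj a b (-1))⁻¹ * (Mj a b 0)⁻¹ := by
    have e := kp_succ h (m - 1)
    have e0 := Mj_add_m h (-1)
    rw [show -1 + m = m - 1 by ring] at e0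
    rw [if_neg (by omega), mul_one, k3, e0] at e
    exact eq_inv_mul_of_mul_eq e.symm
  have m1 : Mj a b l ∈ Hl a b l := Subgroup.subset_closure (Or.inl rfl)
  have m2 : Mj a b (l + 1) ∈ Hl a b l := Subgroup.subset_closure (Or.inr rfl)
  have hc : r = l - 1 ∨ r = l - 1 + m ∨ r = l ∨ r = l + m ∨ r = l + 1 ∨ r = l + 1 + m := by
    rcases hr with d | d | d <;> rcases dih_dvd d (by omega) (by omega) with e | e <;> omega
  obtain rfl | rfl | rfl : l = -1 ∨ l = 0 ∨ l = 1 := by omega
  · rw [show (-1 : ℤ) + 1 = 0 by norm_num] at m2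
    obtain rfl | rfl : r = m - 1 ∨ r = m - 1 - 1 := by omega
    · rw [k3]
      exact inv_mem m2
    · rw [k4]
      exact mul_mem (inv_mem m1) (inv_mem m2)
  · rw [zero_add] at m2
    obtain rfl | rfl : r = m - 1 ∨ r = 1 := by omega
    · rw [k3]
      exact inv_mem m1
    · rw [k1]
      exact m2
  · rw [show (1 : ℤ) + 1 = 2 by norm_num] at m2
    obtain rfl | rfl : r = 2 ∨ r = 1 := by omega
    · rw [k2]
      exact mul_mem m2 m1
    · rw [k1]
      exact m1

end Pool.Agent.Lib.MP_19b52f_al.XL
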