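import Pool.Agent.Lib.MP_19b52f_al.FC.Main

/-! An injective cocycle into a right-angled Artin group gives an embedding into a mapping class
group. -/

namespace Pool.Agent.Lib.MP_19b52f_al.XL

open Pool.Agent.Lib.MP_19b52f_al.EA Pool.Agent.Lib.MP_19b52f_al.EA2
open Pool.Agent.Lib.MP_19b52f_al.FC

theorem embeds_of_coc {A Φ Λ : Type} [Group A] [Group Φ] [Finite Φ] [Finite Λ] (Γ : SimpleGraph Λ)
    (θ : A →* Φ) (c : Φ → A → GP Γ Zm) (hc : ∀ x g h, c x (g * h) = c x g * c (x * θ g) h)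
    (hinj : ∀ g, θ g = 1 → c 1 g = 1 → g = 1) : EmbedsInMCG A := by
  obtain ⟨k, R, e, p, q, h1, h2, -, -⟩ := edge_raag Γ
  obtain ⟨D, hD⟩ := raag_sep k R h1
  let θ' : A →* Wm Φ D.Φ := MonoidHom.mk' (fun g => ⟨fun φ => D.θ (p (c φ g)), θ g⟩)
    (fun g h => by ext φ <;> simp [hc])
  refine wreath_out D.Z.std θ' (fun x g => (D.c (x.c 1) (p (c x.a g))).1)
    (fun x g g' => by simp only [hc, map_mul, D.c_mul]; simp [θ'])
    (fun x g => (D.c (x.c 1) (p (c x.a g))).2.1) (fun x g => ?_) (fun g k1 k2 => ?_)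
  · obtain ⟨-, k1, k2, k3⟩ := (D.c (x.c 1) (p (c x.a g))).2
    rw [Multiset.map_add, k3, ← Multiset.coe_mapAddMonoidHom, map_sum]
    refine congrArg _ (Finset.sum_congr rfl fun a _ => ?_)
    simp only [Multiset.coe_mapAddMonoidHom, Multiset.insert_eq_cons, Multiset.map_cons,
      Multiset.map_singleton, cm_cl]
    exact congrArg₂ (fun x y => cl x ::ₘ {cl y}) (k1 a) (k2 a)
  · obtain ⟨a, ha, b, hb, e⟩ := hD 1 ∅ ∅ (p (c 1 g)) (pa_univ _)
      (by rw [Co.Hyp, show D.c 1 (p (c 1 g)) = 1 from Subtype.ext k2]; exact Surf.X_one)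
    rw [pa_empty (pa_mono Set.inter_subset_left ha), pa_empty (pa_mono Set.inter_subset_left hb),
      mul_one] at e
    exact hinj g (congrArg Wm.a k1) (by rw [← h2 (c 1 g), e, map_one])

end Pool.Agent.Lib.MP_19b52f_al.XL
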