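import Pool.Agent.Lib.MP_19b52f_al.XL.Cell

/-! The arcs of one cell are free, and their links. -/

namespace Pool.Agent.Lib.MP_19b52f_al.XL

open Pool.Agent.Lib.MP_19b52f_al.EA Pool.Agent.Lib.MP_19b52f_al.EA2

variable {S : Type} {M : CoxeterMatrix S} {s t : S}

namespace GS
variable (G : GS M) (x : G.Φ)

lemma freep_Lp (h : Lk M s t) (i : S × S) (a n : ℤ) :
    G.Lp i (G.ch x s t a) (lt s t (a + 1)) (lt s t a) (G.col (some i) x s t n) =
      dl (M s t) a n - dl (M s t) (a + 1) n := by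
  classical
  rw [Lp, G.col_shift x _ h, G.col_shift x _ h, add_zero, dl, dl,
    if_congr (G.col_eq_iff x (some i) h n a) rfl rfl,
    if_congr (G.col_eq_iff x (some i) h n (a + 1)) rfl rfl]

open Classical in
lemma freep_L (h : Lk M s t) (r : ℤ) (x' : G.Φ) (u : S) : G.L (G.pL x s t r) x' u =
    if G.Br (s, t) (G.ch x s t (ps (M s t) r)) (lt s t (ps (M s t) r + 1)) (lt s t (ps (M s t) r)) x'
    then G.Lp (s, t) (G.ch x s t (ps (M s t) r)) (lt s t (ps (M s t) r + 1))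
      (lt s t (ps (M s t) r)) (x' • G.α (some (s, t)) u) else 0 := by
  rw [pL, L]
  exact if_congr ⟨fun e => e.2.2, fun e => ⟨h.lt _, (M_lt s t _).symm, e⟩⟩ rfl rfl

lemma freep_step (h : Lk M s t) (i : S × S) {x' : G.Φ} {s' t' : S} (h' : Lk M s' t') {a k n : ℤ}
    (hn : n = a ∨ n = a + 1) (hk : G.col (some i) x' s' t' (k + 1) = G.col (some i) x s t n) :
    G.Br i (G.ch x s t a) (lt s t (a + 1)) (lt s t a) (G.ch x' s' t' (k + 1)) ↔
      G.Br i (G.ch x s t a) (lt s t (a + 1)) (lt s t a) (G.ch x' s' t' k) := by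
  have key : ∀ p, Out (M (lt s t (a + 1)) (lt s t a)) p →
      G.η (some i) (G.ch x' s' t' (k + 1))
        (G.col (some i) (G.ch x s t a) (lt s t (a + 1)) (lt s t a) p) =
      G.η (some i) (G.ch x' s' t' k)
        (G.col (some i) (G.ch x s t a) (lt s t (a + 1)) (lt s t a) p) := fun p hp => by
    rw [G.cell_η_succ x' _ h', hk, G.col_shift x _ h, if_neg, add_zero]
    rw [G.col_pm_iff x _ h]
    rw [M_lt] at hp
    rcases hn with rfl | rfl
    · exact fun e => hp.1 (Dvd.dvd.mul_left (by simpa using e) 2)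
    · exact fun e => hp.2 (Dvd.dvd.mul_left (by rwa [add_sub_add_left_eq_sub] at e) 2)
  refine forall₄_congr fun p q hp hq => ?_
  rw [key p hp, key q hq]

open Classical in
lemma freep_coh (h : Lk M s t) (r : ℤ) {x' : G.Φ} {s' t' : S} (h' : Lk M s' t')
    (hm : M s' t' = M s t) {ε i c : ℤ} (hε : ε = 1 ∨ ε = -1)
    (hc : ∀ j, G.col (some (s, t)) x' s' t' j = G.col (some (s, t)) x s t (i + ε * (j - c)))
    (k : ℤ) : G.seq (G.pL x s t r) x' s' t' k =
      (if G.Br (s, t) (G.ch x s t (ps (M s t) r)) (lt s t (ps (M s t) r + 1))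
        (lt s t (ps (M s t) r)) (G.ch x' s' t' (c + ε * (ps (M s t) r - i) - 1)) then 1 else 0) *
      (dl (M s t) (ps (M s t) r) (i + ε * (k - c)) -
        dl (M s t) (ps (M s t) r + 1) (i + ε * (k - c))) := by
  rw [seq, G.freep_L x h, G.col_edge x' _ h', hc, G.freep_Lp x h, ite_mul, one_mul, zero_mul]
  generalize ps (M s t) r = a
  by_cases e1 : 2 * (M s t : ℤ) ∣ i + ε * (k - c) - a
  · rw [G.ch_congr x' h' (k := k - 1) (l := c + ε * (a - i) - 1)]
    rw [hm]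
    rcases hε with rfl | rfl
    · exact seq_neg (dvd_neg.2 e1) 0 (by ring)
    · exact seq_neg e1 0 (by ring)
  by_cases e2 : 2 * (M s t : ℤ) ∣ i + ε * (k - c) - (a + 1)
  · refine if_congr ?_ rfl rfl
    rcases hε with rfl | rfl
    · rw [G.ch_congr x' h' (k := k - 1) (l := c + 1 * (a - i) - 1 + 1)
        (hm ▸ seq_neg (dvd_neg.2 e2) 0 (by ring))]
      exact G.freep_step x h _ h' (Or.inl rfl) ((hc _).trans (congrArg _ (by ring)))
    · rw [G.ch_congr x' h' (k := k - 1) (l := c + -1 * (a - i) - 2)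
        (hm ▸ seq_neg e2 0 (by ring)),
        show c + -1 * (a - i) - 1 = c + -1 * (a - i) - 2 + 1 by ring]
      exact (G.freep_step x h _ h' (Or.inr rfl) ((hc _).trans (congrArg _ (by ring)))).symm
  · rw [dl, dl, if_neg e1, if_neg e2, sub_self, ite_self, ite_self]

lemma L_pL_supp (h : Lk M s t) {r : ℤ} {x' : G.Φ} {u : S} (h1 : G.L (G.pL x s t r) x' u ≠ 0) :
    G.Br (s, t) (G.ch x s t (ps (M s t) r)) (lt s t (ps (M s t) r + 1)) (lt s t (ps (M s t) r)) x' ∧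
    (x' • G.α (some (s, t)) u = G.col (some (s, t)) x s t (ps (M s t) r) ∨
      x' • G.α (some (s, t)) u = G.col (some (s, t)) x s t (ps (M s t) r + 1)) := by
  rw [G.freep_L x h] at h1
  refine ⟨by_contra fun e => h1 (if_neg e), by_contra fun e => h1 ?_⟩
  rw [Lp, G.col_shift x _ h, G.col_shift x _ h, add_zero, if_neg fun d => e (Or.inl d),
    if_neg fun d => e (Or.inr d), sub_self, ite_self]

/-- In a cell with the same colours an arc is active or absent. -/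
lemma seq_pL_coh (h : Lk M s t) (r : ℤ) {x' : G.Φ} {s' t' : S} (h' : Lk M s' t')
    (hm : M s' t' = M s t) {ε i c : ℤ} (hε : ε = 1 ∨ ε = -1)
    (hc : ∀ j, G.col (some (s, t)) x' s' t' j = G.col (some (s, t)) x s t (i + ε * (j - c))) :
    ∃ w : ℤ, ∀ k, G.seq (G.pL x s t r) x' s' t' k =
      w * (dl (M s t) (ps (M s t) r) (i + ε * (k - c)) -
        dl (M s t) (ps (M s t) r + 1) (i + ε * (k - c))) :=
  ⟨_, G.freep_coh x h r h' hm hε hc⟩

lemma seq_pL (h : Lk M s t) (r k : ℤ) : G.seq (G.pL x s t r) x s t k =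
    dl (M s t) (ps (M s t) r) k - dl (M s t) (ps (M s t) r + 1) k := by
  have e := G.freep_coh x h r h rfl (ε := 1) (i := 0) (c := 0) (Or.inl rfl)
    (fun j => congrArg _ (by ring)) k
  rw [if_pos, one_mul, show 0 + 1 * (k - 0) = k by ring] at e
  · exact e
  · rw [← G.freep_step x h _ h (Or.inl rfl) (congrArg _ (by ring)),
      show 0 + 1 * (ps (M s t) r - 0) - 1 + 1 = ps (M s t) r by ring]
    exact fun _ _ _ _ => rfl

lemma seq_dL (h : Lk M s t) (a k : ℤ) :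
    G.seq (G.dL (G.col none x s t a)) x s t k = dl (M s t) a k := by
  classical
  rw [seq, dL, L, G.col_edge x _ h, dl]
  exact if_congr (G.col_eq_iff x none h k a) rfl rfl

lemma pL_inj (h : Lk M s t) {r r' : ℤ} (h1 : 1 ≤ r) (h2 : r ≤ M s t - 1) (h3 : 1 ≤ r')
    (h4 : r' ≤ M s t - 1) (e : G.pL x s t r = G.pL x s t r') : r = r' := by
  by_contra n
  have e1 : G.ch x s t (ps (M s t) r) = G.ch x s t (ps (M s t) r') :=
    congrArg (fun p => p.2.1) (Sum.inr.inj (Sum.inr.inj e))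
  refine (ps_far (G.seven' h) h1 h2 h3 h4 n).1 ((G.bt_eq_iff x h _ _).1 ?_)
  rw [bt, bt, e1]

lemma freepb_supp (h : Lk M s t) {r : ℤ} {x' : G.Φ} {s' t' : S} (h' : Lk M s' t') {k : ℤ}
    (hk : G.seq (G.pL x s t r) x' s' t' k ≠ 0) : G.Br (s, t) (G.ch x s t (ps (M s t) r))
      (lt s t (ps (M s t) r + 1)) (lt s t (ps (M s t) r)) (G.ch x' s' t' (k - 1)) ∧
    ∃ i, (i = ps (M s t) r ∨ i = ps (M s t) r + 1) ∧
      G.col (some (s, t)) x' s' t' k = G.col (some (s, t)) x s t i := by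
  obtain ⟨b, c⟩ := G.L_pL_supp x h hk
  rw [G.col_edge x' _ h'] at c
  exact ⟨b, c.elim (fun e => ⟨_, .inl rfl, e⟩) fun e => ⟨_, .inr rfl, e⟩⟩

lemma freepb_uniq (h : Lk M s t) {x' : G.Φ} {s' t' : S} (h' : Lk M s' t') {k k' i i' : ℤ}
    (hi : G.col (some (s, t)) x' s' t' k = G.col (some (s, t)) x s t i)
    (hi' : G.col (some (s, t)) x' s' t' k' = G.col (some (s, t)) x s t i')
    (hn : ¬ (M s t : ℤ) ∣ i - i') : (M s' t' = M s t ∧ ∃ ε : ℤ, (ε = 1 ∨ ε = -1) ∧ ∀ j,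
      G.col (some (s, t)) x' s' t' j = G.col (some (s, t)) x s t (i + ε * (j - k))) ∨
      (M s' t' ≠ M s t ∧ (M s t : ℤ) ∣ 2 * (i - i')) := by
  have e : ∀ j l, (x⁻¹ * x') • G.b (some (s, t)) s' t' j = G.b (some (s, t)) s t l ↔
      G.col (some (s, t)) x' s' t' j = G.col (some (s, t)) x s t l := fun j l => by
    rw [mul_smul, inv_smul_eq_iff, col, col]
  refine (G.uniqP (s, t) s t s' t' (x⁻¹ * x') k k' i i' h rfl h' ((e _ _).2 hi) ((e _ _).2 hi')
    hn).imp_left fun ⟨a, ε, b, c⟩ => ⟨a, ε, b, fun j => (e _ _).1 (c j)⟩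

lemma freepb_out {m r p : ℤ} (h : Out m (p - r)) : Out m (p - ps m r) := by
  obtain ⟨c, hc⟩ := ps_dvd m r
  exact ⟨fun e => h.1 (seq_neg (dvd_neg.2 e) (2 * c) (by linarith)),
    fun e => h.2 (seq_neg (dvd_neg.2 e) (2 * c) (by linarith))⟩

lemma freepb_br (h : Lk M s t) {r p q : ℤ} {y : G.Φ} (hb : G.Br (s, t) (G.ch x s t (ps (M s t) r))
    (lt s t (ps (M s t) r + 1)) (lt s t (ps (M s t) r)) y) (hp : Out (M s t) (p - r))
    (hq : Out (M s t) (q - r)) : G.η (some (s, t)) y (G.col (some (s, t)) x s t p) +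
      G.η (some (s, t)) y (G.col (some (s, t)) x s t q) =
    G.η (some (s, t)) x (G.col (some (s, t)) x s t p) +
      G.η (some (s, t)) x (G.col (some (s, t)) x s t q) +
      (Nw (M s t) p r + Nw (M s t) q r : ℤ) := by
  have h0 : (0 : ℤ) < M s t := by have := G.seven' h; omega
  have e := hb (p - ps (M s t) r) (q - ps (M s t) r) (by rw [M_lt]; exact freepb_out hp)
    (by rw [M_lt]; exact freepb_out hq)
  rw [G.col_shift x _ h, G.col_shift x _ h, add_sub_cancel, add_sub_cancel, G.η_in x _ h,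
    G.η_in x _ h] at e
  obtain ⟨c, hc⟩ := ps_dvd (M s t : ℤ) r
  rw [e, sub_eq_iff_eq_add'.1 hc, Nw_add h0, Nw_add h0]
  push_cast
  linear_combination CharTwo.add_self_eq_zero (c : ZMod 2)

lemma freepb_dvd {m r a i : ℤ} (ha : a = ps m r ∨ a = ps m r + 1) (h : 2 * m ∣ a - i) :
    m ∣ i - r ∨ m ∣ i - (r + 1) := by
  obtain ⟨c, hc⟩ := ps_dvd m r
  have h1 := (dvd_mul_left m 2).trans h
  exact ha.imp (fun e => seq_neg h1 c (by linarith)) fun e => seq_neg h1 c (by linarith)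

lemma freepb_far {m r r' i i' : ℤ} (hm : 7 ≤ m) (h1 : 1 ≤ r) (h2 : r ≤ m - 1) (h3 : 1 ≤ r')
    (h4 : r' ≤ m - 1) (e : r ≠ r') (hi : i = ps m r ∨ i = ps m r + 1)
    (hi' : i' = ps m r' ∨ i' = ps m r' + 1) : ¬ 2 * m ∣ i' - i := by
  obtain ⟨a, b, c, -⟩ := ps_far hm h1 h2 h3 h4 e
  rcases hi with rfl | rfl <;> rcases hi' with rfl | rfl
  exacts [a, fun d => c (by rwa [← add_sub_right_comm]), fun d => b (by rwa [sub_sub]),
    fun d => a (by rwa [add_sub_add_right_eq_sub] at d)]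

/-- Two arcs are not both present in a cell with another label, except on one common wall. -/
lemma perp_pp (h : Lk M s t) {r r' : ℤ} (h1 : 1 ≤ r) (h2 : r < r') (h4 : r' ≤ M s t - 1)
    {x' : G.Φ} {s' t' : S} (h' : Lk M s' t') (hm : M s' t' ≠ M s t) {k k' i i' : ℤ}
    (hk : G.seq (G.pL x s t r) x' s' t' k ≠ 0) (hk' : G.seq (G.pL x s t r') x' s' t' k' ≠ 0)
    (hi : G.col (some (s, t)) x' s' t' k = G.col (some (s, t)) x s t i)
    (hi' : G.col (some (s, t)) x' s' t' k' = G.col (some (s, t)) x s t i') :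
    (M s t : ℤ) ∣ i - i' := by
  by_contra hn
  have h7 := G.seven' h
  obtain ⟨b1, a, ha, c1⟩ := G.freepb_supp x h h' hk
  obtain ⟨b2, a', ha', c2⟩ := G.freepb_supp x h h' hk'
  have d1 := freepb_dvd ha ((G.col_eq_iff x _ h _ _).1 (c1.symm.trans hi))
  have d2 := freepb_dvd ha' ((G.col_eq_iff x _ h _ _).1 (c2.symm.trans hi'))
  obtain ⟨p, q, p1, p2, q1, q2, o1, o2, o3, o4⟩ := exists_toggle h7 h1 h2 h4 d1 d2 hn
    ((G.freepb_uniq x h h' hi hi' hn).resolve_left fun e => hm e.1).2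
  have nc : ∀ p, Out (M s t) (p - r) → ∀ j,
      G.col (some (s, t)) x s t p ≠ G.col (some (s, t)) x' s' t' j := fun p o j e => by
    have n : ¬ (M s t : ℤ) ∣ 2 * (i - p) := fun d => by
      rcases d1 with ⟨c, hc⟩ | ⟨c, hc⟩
      · exact o.1 (seq_neg d (2 * c) (by linarith))
      · exact o.2 (seq_neg d (2 * c) (by linarith))
    exact n ((G.freepb_uniq x h h' hi e.symm fun d => n (d.mul_left 2)).resolve_left
      fun e => hm e.1).2
  have e1 := G.freepb_br x h b1 o1 o2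
  have e2 := G.freepb_br x h b2 o3 o4
  rw [G.η_out x' _ h' (nc p o1), G.η_out x' _ h' (nc q o2)] at e1 e2
  have e3 := add_left_cancel (e1.symm.trans e2)
  rw [Nw, Nw, Nw, Nw, (ediv_eq (a := r - p) (-1) (by omega) (by omega)).1,
    (ediv_eq (a := r - q) (-1) (by omega) (by omega)).1,
    (ediv_eq (a := r' - p) 0 (by omega) (by omega)).1,
    (ediv_eq (a := r' - q) (-1) (by omega) (by omega)).1] at e3
  push_cast at e3
  exact one_ne_zero (α := ZMod 2) (by linear_combination -e3)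

theorem free_pp (h : Lk M s t) {r r' : ℤ} (h1 : 1 ≤ r) (h2 : r ≤ M s t - 1) (h3 : 1 ≤ r')
    (h4 : r' ≤ M s t - 1) (e : r ≠ r') : G.Free (G.pL x s t r) (G.pL x s t r') := by
  wlog hlt : r < r' generalizing r r'
  · exact G.free_symm (this h3 h4 h1 h2 e.symm (by omega))
  have h7 := G.seven' h
  refine ⟨fun x' u => by_contra fun n => ?_, fun x' s' t' h' => ?_⟩
  · rw [not_or] at n
    rcases (G.L_pL_supp x h n.1).2 with a | a <;> rcases (G.L_pL_supp x h n.2).2 with b | b <;>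
      exact freepb_far h7 h1 h2 h3 h4 e (by simp) (by simp)
        ((G.col_eq_iff x _ h _ _).1 (b.symm.trans a))
  by_cases n1 : ∀ k, G.seq (G.pL x s t r) x' s' t' k = 0
  · exact .inl n1
  by_cases n2 : ∀ k, G.seq (G.pL x s t r') x' s' t' k = 0
  · exact .inr (.inl n2)
  by_cases hp : ∀ k k' i i', G.seq (G.pL x s t r) x' s' t' k ≠ 0 →
      G.seq (G.pL x s t r') x' s' t' k' ≠ 0 →
      G.col (some (s, t)) x' s' t' k = G.col (some (s, t)) x s t i →
      G.col (some (s, t)) x' s' t' k' = G.col (some (s, t)) x s t i' → (M s t : ℤ) ∣ i - i'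
  · obtain ⟨k0, hk0⟩ := not_forall.1 n1
    obtain ⟨l0, hl0⟩ := not_forall.1 n2
    obtain ⟨-, i0, a0, b0⟩ := G.freepb_supp x h h' hk0
    obtain ⟨-, j0, -, d0⟩ := G.freepb_supp x h h' hl0
    refine .inr (.inr (.inl ⟨k0, fun k hk => ?_, fun l hl => ?_⟩))
    · obtain ⟨-, i, a, b⟩ := G.freepb_supp x h h' hk
      have d := seq_lin (by omega) (dvd_sub (hp _ _ _ _ hk hl0 b d0) (hp _ _ _ _ hk0 hl0 b0 d0))
      obtain rfl : i = i0 := by omega
      exact (G.col_eq_iff x' _ h' _ _).1 (b.trans b0.symm)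
    · obtain ⟨-, j, a, b⟩ := G.freepb_supp x h h' hl
      rcases (G.col_pm_iff x (some (s, t)) h _ _).2 (dvd_sub_comm.1 (hp _ _ _ _ hk0 hl b0 b))
        with d | d
      · exact absurd ((G.col_eq_iff x _ h _ _).1 d) (freepb_far h7 h1 h2 h3 h4 e a0 a)
      · rw [← b, ← b0, ← G.col_add_m x' _ h', G.col_eq_iff x' _ h'] at d
        rwa [sub_sub]
  push Not at hp
  obtain ⟨k, k', i, i', hk, hk', hi, hi', hn⟩ := hp
  obtain ⟨hm, ε, hε, hc⟩ := (G.freepb_uniq x h h' hi hi' hn).resolve_right fun d =>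
    hn (G.perp_pp x h h1 hlt h4 h' d.1 hk hk' hi hi')
  obtain ⟨w, hw⟩ := G.seq_pL_coh x h r h' hm hε hc
  obtain ⟨w', hw'⟩ := G.seq_pL_coh x h r' h' hm hε hc
  obtain ⟨a, b, c, d⟩ := ps_far h7 h1 h2 h3 h4 e
  rw [funext hw, funext hw', hm]
  exact cond_dl a b c d hε w w' i k

lemma adj_bt_pL (h : Lk M s t) {l r : ℤ}
    (e : G.Γ.Adj (.inl (G.bt x s t l)) (.inr (G.pL x s t r))) :
    (M s t : ℤ) ∣ r - (l - 1) ∨ (M s t : ℤ) ∣ r - l ∨ (M s t : ℤ) ∣ r - (l + 1) := by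
  obtain ⟨x', u, h1, h2⟩ := (G.adj_vl _ _).1 e
  have h3 : G.cr (some (s, t)) (G.bt x s t l) (x' • G.α (some (s, t)) u) := h2
  have d : ∀ {y z : ℤ}, (M s t : ℤ) ∣ y → z = y - (ps (M s t) r - r) → (M s t : ℤ) ∣ z :=
    fun u v => v ▸ dvd_sub u (ps_dvd _ r)
  rcases (G.L_pL_supp x h h1).2 with e1 | e1 <;> rw [e1] at h3 <;>
    rcases G.bt_cr x _ h h3 with e2 | e2
  · exact Or.inr (Or.inl (d e2 (by ring)))
  · exact Or.inr (Or.inr (d e2 (by ring)))
  · exact Or.inl (d e2 (by ring))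
  · exact Or.inr (Or.inl (d e2 (by ring)))

lemma nadj_bt_dL (h : Lk M s t) {l : ℤ} (h1 : -1 ≤ l) (h2 : l ≤ 1) :
    ¬ G.Γ.Adj (.inl (G.bt x s t l)) (.inr (G.dL (G.col none x s t 3))) := by
  intro e
  obtain ⟨x', u, h3, h4⟩ := (G.adj_vl _ _).1 e
  have h5 : G.cr none (G.bt x s t l) (x' • G.α none u) := h4
  have h6 : x' • G.α none u = G.col none x s t 3 := by
    by_contra n
    rw [dL, L] at h3
    exact h3 (if_neg n)
  have h7 := G.seven' h
  rw [h6] at h5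
  rcases G.bt_cr x _ h h5 with d | d <;> have := Int.le_of_dvd (by omega) d <;> omega

end GS

end Pool.Agent.Lib.MP_19b52f_al.XL
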