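import Pool.Agent.Lib.MP_19b52f_al.XL.Cell

/-! The letters `y` of one base state are free, and their links. -/

namespace Pool.Agent.Lib.MP_19b52f_al.XL

open Pool.Agent.Lib.MP_19b52f_al.EA Pool.Agent.Lib.MP_19b52f_al.EA2

variable {S : Type} {M : CoxeterMatrix S} {s t u : S}

namespace GS
variable (G : GS M) (x : G.Φ)

/-- Two colours that differ up to sign and do not lie in one cell. -/
def FreeyAp (c c' : G.C) : Prop :=
  c ≠ c' ∧ c ≠ -c' ∧ ∀ x' s t i j, Lk M s t → c = G.col none x' s t i →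
    c' = G.col none x' s t j → False

/-- The colours seen by the letter `y`. -/
def FreeySup (s : S) (c : G.C) : Prop :=
  c = x • G.α none s ∨ ∃ t, Lk M s t ∧ c = G.col none x s t 2

lemma freey_ap {p q : G.C} (h : ApB M (Φ := G.Φ) (G.b none) p q) : G.FreeyAp (x • p) (x • q) := by
  refine ⟨fun e => h.1 (smul_left_cancel x e), fun e => h.2.1 (smul_left_cancel x ?_),
    fun x' s t i j l e1 e2 => h.2.2 (x⁻¹ * x') s t i j l ?_ ?_⟩
  · rw [e, G.smul_neg]
  · rw [mul_smul, eq_inv_smul_iff, e1, col]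
  · rw [mul_smul, eq_inv_smul_iff, e2, col]

lemma freey_symm {c c' : G.C} (h : G.FreeyAp c c') : G.FreeyAp c' c :=
  ⟨h.1.symm, fun e => h.2.1 (by rw [e, neg_neg]),
    fun x' s t i j l e1 e2 => h.2.2 x' s t j i l e2 e1⟩

lemma freey_sup {c : G.C} (h : G.Ly x s c ≠ 0) : G.FreeySup x s c := by
  by_contra e
  rw [FreeySup, not_or] at e
  exact h (by rw [Ly, if_neg e.1, if_neg e.2, sub_self])

lemma freey_cell (h : s ≠ u) {c c' : G.C} (h1 : G.FreeySup x s c) (h2 : G.FreeySup x u c') :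
    G.FreeyAp c c' ∨ (Lk M s u ∧ ∃ i i' : ℤ, 1 ≤ i ∧ i ≤ 2 ∧ (M s u : ℤ) - 1 ≤ i' ∧ i' ≤ M s u ∧
      c = G.col none x s u i ∧ c' = G.col none x s u i') := by
  rcases h1 with rfl | ⟨t, l1, rfl⟩ <;> rcases h2 with rfl | ⟨v, l2, rfl⟩
  · by_cases e : M s u = 0
    · exact .inl (G.freey_ap x (G.ap_inf s u h e))
    · exact .inr ⟨⟨h, e⟩, 1, M s u, le_rfl, by omega, by omega, le_rfl,
        (G.col_one x none ⟨h, e⟩).symm, (G.col_m x none ⟨h, e⟩).symm⟩
  · by_cases e : s = v
    · subst e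
      exact .inr ⟨l2.symm, 1, M s u + 1 - 2, le_rfl, by omega, by omega, by omega,
        (G.col_one x none l2.symm).symm, G.col_swap x none l2.symm 2⟩
    · exact .inl (G.freey_ap x (G.ap_one u v s l2 h e))
  · by_cases e : u = t
    · subst e
      exact .inr ⟨l1, 2, M s u, by omega, le_rfl, by omega, le_rfl, rfl, (G.col_m x none l1).symm⟩
    · exact .inl (G.freey_symm (G.freey_ap x (G.ap_one s t u l1 h.symm e)))
  · by_cases e : t = u ∧ v = s
    · obtain ⟨rfl, rfl⟩ := e
      exact .inr ⟨l1, 2, M v t + 1 - 2, by omega, le_rfl, by omega, by omega, rfl,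
        G.col_swap x none l1 2⟩
    · exact .inl (G.freey_ap x (G.ap_two s t u v l1 l2 h e))

lemma freey_disj (h : s ≠ u) {c : G.C} (h1 : G.FreeySup x s c) (h2 : G.FreeySup x u c) : False := by
  rcases G.freey_cell x h h1 h2 with e | ⟨l, i, i', a1, a2, a3, a4, e1, e2⟩
  · exact e.1 rfl
  · have h7 := G.seven' l
    have := seq_lin (by omega) ((G.col_eq_iff x none l _ _).1 (e1.symm.trans e2))
    omega

lemma freey_back (r : S) : (x * G.θ (ag M r)) • G.α none r = -(x • G.α none r) := by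
  rw [mul_smul, G.refl, G.smul_neg]

lemma freey_ne (r : S) : -(x • G.α none r) ≠ x • G.α none r := fun e =>
  G.ne_neg none r (smul_left_cancel x (by rw [G.smul_neg, e]))

lemma L_yL_self (s : S) : G.L (G.yL x s) x s = 1 := by
  show G.Ly x s (x • G.α none s) = 1
  rw [Ly, if_pos rfl, if_neg, sub_zero]
  rintro ⟨t, l, e⟩
  have h7 := G.seven' l
  have := seq_lin (by omega) ((G.col_eq_iff x none l _ _).1 ((G.col_one x none l).trans e))
  omega

lemma L_yL_ne (h : s ≠ u) : G.L (G.yL x s) x u = 0 := by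
  by_contra e
  exact G.freey_disj x h (G.freey_sup x e) (.inl rfl)

lemma L_yL_back (s u : S) : G.L (G.yL x s) (x * G.θ (ag M u)) u = 0 := by
  by_contra e
  have h1 : G.FreeySup x s ((x * G.θ (ag M u)) • G.α none u) := G.freey_sup x e
  rw [freey_back] at h1
  by_cases h : s = u
  · subst h
    rcases h1 with e | ⟨t, l, e⟩
    · exact G.freey_ne x s e
    · have h7 := G.seven' l
      rw [← G.col_one x none l, ← G.col_add_m x none l] at e
      have := seq_lin (by omega) ((G.col_eq_iff x none l _ _).1 e)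
      omega
  · rcases G.freey_cell x h h1 (.inl rfl) with e | ⟨l, i, i', a1, a2, a3, a4, e1, e2⟩
    · exact e.2.1 rfl
    · have h7 := G.seven' l
      rw [e2, ← G.col_add_m x none l] at e1
      have := seq_lin (by omega) ((G.col_eq_iff x none l _ _).1 e1)
      omega

lemma L_dL_self (s : S) : G.L (G.dL (x • G.α none s)) x s = 1 := if_pos rfl

lemma L_dL_back (s : S) : G.L (G.dL (x • G.α none s)) (x * G.θ (ag M s)) s = 0 :=
  if_neg (by rw [freey_back]; exact G.freey_ne x s)

lemma Ly_col (h : Lk M s u) (n : ℤ) :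
    G.Ly x s (G.col none x s u n) = dl (M s u) 1 n - dl (M s u) 2 n := by
  have e1 : G.col none x s u n = x • G.α none s ↔ 2 * (M s u : ℤ) ∣ n - 1 := by
    rw [← G.col_one x none h, G.col_eq_iff x none h]
  have e2 : (∃ t, Lk M s t ∧ G.col none x s u n = G.col none x s t 2) ↔
      2 * (M s u : ℤ) ∣ n - 2 := by
    rw [← G.col_eq_iff x none h]
    refine ⟨?_, fun e => ⟨u, h, e⟩⟩
    rintro ⟨t, l, e⟩
    by_cases a : u = t
    · rwa [← a] at e
    · exact ((G.freey_ap x (G.ap_one s t u l h.1.symm a)).2.2 x s u _ n h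
        (G.col_m x none h).symm e.symm).elim
  simp only [Ly, dl, e1, e2]

lemma freey_seq {s' t' : S} (h : Lk M s' t') (x' : G.Φ) (k : ℤ) :
    G.seq (G.yL x s) x' s' t' k = G.Ly x s (G.col none x' s' t' k) := by
  rw [← G.col_edge x' none h]
  rfl

theorem free_yy (h : s ≠ u) : G.Free (G.yL x s) (G.yL x u) := by
  refine ⟨fun x' r => ?_, fun x' s' t' l' => ?_⟩
  · by_contra e
    rw [not_or] at e
    exact G.freey_disj x h (G.freey_sup x e.1) (G.freey_sup x e.2)
  by_cases a1 : ∀ k, G.seq (G.yL x s) x' s' t' k = 0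
  · exact .inl a1
  by_cases a2 : ∀ k, G.seq (G.yL x u) x' s' t' k = 0
  · exact .inr (.inl a2)
  obtain ⟨k, b1⟩ := not_forall.1 a1
  obtain ⟨k', b2⟩ := not_forall.1 a2
  rw [G.freey_seq x l'] at b1 b2
  rcases G.freey_cell x h (G.freey_sup x b1) (G.freey_sup x b2) with
    e | ⟨l, i, i', c1, c2, c3, c4, e1, e2⟩
  · exact (e.2.2 x' s' t' k k' l' rfl rfl).elim
  have h7 := G.seven' l
  obtain ⟨hM, ε, hε, hc⟩ := G.uniqY s u s' t' (x⁻¹ * x') k k' i i' l l'
    (by rw [mul_smul, inv_smul_eq_iff]; exact e1) (by rw [mul_smul, inv_smul_eq_iff]; exact e2)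
    ⟨i - i' + M s u, by omega, by omega, .inl ⟨-1, by ring⟩⟩
  have hj : ∀ j, G.col none x' s' t' j = G.col none x s u (i + ε * (j - k)) := fun j => by
    rw [col, col, ← hc, mul_smul, smul_inv_smul]
  have f1 : G.seq (G.yL x s) x' s' t' = fun j => 1 * (dl (M s u) 1 (i + ε * (j - k)) -
      dl (M s u) (1 + 1) (i + ε * (j - k))) := by
    funext j
    rw [G.freey_seq x l', hj, G.Ly_col x l, one_mul, one_add_one_eq_two]
  have f2 : G.seq (G.yL x u) x' s' t' = fun j => -1 * (dl (M s u) (M s u - 1) (i + ε * (j - k)) -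
      dl (M s u) (M s u - 1 + 1) (i + ε * (j - k))) := by
    funext j
    rw [G.freey_seq x l', hj, G.col_swap x none l.symm, G.Ly_col x l.symm, M.symmetric u s,
      seq_dl (a := 1) (b := M s u - 1 + 1) (l := i + ε * (j - k)) 0 (.inr (by ring)),
      seq_dl (a := 2) (b := M s u - 1) (l := i + ε * (j - k)) 0 (.inr (by ring))]
    ring
  rw [f1, f2, hM]
  exact cond_dl (seq_nd (by omega) (by omega)) (seq_nd (by omega) (by omega))
    (seq_nd (by omega) (by omega)) (seq_nd (by omega) (by omega)) hε 1 (-1) i k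

lemma nadj_near_y (s : S) : ¬ G.Γ.Adj (.inl (x • G.ξ s)) (.inr (G.yL x s)) := by
  rw [adj_vl]
  rintro ⟨x', r, a, b⟩
  change G.cr none _ (x' • G.α none r) at b
  rcases G.freey_sup x (c := x' • G.α none r) a with e | ⟨t, l, e⟩ <;> rw [e] at b
  · exact G.ncr_self s ((G.cr_iff none x _ _).1 b)
  · have h7 := G.seven' l
    have e1 := G.bt_pred x l 0
    rw [ch_zero, zero_add, lt_one] at e1
    rw [e1] at b
    rcases G.bt_cr x none l b with c | c <;> have := seq_lin (by omega) c <;> omega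

lemma nadj_far_y (h : Lk M s u) :
    ¬ G.Γ.Adj (.inl (x • G.θ (ag M s) • G.ξ s)) (.inr (G.yL x u)) := by
  rw [adj_vl]
  rintro ⟨x', r, a, b⟩
  change G.cr none _ (x' • G.α none r) at b
  rcases G.freey_sup x (c := x' • G.α none r) a with e | ⟨t, l, e⟩ <;> rw [e] at b
  · have h7 := G.seven' h
    have e1 := G.bt_succ x h 1
    rw [ch_one, lt_one, mul_smul] at e1
    rw [e1, ← G.col_m x none h] at b
    rcases G.bt_cr x none h b with c | c <;> have := seq_lin (by omega) c <;> omega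
  · exact G.ncr_far s u t h l ((G.cr_iff none x _ _).1 b)

lemma nadj_far_d (s : S) :
    ¬ G.Γ.Adj (.inl (x • G.θ (ag M s) • G.ξ s)) (.inr (G.dL (x • G.α none s))) := by
  rw [adj_vl]
  rintro ⟨x', r, a, b⟩
  change G.cr none _ (x' • G.α none r) at b
  have e : x' • G.α none r = x • G.α none s := by
    by_contra e
    exact a (if_neg e)
  rw [e, cr_iff] at b
  have c := G.cr_neg none _ _ (G.cr_smul none (G.θ (ag M s)) _ _ b)
  rw [cell_twice, G.refl, neg_neg] at c
  exact G.ncr_self s c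

end GS

end Pool.Agent.Lib.MP_19b52f_al.XL
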