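import Pool.Agent.Lib.MP_19b52f_al.EA2.Word

/-! The finite model: states, colours of mirrors, colours of the new walls. -/

namespace Pool.Agent.Lib.MP_19b52f_al.XL

open Pool.Agent.Lib.MP_19b52f_al.EA Pool.Agent.Lib.MP_19b52f_al.EA2

variable {S : Type}

/-- Two different generators with a finite label. -/
def Lk (M : CoxeterMatrix S) (s t : S) : Prop := s ≠ t ∧ M s t ≠ 0

/-- The colours are different up to sign and never lie in one cell. -/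
def ApB (M : CoxeterMatrix S) {Φ C : Type} [SMul Φ C] [Neg C] (b : S → S → ℤ → C) (x y : C) : Prop :=
  x ≠ y ∧ x ≠ -y ∧ ∀ (φ : Φ) s t i j, Lk M s t → x = φ • b s t i → y = φ • b s t j → False

/-- The cell `(φ; s', t')` has the colours of the cell `(1; s, t)` in the same cyclic order up to
reversal. -/
def CohB (M : CoxeterMatrix S) {Φ C : Type} [SMul Φ C] (b : S → S → ℤ → C) (φ : Φ) (s' t' s t : S)
    (a k : ℤ) : Prop :=
  M s' t' = M s t ∧ ∃ ε : ℤ, (ε = 1 ∨ ε = -1) ∧ ∀ j, φ • b s' t' j = b s t (k + ε * (j - a))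

open Classical in
/-- The finite model. The kind `none` is used for the letters `y` and `d`, the kind `some (s, t)`
for the arcs in the cells with the label of `s, t`. -/
structure GS (M : CoxeterMatrix S) where
  Φ : Type
  [grp : Group Φ]
  [finΦ : Finite Φ]
  θ : Artin M →* Φ
  sq : ∀ s, θ (ag M s) * θ (ag M s) = 1
  seven : ∀ s t, Lk M s t → 7 ≤ M s t
  C : Type
  [finC : Finite C]
  [ngC : InvolutiveNeg C]
  [actC : MulAction Φ C]
  smul_neg : ∀ (φ : Φ) (c : C), φ • (-c) = -(φ • c)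
  α : Option (S × S) → S → C
  b : Option (S × S) → S → S → ℤ → C
  refl : ∀ i s, θ (ag M s) • α i s = -α i s
  ne_neg : ∀ i s, α i s ≠ -α i s
  root : ∀ i s t, Lk M s t → ∀ k, θ (W (ag M s) (ag M t) (k - 1)) • α i (lt s t k) = b i s t k
  add_m : ∀ i s t, Lk M s t → ∀ k, b i s t (k + M s t) = -b i s t k
  swap : ∀ i s t, Lk M s t → ∀ k, b i t s k = b i s t (M s t + 1 - k)
  inj : ∀ i s t, Lk M s t → ∀ k l, b i s t k = b i s t l → 2 * (M s t : ℤ) ∣ k - l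
  η : Option (S × S) → Φ → C → ZMod 2
  η_step : ∀ i x s p, η i (x * θ (ag M s)) p =
    η i x p + if p = x • α i s ∨ p = -(x • α i s) then 1 else 0
  uniqP : ∀ (i : S × S) s t s' t' (φ : Φ) a a' k k', Lk M s t → M i.1 i.2 = M s t → Lk M s' t' →
    φ • b (some i) s' t' a = b (some i) s t k → φ • b (some i) s' t' a' = b (some i) s t k' →
    ¬ (M s t : ℤ) ∣ k - k' →
    CohB M (b (some i)) φ s' t' s t a k ∨ (M s' t' ≠ M s t ∧ (M s t : ℤ) ∣ 2 * (k - k'))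
  uniqY : ∀ s t s' t' (φ : Φ) a a' k k', Lk M s t → Lk M s' t' →
    φ • b none s' t' a = b none s t k → φ • b none s' t' a' = b none s t k' →
    (∃ d : ℤ, 1 ≤ d ∧ d ≤ 3 ∧ ((M s t : ℤ) ∣ k - k' - d ∨ (M s t : ℤ) ∣ k - k' + d)) →
    CohB M (b none) φ s' t' s t a k
  ap_inf : ∀ s u, s ≠ u → M s u = 0 → ApB M (Φ := Φ) (b none) (α none s) (α none u)
  ap_one : ∀ s t u, Lk M s t → u ≠ s → u ≠ t → ApB M (Φ := Φ) (b none) (α none u) (b none s t 2)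
  ap_two : ∀ s t u v, Lk M s t → Lk M u v → s ≠ u → ¬ (t = u ∧ v = s) →
    ApB M (Φ := Φ) (b none) (b none s t 2) (b none u v 2)
  V : Type
  [finV : Finite V]
  [actV : MulAction Φ V]
  ξ : S → V
  ξ_swap : ∀ s t, Lk M s t → θ (ag M s) • ξ t = θ (ag M t) • ξ s
  cm : V → V → Prop
  cm_symm : ∀ v w, cm v w → cm w v
  cm_irrefl : ∀ v, ¬ cm v v
  cm_smul : ∀ (φ : Φ) v w, cm v w → cm (φ • v) (φ • w)
  ξ_inj : ∀ s t, ξ s = ξ t → s = t
  ξ_ne : ∀ u s t, Lk M s t → ξ u ≠ θ (ag M s) • ξ t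
  cm_ξξ : ∀ s t, cm (ξ s) (ξ t) ↔ Lk M s t
  cm_ξμ : ∀ u s t, Lk M s t → (cm (ξ u) (θ (ag M s) • ξ t) ↔ u = s ∨ u = t)
  far_self : ∀ s, ξ s ≠ θ (ag M s) • ξ s ∧ ¬ cm (ξ s) (θ (ag M s) • ξ s)
  poly_eq : ∀ s t, Lk M s t → ∀ l, θ (W (ag M s) (ag M t) l) • θ (ag M s) • ξ t = θ (ag M s) • ξ t →
    2 * (M s t : ℤ) ∣ l
  poly_cm : ∀ s t, Lk M s t → ∀ l,
    cm (θ (ag M s) • ξ t) (θ (W (ag M s) (ag M t) l) • θ (ag M s) • ξ t) →
    ∃ d : ℤ, -2 ≤ d ∧ d ≤ 2 ∧ 2 * (M s t : ℤ) ∣ l - d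
  cr : Option (S × S) → V → C → Prop
  cr_neg : ∀ i v c, cr i v c → cr i v (-c)
  cr_smul : ∀ i (φ : Φ) v c, cr i v c → cr i (φ • v) (φ • c)
  cr_lk : ∀ i s t, Lk M s t → cr i (ξ t) (α i s)
  ncr_self : ∀ s, ¬ cr none (ξ s) (α none s)
  ncr_far : ∀ s x v, Lk M s x → Lk M x v → ¬ cr none (θ (ag M s) • ξ s) (b none x v 2)
  cr_poly : ∀ i s t, Lk M s t → ∀ k, cr i (θ (ag M s) • ξ t) (b i s t k) →
    (M s t : ℤ) ∣ k ∨ (M s t : ℤ) ∣ k - 1

attribute [instance] GS.grp GS.finΦ GS.finC GS.ngC GS.actC GS.finV GS.actV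

end Pool.Agent.Lib.MP_19b52f_al.XL
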