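import Pool.Agent.Lib.MP_19b52f_al.XL.Coc
import Pool.Agent.Lib.MP_19b52f_al.XL.FreeP

/-! The homomorphism that reads the arcs of one cell. -/

namespace Pool.Agent.Lib.MP_19b52f_al.XL

open Pool.Agent.Lib.MP_19b52f_al.EA Pool.Agent.Lib.MP_19b52f_al.EA2

variable {S : Type} {M : CoxeterMatrix S} {s t : S}

open Classical in
/-- The value of the arc on the chamber `k`, if there is one. -/
noncomputable def pot {A : Type} [Group A] (a b : A) (m k : ℤ) : A :=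
  if h : ∃ r, 1 ≤ r ∧ r ≤ m - 1 ∧ 2 * m ∣ k - ps m r then kp a b m h.choose else 1

section pot
variable {A : Type} [Group A] {a b : A} {m : ℤ}

lemma pot_eq (hm : 7 ≤ m) {r k : ℤ} (h1 : 1 ≤ r) (h2 : r ≤ m - 1) (e : 2 * m ∣ k - ps m r) :
    pot a b m k = kp a b m r := by
  have hx : ∃ r, 1 ≤ r ∧ r ≤ m - 1 ∧ 2 * m ∣ k - ps m r := ⟨r, h1, h2, e⟩
  obtain ⟨h3, h4, e'⟩ := hx.choose_spec
  rw [pot, dif_pos hx]
  congr 1
  by_contra hn
  refine (ps_far hm h3 h4 h1 h2 hn).1 ?_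
  have := dvd_sub e' e
  rwa [sub_sub_sub_cancel_left] at this

lemma pot_zero (hm : 7 ≤ m) {k : ℤ} (e : m ∣ k) : pot a b m k = 1 := by
  rw [pot, dif_neg]
  rintro ⟨r, h1, h2, e'⟩
  have h3 : m ∣ r := by
    have := dvd_sub (dvd_sub e (Dvd.dvd.trans (Dvd.intro_left 2 rfl) e')) (ps_dvd m r)
    rwa [sub_sub_cancel, sub_sub_cancel] at this
  have := Int.le_of_dvd (by omega) h3
  omega

lemma kpa_opp (hm : 7 ≤ m) {r k : ℤ} (h1 : 1 ≤ r) (h2 : r ≤ m - 1)
    (e : 2 * m ∣ k - ps m r + m) : pot a b m k = 1 := by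
  rw [pot, dif_neg]
  rintro ⟨r', h3, h4, e'⟩
  have h5 : 2 * m ∣ ps m r - ps m r' - m := by
    have := dvd_sub e' e
    rwa [show k - ps m r' - (k - ps m r + m) = ps m r - ps m r' - m by ring] at this
  by_cases hn : r' = r
  · rw [hn, sub_self, zero_sub, dvd_neg] at h5
    have := Int.le_of_dvd (by omega) h5
    omega
  · exact (ps_far hm h3 h4 h1 h2 hn).2.2.2 h5

lemma kpa_val (h : W a b m = W b a m) (hm : 7 ≤ m) {r : ℤ} (h1 : 0 ≤ r) (h2 : r ≤ m) :
    (Odd r → pot a b m r = kp a b m r ∧ pot a b m (r + m) = 1) ∧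
      (¬ Odd r → pot a b m r = 1 ∧ pot a b m (r + m) = kp a b m r) := by
  by_cases h0 : r = 0 ∨ r = m
  · have e1 : m ∣ r := by rcases h0 with rfl | rfl <;> simp
    have e2 : kp a b m r = 1 := by
      rcases h0 with rfl | rfl
      exacts [kp_zero a b m, kp_m h hm]
    rw [pot_zero hm e1, pot_zero hm (dvd_add e1 dvd_rfl), e2]
    exact ⟨fun _ => ⟨rfl, rfl⟩, fun _ => ⟨rfl, rfl⟩⟩
  have h3 : 1 ≤ r := by omega
  have h4 : r ≤ m - 1 := by omega
  refine ⟨fun o => ?_, fun o => ?_⟩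
  · have e : ps m r = r := if_pos o
    exact ⟨pot_eq hm h3 h4 (by rw [e, sub_self]; exact dvd_zero _),
      kpa_opp hm h3 h4 ⟨1, by rw [e]; ring⟩⟩
  · have e : ps m r = r + m := if_neg o
    exact ⟨kpa_opp hm h3 h4 ⟨0, by rw [e]; ring⟩,
      pot_eq hm h3 h4 (by rw [e, sub_self]; exact dvd_zero _)⟩

/-- The meridian is read off from the potential. -/
lemma pot_Mj (h : W a b m = W b a m) (hm : 7 ≤ m) {j : ℤ} (h1 : 1 ≤ j) (h2 : j ≤ m) :
    pot a b m j * (if 3 ≤ j then zz a b m else 1) * ((pot a b m (j + m - 1))⁻¹ * pot a b m (j + m)) *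
      (pot a b m (j - 1) * if 3 ≤ j - 1 then zz a b m else 1)⁻¹ = Mj a b j := by
  have v1 := kpa_val h hm (r := j) (by omega) h2
  have v0 := kpa_val h hm (r := j - 1) (by omega) (by omega)
  have e := kp_succ h j
  have c1 := (zz_comm_kp h j).eq
  have c0 := (zz_comm_kp h (j - 1)).eq
  rw [show j + m - 1 = j - 1 + m by ring, eq_mul_inv_of_mul_eq e.symm]
  by_cases o : Odd j
  · have o' : ¬ Odd (j - 1) := by rw [Int.odd_iff] at o ⊢; omega
    rw [(v1.1 o).1, (v1.1 o).2, (v0.2 o').1, (v0.2 o').2]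
    rcases lt_trichotomy j 3 with c | c | c
    · rw [if_neg (by omega), if_neg (by omega), if_neg (by omega)]
      group
    · rw [if_pos (by omega), if_neg (by omega), if_pos c]
      group
    · rw [if_pos (by omega), if_pos (by omega), if_neg (by omega), mul_one, mul_one, one_mul,
        mul_assoc, mul_assoc, ← mul_inv_rev, c0, mul_inv_rev, mul_inv_cancel_left]
  · have o' : Odd (j - 1) := by rw [Int.odd_iff] at o ⊢; omega
    rw [(v1.2 o).1, (v1.2 o).2, (v0.1 o').1, (v0.1 o').2]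
    rcases lt_trichotomy j 3 with c | c | c
    · rw [if_neg (by omega), if_neg (by omega), if_neg (by omega)]
      group
    · exact absurd (c ▸ (by decide : Odd (3 : ℤ))) o
    · rw [if_pos (by omega), if_pos (by omega), if_neg (by omega), one_mul, inv_one, one_mul, c1,
        mul_one, mul_inv_rev, mul_assoc, mul_inv_cancel_left]

lemma zz_comm_pot (h : W a b m = W b a m) (k : ℤ) : Commute (zz a b m) (pot a b m k) := by
  unfold pot
  split_ifs
  exacts [zz_comm_kp h _, Commute.one_right _]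

end pot

namespace GS
variable (G : GS M) (x : G.Φ)

open Classical in
/-- The values of the letters. -/
noncomputable def κp (s t : S) (a : G.Lt) : Artin M :=
  if h : ∃ r : ℤ, 1 ≤ r ∧ r ≤ M s t - 1 ∧ a = .inr (G.pL x s t r) then
    kp (ag M s) (ag M t) (M s t) h.choose
  else if a = .inr (G.dL (G.col none x s t 3)) then zz (ag M s) (ag M t) (M s t) else 1

lemma κp_pL (h : Lk M s t) {r : ℤ} (h1 : 1 ≤ r) (h2 : r ≤ M s t - 1) :
    G.κp x s t (.inr (G.pL x s t r)) = kp (ag M s) (ag M t) (M s t) r := by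
  have hx : ∃ r' : ℤ, 1 ≤ r' ∧ r' ≤ M s t - 1 ∧
      (Sum.inr (G.pL x s t r) : G.Lt) = .inr (G.pL x s t r') := ⟨r, h1, h2, rfl⟩
  obtain ⟨h3, h4, e⟩ := hx.choose_spec
  rw [κp, dif_pos hx, ← G.pL_inj x h h1 h2 h3 h4 (Sum.inr.inj e)]

lemma κp_dL (s t : S) :
    G.κp x s t (.inr (G.dL (G.col none x s t 3))) = zz (ag M s) (ag M t) (M s t) := by
  rw [κp, dif_neg, if_pos rfl]
  rintro ⟨r, -, -, e⟩
  exact Sum.inl_ne_inr (Sum.inr.inj e)

lemma κp_inl (s t : S) (v : G.V) : G.κp x s t (.inl v) = 1 := by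
  rw [κp, dif_neg, if_neg Sum.inl_ne_inr]
  rintro ⟨r, -, -, e⟩
  exact Sum.inl_ne_inr e

lemma κp_cases (h : Lk M s t) (a : G.Lt) : G.κp x s t a = 1 ∨
    a = .inr (G.dL (G.col none x s t 3)) ∨
      ∃ r : ℤ, 1 ≤ r ∧ r ≤ M s t - 1 ∧ a = .inr (G.pL x s t r) := by
  have _ := h
  by_cases h1 : ∃ r : ℤ, 1 ≤ r ∧ r ≤ M s t - 1 ∧ a = .inr (G.pL x s t r)
  · exact Or.inr (Or.inr h1)
  by_cases h2 : a = .inr (G.dL (G.col none x s t 3))
  · exact Or.inr (Or.inl h2)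
  · exact Or.inl (by rw [κp, dif_neg h1, if_neg h2])

lemma κp_comm (h : Lk M s t) (a b : G.Lt) (e : G.Γ.Adj a b) :
    Commute (G.κp x s t a) (G.κp x s t b) := by
  rcases G.κp_cases x h a with ha | rfl | ⟨r, h1, h2, rfl⟩
  · rw [ha]
    exact Commute.one_left _
  · rcases G.κp_cases x h b with hb | rfl | ⟨r, h1, h2, rfl⟩
    · rw [hb]
      exact Commute.one_right _
    · exact Commute.refl _
    · rw [κp_dL, G.κp_pL x h h1 h2]
      exact zz_comm_kp h.braid r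
  · rcases G.κp_cases x h b with hb | rfl | ⟨r', h3, h4, rfl⟩
    · rw [hb]
      exact Commute.one_right _
    · rw [κp_dL, G.κp_pL x h h1 h2]
      exact (zz_comm_kp h.braid r).symm
    · by_cases hr : r = r'
      · rw [hr]
      · exact absurd (G.free_pp x h h1 h2 h3 h4 hr) ((G.adj_ll _ _).1 e).2

/-- The homomorphism that reads the arcs. -/
noncomputable def kπ (h : Lk M s t) : GP G.Γ Zm →* Artin M :=
  kap G.Γ (G.κp x s t) (G.κp_comm x h)

lemma kπ_lk (h : Lk M s t) {l : ℤ} (h1 : -1 ≤ l) (h2 : l ≤ 1) {r : GP G.Γ Zm}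
    (hr : r ∈ PX G.Γ Zm (G.lk2 (G.bt x s t l))) : G.kπ x h r ∈ Hl (ag M s) (ag M t) l := by
  refine kap_mem _ _ (fun v hv => ?_) hr
  have e : G.Γ.Adj (.inl (G.bt x s t l)) v := hv.1
  rcases G.κp_cases x h v with hv | rfl | ⟨r, h3, h4, rfl⟩
  · rw [hv]
    exact one_mem _
  · exact absurd e (G.nadj_bt_dL x h h1 h2)
  · rw [G.κp_pL x h h3 h4]
    exact kp_mem_Hl h.braid (G.seven' h) h1 h2 h3 h4 (G.adj_bt_pL x h e)

variable [Finite S]

lemma kpb_two (h : Lk M s t) (k : ℤ) {r : ℤ} (h1 : 1 ≤ r) (h2 : r ≤ M s t - 1)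
    (H : ∀ r' : ℤ, 1 ≤ r' → r' ≤ M s t - 1 → r' ≠ r → ¬ 2 * (M s t : ℤ) ∣ k - ps (M s t) r' ∧
      ¬ 2 * (M s t : ℤ) ∣ k - (ps (M s t) r' + 1)) : G.kπ x h (G.U x s t k) =
    kp (ag M s) (ag M t) (M s t) r ^ (dl (M s t) (ps (M s t) r) k - dl (M s t) (ps (M s t) r + 1) k) *
      zz (ag M s) (ag M t) (M s t) ^ dl (M s t) 3 k := by
  rw [kπ, U_eq, kap_pw_two _ _ (a := .inr (G.pL x s t r)) (b := .inr (G.dL (G.col none x s t 3)))
    (by simp [pL, dL]) (by rw [G.κp_pL x h h1 h2, κp_dL]; exact (zz_comm_kp h.braid r).symm),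
    G.κp_pL x h h1 h2, κp_dL, Sum.elim_inr, Sum.elim_inr, G.seq_pL x h, G.seq_dL x h]
  intro v hv hv' hn
  rcases G.κp_cases x h v with e | e | ⟨r', a1, a2, rfl⟩
  · exact e
  · exact absurd e hv'
  · have := H r' a1 a2 fun e => hv (by rw [e])
    rw [Sum.elim_inr, G.seq_pL x h, dl, dl, if_neg this.1, if_neg this.2] at hn
    exact absurd rfl hn

lemma kpb_gen (h : Lk M s t) (y : G.Φ) (r : S) :
    G.kπ x h (G.c y (ag M r)) = G.kπ x h (G.u y r) := kap_c_gen _ _ (G.κp_inl x s t) y r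

lemma kπ_U (h : Lk M s t) (k : ℤ) : G.kπ x h (G.U x s t k) =
    (pot (ag M s) (ag M t) (M s t) (k - 1))⁻¹ * pot (ag M s) (ag M t) (M s t) k *
      zz (ag M s) (ag M t) (M s t) ^ dl (M s t) 3 k := by
  have hm : (7 : ℤ) ≤ M s t := by exact_mod_cast G.seven s t h
  have key : ∀ r r' : ℤ, 1 ≤ r → r ≤ M s t - 1 → 1 ≤ r' → r' ≤ M s t - 1 →
      2 * (M s t : ℤ) ∣ k - ps (M s t) r → ¬ 2 * (M s t : ℤ) ∣ k - (ps (M s t) r' + 1) := by
    intro r r' a1 a2 a3 a4 e e'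
    by_cases c : r' = r
    · exact seq_one (by omega) e' e (by rw [c]; ring)
    · exact (ps_far hm a3 a4 a1 a2 c).2.1 (seq_neg (dvd_sub e e') 0 (by ring))
  have one : ∀ k r r' : ℤ, 1 ≤ r → r ≤ M s t - 1 → 1 ≤ r' → r' ≤ M s t - 1 → r' ≠ r →
      2 * (M s t : ℤ) ∣ k - ps (M s t) r → ¬ 2 * (M s t : ℤ) ∣ k - ps (M s t) r' :=
    fun k r r' a1 a2 a3 a4 c e e' => (ps_far hm a3 a4 a1 a2 c).1 (by simpa using dvd_sub e' e)
  have sh : ∀ a : ℤ, k - 1 - a = k - (a + 1) := fun a => by ring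
  by_cases c1 : ∃ r : ℤ, 1 ≤ r ∧ r ≤ M s t - 1 ∧ 2 * (M s t : ℤ) ∣ k - ps (M s t) r
  · obtain ⟨r, a1, a2, e⟩ := c1
    rw [G.kpb_two x h k a1 a2 fun r' a3 a4 c => ⟨one k r r' a1 a2 a3 a4 c e, key r r' a1 a2 a3 a4 e⟩,
      pot_eq hm a1 a2 e, pot, dif_neg fun ⟨r', a3, a4, e'⟩ => key r r' a1 a2 a3 a4 e (sh _ ▸ e'),
      dl, dl, if_pos e, if_neg (key r r a1 a2 a1 a2 e)]
    simp
  by_cases c2 : ∃ r : ℤ, 1 ≤ r ∧ r ≤ M s t - 1 ∧ 2 * (M s t : ℤ) ∣ k - 1 - ps (M s t) r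
  · obtain ⟨r, a1, a2, e⟩ := c2
    rw [G.kpb_two x h k a1 a2 fun r' a3 a4 c =>
        ⟨fun e' => c1 ⟨r', a3, a4, e'⟩, sh _ ▸ one _ r r' a1 a2 a3 a4 c e⟩,
      pot_eq hm a1 a2 e, pot, dif_neg c1, dl, dl, if_neg fun e' => c1 ⟨r, a1, a2, e'⟩,
      if_pos (sh _ ▸ e)]
    simp
  · have a2 : (1 : ℤ) ≤ M s t - 1 := by omega
    rw [G.kpb_two x h k le_rfl a2 fun r' a3 a4 _ =>
        ⟨fun e' => c1 ⟨r', a3, a4, e'⟩, fun e' => c2 ⟨r', a3, a4, (sh _).symm ▸ e'⟩⟩,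
      pot, pot, dif_neg c1, dif_neg c2, dl, dl, if_neg fun e' => c1 ⟨1, le_rfl, a2, e'⟩,
      if_neg fun e' => c2 ⟨1, le_rfl, a2, (sh _).symm ▸ e'⟩]
    simp

lemma kπ_W (h : Lk M s t) {k : ℤ} (h1 : 0 ≤ k) (h2 : k ≤ 2 * M s t) :
    G.kπ x h (G.c x (W (ag M s) (ag M t) k)) =
      pot (ag M s) (ag M t) (M s t) k * if 3 ≤ k then zz (ag M s) (ag M t) (M s t) else 1 := by
  have hm : (7 : ℤ) ≤ M s t := by exact_mod_cast G.seven s t h
  induction k, h1 using Int.leInduction with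
  | base => rw [W_zero, c_one, map_one, pot_zero hm (dvd_zero _), if_neg (by omega), mul_one]
  | succ k hk ih =>
    have e := G.kπ_U x h (k + 1)
    rw [U, add_sub_cancel_right] at e
    have z1 := zz_comm_pot h.braid k
    have z2 := zz_comm_pot h.braid (k + 1)
    rw [W_succ, ← ag_lt, c_mul, map_mul, ih (by omega), kpb_gen, ← ch, e, dl]
    rcases lt_trichotomy k 2 with c | rfl | c
    · rw [if_neg (by omega), if_neg (seq_nd (by omega) (by omega)), if_neg (by omega)]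
      group
    · rw [if_neg (by omega), if_pos (by simp), if_pos (by omega)]
      group
    · rw [if_pos (by omega), if_neg (seq_nd (by omega) (by omega)), if_pos (by omega), zpow_zero,
        mul_one, ← z1.eq, mul_assoc, mul_inv_cancel_left, z2.eq]

theorem kπ_c (h : Lk M s t) {p : Artin M} (hp : p ∈ Pe (ag M s) (ag M t) (M s t)) :
    G.kπ x h (G.c x p) = p := by
  have hm : (7 : ℤ) ≤ M s t := by exact_mod_cast G.seven s t h
  have hθ : ∀ g ∈ Pe (ag M s) (ag M t) (M s t), x * G.θ g = x := fun g hg => by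
    rw [G.θ_Pe h hg, mul_one]
  rw [Pe_eq h.braid hm] at hp hθ
  induction hp using Subgroup.closure_induction with
  | one => rw [c_one, map_one]
  | mul p q hp _ ih ih' => rw [c_mul, map_mul, hθ p hp, ih, ih']
  | inv p hp ih =>
    have := c_inv x p
    rw [hθ p hp] at this
    rw [this, map_inv, ih]
  | mem p hp =>
    have h0 := hθ p (Subgroup.subset_closure hp)
    rcases hp with rfl | ⟨j, a1, a2, rfl⟩
    · have e := W_add_two h.braid 0
      rw [zero_add, W_zero, mul_one] at e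
      have := G.kπ_W x h (k := 2 * M s t) (by omega) le_rfl
      rwa [pot_zero hm (dvd_mul_left _ _), if_pos (by omega), one_mul, e] at this
    · have e := congrArg (fun g => G.kπ x h (G.c x g)) (W_lt (ag M s) (ag M t) j)
      simp only [c_mul, map_mul, h0, ← ag_lt] at e
      rw [kpb_gen, ← ch, G.U_back h, kπ_U, G.kπ_W x h (by omega) (by omega),
        G.kπ_W x h (by omega) (by omega), dl, if_neg (seq_nd (by omega) (by omega)), zpow_zero,
        mul_one] at e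
      exact (eq_mul_inv_of_mul_eq e.symm).trans (pot_Mj h.braid hm a1 a2)

end GS

end Pool.Agent.Lib.MP_19b52f_al.XL
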