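import Pool.Agent.Lib.MP_19b52f_al.EA2.Frame

/-! Products of powers of pairwise commuting generators of a right-angled Artin group. -/

namespace Pool.Agent.Lib.MP_19b52f_al.XL

open Pool.Agent.Lib.MP_19b52f_al.EA Pool.Agent.Lib.MP_19b52f_al.EA2

variable {Λ : Type} (Γ : SimpleGraph Λ)

/-- A power of a generator. -/
def gen (v : Λ) (k : ℤ) : GP Γ Zm := gv Γ v (Multiplicative.ofAdd k)

/-- The sign attached to a Boolean. -/
def sgn (ε : Bool) : ℤ := if ε then 1 else -1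

/-- A set of pairwise adjacent vertices. -/
def Cq (X : Set Λ) : Prop := ∀ a ∈ X, ∀ b ∈ X, a ≠ b → Γ.Adj a b

/-- The product of the powers in a fixed order. -/
noncomputable def pw [Finite Λ] (n : Λ → ℤ) : GP Γ Zm :=
  ((@Finset.univ Λ (Fintype.ofFinite Λ)).toList.map fun v => gen Γ v (n v)).prod

open Classical in
/-- The indicator of a set of vertices. -/
noncomputable def ind (X : Set Λ) (v : Λ) : ℤ := if v ∈ X then 1 else 0

/-- The homomorphism with given values on the generators. -/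
def kap {H : Type} [Group H] (κ : Λ → H) (h : ∀ v w, Γ.Adj v w → Commute (κ v) (κ w)) :
    GP Γ Zm →* H :=
  gpLift (fun v => zpowersHom H (κ v)) (fun v w hvw _ _ => (h v w hvw).zpow_zpow _ _)

variable {Γ}

@[simp] lemma gen_zero (v : Λ) : gen Γ v 0 = 1 := map_one (gv Γ v)

lemma gen_add (v : Λ) (k l : ℤ) : gen Γ v (k + l) = gen Γ v k * gen Γ v l :=
  map_mul (gv Γ v) (Multiplicative.ofAdd k) (Multiplicative.ofAdd l)

lemma gen_neg (v : Λ) (k : ℤ) : gen Γ v (-k) = (gen Γ v k)⁻¹ :=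
  map_inv (gv Γ v) (Multiplicative.ofAdd k)

lemma gen_mem {X : Set Λ} {v : Λ} (h : v ∈ X) (k : ℤ) : gen Γ v k ∈ PX Γ Zm X := gv_mem h _

lemma kap_gen {H : Type} [Group H] (κ : Λ → H) (h) (v : Λ) (k : ℤ) :
    kap Γ κ h (gen Γ v k) = κ v ^ k := gpLift_gv _ _ _ _

lemma kap_mem {H : Type} [Group H] (κ : Λ → H) (h) {X : Set Λ} {K : Subgroup H}
    (hK : ∀ v ∈ X, κ v ∈ K) {g : GP Γ Zm} (hg : g ∈ PX Γ Zm X) : kap Γ κ h g ∈ K :=
  map_mem_of_PX _ (fun v hv k => (kap_gen κ h v k.toAdd).symm ▸ zpow_mem (hK v hv) _) hg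

lemma pw_comm {a b : Λ} (h : a = b ∨ Γ.Adj a b) (k l : Zm) : Commute (gv Γ a k) (gv Γ b l) := by
  rcases h with rfl | h
  · exact (Commute.all k l).map _
  · exact gv_comm h k l

lemma comm_PX2 {X Y : Set Λ} (h : ∀ a ∈ X, ∀ b ∈ Y, a = b ∨ Γ.Adj a b) {g g' : GP Γ Zm}
    (hg : g ∈ PX Γ Zm X) (hg' : g' ∈ PX Γ Zm Y) : Commute g g' := by
  refine PX_le (S := Subgroup.centralizer {g}) (fun b hb l => ?_) hg' _ rfl
  rintro _ rfl
  refine (PX_le (S := Subgroup.centralizer {gv Γ b l}) (fun a ha k => ?_) hg _ rfl).symm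
  rintro _ rfl
  exact (pw_comm (h a ha b hb) k l).symm.eq

lemma pw_list_mul {H : Type} [Monoid H] {F G : Λ → H} (h : ∀ a b, Commute (F a) (G b))
    (l : List Λ) : (l.map fun v => F v * G v).prod = (l.map F).prod * (l.map G).prod := by
  induction l with
  | nil => simp
  | cons x l ih =>
    have : Commute (G x) (l.map F).prod := Commute.list_prod_right _ _ (fun y hy => by
      obtain ⟨z, -, rfl⟩ := List.mem_map.mp hy
      exact (h z x).symm)
    simp only [List.map_cons, List.prod_cons, ih]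
    exact this.mul_mul_mul_comm _ _

lemma pw_list_one [Finite Λ] {H : Type} [Monoid H] {F : Λ → H} {a : Λ}
    (h : ∀ v, v ≠ a → F v = 1) :
    ((@Finset.univ Λ (Fintype.ofFinite Λ)).toList.map F).prod = F a := by
  classical
  rw [List.prod_map_eq_pow_single a F (fun v hv _ => h v hv),
    List.count_eq_one_of_mem (Finset.nodup_toList _) (by simp), pow_one]

variable [Finite Λ]

@[simp] lemma pw_zero : pw Γ (fun _ => 0) = 1 := by simp [pw]

lemma pw_mem {n : Λ → ℤ} {X : Set Λ} (h : ∀ v, n v ≠ 0 → v ∈ X) : pw Γ n ∈ PX Γ Zm X := by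
  refine list_prod_mem (fun y hy => ?_)
  obtain ⟨v, -, rfl⟩ := List.mem_map.mp hy
  by_cases hv : n v = 0
  · rw [hv, gen_zero]
    exact one_mem _
  · exact gen_mem (h v hv) _

lemma pw_add {n n' : Λ → ℤ} (h : ∀ a b, n a ≠ 0 → n' b ≠ 0 → a = b ∨ Γ.Adj a b) :
    pw Γ (fun v => n v + n' v) = pw Γ n * pw Γ n' := by
  simp only [pw, gen_add]
  refine pw_list_mul (fun a b => ?_) _
  by_cases ha : n a = 0
  · simp [ha]
  by_cases hb : n' b = 0
  · simp [hb]
  exact pw_comm (h a b ha hb) _ _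

lemma pw_neg {n : Λ → ℤ} (h : Cq Γ {v | n v ≠ 0}) : pw Γ (fun v => -n v) = (pw Γ n)⁻¹ := by
  refine eq_inv_of_mul_eq_one_right ?_
  rw [← pw_add (fun a b ha hb => (eq_or_ne a b).imp_right (h a ha b (neg_ne_zero.mp hb)))]
  simp

lemma pw_single {n : Λ → ℤ} {a : Λ} (h : ∀ v, v ≠ a → n v = 0) : pw Γ n = gen Γ a (n a) :=
  pw_list_one (F := fun v => gen Γ v (n v)) (fun v hv => by rw [h v hv, gen_zero])

lemma pw_insert {X : Set Λ} {a : Λ} (ha : a ∉ X) (h : ∀ v ∈ X, Γ.Adj a v) :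
    pw Γ (ind (insert a X)) = pw Γ (ind X) * gen Γ a 1 := by
  have e : ind (insert a X) = fun v => ind X v + ind {a} v := by
    funext v
    by_cases hv : v = a
    · simp [ind, hv, ha]
    · rw [ind, ind, ind, if_neg (show v ∉ ({a} : Set Λ) from hv), add_zero]
      by_cases hx : v ∈ X
      · rw [if_pos hx, if_pos (Set.mem_insert_of_mem a hx)]
      · rw [if_neg hx, if_neg (fun h => hx (h.resolve_left hv))]
  rw [e, pw_add, pw_single (n := ind {a}) (a := a) (fun v hv => by simp [ind, hv])]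
  · simp [ind]
  · intro x y hx hy
    have hx' : x ∈ X := by simpa [ind] using hx
    have hy' : y = a := by simpa [ind] using hy
    exact Or.inr (hy' ▸ (h x hx').symm)

lemma pw_kap {H : Type} [Group H] (κ : Λ → H) (h) (n : Λ → ℤ) : kap Γ κ h (pw Γ n) =
    ((@Finset.univ Λ (Fintype.ofFinite Λ)).toList.map fun v => κ v ^ n v).prod := by
  rw [pw, map_list_prod, List.map_map]
  exact congrArg (fun F => (List.map F _).prod) (funext fun v => kap_gen κ h v (n v))

omit [Finite Λ] in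
lemma pw_triv {H : Type} [Group H] {x : H} {k : ℤ} (h : k ≠ 0 → x = 1) : x ^ k = 1 := by
  by_cases hk : k = 0
  · rw [hk, zpow_zero]
  · rw [h hk, one_zpow]

lemma kap_pw_zero {H : Type} [Group H] (κ : Λ → H) (h) {n : Λ → ℤ}
    (h1 : ∀ v, n v ≠ 0 → κ v = 1) : kap Γ κ h (pw Γ n) = 1 := by
  rw [pw_kap]
  refine List.prod_eq_one (fun y hy => ?_)
  obtain ⟨v, -, rfl⟩ := List.mem_map.mp hy
  exact pw_triv (h1 v)

lemma kap_pw_one {H : Type} [Group H] (κ : Λ → H) (h) {n : Λ → ℤ} {a : Λ}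
    (h1 : ∀ v, v ≠ a → n v ≠ 0 → κ v = 1) : kap Γ κ h (pw Γ n) = κ a ^ n a := by
  rw [pw_kap]
  exact pw_list_one (F := fun v => κ v ^ n v) (fun v hv => pw_triv (h1 v hv))

lemma kap_pw_two {H : Type} [Group H] (κ : Λ → H) (h) {n : Λ → ℤ} {a b : Λ} (hab : a ≠ b)
    (hc : Commute (κ a) (κ b)) (h1 : ∀ v, v ≠ a → v ≠ b → n v ≠ 0 → κ v = 1) :
    kap Γ κ h (pw Γ n) = κ a ^ n a * κ b ^ n b := by
  classical
  have e : (fun v => κ v ^ n v) = fun v =>
      (if v = a then κ a ^ n a else 1) * (if v = b then κ b ^ n b else 1) := by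
    funext v
    by_cases ha : v = a
    · simp [ha, hab]
    by_cases hb : v = b
    · simp [hb, hab.symm]
    simp [ha, hb, pw_triv (h1 v ha hb)]
  rw [pw_kap, e, pw_list_mul, pw_list_one (a := a) (fun v hv => if_neg hv),
    pw_list_one (a := b) (fun v hv => if_neg hv), if_pos rfl, if_pos rfl]
  intro x y
  split_ifs
  · exact hc.zpow_zpow _ _
  all_goals simp

lemma prj_pw (a : Λ) (n : Λ → ℤ) : prj a (pw Γ n) = Multiplicative.ofAdd (n a) := by
  rw [pw, map_list_prod, List.map_map]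
  exact (pw_list_one (a := a) (fun v hv => prj_gv_ne hv _)).trans (prj_gv _ _)

end Pool.Agent.Lib.MP_19b52f_al.XL
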