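import Pool.Agent.Lib.MP_19b52f_al.EA2.Word

/-! Integer sequences attached to a cell. -/

namespace Pool.Agent.Lib.MP_19b52f_al.XL

/-- `f` is the difference sequence of the periodic sequence `g`, which lives on one residue. -/
def Act (m : ℤ) (f g : ℤ → ℤ) : Prop :=
  (∀ k, f k = g k - g (k - 1)) ∧ (∀ k, g (k + 2 * m) = g k) ∧ ∃ j, ∀ k, g k ≠ 0 → m ∣ k - j

/-- Compatible supports. -/
def Cpt (m : ℤ) (g g' : ℤ → ℤ) : Prop :=
  ∀ i j, g i ≠ 0 → g' j ≠ 0 →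
    ¬ 2 * m ∣ j - i ∧ ¬ 2 * m ∣ j - i - 1 ∧ ¬ 2 * m ∣ j - i + 1 ∧ ¬ 2 * m ∣ j - i - m

/-- Only antipodal occurrences. -/
def Anti (m : ℤ) (f f' : ℤ → ℤ) : Prop :=
  ∃ k, (∀ i, f i ≠ 0 → 2 * m ∣ i - k) ∧ ∀ i, f' i ≠ 0 → 2 * m ∣ i - k - m

/-- The condition in one cell under which two letters need not commute. -/
def Cond (m : ℤ) (f f' : ℤ → ℤ) : Prop :=
  (∀ k, f k = 0) ∨ (∀ k, f' k = 0) ∨ Anti m f f' ∨ ∃ g g', Act m f g ∧ Act m f' g' ∧ Cpt m g g'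

/-- The indicator of `a` modulo `2 m`. -/
def dl (m a k : ℤ) : ℤ := if 2 * m ∣ k - a then 1 else 0

/-- The chamber that carries the arc number `r`. -/
def ps (m r : ℤ) : ℤ := if Odd r then r else r + m

/-- The walls that may be used as toggles for the arc on the walls `0` and `1`. -/
def Out (m p : ℤ) : Prop := ¬ m ∣ 2 * p ∧ ¬ m ∣ 2 * (p - 1)

variable {m : ℤ} {f f' g g' : ℤ → ℤ}

lemma seq_lin {n k : ℤ} (hn : 0 < n) (h : n ∣ k) :
    k = 0 ∨ k = n ∨ k = -n ∨ 2 * n ≤ k ∨ k ≤ -(2 * n) := by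
  obtain ⟨c, rfl⟩ := h
  rcases (show c = 0 ∨ c = 1 ∨ c = -1 ∨ 2 ≤ c ∨ c ≤ -2 by omega) with e | e | e | e | e
  · simp [e]
  · simp [e]
  · simp [e]
  · exact Or.inr (Or.inr (Or.inr (Or.inl (by nlinarith))))
  · exact Or.inr (Or.inr (Or.inr (Or.inr (by nlinarith))))

lemma seq_nd {n k : ℤ} (hn : 0 < n)
    (h : ¬ (k = 0 ∨ k = n ∨ k = -n ∨ 2 * n ≤ k ∨ k ≤ -(2 * n))) : ¬ n ∣ k :=
  fun e => h (seq_lin hn e)

lemma seq_one {n a b : ℤ} (hn : 1 < n) (h : n ∣ a) (h' : n ∣ b) (e : b = a + 1) : False := by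
  have := seq_lin (by omega) (dvd_sub h' h)
  omega

lemma seq_neg {n a b : ℤ} (h : n ∣ a) (c : ℤ) (e : b = -a + n * c) : n ∣ b :=
  e ▸ dvd_add (dvd_neg.2 h) (dvd_mul_right n c)

lemma Act.unique (hm : 7 ≤ m) (h : Act m f g) (h' : Act m f g') : g = g' := by
  obtain ⟨h1, -, j, h2⟩ := h
  obtain ⟨h3, -, j', h4⟩ := h'
  have c : ∀ k, g k - g' k = g 0 - g' 0 := fun k => by
    induction k using Int.induction_on with
    | zero => rfl
    | succ n ih =>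
      have e1 := h1 (n + 1)
      have e2 := h3 (n + 1)
      rw [add_sub_cancel_right] at e1 e2
      omega
    | pred n ih =>
      have e1 := h1 (-n)
      have e2 := h3 (-n)
      omega
  funext k
  by_contra e
  have d : ∀ t, t = 1 ∨ t = 2 → m ∣ j + t - j' := fun t ht => h4 _ fun e1 => by
    have e2 := c k
    have e3 := c (j + t)
    have := seq_lin (by omega) (h2 (j + t) (by omega))
    omega
  exact seq_one (by omega) (d 1 (Or.inl rfl)) (d 2 (Or.inr rfl)) (by ring)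

lemma Act.pres (hm : 7 ≤ m) (h : Act m f g) {k : ℤ} (hk : g k ≠ 0) : ∃ i, f i ≠ 0 := by
  by_contra e
  push Not at e
  exact hk (congrFun (h.unique hm (g' := fun _ => 0)
    ⟨fun i => by simp [e], fun _ => rfl, 0, fun _ u => absurd rfl u⟩) k)

lemma Act.not_single (hm : 7 ≤ m) (h : Act m f g) {k : ℤ} (h1 : ∀ i, f i ≠ 0 → 2 * m ∣ i - k)
    (i : ℤ) : f i = 0 := by
  obtain ⟨h2, -, j, h3⟩ := h
  by_contra e
  have e0 := h2 i
  by_cases u : g i = 0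
  · have e1 := h2 (i - 1)
    have e2 : g (i - 1 - 1) = 0 := by
      by_contra v
      exact seq_one (by omega) (h3 _ v) (h3 (i - 1) (by omega)) (by ring)
    exact seq_one (by omega) (h1 (i - 1) (by omega)) (h1 i e) (by ring)
  · have e1 := h2 (i + 1)
    have e2 : g (i + 1) = 0 := by
      by_contra v
      exact seq_one (by omega) (h3 i u) (h3 _ v) (by ring)
    rw [add_sub_cancel_right] at e1
    exact seq_one (by omega) (h1 i e) (h1 (i + 1) (by omega)) (by ring)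

lemma Cpt.symm (h : Cpt m g g') : Cpt m g' g := fun i j hi hj => by
  obtain ⟨h0, h1, h2, h3⟩ := h j i hj hi
  exact ⟨fun e => h0 (seq_neg e 0 (by ring)), fun e => h2 (seq_neg e 0 (by ring)),
    fun e => h1 (seq_neg e 0 (by ring)), fun e => h3 (seq_neg e (-1) (by ring))⟩

lemma Cond.symm (h : Cond m f f') : Cond m f' f := by
  rcases h with h | h | ⟨k, h1, h2⟩ | ⟨g, g', h1, h2, h3⟩
  · exact Or.inr (Or.inl h)
  · exact Or.inl h
  · refine Or.inr (Or.inr (Or.inl ⟨k + m, fun i hi => ?_, fun i hi => ?_⟩))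
    · rw [← sub_sub]
      exact h2 i hi
    · exact seq_neg (dvd_neg.2 (h1 i hi)) (-1) (by ring)
  · exact Or.inr (Or.inr (Or.inr ⟨g', g, h2, h1, h3.symm⟩))

lemma seq_dl {a k b l : ℤ} (c : ℤ) (e : l - b = k - a + 2 * m * c ∨ l - b = -(k - a)) :
    dl m a k = dl m b l := by
  refine if_congr ?_ rfl rfl
  rcases e with e | e <;> rw [e]
  · exact (dvd_add_left (dvd_mul_right _ c)).symm
  · exact dvd_neg.symm

lemma seq_ne {w a k : ℤ} (h : w * dl m a k ≠ 0) : 2 * m ∣ k - a := by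
  by_contra e
  exact h (by rw [dl, if_neg e, mul_zero])

lemma act_dl (m w a : ℤ) :
    Act m (fun k => w * (dl m a k - dl m (a + 1) k)) (fun k => w * dl m a k) :=
  ⟨fun k => by
    simp only
    rw [seq_dl (a := a + 1) (k := k) (b := a) (l := k - 1) 0 (Or.inl (by ring)), mul_sub],
    fun k => by
      simp only
      rw [seq_dl (a := a) (k := k) (b := a) (l := k + 2 * m) 1 (Or.inl (by ring))],
    a, fun k hk => (dvd_mul_left m 2).trans (seq_ne hk)⟩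

lemma seq_cond {a a' : ℤ} (h0 : ¬ 2 * m ∣ a' - a) (h1 : ¬ 2 * m ∣ a' - a - 1)
    (h2 : ¬ 2 * m ∣ a' - a + 1) (h3 : ¬ 2 * m ∣ a' - a - m) (w w' : ℤ) :
    Cond m (fun k => w * (dl m a k - dl m (a + 1) k))
      (fun k => w' * (dl m a' k - dl m (a' + 1) k)) := by
  refine Or.inr (Or.inr (Or.inr ⟨_, _, act_dl m w a, act_dl m w' a', fun i j hi hj => ?_⟩))
  obtain ⟨c, hc⟩ := dvd_sub (seq_ne hi) (seq_ne hj)
  have k : ∀ t, 2 * m ∣ j - i + t → 2 * m ∣ a' - a + t := fun t e =>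
    seq_neg (dvd_neg.2 e) c (by linarith)
  exact ⟨fun e => h0 (by simpa using k 0 (by simpa using e)), fun e => h1 (k (-1) e),
    fun e => h2 (k 1 e), fun e => h3 (k (-m) e)⟩

/-- Two arcs on the chambers `a`, `a'`, read in a cell with the same colours. -/
lemma cond_dl {a a' : ℤ} (h0 : ¬ 2 * m ∣ a' - a) (h1 : ¬ 2 * m ∣ a' - a - 1)
    (h2 : ¬ 2 * m ∣ a' - a + 1) (h3 : ¬ 2 * m ∣ a' - a - m) {ε : ℤ} (hε : ε = 1 ∨ ε = -1)
    (w w' i c : ℤ) :
    Cond m (fun k => w * (dl m a (i + ε * (k - c)) - dl m (a + 1) (i + ε * (k - c))))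
      (fun k => w' * (dl m a' (i + ε * (k - c)) - dl m (a' + 1) (i + ε * (k - c)))) := by
  rcases hε with rfl | rfl
  · have e : ∀ b k, dl m b (i + 1 * (k - c)) - dl m (b + 1) (i + 1 * (k - c)) =
        dl m (b - i + c) k - dl m (b - i + c + 1) k := fun b k => by
      rw [seq_dl (a := b) (b := b - i + c) (l := k) 0 (Or.inl (by ring)),
        seq_dl (a := b + 1) (b := b - i + c + 1) (l := k) 0 (Or.inl (by ring))]
    have d : a' - i + c - (a - i + c) = a' - a := by ring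
    simp only [e]
    exact seq_cond (d ▸ h0) (d ▸ h1) (d ▸ h2) (d ▸ h3) w w'
  · have e : ∀ w b k, w * (dl m b (i + -1 * (k - c)) - dl m (b + 1) (i + -1 * (k - c))) =
        -w * (dl m (i + c - b - 1) k - dl m (i + c - b - 1 + 1) k) := fun w b k => by
      rw [seq_dl (a := b) (b := i + c - b - 1 + 1) (l := k) 0 (Or.inr (by ring)),
        seq_dl (a := b + 1) (b := i + c - b - 1) (l := k) 0 (Or.inr (by ring))]
      ring
    simp only [e]
    exact seq_cond (fun u => h0 (seq_neg u 0 (by ring))) (fun u => h2 (seq_neg u 0 (by ring)))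
      (fun u => h1 (seq_neg u 0 (by ring))) (fun u => h3 (seq_neg u (-1) (by ring))) (-w) (-w')

lemma ps_dvd (m r : ℤ) : m ∣ ps m r - r := by
  unfold ps
  split_ifs <;> simp

lemma ps_far (hm : 7 ≤ m) {r r' : ℤ} (h1 : 1 ≤ r) (h2 : r ≤ m - 1) (h3 : 1 ≤ r') (h4 : r' ≤ m - 1)
    (h : r ≠ r') : ¬ 2 * m ∣ ps m r' - ps m r ∧ ¬ 2 * m ∣ ps m r' - ps m r - 1 ∧
      ¬ 2 * m ∣ ps m r' - ps m r + 1 ∧ ¬ 2 * m ∣ ps m r' - ps m r - m := by
  have hn : 0 < 2 * m := by omega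
  simp only [ps, Int.odd_iff]
  split_ifs <;> exact ⟨seq_nd hn (by omega), seq_nd hn (by omega), seq_nd hn (by omega),
    seq_nd hn (by omega)⟩

/-- Toggles for a perpendicular pair: the wall `p` lies between the arcs, the wall `q` does not. -/
lemma exists_toggle (hm : 7 ≤ m) {r r' i j : ℤ} (h1 : 1 ≤ r) (h2 : r < r') (h4 : r' ≤ m - 1)
    (hi : m ∣ i - r ∨ m ∣ i - (r + 1)) (hj : m ∣ j - r' ∨ m ∣ j - (r' + 1)) (hij : ¬ m ∣ i - j)
    (hp : m ∣ 2 * (i - j)) : ∃ p q, r + 1 < p ∧ p < r' ∧ r' + 1 < q ∧ q < r + m ∧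
      Out m (p - r) ∧ Out m (q - r) ∧ Out m (p - r') ∧ Out m (q - r') := by
  have hn : 0 < m := by omega
  obtain ⟨a, ha, ha'⟩ : ∃ a, (a = r ∨ a = r + 1) ∧ m ∣ i - a :=
    hi.elim (fun e => ⟨_, Or.inl rfl, e⟩) fun e => ⟨_, Or.inr rfl, e⟩
  obtain ⟨b, hb, hb'⟩ : ∃ b, (b = r' ∨ b = r' + 1) ∧ m ∣ j - b :=
    hj.elim (fun e => ⟨_, Or.inl rfl, e⟩) fun e => ⟨_, Or.inr rfl, e⟩
  obtain ⟨c, hc⟩ := dvd_sub ha' hb'
  have e1 : b ≠ a := fun e => hij ⟨c, by linarith⟩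
  have e2 := seq_lin hn (seq_neg (b := 2 * (b - a)) hp (2 * c) (by linarith))
  obtain ⟨n, hn'⟩ : ∃ n, m = 2 * n := ⟨b - a, by omega⟩
  have o : ∀ x, x ≠ 0 → x ≠ 1 → x ≠ n → x ≠ n + 1 → -n + 1 < x → x < 2 * n → Out m x :=
    fun x _ _ _ _ _ _ => ⟨seq_nd hn (by omega), seq_nd hn (by omega)⟩
  by_cases e : r' - r = n + 1
  · refine ⟨r + 3, r + n + 3, by omega, by omega, by omega, by omega, ?_, ?_, ?_, ?_⟩ <;>
      apply o <;> omega
  · refine ⟨r + 2, r + n + 2, by omega, by omega, by omega, by omega, ?_, ?_, ?_, ?_⟩ <;>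
      apply o <;> omega

end Pool.Agent.Lib.MP_19b52f_al.XL
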