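import Pool.Agent.Lib.MP_19b52f_al.XL.Dih
import Pool.Agent.Lib.MP_19b52f_al.XL.Seq
import Pool.Agent.Lib.MP_19b52f_al.XL.Pw

/-! Letters, the graph, the cocycle on generators, and the points: definitions. -/

namespace Pool.Agent.Lib.MP_19b52f_al.XL

open Pool.Agent.Lib.MP_19b52f_al.EA Pool.Agent.Lib.MP_19b52f_al.EA2

variable {S : Type} {M : CoxeterMatrix S}

namespace GS
variable (G : GS M)

/-- The chamber number `k` of the cell of `s, t` at `x`. -/
def ch (x : G.Φ) (s t : S) (k : ℤ) : G.Φ := x * G.θ (W (ag M s) (ag M t) k)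

/-- The colour of the edge from the chamber `k - 1` to the chamber `k`. -/
def col (i : Option (S × S)) (x : G.Φ) (s t : S) (k : ℤ) : G.C := x • G.b i s t k

/-- The wall that cuts off the chambers `-1, 0, 1`. -/
def mu (s t : S) : G.V := G.θ (ag M s) • G.ξ t

/-- The wall that cuts off the chambers `l - 1, l, l + 1`. -/
def bt (x : G.Φ) (s t : S) (l : ℤ) : G.V := G.ch x s t l • G.mu s t

/-- The base letters `d`, `y` and the arcs. -/
abbrev BL : Type := G.C ⊕ (G.Φ × S) ⊕ ((S × S) × G.Φ × S × S)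

/-- The kind of colours seen by a base letter. -/
def kd : G.BL → Option (S × S)
  | .inl _ => none
  | .inr (.inl _) => none
  | .inr (.inr p) => some p.1

/-- The toggles have their base values. -/
def Br (i : S × S) (x0 : G.Φ) (s t : S) (x : G.Φ) : Prop :=
  ∀ p q, Out (M s t) p → Out (M s t) q →
    G.η (some i) x (G.col (some i) x0 s t p) + G.η (some i) x (G.col (some i) x0 s t q) =
      G.η (some i) x0 (G.col (some i) x0 s t p) + G.η (some i) x0 (G.col (some i) x0 s t q)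

open Classical in
/-- The labelling of the letter `y`. -/
noncomputable def Ly (x0 : G.Φ) (s : S) (c : G.C) : ℤ :=
  (if c = x0 • G.α none s then 1 else 0) -
    if ∃ t, Lk M s t ∧ c = G.col none x0 s t 2 then 1 else 0

open Classical in
/-- The labelling of an arc. -/
noncomputable def Lp (i : S × S) (x0 : G.Φ) (s t : S) (c : G.C) : ℤ :=
  (if c = G.col (some i) x0 s t 0 then 1 else 0) - if c = G.col (some i) x0 s t 1 then 1 else 0

open Classical in
/-- The exponent of a base letter on an oriented edge. -/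
noncomputable def L : G.BL → G.Φ → S → ℤ
  | .inl c, x, r => if x • G.α none r = c then 1 else 0
  | .inr (.inl p), x, r => G.Ly p.1 p.2 (x • G.α none r)
  | .inr (.inr p), x, r =>
    if Lk M p.2.2.1 p.2.2.2 ∧ M p.1.1 p.1.2 = M p.2.2.1 p.2.2.2 ∧
      G.Br p.1 p.2.1 p.2.2.1 p.2.2.2 x then G.Lp p.1 p.2.1 p.2.2.1 p.2.2.2 (x • G.α (some p.1) r)
    else 0

/-- The letter `d` of a colour. -/
def dL (c : G.C) : G.BL := .inl c

/-- The letter `y`. -/
def yL (x : G.Φ) (s : S) : G.BL := .inr (.inl (x, s))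

/-- The arc number `r` of the cell of `s, t` at `x`. -/
def pL (x : G.Φ) (s t : S) (r : ℤ) : G.BL :=
  .inr (.inr ((s, t), G.ch x s t (ps (M s t) r), lt s t (ps (M s t) r + 1), lt s t (ps (M s t) r)))

/-- The exponents of a base letter on the forward edges of a cell. -/
noncomputable def seq (l : G.BL) (x : G.Φ) (s t : S) (k : ℤ) : ℤ :=
  G.L l (G.ch x s t (k - 1)) (lt s t k)

/-- Two base letters that need not commute. -/
def Free (l l' : G.BL) : Prop :=
  (∀ x r, G.L l x r = 0 ∨ G.L l' x r = 0) ∧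
    ∀ x s t, Lk M s t → Cond (M s t) (G.seq l x s t) (G.seq l' x s t)

/-- All letters. -/
abbrev Lt : Type := G.V ⊕ G.BL

/-- The commutation relation. -/
def rel : G.Lt → G.Lt → Prop
  | .inl v, .inl w => G.cm v w
  | .inl v, .inr l => ∃ x r, G.L l x r ≠ 0 ∧ G.cr (G.kd l) v (x • G.α (G.kd l) r)
  | .inr _, .inl _ => False
  | .inr l, .inr l' => ¬ G.Free l l'

/-- The commutation graph. -/
def Γ : SimpleGraph G.Lt := SimpleGraph.fromRel G.rel

/-- The base letters that commute with the letter of a wall. -/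
def lk2 (v : G.V) : Set G.Lt := G.Γ.neighborSet (.inl v) \ Set.range Sum.inl

/-- The walls near the base chamber. -/
def Nb : Set G.V := Set.range G.ξ ∪ {v | ∃ s t, Lk M s t ∧ v = G.mu s t}

/-- Points: a state and a clique of walls near it. -/
def Ok (o : G.Φ × Set G.V) : Prop :=
  (∀ v ∈ o.2, ∃ w ∈ G.Nb, v = o.1 • w) ∧ ∀ v ∈ o.2, ∀ w ∈ o.2, v ≠ w → G.cm v w

/-- The point reached by a move. -/
def mv (o : G.Φ × Set G.V) (s : S) : G.Φ × Set G.V :=
  (o.1 * G.θ (ag M s), insert (o.1 • G.θ (ag M s) • G.ξ s) (o.2 \ {o.1 • G.ξ s}))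

/-- Sequences of moves. -/
inductive Vx (o : G.Φ × Set G.V) : Artin M → G.Φ × Set G.V → Prop
  | refl : G.Ok o → Vx o 1 o
  | step {g o'} (s : S) : Vx o g o' → o'.1 • G.ξ s ∈ o'.2 → Vx o (g * ag M s) (G.mv o' s)
  | back {g o'} (s : S) : Vx o g o' → o'.1 • G.ξ s ∈ o'.2 → Vx o (g * (ag M s)⁻¹) (G.mv o' s)

/-- Add (`true`) or remove (`false`) one wall. -/
def Fv (o : G.Φ × Set G.V) (v : G.V) (ε : Bool) (o' : G.Φ × Set G.V) : Prop :=
  o'.1 = o.1 ∧ G.Ok o ∧ G.Ok o' ∧
    ((ε = true ∧ v ∉ o.2 ∧ o'.2 = insert v o.2) ∨ (ε = false ∧ v ∉ o'.2 ∧ o.2 = insert v o'.2))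

/-- The morphism `g` carries the flip. -/
def Car (o : G.Φ × Set G.V) (v : G.V) (ε : Bool) (g : Artin M) (o' : G.Φ × Set G.V) : Prop :=
  G.Vx o g o' ∧ ∃ z z', G.Fv o v ε z ∧ G.Fv o' v ε z' ∧ G.Vx z g z'

/-- The point of the cell of `s, t` at `x` at the chamber `j`. -/
def obB (x : G.Φ) (s t : S) (j : ℤ) : G.Φ × Set G.V :=
  (G.ch x s t j, {G.bt x s t (j - 1), G.bt x s t j, G.bt x s t (j + 1)})

/-- The central point of a class of the first kind. -/
def obA (x : G.Φ) (I : Set S) : G.Φ × Set G.V := (x, (fun s => x • G.ξ s) '' I)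

variable [Finite S]

/-- The base label of an oriented edge. -/
noncomputable def u (x : G.Φ) (r : S) : GP G.Γ Zm :=
  pw G.Γ (Sum.elim (fun _ => 0) fun l => G.L l x r)

/-- The base label of the forward edge `k` of a cell. -/
noncomputable def U (x : G.Φ) (s t : S) (k : ℤ) : GP G.Γ Zm := G.u (G.ch x s t (k - 1)) (lt s t k)

/-- The label of an oriented edge. -/
noncomputable def cs (x : G.Φ) (s : S) : GP G.Γ Zm :=
  gen G.Γ (.inl (x • G.ξ s)) 1 * G.u x s * gen G.Γ (.inl (x • G.θ (ag M s) • G.ξ s)) (-1)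

/-- The gauge of a point. -/
noncomputable def γ (o : G.Φ × Set G.V) : GP G.Γ Zm := pw G.Γ (ind (Sum.inl '' o.2))

/-- Cocycles with the given labels. -/
def IsC (c : G.Φ → Artin M → GP G.Γ Zm) : Prop :=
  (∀ x g h, c x (g * h) = c x g * c (x * G.θ g) h) ∧ ∀ x s, c x (ag M s) = G.cs x s

/-- The cocycle. -/
noncomputable def c : G.Φ → Artin M → GP G.Γ Zm := Classical.epsilon G.IsC

/-- The cocycle in the gauge of two points. -/
noncomputable def ct (o : G.Φ × Set G.V) (g : Artin M) (o' : G.Φ × Set G.V) : GP G.Γ Zm :=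
  (G.γ o)⁻¹ * G.c o.1 g * G.γ o'

end GS

variable (M) in
/-- The group generated by the squares. -/
def FI (I : Set S) : Subgroup (Artin M) := Subgroup.closure ((fun s => ag M s * ag M s) '' I)

variable (M) in
/-- Pairwise finite labels. -/
def Clq (I : Set S) : Prop := ∀ s ∈ I, ∀ t ∈ I, s ≠ t → Lk M s t

namespace GS
variable (G : GS M)

/-- The points of a class of the first kind. -/
def InA (x : G.Φ) (I : Set S) (o : G.Φ × Set G.V) (g : Artin M) : Prop :=
  (g ∈ FI M I ∧ o = G.obA x I) ∨ ∃ s ∈ I, g * (ag M s)⁻¹ ∈ FI M I ∧ o = G.mv (G.obA x I) s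

/-- The points of a class of the second kind. -/
def InB (x : G.Φ) (s t : S) (o : G.Φ × Set G.V) (g : Artin M) : Prop :=
  ∃ j, g * (W (ag M s) (ag M t) j)⁻¹ ∈ Pe (ag M s) (ag M t) (M s t) ∧ o = G.obB x s t j

end GS

end Pool.Agent.Lib.MP_19b52f_al.XL
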