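import Pool.Agent.Lib.MP_19b52f_al.XL.Word

/-! The abstract lemma: cancel or slide. -/

namespace Pool.Agent.Lib.MP_19b52f_al.XL

open Pool.Agent.Lib.MP_19b52f_al.EA Pool.Agent.Lib.MP_19b52f_al.EA2

variable {Λ A X : Type} [Group A] [Group X]

/-- Objects with a state and a gauge, a subgroupoid `Vx`, and flips labelled by letters of `V1`. -/
structure Stg (Γ : SimpleGraph Λ) (ϑ : A →* X) (c : X → A → GP Γ Zm) where
  V1 : Set Λ
  Ob : Type
  o : Ob → X
  γ : Ob → GP Γ Zm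
  Vx : Ob → A → Ob → Prop
  Fl : Ob → Λ → Bool → Ob → Prop
  c_mul : ∀ x g h, c x (g * h) = c x g * c (x * ϑ g) h
  vx_mul : ∀ {x g y h z}, Vx x g y → Vx y h z → Vx x (g * h) z
  vx_inv : ∀ {x g y}, Vx x g y → Vx y g⁻¹ x
  vx_o : ∀ {x g y}, Vx x g y → o x * ϑ g = o y
  vx_ct : ∀ {x g y}, Vx x g y → (γ x)⁻¹ * c (o x) g * γ y ∈ PX Γ Zm V1ᶜ
  fl_symm : ∀ {x t ε y}, Fl x t ε y → Fl y t (!ε) x
  fl_vx : ∀ {x t ε y}, Fl x t ε y → Vx x 1 x
  fl_o : ∀ {x t ε y}, Fl x t ε y → o y = o x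
  fl_γ : ∀ {x t ε y}, Fl x t ε y → γ y = γ x * gen Γ t (sgn ε)
  fl_mem : ∀ {x t ε y}, Fl x t ε y → t ∈ V1
  cancel : ∀ {x q y t ε z z'}, Vx x q y → Fl x t ε z → Fl y t ε z' →
    (γ x)⁻¹ * c (o x) q * γ y ∈ PX Γ Zm (Γ.neighborSet t \ V1) → Vx z q z'
  slide : ∀ {x q y t ε z t' ε' z'}, Vx x q y → Fl x t ε z → Fl y t' ε' z' → Γ.Adj t t' →
    Mem2 (PX Γ Zm (Γ.neighborSet t \ V1)) (PX Γ Zm (Γ.neighborSet t' \ V1))
      ((γ x)⁻¹ * c (o x) q * γ y) →
    ∃ g1 g2 z1 z2 z3, q = g1 * g2 ∧ Vx z g1 z1 ∧ Fl z1 t' ε' z3 ∧ Fl z2 t ε z3 ∧ Vx z2 g2 z'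

namespace Stg
variable {Γ : SimpleGraph Λ} {ϑ : A →* X} {c : X → A → GP Γ Zm} (D : Stg Γ ϑ c)

/-- Paths made of morphisms of the subgroupoid and of flips. -/
inductive Pth : D.Ob → A → D.Ob → Prop
  | vx {x g y} : D.Vx x g y → Pth x g y
  | fl {x t ε y} : D.Fl x t ε y → Pth x 1 y
  | mul {x g y h z} : Pth x g y → Pth y h z → Pth x (g * h) z

variable {D}

lemma Pth.inv {x g y} (h : D.Pth x g y) : D.Pth y g⁻¹ x := by
  induction h with
  | vx h => exact .vx (D.vx_inv h)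
  | fl h => rw [inv_one]; exact .fl (D.fl_symm h)
  | mul _ _ ih1 ih2 => rw [mul_inv_rev]; exact .mul ih2 ih1

variable (D)

/-- The cocycle in the gauge. -/
def stage_ct (x : D.Ob) (g : A) (y : D.Ob) : GP Γ Zm := (D.γ x)⁻¹ * c (D.o x) g * D.γ y

/-- The subgroup fixing a letter. -/
abbrev stage_Q (t : Λ) : Subgroup (GP Γ Zm) := PX Γ Zm (Γ.neighborSet t \ D.V1)

/-- The letters of the unfolded graph. -/
abbrev stage_Om : Type := Σ t : Λ, GP Γ Zm ⧸ D.stage_Q t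

/-- The unfolded graph. -/
def stage_G : SimpleGraph D.stage_Om where
  Adj p q := Γ.Adj p.1 q.1 ∧ ∃ r : GP Γ Zm, p.2 = (r : GP Γ Zm ⧸ D.stage_Q p.1) ∧
    q.2 = (r : GP Γ Zm ⧸ D.stage_Q q.1)
  symm := ⟨fun _ _ h => ⟨h.1.symm, h.2.imp fun _ h => h.symm⟩⟩
  loopless := ⟨fun _ h => h.1.ne rfl⟩

/-- The pure shifts. -/
def stage_io : GP Γ Zm →* Wm (GP Γ Zm) (GP D.stage_G Zm) where
  toFun g := ⟨fun _ => 1, g⟩
  map_one' := rfl
  map_mul' _ _ := by ext φ <;> simp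

/-- The letters read at the current position. -/
def stage_lt (v : Λ) : Zm →* Wm (GP Γ Zm) (GP D.stage_G Zm) where
  toFun k := ⟨fun r => gv D.stage_G ⟨v, (r : GP Γ Zm ⧸ D.stage_Q v)⟩ k, 1⟩
  map_one' := by ext φ <;> simp
  map_mul' _ _ := by ext φ <;> simp

lemma stage_lt_io {v w : Λ} (h : Γ.Adj v w) (hw : w ∉ D.V1) (k k' : Zm) :
    Commute (D.stage_lt v k) (D.stage_io (gv Γ w k')) := by
  have e : ∀ r : GP Γ Zm, ((r * gv Γ w k' : GP Γ Zm) : GP Γ Zm ⧸ D.stage_Q v) = (r : GP Γ Zm) := by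
    intro r
    rw [eq_comm, QuotientGroup.eq, inv_mul_cancel_left]
    exact gv_mem (X := Γ.neighborSet v \ D.V1) ⟨h, hw⟩ k'
  refine Wm.ext (funext fun r => ?_) ?_
  · simp only [stage_lt, stage_io, MonoidHom.coe_mk, OneHom.coe_mk, Wm.mul_c, mul_one, one_mul, e]
  · simp only [stage_lt, stage_io, MonoidHom.coe_mk, OneHom.coe_mk, Wm.mul_a, mul_one, one_mul]

open Classical in
/-- The unfolding homomorphism. -/
noncomputable def stage_eta : GP Γ Zm →* Wm (GP Γ Zm) (GP D.stage_G Zm) :=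
  gpLift (fun v => if v ∈ D.V1 then D.stage_lt v else D.stage_io.comp (gv Γ v)) (by
    intro v w h k k'
    by_cases hv : v ∈ D.V1
    · by_cases hw : w ∈ D.V1
      · simp only [hv, hw, if_true]
        refine Wm.ext (funext fun r => ?_) ?_
        · simp only [stage_lt, MonoidHom.coe_mk, OneHom.coe_mk, Wm.mul_c, mul_one]
          exact (gv_comm (Γ := D.stage_G) ⟨h, r, rfl, rfl⟩ k k').eq
        · simp only [stage_lt, MonoidHom.coe_mk, OneHom.coe_mk, Wm.mul_a]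
      · simp only [hv, hw, if_true, if_false, MonoidHom.comp_apply]
        exact D.stage_lt_io h hw k k'
    · by_cases hw : w ∈ D.V1
      · simp only [hv, hw, if_true, if_false, MonoidHom.comp_apply]
        exact (D.stage_lt_io h.symm hv k' k).symm
      · simp only [hv, hw, if_false, MonoidHom.comp_apply]
        exact (gv_comm h k k').map _)

lemma stage_eta_mem {g : GP Γ Zm} (hg : g ∈ PX Γ Zm D.V1ᶜ) : D.stage_eta g = D.stage_io g :=
  eq_of_PX (fun v hv k => by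
    have hv' : v ∉ D.V1 := hv
    simp [stage_eta, hv']) hg

lemma stage_eta_gen {t : Λ} (ht : t ∈ D.V1) (k : ℤ) :
    D.stage_eta (gen Γ t k) = D.stage_lt t (Multiplicative.ofAdd k) := by
  simp [stage_eta, gen, ht]

/-- Paths with a starting position and the word that they read. -/
def stage_P : List (D.stage_Om × Bool) → GP Γ Zm → D.Ob → A → D.Ob → Prop
  | [], _, x, g, y => D.Vx x g y
  | a :: w, r, x, g, z => ∃ g1 y y' g2, g = g1 * g2 ∧ D.Vx x g1 y ∧ D.Fl y a.1.1 a.2 y' ∧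
      a.1.2 = ((r * D.stage_ct x g1 y : GP Γ Zm) : GP Γ Zm ⧸ D.stage_Q a.1.1) ∧
      stage_P w (r * D.stage_ct x g1 y) y' g2 z

variable {D}

lemma stage_ct_one (x : D.Ob) : D.stage_ct x 1 x = 1 := by
  have h : c (D.o x) 1 = 1 := by simpa using D.c_mul (D.o x) 1 1
  simp [stage_ct, h]

lemma stage_eta_vx {x g y} (h : D.Vx x g y) :
    D.stage_eta (D.stage_ct x g y) = D.stage_io (D.stage_ct x g y) := D.stage_eta_mem (D.vx_ct h)

lemma stage_ct_mul {x g y} (h : D.o x * ϑ g = D.o y) (g' : A) (z : D.Ob) :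
    D.stage_ct x (g * g') z = D.stage_ct x g y * D.stage_ct y g' z := by
  simp only [stage_ct, D.c_mul, h]
  group

lemma stage_ct_fl {x g y t ε y'} (h : D.Vx x g y) (h' : D.Fl y t ε y') (g' : A) (z : D.Ob) :
    D.stage_ct x (g * g') z = D.stage_ct x g y * (gen Γ t (sgn ε) * D.stage_ct y' g' z) := by
  rw [stage_ct_mul (D.vx_o h)]
  simp only [stage_ct, D.fl_o h', D.fl_γ h']
  group

lemma stage_eta_fl {x g y t ε y'} (h : D.Vx x g y) (h' : D.Fl y t ε y') (g' : A) (z : D.Ob) :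
    D.stage_eta (D.stage_ct x (g * g') z) = D.stage_io (D.stage_ct x g y) *
      (D.stage_lt t (Multiplicative.ofAdd (sgn ε)) * D.stage_eta (D.stage_ct y' g' z)) := by
  rw [stage_ct_fl h h', map_mul, map_mul, stage_eta_vx h, D.stage_eta_gen (D.fl_mem h')]

lemma stage_a_fl {x g y t ε y'} (h : D.Vx x g y) (h' : D.Fl y t ε y') (g' : A) (z : D.Ob) :
    (D.stage_eta (D.stage_ct x (g * g') z)).a =
      D.stage_ct x g y * (D.stage_eta (D.stage_ct y' g' z)).a := by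
  rw [stage_eta_fl h h']
  simp only [stage_lt, stage_io, MonoidHom.coe_mk, OneHom.coe_mk, Wm.mul_a, one_mul]

lemma stage_prepend {w r x g y h z} (h1 : D.Vx x g y)
    (h2 : D.stage_P w (r * D.stage_ct x g y) y h z) : D.stage_P w r x (g * h) z := by
  cases w with
  | nil => exact D.vx_mul h1 h2
  | cons a w =>
    obtain ⟨g1, u, u', g2, rfl, h3, h4, h5, h6⟩ := h2
    rw [mul_assoc, ← stage_ct_mul (D.vx_o h1)] at h5 h6
    exact ⟨g * g1, u, u', g2, (mul_assoc _ _ _).symm, D.vx_mul h1 h3, h4, h5, h6⟩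

lemma stage_append {w w' r x g y h z} (h1 : D.stage_P w r x g y)
    (h2 : D.stage_P w' (r * (D.stage_eta (D.stage_ct x g y)).a) y h z) :
    D.stage_P (w ++ w') r x (g * h) z := by
  induction w generalizing r x g with
  | nil =>
    rw [stage_eta_vx h1] at h2
    exact stage_prepend h1 h2
  | cons a w ih =>
    obtain ⟨g1, u, u', g2, rfl, h3, h4, h5, h6⟩ := h1
    rw [stage_a_fl h3 h4, ← mul_assoc] at h2
    exact ⟨g1, u, u', g2 * h, mul_assoc _ _ _, h3, h4, h5, ih h6 h2⟩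

lemma stage_vx_one {w r x g y} (h : D.stage_P w r x g y) : D.Vx x 1 x := by
  have key : ∀ {g y}, D.Vx x g y → D.Vx x 1 x := fun h => by
    have := D.vx_mul h (D.vx_inv h)
    rwa [mul_inv_cancel] at this
  cases w with
  | nil => exact key h
  | cons a w =>
    obtain ⟨_, _, _, _, _, h3, _⟩ := h
    exact key h3

lemma stage_split {w w' r x g z} (h1 : D.stage_P (w ++ w') r x g z) :
    ∃ y g1 g2, g = g1 * g2 ∧ D.stage_P w r x g1 y ∧
      D.stage_P w' (r * (D.stage_eta (D.stage_ct x g1 y)).a) y g2 z := by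
  induction w generalizing r x g with
  | nil =>
    refine ⟨x, 1, g, (one_mul _).symm, stage_vx_one h1, ?_⟩
    rw [stage_ct_one, map_one, Wm.one_a, mul_one]
    exact h1
  | cons a w ih =>
    obtain ⟨g1, u, u', g2, rfl, h3, h4, h5, h6⟩ := h1
    obtain ⟨y, k1, k2, rfl, h7, h8⟩ := ih h6
    refine ⟨y, g1 * k1, k2, (mul_assoc _ _ _).symm, ⟨g1, u, u', k1, rfl, h3, h4, h5, h7⟩, ?_⟩
    rw [stage_a_fl h3 h4, ← mul_assoc]
    exact h8

lemma stage_suffix {u u' w} (H : ∀ r x g y, D.stage_P u r x g y → D.stage_P u' r x g y)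
    {r x g z} (h : D.stage_P (u ++ w) r x g z) : D.stage_P (u' ++ w) r x g z := by
  obtain ⟨y, g1, g2, rfl, h1, h2⟩ := stage_split h
  exact stage_append (H _ _ _ _ h1) h2

lemma stage_prefix {u u' w} (H : ∀ r x g y, D.stage_P u r x g y → D.stage_P u' r x g y)
    {r x g z} (h : D.stage_P (w ++ u) r x g z) : D.stage_P (w ++ u') r x g z := by
  obtain ⟨y, g1, g2, rfl, h1, h2⟩ := stage_split h
  exact stage_append h1 (H _ _ _ _ h2)

lemma stage_of_pth {x g y} (h : D.Pth x g y) (r : GP Γ Zm) : ∃ w, D.stage_P w r x g y := by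
  induction h generalizing r with
  | vx h => exact ⟨[], h⟩
  | @fl x t ε y h =>
    exact ⟨[(⟨t, ((r * D.stage_ct x 1 x : GP Γ Zm) : GP Γ Zm ⧸ D.stage_Q t)⟩, ε)], 1, x, y, 1,
      (one_mul _).symm, D.fl_vx h, h, rfl, D.fl_vx (D.fl_symm h)⟩
  | mul _ _ ih1 ih2 =>
    obtain ⟨w, h1⟩ := ih1 r
    obtain ⟨w', h2⟩ := ih2 _
    exact ⟨w ++ w', stage_append h1 h2⟩

lemma stage_ev {w r x g y} (h : D.stage_P w r x g y) :
    (D.stage_eta (D.stage_ct x g y)).c r = ev D.stage_G w := by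
  induction w generalizing r x g with
  | nil =>
    rw [stage_eta_vx h]
    rfl
  | cons a w ih =>
    obtain ⟨⟨t, s⟩, ε⟩ := a
    obtain ⟨g1, u, u', g2, rfl, h3, h4, h5, h6⟩ := h
    have h7 := ih h6
    rw [stage_eta_fl h3 h4]
    simp only [stage_lt, stage_io, MonoidHom.coe_mk, OneHom.coe_mk, Wm.mul_c, one_mul, mul_one,
      h7, ev, List.map_cons, List.prod_cons, gen]
    simp only at h5
    rw [h5]

lemma stage_cancel {v : D.stage_Om} {ε : Bool} (r x g z)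
    (h : D.stage_P [(v, ε), (v, !ε)] r x g z) : D.stage_P [] r x g z := by
  obtain ⟨g1, y, y', _, rfl, h1, h2, h3, g2, u, u', g3, rfl, h4, h5, h6, h7⟩ := h
  simp only at h2 h3 h5 h6
  rw [h3, QuotientGroup.eq, inv_mul_cancel_left] at h6
  exact D.vx_mul h1 (D.vx_mul (D.cancel h4 (D.fl_symm h2) h5 h6) h7)

lemma stage_sgn_ne (ε : Bool) : (Multiplicative.ofAdd (sgn ε) : Zm) ≠ 1 := by
  cases ε <;> simp [sgn]

lemma stage_letters {Ω : Type} {G : SimpleGraph Ω} {a b a' b' : Ω} {ε ε' : Bool}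
    (h1 : b ≠ a) (h2 : b' ≠ a) (h : ev G [(a, ε), (b, ε')] = ev G [(b', ε'), (a', ε)]) :
    a' = a := by
  by_contra h3
  have h4 := congrArg (prj a) h
  simp only [ev, gen, List.map_cons, List.map_nil, List.prod_cons, List.prod_nil, mul_one, map_mul,
    prj_gv, prj_gv_ne h1, prj_gv_ne h2, prj_gv_ne h3] at h4
  exact stage_sgn_ne ε h4

lemma stage_letters' {Ω : Type} {G : SimpleGraph Ω} {a b a' b' : Ω} {ε ε' : Bool}
    (h1 : a ≠ b) (h2 : a' ≠ b) (h : ev G [(a, ε), (b, ε')] = ev G [(b', ε'), (a', ε)]) :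
    b' = b := by
  by_contra h3
  have h4 := congrArg (prj b) h
  simp only [ev, gen, List.map_cons, List.map_nil, List.prod_cons, List.prod_nil, mul_one, map_mul,
    prj_gv, prj_gv_ne h1, prj_gv_ne h2, prj_gv_ne h3, one_mul] at h4
  exact stage_sgn_ne ε' h4

lemma stage_swap {a b : D.stage_Om} {ε ε' : Bool} (hab : D.stage_G.Adj a b) (r x g z)
    (h : D.stage_P [(a, ε), (b, ε')] r x g z) : D.stage_P [(b, ε'), (a, ε)] r x g z := by
  have h0 := stage_ev h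
  obtain ⟨g1, y, y', _, rfl, h1, h2, h3, q, u, u', g3, rfl, h4, h5, h6, h7⟩ := h
  obtain ⟨h8, s, h9, h10⟩ := hab
  simp only at h2 h3 h5 h6
  rw [h3, QuotientGroup.eq] at h9
  rw [h6, eq_comm, QuotientGroup.eq] at h10
  obtain ⟨k1, k2, z1, z2, z3, rfl, j1, j2, j3, j4⟩ :=
    D.slide h4 (D.fl_symm h2) h5 h8 ⟨_, h9, _, h10, show D.stage_ct y' q u = _ by group⟩
  have j5 := D.fl_symm j3
  rw [Bool.not_not] at j5
  have key : ∃ s1 s2, D.stage_P [(⟨b.1, s1⟩, ε'), (⟨a.1, s2⟩, ε)] r x (g1 * (k1 * k2 * g3)) z :=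
    ⟨(r * D.stage_ct x (g1 * k1) z1 : GP Γ Zm),
      (r * D.stage_ct x (g1 * k1) z1 * D.stage_ct z3 1 z3 : GP Γ Zm), g1 * k1, z1, z3, k2 * g3, by group, D.vx_mul h1 j1, j2, rfl, 1, z3, z2, k2 * g3,
      (one_mul _).symm, D.fl_vx j5, j5, rfl, D.vx_mul j4 h7⟩
  obtain ⟨s1, s2, key⟩ := key
  have h11 := h0.symm.trans (stage_ev key)
  have n1 : ∀ p q : D.stage_Om, p.1 = a.1 → q.1 = b.1 → p ≠ q := fun p q hp hq e =>
    h8.ne (by rw [← hp, ← hq, e])
  have e1 : (⟨a.1, s2⟩ : D.stage_Om) = a :=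
    stage_letters (n1 a b rfl rfl).symm (n1 a ⟨b.1, s1⟩ rfl rfl).symm h11
  have e2 : (⟨b.1, s1⟩ : D.stage_Om) = b :=
    stage_letters' (n1 a b rfl rfl) (n1 ⟨a.1, s2⟩ b rfl rfl) h11
  rwa [e1, e2] at key

lemma stage_move {v : D.stage_Om} {ε : Bool} {w2 w3 : List (D.stage_Om × Bool)}
    (H : ∀ a ∈ w2, D.stage_G.Adj v a.1) (r x g z)
    (h : D.stage_P ((v, ε) :: (w2 ++ (v, !ε) :: w3)) r x g z) : D.stage_P (w2 ++ w3) r x g z := by
  induction w2 generalizing r x g with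
  | nil => exact stage_suffix (w := w3) stage_cancel h
  | cons b w ih =>
    obtain ⟨g1, u, u', g2, rfl, h3, h4, h5, h6⟩ := stage_suffix (w := w ++ (v, !ε) :: w3)
      (stage_swap (ε := ε) (ε' := b.2) (H b (List.mem_cons_self ..))) h
    exact ⟨g1, u, u', g2, rfl, h3, h4, h5,
      ih (fun a ha => H a (List.mem_cons_of_mem _ ha)) _ _ _ h6⟩

theorem Pth.vx_of_mem {x g y} (h : D.Pth x g y)
    (hc : (D.γ x)⁻¹ * c (D.o x) g * D.γ y ∈ PX Γ Zm D.V1ᶜ) : D.Vx x g y := by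
  have key : ∀ n, ∀ w : List (D.stage_Om × Bool), w.length < n → D.stage_P w 1 x g y →
      D.Vx x g y := by
    intro n
    induction n with
    | zero => exact fun w hw => absurd hw (Nat.not_lt_zero _)
    | succ n ih =>
      intro w hw h1
      have h2 := stage_ev h1
      rw [D.stage_eta_mem (g := D.stage_ct x g y) hc] at h2
      rcases word_one h2.symm with rfl | ⟨w1, w2, w3, v, ε, rfl, H⟩
      · exact h1
      · refine ih (w1 ++ (w2 ++ w3)) ?_ (stage_prefix (stage_move H) h1)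
        simp only [List.length_append, List.length_cons] at hw ⊢
        omega
  obtain ⟨w, h1⟩ := stage_of_pth h 1
  exact key _ w (Nat.lt_succ_self _) h1

end Stg

end Pool.Agent.Lib.MP_19b52f_al.XL
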