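import Pool.Agent.Lib.MP_19b52f_al.XL.SepA
import Pool.Agent.Lib.MP_19b52f_al.XL.ClB
import Pool.Agent.Lib.MP_19b52f_al.XL.KP
import Pool.Agent.Lib.MP_19b52f_al.XL.Stage

/-! The cocycle is injective on the stabilizer of a state. -/

namespace Pool.Agent.Lib.MP_19b52f_al.XL

open Pool.Agent.Lib.MP_19b52f_al.EA Pool.Agent.Lib.MP_19b52f_al.EA2

variable {S : Type} {M : CoxeterMatrix S} {s t : S}

namespace GS
variable [Finite S] {G : GS M} {x : G.Φ} {o o' z z' : G.Φ × Set G.V} {q : Artin M} {v w : G.V}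
  {ε ε' : Bool}

lemma sep_core (h : Lk M s t) {l l' : ℤ} (h1 : -1 ≤ l) (h2 : l ≤ 1) (h3 : -1 ≤ l') (h4 : l' ≤ 1)
    (hq : G.Vx (G.obB x s t 0) q (G.obB x s t 0)) :
    G.SepR (G.obB x s t 0) (G.bt x s t l) q (G.obB x s t 0) (G.bt x s t l') := by
  intro hc
  have e : G.kπ x h (G.ct (G.obB x s t 0) q (G.obB x s t 0)) = q := by
    rw [kπ, kap_ct _ _ (G.κp_inl x s t)]
    have : (G.obB x s t 0).1 = x := G.ch_zero x s t
    rw [this]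
    exact G.kπ_c x h (mem_Pe_of_vx h hq)
  have h5 := hc.map (G.kπ x h) (fun _ hr => G.kπ_lk x h h1 h2 hr) (fun _ hr => G.kπ_lk x h h3 h4 hr)
  rw [e] at h5
  obtain ⟨a, ha, b, hb, rfl⟩ := h5
  exact ⟨_, a, b, rfl, car_zero h h1 h2 ha, car_zero h h3 h4 hb⟩

theorem sepB (h : Lk M s t) (h1 : G.Vx (G.obB x s t 0) q o') (hv : v ∈ (G.obB x s t 0).2)
    (hw : w ∈ o'.2) (hvw : v = w ∨ G.cm v w) : G.SepR (G.obB x s t 0) v q o' w := by
  obtain ⟨j, rfl⟩ := exists_obB h h1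
  obtain ⟨x', s', t', l, l', g1, g2, k0, k1, k2, k3, k4, rfl, rfl, k5, k6⟩ :=
    exists_common h hv hw hvw
  exact SepR.rebase k5 h1 k6 (sep_core k0 k1 k2 k3 k4 ((k5.1.mul h1).mul k6.1))

omit [Finite S] in
lemma Fv.mem (h : G.Fv o v false z) : v ∈ o.2 := by
  rcases h.2.2.2 with h | h
  · exact absurd h.1 (by simp)
  · rw [h.2.2]
    exact Set.mem_insert _ _

theorem sep (h : G.Vx o q o') (h1 : G.Fv o v ε z) (h2 : G.Fv o' w ε' z') (hvw : v = w ∨ G.cm v w)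
    (hc : Mem2 (PX G.Γ Zm (G.lk2 v)) (PX G.Γ Zm (G.lk2 w)) (G.ct o q o')) :
    ∃ y g1 g2, q = g1 * g2 ∧ G.Car o v ε g1 y ∧ G.Car y w ε' g2 o' := by
  cases ε
  swap
  · exact ⟨o', q, 1, (mul_one q).symm, h1.car_add h, h2.car⟩
  cases ε'
  swap
  · refine ⟨o, 1, q, (one_mul q).symm, h1.car, ?_⟩
    simpa using (h2.car_add h.inv).inv
  rcases h.ok.1.classify with h0 | ⟨x, I, g, hI, h0⟩ | ⟨s, t, hst, h0⟩
  · obtain ⟨rfl, rfl⟩ := h.rigid h0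
    exact ⟨o', 1, 1, (mul_one 1).symm, h1.car, h2.car⟩
  · exact sepA hI h0 h h1.mem h2.mem hvw hc
  · have hv := h1.mem
    generalize o.1 = x at h0
    subst h0
    exact sepB hst h hv h2.mem hvw hc

variable (G) in
/-- The data for the abstract lemma. -/
noncomputable def stg : Stg G.Γ G.θ G.c where
  V1 := Set.range Sum.inl
  Ob := G.Φ × Set G.V
  o := Prod.fst
  γ := G.γ
  Vx := G.Vx
  Fl := fun o a ε o' => ∃ v, a = .inl v ∧ G.Fv o v ε o'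
  c_mul := c_mul
  vx_mul := Vx.mul
  vx_inv := Vx.inv
  vx_o := Vx.fst
  vx_ct := Vx.ct_mem
  fl_symm := fun ⟨v, e, h⟩ => ⟨v, e, h.symm⟩
  fl_vx := fun ⟨_, _, h⟩ => Vx.refl h.2.1
  fl_o := fun ⟨_, _, h⟩ => h.1
  fl_γ := fun ⟨_, e, h⟩ => e ▸ h.gauge
  fl_mem := fun ⟨v, e, _⟩ => ⟨v, e.symm⟩
  cancel := by
    rintro o q o' _ ε z z' h ⟨v, rfl, h1⟩ ⟨w, e, h2⟩ hc
    obtain rfl : v = w := Sum.inl.inj e
    obtain ⟨y, g1, g2, rfl, k1, k2⟩ := sep h h1 h2 (Or.inl rfl) ⟨_, hc, 1, one_mem _, (mul_one _).symm⟩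
    obtain ⟨-, a, b, k3, k4, k5⟩ := k1.mul k2
    rwa [h1.unique k3, h2.unique k4]
  slide := by
    rintro o q o' _ ε z _ ε' z' h ⟨v, rfl, h1⟩ ⟨w, rfl, h2⟩ hvw hc
    have hcm := (G.adj_vv v w).mp hvw
    obtain ⟨y, g1, g2, rfl, ⟨-, a, b, k1, k2, k3⟩, -, a', b', k4, k5, k6⟩ :=
      sep h h1 h2 (Or.inr hcm) hc
    obtain ⟨y', k7, k8⟩ := k2.square k4 hcm
    exact ⟨g1, g2, b, a', y', rfl, h1.unique k1 ▸ k3, ⟨w, rfl, k7⟩, ⟨v, rfl, k8⟩,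
      h2.unique k5 ▸ k6⟩

omit [Finite S] in
lemma fv_add (x : G.Φ) (s : S) : G.Fv (x, ∅) (x • G.ξ s) true (G.obA x {s}) :=
  ⟨rfl, ok_empty x, ok_obA x (fun _ a _ b e => absurd (a.trans b.symm) e),
    Or.inl ⟨rfl, Set.notMem_empty _, by simp [obA]⟩⟩

lemma pth_gen (x : G.Φ) (s : S) : G.stg.Pth (x, ∅) (ag M s) (x * G.θ (ag M s), ∅) := by
  have h1 := fv_add x s
  have h2 : G.Vx (G.obA x {s}) (1 * ag M s) (G.mv (G.obA x {s}) s) :=
    Vx.step s (Vx.refl h1.2.2.1) (by simp [obA])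
  have e : G.mv (G.obA x {s}) s = G.obA (x * G.θ (ag M s)) {s} := by
    simp [mv, obA, mul_smul]
  rw [e] at h2
  have h3 := (fv_add (x * G.θ (ag M s)) s).symm
  have := ((Stg.Pth.fl (D := G.stg) ⟨_, rfl, h1⟩).mul (Stg.Pth.vx h2)).mul
    (Stg.Pth.fl (D := G.stg) ⟨_, rfl, h3⟩)
  simpa using this

lemma pth_all (g : Artin M) : ∀ x : G.Φ, G.stg.Pth (x, ∅) g (x * G.θ g, ∅) := by
  have hg := pa_univ g
  induction hg using Subgroup.closure_induction with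
  | mem g hg =>
    obtain ⟨s, -, rfl⟩ := hg
    exact fun x => pth_gen x s
  | one => exact fun x => by simpa using Stg.Pth.vx (D := G.stg) (Vx.refl (ok_empty x))
  | mul a b _ _ iha ihb => exact fun x => by rw [map_mul, ← mul_assoc]; exact (iha x).mul (ihb _)
  | inv a _ ih => exact fun x => by simpa using (ih (x * G.θ a⁻¹)).inv

theorem c_inj (G : GS M) (g : Artin M) (h1 : G.θ g = 1) (h2 : G.c 1 g = 1) : g = 1 := by
  have h := pth_all g (1 : G.Φ)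
  rw [h1, mul_one] at h
  have h3 : G.Vx (1, ∅) g (1, ∅) := h.vx_of_mem (by
    change (G.γ (1, ∅))⁻¹ * G.c 1 g * G.γ (1, ∅) ∈ _
    rw [h2, mul_one, inv_mul_cancel]
    exact one_mem _)
  exact (h3.rigid (fun s => Set.notMem_empty _)).1

end GS

end Pool.Agent.Lib.MP_19b52f_al.XL
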