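import Pool.Agent.Lib.MP_19b52f_al.XL.ModelQ

/-! Construction of the coefficient space. -/

namespace Pool.Agent.Lib.MP_19b52f_al.XL.Md

open Pool.Agent.Lib.MP_19b52f_al.EA Pool.Agent.Lib.MP_19b52f_al.EA2

section blocks
variable {K J : Type} [Field K]

/-- A diagonal operator. -/
def dg (a : K) (l : J → K) : K × K × (J → K) →ₗ[K] K × K × (J → K) where
  toFun u := (a * u.1, a * u.2.1, fun j => l j * u.2.2 j)
  map_add' u v := by ext <;> simp [mul_add]
  map_smul' c u := by ext <;> simp [mul_left_comm]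

@[simp] lemma dg_app (a : K) (l : J → K) (u : K × K × (J → K)) :
    dg a l u = (a * u.1, a * u.2.1, fun j => l j * u.2.2 j) := rfl

variable [DecidableEq J]

/-- A tridiagonal block and a diagonal rest. -/
def jac (γ ρ x h : K) (l : J → K) (j0 : J) : K × K × (J → K) →ₗ[K] K × K × (J → K) where
  toFun u := (γ * u.1 + ρ * u.2.1, u.1 + x * u.2.1 + h * u.2.2 j0,
    fun j => l j * u.2.2 j + if j = j0 then u.2.1 else 0)
  map_add' u v := by
    ext j
    · simp; ring
    · simp; ring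
    · by_cases e : j = j0 <;> simp [e] <;> ring
  map_smul' c u := by
    ext j
    · simp; ring
    · simp; ring
    · by_cases e : j = j0 <;> simp [e] <;> ring

@[simp] lemma jac_app (γ ρ x h : K) (l : J → K) (j0 : J) (u : K × K × (J → K)) :
    jac γ ρ x h l j0 u = (γ * u.1 + ρ * u.2.1, u.1 + x * u.2.1 + h * u.2.2 j0,
      fun j => l j * u.2.2 j + if j = j0 then u.2.1 else 0) := rfl

lemma jac_single {γ ρ x h : K} {l : J → K} {j0 j : J} (e : j ≠ j0) (a : K) :
    jac γ ρ x h l j0 (0, 0, Pi.single j a) = l j • ((0, 0, Pi.single j a) : K × K × (J → K)) := by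
  ext k
  · simp
  · simp [e.symm]
  · by_cases e2 : k = j <;> simp [e2]

lemma dg_single (c : K) (l : J → K) (j : J) (a : K) :
    dg c l (0, 0, Pi.single j a) = l j • ((0, 0, Pi.single j a) : K × K × (J → K)) := by
  ext k
  · simp
  · simp
  · by_cases e2 : k = j <;> simp [e2]

lemma dg_jac {γ ρ x h : K} {l p : J → K} {j0 : J} (e : p j0 = 1) (u : K × K × (J → K)) :
    dg 1 p (jac γ ρ x h l j0 u) = jac γ ρ x h l j0 (dg 1 p u) := by
  ext k
  · simp
  · simp [e]
  · by_cases e2 : k = j0 <;> simp [e2, e, mul_left_comm]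

/-- The characteristic polynomial of the block has the given roots. -/
def Chr (γ ρ x y h : K) (μ : Fin 3 → K) : Prop :=
  μ 0 + μ 1 + μ 2 = γ + x + y ∧
    μ 0 * μ 1 + μ 0 * μ 2 + μ 1 * μ 2 = γ * (x + y) - ρ + (x * y - h) ∧
    μ 0 * μ 1 * μ 2 = γ * (x * y - h) - ρ * y

omit [DecidableEq J] in
lemma exists_chr (γ : K) {ρ : K} (hρ : ρ ≠ 0) (μ : Fin 3 → K) : ∃ x y h, Chr γ ρ x y h μ := by
  obtain ⟨a, ha⟩ : ∃ a, a = μ 0 * μ 1 + μ 0 * μ 2 + μ 1 * μ 2 + ρ - γ * (μ 0 + μ 1 + μ 2 - γ) :=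
    ⟨_, rfl⟩
  obtain ⟨y, hy⟩ : ∃ y, y = (γ * a - μ 0 * μ 1 * μ 2) / ρ := ⟨_, rfl⟩
  rw [eq_div_iff hρ] at hy
  exact ⟨μ 0 + μ 1 + μ 2 - γ - y, y, (μ 0 + μ 1 + μ 2 - γ - y) * y - a, by ring,
    by linear_combination -ha, by linear_combination hy⟩

lemma jac_dec {γ ρ x h : K} {l : J → K} {j0 : J} {μ : Fin 3 → K} (hc : Chr γ ρ x (l j0) h μ)
    (hμ : Function.Injective μ) (a b c : K) : ∃ v : Fin 3 → K × K × (J → K),
      (∀ q, jac γ ρ x h l j0 (v q) = μ q • v q) ∧ (a, b, Pi.single j0 c) = ∑ q, v q := by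
  refine dec_three _ hμ ?_
  rw [hc.1, hc.2.1, hc.2.2]
  ext k
  · simp; ring
  · simp; ring
  · by_cases e : k = j0
    · simp [e]; ring
    · simp [e]

variable [Fintype J]

/-- The diagonal form. -/
def ipd (ρ : K) (n : J → K) : K × K × (J → K) →ₗ[K] K × K × (J → K) →ₗ[K] K :=
  LinearMap.mk₂ K (fun u v => u.1 * v.1 + ρ * (u.2.1 * v.2.1) + ∑ j, n j * (u.2.2 j * v.2.2 j))
    (fun u v w => by simp [add_mul, mul_add, Finset.sum_add_distrib]; ring)
    (fun c u v => by simp [mul_add, Finset.mul_sum, mul_assoc, mul_left_comm])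
    (fun u v w => by simp [mul_add, Finset.sum_add_distrib]; ring)
    (fun c u v => by simp [mul_add, Finset.mul_sum, mul_left_comm])

omit [DecidableEq J] in
@[simp] lemma ipd_app (ρ : K) (n : J → K) (u v : K × K × (J → K)) : ipd ρ n u v =
    u.1 * v.1 + ρ * (u.2.1 * v.2.1) + ∑ j, n j * (u.2.2 j * v.2.2 j) := rfl

lemma ipd_single (ρ : K) (n : J → K) (j : J) :
    ipd ρ n (0, 0, Pi.single j 1) (0, 0, Pi.single j 1) = n j := by
  simp [Pi.single_apply]

omit [DecidableEq J] in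
lemma adj_dg (ρ a : K) (n l : J → K) (u v : K × K × (J → K)) :
    ipd ρ n (dg a l u) v = ipd ρ n u (dg a l v) := by
  simp [mul_assoc, mul_left_comm]

lemma adj_jac {γ ρ x h : K} {n l : J → K} {j0 : J} (e : n j0 = ρ * h) (u v : K × K × (J → K)) :
    ipd ρ n (jac γ ρ x h l j0 u) v = ipd ρ n u (jac γ ρ x h l j0 v) := by
  simp [add_mul, mul_add, Finset.sum_add_distrib, e, mul_assoc, mul_left_comm]
  ring

lemma jac_span {γ ρ x h : K} {l : J → K} {j0 : J} {w : Fin 3 → K} {P : K → Prop}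
    (hc : Chr γ ρ x (l j0) h fun q => w q + (w q)⁻¹)
    (hμ : Function.Injective fun q => w q + (w q)⁻¹) (hw : ∀ q, P (w q)) (u : K × K × (J → K))
    (hu : ∀ j, j ≠ j0 → u.2.2 j = 0 ∨ ∃ z, P z ∧ l j = z + z⁻¹) :
    u ∈ Submodule.span K (Eg (jac γ ρ x h l j0) P) := by
  have e : u = (u.1, u.2.1, Pi.single j0 (u.2.2 j0)) +
      ∑ j ∈ Finset.univ.erase j0, ((0, 0, Pi.single j (u.2.2 j)) : K × K × (J → K)) := by
    ext k
    · simp [Prod.fst_sum]
    · simp [Prod.fst_sum, Prod.snd_sum]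
    · by_cases e : k = j0 <;> simp [Prod.snd_sum, Finset.sum_apply, Pi.single_apply, e]
  obtain ⟨v, h1, h2⟩ := jac_dec hc hμ u.1 u.2.1 (u.2.2 j0)
  rw [e, h2]
  refine add_mem (sum_mem fun q _ => Submodule.subset_span ⟨_, hw q, h1 q⟩) (sum_mem fun j hj => ?_)
  have hj := Finset.ne_of_mem_erase hj
  rcases hu j hj with h3 | ⟨z, h3, h4⟩
  · rw [h3, Pi.single_zero]
    exact zero_mem _
  · exact Submodule.subset_span ⟨z, h3, h4 ▸ jac_single hj _⟩

end blocks

theorem exists_dat {S K : Type} [Finite S] [Field K] [Finite K] {M : CoxeterMatrix S}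
    (P : Par M K) :
    ∃ (U : Type) (_ : AddCommGroup U) (_ : Module K U) (_ : Finite U), Nonempty (Dat M K U) := by
  classical
  let L : Type := Set.range fun p : S × S => M p.1 p.2
  let J : Type := Option (L ⊕ L ⊕ L)
  have : Fintype L := Fintype.ofFinite _
  let lb : S → S → L := fun s t => ⟨M s t, (s, t), rfl⟩
  let ρ := P.ω - P.γ ^ 2
  have hw : ∀ m : ℕ, ∃ (w : Fin 3 → K) (x y h : K), ∀ s t, Lk M s t → M s t = m →
      w 0 = P.r m ∧ (∀ q, Root (w q) m ∧ w q ∈ P.K0) ∧
      (Function.Injective fun q => w q + (w q)⁻¹) ∧ Chr P.γ ρ x y h fun q => w q + (w q)⁻¹ := by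
    intro m
    by_cases e : ∃ s t, Lk M s t ∧ M s t = m
    · obtain ⟨s, t, h, rfl⟩ := e
      obtain ⟨q, h0, h1, h2⟩ := exists_three (P.root s t h) (by exact_mod_cast P.seven s t h)
      obtain ⟨x, y, k, h3⟩ := exists_chr P.γ P.rho fun i => P.r (M s t) ^ q i + (P.r (M s t) ^ q i)⁻¹
      exact ⟨fun i => P.r (M s t) ^ q i, x, y, k, fun _ _ _ _ => ⟨by simp [h0],
        fun i => ⟨h1 i, zpow_mem (P.mem _) _⟩, h2, h3⟩⟩
    · exact ⟨0, 0, 0, 0, fun s t h1 h2 => absurd ⟨s, t, h1, h2⟩ e⟩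
  choose w x y h hw using hw
  let ex : ℕ → J → ℤ := fun m j => match j with
    | some (.inr (.inl l)) => if m = l.1 then 1 else 3
    | some (.inr (.inr l)) => if m = l.1 then 1 else if m = 9 then 5 else 3
    | _ => 1
  let lam : L → J → K := fun l j =>
    if j = some (.inl l) then y l else P.r l ^ ex l j + (P.r l ^ ex l j)⁻¹
  let n : J → K := fun j => match j with
    | some (.inl l) => ρ * h l
    | _ => 1
  let kp : Option (S × S) → J → K := fun i j => match j, i with
    | some (.inr (.inl l)), some i => if M i.1 i.2 = l.1 then 1 else 0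
    | some (.inr (.inl _)), none => 0
    | some (.inr (.inr _)), some _ => 0
    | _, _ => 1
  let A : ℕ → K × K × (J → K) →ₗ[K] K × K × (J → K) := fun m =>
    if m = 1 then dg (-2) fun _ => -2 else if m = 0 then dg P.c fun _ => 3 else
      if e : m ∈ Set.range fun p : S × S => M p.1 p.2 then
        jac P.γ ρ (x m) (h m) (lam ⟨m, e⟩) (some (.inl ⟨m, e⟩)) else 0
  have hA : ∀ s t, Lk M s t → A (M s t) =
      jac P.γ ρ (x (M s t)) (h (M s t)) (lam (lb s t)) (some (.inl (lb s t))) := fun s t e => by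
    simp only [A]
    rw [if_neg (M.off_diagonal s t e.1), if_neg e.2, dif_pos (lb s t).2]
  have hA1 : A 1 = dg (-2) fun _ => -2 := if_pos rfl
  have hA0 : A 0 = dg P.c fun _ => 3 := (if_neg zero_ne_one).trans (if_pos rfl)
  have cs : ∀ s t, M s t = 1 ∨ M s t = 0 ∨ Lk M s t := fun s t => by
    by_cases e : s = t
    · exact .inl (e ▸ M.diagonal s)
    · exact .inr ((em _).imp id fun e2 => ⟨e, e2⟩)
  have h7 : ∀ s t, Lk M s t → (7 : ℤ) ≤ M s t := fun s t e => by exact_mod_cast P.seven s t e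
  have sp : ∀ s t, Lk M s t → ∀ (Q : K → Prop) (u : K × K × (J → K)),
      (∀ z, Root z (M s t) → Q z) → (∀ j, u.2.2 j = 0 ∨ Q (P.r (M s t) ^ ex (M s t) j)) →
      u ∈ Submodule.span K (Eg (A (M s t)) Q) := fun s t e Q u h1 h2 => by
    obtain ⟨-, k1, k2, k3⟩ := hw _ s t e rfl
    rw [hA s t e]
    exact jac_span (by simpa only [lam, if_true] using k3) k2 (fun q => h1 _ (k1 q).1) u
      fun j hj => (h2 j).imp id fun k => ⟨_, k, if_neg hj⟩
  have sg : ∀ s t, Lk M s t → ∀ j : J, (∀ l, j ≠ some (.inl l)) →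
      A (M s t) (0, 0, Pi.single j 1) = (P.r (M s t) ^ ex (M s t) j +
        (P.r (M s t) ^ ex (M s t) j)⁻¹) • ((0, 0, Pi.single j 1) : K × K × (J → K)) :=
    fun s t e j hj => by rw [hA s t e, jac_single (hj _)]; simp only [lam, if_neg (hj _)]; rfl
  have y1 : ∀ s t, Lk M s t → ∀ z : K, Root z (M s t) →
      WR z (M s t) ∧ ∀ d : ℤ, 1 ≤ d → d ≤ 3 → z ^ (2 * d) ≠ 1 := fun s t e z hz =>
    ⟨.of_root hz, fun d h1 h3 => by simpa using pow_ne_one hz (h7 s t e) (.inl rfl) h1 h3⟩
  refine ⟨K × K × (J → K), inferInstance, inferInstance, inferInstance, ⟨{ P with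
    ip := ipd ρ n
    A := A
    π := fun i => dg 1 (kp i)
    e := (1, 0, 0)
    κ := (P.γ, 1, 0)
    T := (0, 0, Pi.single none 1)
    X := fun i => (0, 0, Pi.single (some (.inr (.inl (lb i.1 i.2)))) 1)
    Y := fun i => (0, 0, Pi.single (some (.inr (.inr (lb i.1 i.2)))) 1)
    ip_symm := fun u v => by simp [mul_comm]
    adj := fun s t u v => ?_
    A_one := fun u => by rw [hA1]; rfl
    span_all := fun s t e u => sp s t e _ u (fun z => .of_root) fun j => .inr ?_
    span_P := fun i s t e hi u => sp s t e _ _ (fun z => id) fun j => ?_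
    span_Y := fun s t e u => sp s t e _ _ (y1 s t e) fun j => ?_
    π_A := fun i s t u => ?_
    π_π := fun i u => ?_
    π_T := fun i => by rw [dg_single]; exact one_smul _ _
    ip_T := ipd_single _ _ _
    A_T := fun s t => ?_
    π_X := fun i => by rw [dg_single]; simp [kp, lb]
    ip_X := fun i => ipd_single _ _ _
    A_X := fun i s t e z hz => hz ▸ sg s t e _ (fun _ k => nomatch k)
    π_Y := fun i => by rw [dg_single]; exact one_smul _ _
    ip_Y := fun i => ipd_single _ _ _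
    A_Y := fun i s t e z hz => hz ▸ sg s t e _ (fun _ k => nomatch k)
    π_e := fun i => by ext <;> simp
    ip_ee := by simp
    ip_eκ := by simp
    ip_κκ := by simp [ρ, sq]
    A_e := fun s t e => by rw [hA s t e]; ext <;> simp
    A_zero := by rw [hA0]; ext <;> simp
    dec := fun s t e => ?_ }⟩⟩
  · rcases cs s t with e | e | e
    · rw [e, hA1, adj_dg]
    · rw [e, hA0, adj_dg]
    · rw [hA s t e]
      exact adj_jac (n := n) (j0 := some (.inl (lb s t))) rfl u v
  · refine wr_pow (P.root s t e) (h7 s t e) ?_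
    rcases j with _ | l | l | l <;> simp only [ex] <;> (try split_ifs) <;> simp
  · rcases j with _ | l | l | l
    · exact .inr (by simpa [ex] using P.root s t e)
    · exact .inr (by simpa [ex] using P.root s t e)
    · by_cases k : M s t = l.1
      · exact .inr (by simpa [ex, ← k] using P.root s t e)
      · exact .inl (by simp [kp, hi, k])
    · exact .inl (by simp [kp])
  · rcases j with _ | l | l | l
    · exact .inr (by simpa [ex] using y1 s t e _ (P.root s t e))
    · exact .inr (by simpa [ex] using y1 s t e _ (P.root s t e))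
    · exact .inl (by simp [kp])
    · refine .inr ⟨wr_pow (P.root s t e) (h7 s t e) ?_, fun d =>
        pow_ne_one (P.root s t e) (h7 s t e) ?_⟩ <;> simp only [ex] <;> split_ifs <;> omega
  · rcases cs s t with e | e | e
    · rw [e, hA1]; ext <;> simp [mul_left_comm]
    · rw [e, hA0]; ext <;> simp [mul_left_comm]
    · rw [hA s t e]
      exact dg_jac (p := kp i) (j0 := some (.inl (lb s t))) rfl u
  · ext j
    · simp
    · simp
    · rcases j with _ | l | l | l <;> rcases i with _ | i <;> simp +contextual [kp]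
  · rcases cs s t with e | e | e
    · rw [e, hA1, dg_single]; simp [gv]
    · rw [e, hA0, dg_single]; simp [gv]
    · rw [sg s t e none (fun _ => (Option.some_ne_none _).symm), gv, if_neg e.2,
        if_neg (M.off_diagonal s t e.1), neg_neg]
      simp [ex]
  · obtain ⟨k0, k1, k2, k3⟩ := hw _ s t e rfl
    obtain ⟨v, h1, h2⟩ := jac_dec (l := lam (lb s t)) (j0 := some (.inl (lb s t)))
      (by simpa only [lam, if_true] using k3) k2 1 0 0
    exact ⟨w _, v, k0, fun q => ⟨(k1 q).1, (k1 q).2, hA s t e ▸ h1 q⟩,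
      by rw [← h2, Pi.single_zero], k2⟩

end Pool.Agent.Lib.MP_19b52f_al.XL.Md
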