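import Pool.Agent.Lib.MP_19b52f_al.XL.ModelC

/-! Colours that are far apart. -/

namespace Pool.Agent.Lib.MP_19b52f_al.XL.Md

open Pool.Agent.Lib.MP_19b52f_al.EA Pool.Agent.Lib.MP_19b52f_al.EA2

variable {S : Type} {K U V : Type} [Field K] [AddCommGroup U] [Module K U] [AddCommGroup V]
  [Module K V] {M : CoxeterMatrix S}

namespace Mod
variable (R : Mod M K U V)

lemma apB_of_far {x y : U →ₗ[K] V} (hx : R.B (x R.T) (x R.T) = 2)
    (h : Far M R.r (R.B (x R.T) (y R.T))) : ApB M (Φ := iso R.B) (R.b none) x y := by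
  refine ⟨fun e => h.1 (by rw [← e, hx]), fun e => h.2.1 ?_, fun φ s t i j hl e1 e2 => ?_⟩
  · rw [← neg_eq_iff_eq_neg] at e
    rw [← e, LinearMap.neg_apply, map_neg, hx]
  · exact h.2.2 s t hl (i - j) (by rw [e1, e2, smul_app, smul_app, R.B_smul, R.B_bT hl])

lemma B_TT (s t : S) : R.B (R.al s R.T) (R.al t R.T) = gv R.r (M s t) := by
  rw [R.B_al, R.A_T, map_smul, R.ip_T]
  simp

lemma b_two_T (s t : S) : R.b none s t 2 R.T = R.al t R.T - gv R.r (M s t) • R.al s R.T := by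
  rw [b_app, R.π_T, R.rt_two, R.A_T, map_smul]
  module

lemma B_αT (s : S) : R.B (R.α none s R.T) (R.α none s R.T) = 2 := by
  rw [α_app, R.π_T, R.B_al_self, R.ip_T, mul_one]

lemma ap_inf (s u : S) (_h : s ≠ u) (h0 : M s u = 0) :
    ApB M (Φ := iso R.B) (R.b none) (R.α none s) (R.α none u) := by
  refine R.apB_of_far (R.B_αT s) ?_
  rw [α_app, α_app, R.π_T, R.B_TT, h0, gv, if_pos rfl]
  exact R.far_inf

lemma ap_one (s t u : S) (h : Lk M s t) (h1 : u ≠ s) (h2 : u ≠ t) :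
    ApB M (Φ := iso R.B) (R.b none) (R.α none u) (R.b none s t 2) := by
  refine R.apB_of_far (R.B_αT u) ?_
  rw [α_app, R.π_T, R.b_two_T, map_sub, map_smul, R.B_TT, R.B_TT, smul_eq_mul]
  exact R.far_one s t u h h1 h2

lemma ap_two (s t u v : S) (h : Lk M s t) (h' : Lk M u v) (h1 : s ≠ u) (h2 : ¬ (t = u ∧ v = s)) :
    ApB M (Φ := iso R.B) (R.b none) (R.b none s t 2) (R.b none u v 2) := by
  refine R.apB_of_far (by rw [R.B_bT h]; norm_num) ?_
  convert R.far_two s t u v h h' h1 h2 using 1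
  simp only [b_two_T, map_sub, map_smul, LinearMap.sub_apply, LinearMap.smul_apply, B_TT,
    smul_eq_mul]
  ring

end Mod

end Pool.Agent.Lib.MP_19b52f_al.XL.Md
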