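import Pool.Agent.Lib.MP_19b52f_al.XL.ModelN0

/-! Transfer of the roots of unity to a finite field. -/

namespace Pool.Agent.Lib.MP_19b52f_al.XL.Md

open Pool.Agent.Lib.MP_19b52f_al.EA Pool.Agent.Lib.MP_19b52f_al.EA2

theorem n2_graph {L : Type} [Field L] {T D : Set L} (hT : T.Finite) (hD : D.Finite) :
    ∃ (F : Type) (_ : Field F) (_ : Finite F), ∀ (K : Type) [Field K] (ι : F →+* K),
      ∃ Γ : Subring (L × K), (∀ x, ∃ y ∈ ι.fieldRange, x ∈ T → (x, y) ∈ Γ) ∧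
        (∀ y, ((0 : L), y) ∈ Γ → y = 0) ∧ ∀ x ∈ D, (x, (0 : K)) ∈ Γ → x = 0 := by
  classical
  let R : Subalgebra ℤ L := Algebra.adjoin ℤ T
  have hfg : R.FG := Subalgebra.fg_def.mpr ⟨T, hT, rfl⟩
  have : Algebra.FiniteType ℤ R := (Subalgebra.fg_iff_finiteType R).mp hfg
  have hfin : (((↑) : R → L) ⁻¹' D).Finite := hD.preimage Subtype.val_injective.injOn
  have := hfin.to_subtype
  obtain ⟨F, hF, hF', φ, hφ⟩ := exists_quot (R := R) (fun a : (((↑) : R → L) ⁻¹' D) => a.1)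
  refine ⟨F, hF, hF', fun K _ ι => ⟨(RingHom.prod R.val.toRingHom (ι.comp φ)).range, ?_, ?_, ?_⟩⟩
  · intro x
    by_cases hx : x ∈ T
    · exact ⟨ι (φ ⟨x, Algebra.subset_adjoin hx⟩), ⟨_, rfl⟩, fun _ => ⟨⟨x, _⟩, rfl⟩⟩
    · exact ⟨0, zero_mem _, fun h => absurd h hx⟩
  · rintro y ⟨a, ha⟩
    have h1 : a = 0 := Subtype.ext (congrArg Prod.fst ha)
    have h2 : ι (φ a) = y := congrArg Prod.snd ha
    rw [← h2, h1, map_zero, map_zero]
  · rintro x hx ⟨a, ha⟩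
    have h1 : (a : L) = x := congrArg Prod.fst ha
    have h2 : ι (φ a) = 0 := congrArg Prod.snd ha
    by_contra h0
    exact hφ ⟨a, by rw [Set.mem_preimage, h1]; exact hx⟩ (fun e => h0 (by
      have e' : a = 0 := e
      rw [← h1, e']
      rfl)) ((map_eq_zero ι).mp h2)

theorem n2_zpow_finite {L : Type} [Field L] {z : L} {m : ℕ} (h : Root z m) :
    (Set.range fun a : ℤ => z ^ a).Finite := by
  classical
  have h2 := h.two
  refine (Polynomial.nthRootsFinset (2 * m) (1 : L)).finite_toSet.subset ?_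
  rintro _ ⟨a, rfl⟩
  rw [Finset.mem_coe, Polynomial.mem_nthRootsFinset (by omega), ← zpow_natCast, ← zpow_mul, h.dvd]
  push_cast
  exact Dvd.intro_left _ rfl

theorem par0_transfer {S L : Type} [Finite S] [Field L] {M : CoxeterMatrix S} (P : Par0 M L) :
    ∃ (F : Type) (_ : Field F) (_ : Finite F), ∀ (K : Type) [Field K] (ι : F →+* K),
      ∃ Q : Par0 M K, ∀ m, Q.r m ∈ ι.fieldRange := by
  let T : Set L := (Set.range fun p : S × S => P.r (M p.1 p.2)) ∪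
    Set.range fun p : S × S => (P.r (M p.1 p.2))⁻¹
  let Z : Set L := ⋃ p : {p : S × S // Lk M p.1 p.2}, Set.range fun a : ℤ => P.r (M p.1.1 p.1.2) ^ a
  let X : Set L := insert (-3) ((Set.range fun p : S × S × S =>
      gv P.r (M p.2.2 p.2.1) - gv P.r (M p.1 p.2.1) * gv P.r (M p.2.2 p.1)) ∪
    Set.range fun p : (S × S) × S × S =>
      gv P.r (M p.1.1 p.1.2) * gv P.r (M p.2.1 p.2.2) * gv P.r (M p.1.1 p.2.1) -
        gv P.r (M p.1.1 p.1.2) * gv P.r (M p.1.1 p.2.2) -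
        gv P.r (M p.2.1 p.2.2) * gv P.r (M p.1.2 p.2.1) + gv P.r (M p.1.2 p.2.2))
  let Y : Set L := insert 2 (insert (-2) (Set.image2 (· + ·) Z Z))
  let D : Set L := insert 2 (Set.image2 (· - ·) X Y ∪ ((fun x => x - 1) '' Z ∪
    Set.range fun p : S × S => (P.r (M p.1 p.2) + (P.r (M p.1 p.2))⁻¹) ^ 3 +
      2 * (P.r (M p.1 p.2) + (P.r (M p.1 p.2))⁻¹) ^ 2 - 2))
  have hT : T.Finite := (Set.finite_range _).union (Set.finite_range _)
  have hZ : Z.Finite := Set.finite_iUnion fun p => n2_zpow_finite (P.root _ _ p.2)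
  have hX : X.Finite := ((Set.finite_range _).union (Set.finite_range _)).insert _
  have hY : Y.Finite := ((hZ.image2 _ hZ).insert _).insert _
  have hD : D.Finite :=
    ((hX.image2 _ hY).union ((hZ.image _).union (Set.finite_range _))).insert _
  obtain ⟨F, hF, hF', H⟩ := n2_graph hT hD
  refine ⟨F, hF, hF', fun K _ ι => ?_⟩
  obtain ⟨Γ, h1, h2, h3⟩ := H K ι
  choose g hg hgT using h1
  have mZ : ∀ s t, Lk M s t → ∀ a : ℤ, P.r (M s t) ^ a ∈ Z := fun s t h a =>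
    Set.mem_iUnion.mpr ⟨⟨(s, t), h⟩, a, rfl⟩
  have eq : ∀ {x : L} {y y' : K}, (x, y) ∈ Γ → (x, y') ∈ Γ → y = y' := fun {x y y'} a b =>
    sub_eq_zero.mp (h2 _ (by simpa using sub_mem a b))
  have ne : ∀ {x x' : L} {y y' : K}, (x, y) ∈ Γ → (x', y') ∈ Γ → x - x' ∈ D → x ≠ x' → y ≠ y' :=
    fun {x x' y y'} a b hd hx e =>
      hx (sub_eq_zero.mp (h3 _ hd (by simpa [e] using sub_mem a b)))
  have m0 : ((0 : L), (0 : K)) ∈ Γ := zero_mem Γ
  have m1 : ((1 : L), (1 : K)) ∈ Γ := one_mem Γ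
  have m2 : ((2 : L), (2 : K)) ∈ Γ := ofNat_mem Γ 2
  have m3 : ((-3 : L), (-3 : K)) ∈ Γ := neg_mem (ofNat_mem Γ 3)
  have mr : ∀ s t, (P.r (M s t), g (P.r (M s t))) ∈ Γ := fun s t =>
    hgT _ (Or.inl ⟨(s, t), rfl⟩)
  have mi : ∀ s t, ((P.r (M s t))⁻¹, (g (P.r (M s t)))⁻¹) ∈ Γ := fun s t => by
    have a := mr s t
    have b := hgT _ (Or.inr ⟨(s, t), rfl⟩ : (P.r (M s t))⁻¹ ∈ T)
    by_cases h0 : P.r (M s t) = 0
    · have e : g (P.r (M s t)) = 0 := h2 _ (h0 ▸ a)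
      rw [e, h0, inv_zero, inv_zero]
      exact m0
    · have c : (P.r (M s t) * (P.r (M s t))⁻¹, g (P.r (M s t)) * g (P.r (M s t))⁻¹) ∈ Γ :=
        mul_mem a b
      rw [mul_inv_cancel₀ h0] at c
      rw [← eq_inv_of_mul_eq_one_right (eq c m1)]
      exact b
  have mz : ∀ s t (a : ℤ), (P.r (M s t) ^ a, g (P.r (M s t)) ^ a) ∈ Γ := fun s t a => by
    obtain ⟨n, rfl | rfl⟩ := a.eq_nat_or_neg
    · rw [zpow_natCast, zpow_natCast]
      exact pow_mem (mr s t) n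
    · rw [zpow_neg, zpow_neg, zpow_natCast, zpow_natCast, ← inv_pow, ← inv_pow]
      exact pow_mem (mi s t) n
  have mg : ∀ s t, (gv P.r (M s t), gv (fun m => g (P.r m)) (M s t)) ∈ Γ := fun s t => by
    unfold gv
    split_ifs
    · exact m3
    · exact m2
    · exact neg_mem (add_mem (mr s t) (mi s t))
  have far : ∀ {x : L} {y : K}, (x, y) ∈ Γ → x ∈ X → Far M P.r x → Far M (fun m => g (P.r m)) y :=
    fun {x y} a hx hf => by
      have hd : ∀ x' ∈ Y, x - x' ∈ D := fun x' hx' => Or.inr (Or.inl ⟨x, hx, x', hx', rfl⟩)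
      refine ⟨ne a m2 (hd _ (Or.inl rfl)) hf.1,
        ne a (neg_mem m2) (hd _ (Or.inr (Or.inl rfl))) hf.2.1, fun s t h k => ?_⟩
      exact ne a (add_mem (mz s t k) (mz s t (-k)))
        (hd _ (Or.inr (Or.inr ⟨_, mZ s t h k, _, mZ s t h (-k), rfl⟩))) (hf.2.2 s t h k)
  refine ⟨⟨fun m => g (P.r m), P.seven, ?_, fun s t h => ?_, far m3 (Or.inl rfl) P.far_inf,
    fun s t u h a b => ?_, fun s t u v h h' a b => ?_, fun s t h => ?_⟩, fun m => hg _⟩
  · exact ne m2 m0 (by rw [sub_zero]; exact Or.inl rfl) P.two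
  · have r := P.root s t h
    have key : ∀ k : ℤ, g (P.r (M s t)) ^ k = 1 ↔ 2 * (M s t : ℤ) ∣ k := fun k => by
      rw [← r.dvd]
      refine ⟨fun e => ?_, fun e => eq (e ▸ mz s t k) m1⟩
      by_contra e'
      exact ne (mz s t k) m1 (Or.inr (Or.inr (Or.inl ⟨_, mZ s t h k, rfl⟩))) e' e
    refine ⟨r.two, fun e => ?_, key⟩
    have e1 := (key _).mpr dvd_rfl
    have := r.two
    rw [e, zero_zpow _ (by omega)] at e1
    exact zero_ne_one e1
  · exact far (sub_mem (mg u t) (mul_mem (mg s t) (mg u s))) (Or.inr (Or.inl ⟨(s, t, u), rfl⟩))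
      (P.far_one s t u h a b)
  · exact far (add_mem (sub_mem (sub_mem (mul_mem (mul_mem (mg s t) (mg u v)) (mg s u))
      (mul_mem (mg s t) (mg s v))) (mul_mem (mg u v) (mg t u))) (mg t v))
      (Or.inr (Or.inr ⟨((s, t), u, v), rfl⟩)) (P.far_two s t u v h h' a b)
  · have c := add_mem (mr s t) (mi s t)
    exact ne (sub_mem (add_mem (pow_mem c 3) (mul_mem m2 (pow_mem c 2))) m2) m0
      (by rw [sub_zero]; exact Or.inr (Or.inr (Or.inr ⟨(s, t), rfl⟩))) (P.node s t h)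

end Pool.Agent.Lib.MP_19b52f_al.XL.Md
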