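import Pool.Agent.Lib.MP_19b52f_al.XL.ModelA

/-! Three eigenvalues. -/

namespace Pool.Agent.Lib.MP_19b52f_al.XL.Md

open Pool.Agent.Lib.MP_19b52f_al.EA Pool.Agent.Lib.MP_19b52f_al.EA2

variable {S : Type} {K U V : Type} [Field K] [AddCommGroup U] [Module K U] [AddCommGroup V]
  [Module K V] {M : CoxeterMatrix S}

lemma mq_cop {q n a b : ℤ} (hq : Odd q) (e : a * q + b * n = 8) : IsCoprime q n := by
  obtain ⟨t, ht⟩ := hq
  have h2 : IsCoprime q 2 := ⟨1, -t, by rw [ht]; ring⟩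
  have h8 : IsCoprime q (2 ^ 3) := h2.pow_right
  obtain ⟨u, w, h⟩ := h8
  refine ⟨u + w * a, w * b, ?_⟩
  linear_combination h + w * e

lemma mq_root {z : K} {m q : ℤ} (h : Root z m) (hq : IsCoprime q (2 * m)) : Root (z ^ q) m := by
  refine ⟨h.two, zpow_ne_zero _ h.ne, fun k => ?_⟩
  rw [← zpow_mul, h.dvd]
  exact ⟨fun e => hq.symm.dvd_of_dvd_mul_left e, fun e => e.mul_left q⟩

lemma mq_inj {z : K} {m i j : ℤ} (h : Root z m) (hi : 0 < i) (hi' : i < m) (hj : 0 < j)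
    (hj' : j < m) (e : z ^ i + (z ^ i)⁻¹ = z ^ j + (z ^ j)⁻¹) : i = j := by
  rw [← zpow_neg, ← zpow_neg] at e
  by_contra hne
  rcases h.cos_eq e with h1 | h1
  · exact not_dvd (by omega) (by omega) (by omega) h1
  · exact not_dvd (by omega) (by omega) (by omega) h1

lemma mq_three {z : K} {m a b : ℤ} (h : Root z m) (h1 : 1 < b) (h2 : b < a) (h3 : a < m)
    (ha : IsCoprime a (2 * m)) (hb : IsCoprime b (2 * m)) :
    ∃ q : Fin 3 → ℤ, q 0 = 1 ∧ (∀ i, Root (z ^ q i) m) ∧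
      Function.Injective fun i => z ^ q i + (z ^ q i)⁻¹ := by
  have hq : ∀ i : Fin 3, 0 < ![1, a, b] i ∧ ![1, a, b] i < m ∧ IsCoprime (![1, a, b] i) (2 * m) := by
    intro i
    fin_cases i
    · exact ⟨by simp, by simp; omega, by simpa using isCoprime_one_left⟩
    · exact ⟨by simp; omega, by simpa using h3, by simpa using ha⟩
    · exact ⟨by simp; omega, by simp; omega, by simpa using hb⟩
  refine ⟨![1, a, b], rfl, fun i => mq_root h (hq i).2.2, fun i j e => ?_⟩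
  have := mq_inj h (hq i).1 (hq i).2.1 (hq j).1 (hq j).2.1 e
  fin_cases i <;> fin_cases j <;> simp at this ⊢ <;> omega

lemma exists_three {z : K} {m : ℤ} (h : Root z m) (hm : 7 ≤ m) :
    ∃ q : Fin 3 → ℤ, q 0 = 1 ∧ (∀ i, Root (z ^ q i) m) ∧
      Function.Injective fun i => z ^ q i + (z ^ q i)⁻¹ := by
  have h4 : (∃ t, m = 2 * t + 1) ∨ (∃ t, m = 4 * t) ∨ ∃ t, m = 4 * t + 2 := by
    rcases Int.emod_two_eq_zero_or_one m with h1 | h1
    · rcases Int.emod_two_eq_zero_or_one (m / 2) with h2 | h2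
      · exact Or.inr (Or.inl ⟨m / 4, by omega⟩)
      · exact Or.inr (Or.inr ⟨m / 4, by omega⟩)
    · exact Or.inl ⟨m / 2, by omega⟩
  rcases h4 with ⟨t, ht⟩ | ⟨t, ht⟩ | ⟨t, ht⟩
  · exact mq_three (a := m - 2) (b := m - 4) h (by omega) (by omega) (by omega)
      (mq_cop (a := -4) (b := 2) ⟨t - 1, by omega⟩ (by ring))
      (mq_cop (a := -2) (b := 1) ⟨t - 2, by omega⟩ (by ring))
  · exact mq_three (a := m - 1) (b := 2 * t - 1) h (by omega) (by omega) (by omega)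
      (mq_cop (a := -8) (b := 4) ⟨2 * t - 1, by omega⟩ (by ring))
      (mq_cop (a := -8) (b := 2) ⟨t - 1, by omega⟩ (by omega))
  · exact mq_three (a := m - 1) (b := 2 * t - 1) h (by omega) (by omega) (by omega)
      (mq_cop (a := -8) (b := 4) ⟨2 * t, by omega⟩ (by ring))
      (mq_cop (a := -4) (b := 1) ⟨t - 1, by omega⟩ (by omega))

lemma dec_three (A : U →ₗ[K] U) {μ : Fin 3 → K} (hμ : Function.Injective μ) {u : U}
    (h : A (A (A u)) - (μ 0 + μ 1 + μ 2) • A (A u) + (μ 0 * μ 1 + μ 0 * μ 2 + μ 1 * μ 2) • A u -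
      (μ 0 * μ 1 * μ 2) • u = 0) :
    ∃ v : Fin 3 → U, (∀ q, A (v q) = μ q • v q) ∧ u = ∑ q, v q := by
  have h01 : μ 0 - μ 1 ≠ 0 := sub_ne_zero.2 fun e => by simpa using hμ e
  have h02 : μ 0 - μ 2 ≠ 0 := sub_ne_zero.2 fun e => by simpa using hμ e
  have h12 : μ 1 - μ 2 ≠ 0 := sub_ne_zero.2 fun e => by simpa using hμ e
  have h3 : A (A (A u)) = (μ 0 + μ 1 + μ 2) • A (A u) -
      (μ 0 * μ 1 + μ 0 * μ 2 + μ 1 * μ 2) • A u + (μ 0 * μ 1 * μ 2) • u := by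
    linear_combination (norm := module) h
  have key : ∀ a b c d : K, a + b + c = μ 0 + μ 1 + μ 2 →
      a * b + a * c + b * c = μ 0 * μ 1 + μ 0 * μ 2 + μ 1 * μ 2 → a * b * c = μ 0 * μ 1 * μ 2 →
      A (d • (A (A u) - (b + c) • A u + (b * c) • u)) =
        a • d • (A (A u) - (b + c) • A u + (b * c) • u) := by
    intro a b c d e1 e2 e3
    simp only [map_smul, map_add, map_sub]
    rw [h3, ← e1, ← e2, ← e3]
    module
  refine ⟨![((μ 0 - μ 1) * (μ 0 - μ 2))⁻¹ • (A (A u) - (μ 1 + μ 2) • A u + (μ 1 * μ 2) • u),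
    (-((μ 0 - μ 1) * (μ 1 - μ 2))⁻¹) • (A (A u) - (μ 0 + μ 2) • A u + (μ 0 * μ 2) • u),
    ((μ 0 - μ 2) * (μ 1 - μ 2))⁻¹ • (A (A u) - (μ 0 + μ 1) • A u + (μ 0 * μ 1) • u)],
    fun q => ?_, ?_⟩
  · fin_cases q
    · exact key (μ 0) (μ 1) (μ 2) _ (by ring) (by ring) (by ring)
    · exact key (μ 1) (μ 0) (μ 2) _ (by ring) (by ring) (by ring)
    · exact key (μ 2) (μ 0) (μ 1) _ (by ring) (by ring) (by ring)
  · rw [Fin.sum_univ_three]
    simp only [Matrix.cons_val_zero, Matrix.cons_val_one, Matrix.cons_val]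
    match_scalars <;> field_simp <;> ring

lemma wr_pow {z : K} {m j : ℤ} (h : Root z m) (hm : 7 ≤ m) (hj : j = 1 ∨ j = 3 ∨ j = 5) :
    WR (z ^ j) m := by
  refine ⟨zpow_ne_zero _ h.ne, ?_, fun e => ?_⟩
  · rw [← zpow_mul, mul_comm, zpow_mul, h.pow_m]
    rcases hj with rfl | rfl | rfl <;> norm_num [zpow_ofNat]
  · rw [← zpow_neg] at e
    exact not_dvd (by omega) (by omega) (by omega) (h.qi_eq_zero.mp e)

lemma pow_ne_one {z : K} {m j : ℤ} (h : Root z m) (hm : 7 ≤ m)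
    (hj : j = 1 ∨ (j = 3 ∧ m ≠ 9) ∨ (j = 5 ∧ m = 9)) {d : ℤ} (h1 : 1 ≤ d) (h3 : d ≤ 3) :
    (z ^ j) ^ (2 * d) ≠ 1 := by
  intro e
  rw [← zpow_mul, h.dvd, show j * (2 * d) = 2 * (j * d) by ring,
    mul_dvd_mul_iff_left two_ne_zero] at e
  rcases hj with rfl | ⟨rfl, h9⟩ | ⟨rfl, rfl⟩
  · exact not_dvd (by omega) (by omega) (by omega) e
  · have h4 := Int.le_of_dvd (by omega) e
    have h5 : m = 7 ∨ m = 8 := by omega
    rcases h5 with rfl | rfl <;> omega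
  · omega

lemma interp_three {K0 : Subfield K} {μ g : Fin 3 → K} (hμ : Function.Injective μ)
    (h1 : ∀ q, μ q ∈ K0) (h2 : ∀ q, g q ∈ K0) :
    ∃ a ∈ K0, ∃ b ∈ K0, ∃ c ∈ K0, ∀ q, g q = a + b * μ q + c * μ q ^ 2 := by
  have h01 : μ 0 - μ 1 ≠ 0 := sub_ne_zero.2 fun e => by simpa using hμ e
  have h02 : μ 0 - μ 2 ≠ 0 := sub_ne_zero.2 fun e => by simpa using hμ e
  have h12 : μ 1 - μ 2 ≠ 0 := sub_ne_zero.2 fun e => by simpa using hμ e
  set d0 := g 0 / ((μ 0 - μ 1) * (μ 0 - μ 2)) with e0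
  set d1 := -(g 1 / ((μ 0 - μ 1) * (μ 1 - μ 2))) with e1
  set d2 := g 2 / ((μ 0 - μ 2) * (μ 1 - μ 2)) with e2
  have m0 : d0 ∈ K0 := div_mem (h2 0) (mul_mem (sub_mem (h1 0) (h1 1)) (sub_mem (h1 0) (h1 2)))
  have m1 : d1 ∈ K0 :=
    neg_mem (div_mem (h2 1) (mul_mem (sub_mem (h1 0) (h1 1)) (sub_mem (h1 1) (h1 2))))
  have m2 : d2 ∈ K0 := div_mem (h2 2) (mul_mem (sub_mem (h1 0) (h1 2)) (sub_mem (h1 1) (h1 2)))
  refine ⟨d0 * (μ 1 * μ 2) + d1 * (μ 0 * μ 2) + d2 * (μ 0 * μ 1),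
    add_mem (add_mem (mul_mem m0 (mul_mem (h1 1) (h1 2))) (mul_mem m1 (mul_mem (h1 0) (h1 2))))
      (mul_mem m2 (mul_mem (h1 0) (h1 1))),
    -(d0 * (μ 1 + μ 2) + d1 * (μ 0 + μ 2) + d2 * (μ 0 + μ 1)),
    neg_mem (add_mem (add_mem (mul_mem m0 (add_mem (h1 1) (h1 2)))
      (mul_mem m1 (add_mem (h1 0) (h1 2)))) (mul_mem m2 (add_mem (h1 0) (h1 1)))),
    d0 + d1 + d2, add_mem (add_mem m0 m1) m2, fun q => ?_⟩
  have k0 : g 0 = d0 * ((μ 0 - μ 1) * (μ 0 - μ 2)) := by rw [e0]; field_simp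
  have k1 : g 1 = -d1 * ((μ 0 - μ 1) * (μ 1 - μ 2)) := by rw [e1]; field_simp
  have k2 : g 2 = d2 * ((μ 0 - μ 2) * (μ 1 - μ 2)) := by rw [e2]; field_simp
  fin_cases q
  · change g 0 = _ + _ * μ 0 + _ * μ 0 ^ 2
    linear_combination k0
  · change g 1 = _ + _ * μ 1 + _ * μ 1 ^ 2
    linear_combination k1
  · change g 2 = _ + _ * μ 2 + _ * μ 2 ^ 2
    linear_combination k2

end Pool.Agent.Lib.MP_19b52f_al.XL.Md
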