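import Pool.Agent.Lib.MP_19b52f_al.XL.ModelT
import Pool.Agent.Lib.MP_19b52f_al.XL.ModelQ

/-! The colours of the new walls in a polygon. -/

namespace Pool.Agent.Lib.MP_19b52f_al.XL.Md

open Pool.Agent.Lib.MP_19b52f_al.EA Pool.Agent.Lib.MP_19b52f_al.EA2

variable {S : Type} {K U V : Type} [Field K] [AddCommGroup U] [Module K U] [AddCommGroup V]
  [Module K V] {M : CoxeterMatrix S}

/-- The sums of the quantum integers. -/
def mp_F (z : K) (l : ℤ) : K := (z ^ l + z ^ (-l) - 2) / (z + z⁻¹ - 2)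

lemma mp_sq {z : K} {m : ℤ} (h : Root z m) : z ^ 2 - 1 ≠ 0 := fun e => by
  have h0 := h.ne
  exact h.den (by field_simp; linear_combination e)

lemma mp_den {z : K} {m : ℤ} (h : Root z m) : z + z⁻¹ - 2 ≠ 0 ∧ z + z⁻¹ + 2 ≠ 0 := by
  have h0 := h.ne
  have h1 := mp_sq h
  have h2 : z - 1 ≠ 0 := fun e => h1 (by linear_combination (z + 1) * e)
  have h3 : z + 1 ≠ 0 := fun e => h1 (by linear_combination (z - 1) * e)
  constructor
  · rw [show z + z⁻¹ - 2 = (z - 1) ^ 2 / z by field_simp; ring]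
    exact div_ne_zero (pow_ne_zero _ h2) h0
  · rw [show z + z⁻¹ + 2 = (z + 1) ^ 2 / z by field_simp; ring]
    exact div_ne_zero (pow_ne_zero _ h3) h0

lemma mp_F_succ {z : K} {m : ℤ} (h : Root z m) (l : ℤ) :
    mp_F z (l + 1) = mp_F z l + (qi z (l + 1) + qi z (l + 1 - 1)) := by
  have h0 := h.ne
  have h1 := zpow_ne_zero l h0
  rw [mp_F, mp_F, add_sub_cancel_right, qi, qi, ← add_div, ← sub_eq_iff_eq_add', ← sub_div,
    div_eq_div_iff (mp_den h).1 h.den]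
  simp only [zpow_neg, zpow_add_one₀ h0]
  field_simp
  ring

lemma mp_cassini {z : K} {m : ℤ} (h : Root z m) (k : ℤ) :
    qi z k ^ 2 - (z + z⁻¹) * (qi z k * qi z (k - 1)) + qi z (k - 1) ^ 2 = 1 := by
  have h0 := h.ne
  have h1 := zpow_ne_zero k h0
  have h3 := h.den
  have h4 := mp_sq h
  simp only [qi, neg_sub, zpow_sub₀ h0, zpow_neg, zpow_one]
  field_simp
  ring

lemma mp_ne {z : K} {m : ℤ} (h : Root z m) (hm : 7 ≤ m) :
    z + z⁻¹ ≠ 0 ∧ z + z⁻¹ - 1 ≠ 0 ∧ z + z⁻¹ + 1 ≠ 0 ∧ (z + z⁻¹) ^ 2 - 2 ≠ 0 := by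
  have hp : ∀ j : ℕ, 0 < j → j < 14 → z ^ j ≠ 1 := fun j h1 h2 e =>
    not_dvd (m := 2 * m) (k := j) (by omega) (by omega) (by omega)
      ((h.dvd j).mp (by rw [zpow_natCast, e]))
  have hy := mul_inv_cancel₀ h.ne
  generalize z⁻¹ = y at hy ⊢
  refine ⟨fun e => hp 4 (by omega) (by omega) ?_, fun e => hp 6 (by omega) (by omega) ?_,
    fun e => hp 3 (by omega) (by omega) ?_, fun e => hp 8 (by omega) (by omega) ?_⟩
  · linear_combination (z ^ 2 - 1) * z * e - (z ^ 2 - 1) * hy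
  · linear_combination (z ^ 3 - 1) * (z + 1) * z * e - (z ^ 3 - 1) * (z + 1) * hy
  · linear_combination (z - 1) * z * e - (z - 1) * hy
  · linear_combination (z ^ 4 - 1) * z ^ 2 * e - (z ^ 4 - 1) * (2 * z ^ 2 + z * y + 1) * hy

lemma mp_qi_mem {K0 : Subfield K} {z : K} (h : z ∈ K0) (k : ℤ) : qi z k ∈ K0 :=
  div_mem (sub_mem (zpow_mem h _) (zpow_mem h _)) (sub_mem h (inv_mem h))

lemma mp_two_mem (K0 : Subfield K) : (2 : K) ∈ K0 := by
  simp

namespace Mod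
variable (R : Mod M K U V)

lemma mp_key {s t : S} (h : Lk M s t) : ∃ (z w : Fin 3 → K), z 0 = R.r (M s t) ∧
    (∀ q, Root (z q) (M s t) ∧ z q ∈ R.K0) ∧
    (∀ y : V, (∀ u, R.B y (R.al s u) = -R.ip R.e u) → (∀ u, R.B y (R.al t u) = -R.ip R.e u) →
      ∀ k, R.B y (R.rt s t k R.e) = -∑ q, w q * (qi (z q) k + qi (z q) (k - 1))) ∧
    R.ip R.κ (R.A (M s t) R.κ) = ∑ q, w q * (z q + (z q)⁻¹) ^ 3 ∧
    ∀ g : Fin 3 → K, (∀ q, g q ∈ R.K0) → ∀ a ∈ R.K0, ∀ b ∈ R.K0, ∀ c ∈ R.K0, ∀ d ∈ R.K0,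
      ∑ q, w q * g q = a + b * R.γ + c * R.ω + d * (R.c * R.γ) →
        d = 0 ∧ g 0 = a + b * (z 0 + (z 0)⁻¹) + c * (z 0 + (z 0)⁻¹) ^ 2 := by
  obtain ⟨z, v, h0, h1, h2, h3⟩ := R.dec s t h
  have hA : ∀ n : ℕ, R.ip R.e ((R.A (M s t) ^ n) R.e) =
      ∑ q, R.ip R.e (v q) * (z q + (z q)⁻¹) ^ n := fun n => by
    have : ∀ q, (R.A (M s t) ^ n) (v q) = (z q + (z q)⁻¹) ^ n • v q := fun q => by
      induction n with
      | zero => simp
      | succ n ih => rw [pow_succ', Module.End.mul_apply, ih, map_smul, (h1 q).2.2, smul_smul,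
          pow_succ]
    rw [congrArg (R.A (M s t) ^ n) h2, map_sum, map_sum]
    simp only [this, map_smul, smul_eq_mul, mul_comm]
  have m0 := hA 0
  have m1 := hA 1
  have m2 := hA 2
  have m3 := hA 3
  rw [pow_zero, Module.End.one_apply, R.ip_ee] at m0
  rw [pow_one, R.A_e s t h, R.ip_eκ] at m1
  rw [pow_two, Module.End.mul_apply, ← R.adj, R.A_e s t h, R.ip_κκ] at m2
  rw [pow_three, Module.End.mul_apply, Module.End.mul_apply, ← R.adj, R.A_e s t h] at m3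
  refine ⟨z, fun q => R.ip R.e (v q), h0, fun q => ⟨(h1 q).1, (h1 q).2.1⟩, ?_, m3, ?_⟩
  · intro y hs ht k
    conv_lhs => rw [h2, map_sum, map_sum]
    rw [← Finset.sum_neg_distrib]
    refine Finset.sum_congr rfl fun q _ => ?_
    rw [R.rt_eig (.of_root (h1 q).1) (h1 q).2.2, bb, map_add, map_smul, map_smul, hs, ht,
      smul_eq_mul, smul_eq_mul]
    ring
  · intro g hg a ha b hb c hc d hd e
    obtain ⟨a', ha', b', hb', c', hc', hq⟩ := interp_three (K0 := R.K0) h3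
      (fun q => add_mem (h1 q).2.1 (inv_mem (h1 q).2.1)) hg
    simp only [Fin.sum_univ_three] at m0 m1 m2 e
    rw [hq 0, hq 1, hq 2] at e
    obtain ⟨e0, e1, e2, -, e4⟩ := R.gen (a - a') (sub_mem ha ha') (b - b') (sub_mem hb hb')
      (c - c') (sub_mem hc hc') 0 (zero_mem _) d hd
      (by linear_combination -e - a' * m0 - b' * m1 - c' * m2)
    refine ⟨e4, ?_⟩
    rw [hq 0, sub_eq_zero.mp e0, sub_eq_zero.mp e1, sub_eq_zero.mp e2]

lemma mp_B {s t : S} (h : Lk M s t) :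
    (∀ u, R.B (R.θ (ag M s) • R.ξ t) (R.al s u) = -R.ip R.e u) ∧
      ∀ u, R.B (R.θ (ag M s) • R.ξ t) (R.al t u) = -R.ip R.e u := by
  constructor <;> intro u
  · simp only [R.smul_ξ h, map_sub, LinearMap.sub_apply, R.B_x0_al, R.B_al_self]
    rw [R.B_al, ← R.adj, M.symmetric t s, R.A_e s t h]
    ring
  · simp only [R.smul_ξ h, map_sub, LinearMap.sub_apply, R.B_x0_al, R.B_al_self]
    rw [R.B_al, ← R.adj, R.A_e s t h]
    ring

lemma mp_step {s t : S} (h : Lk M s t) (j : ℤ) :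
    R.θ (ag M (lt s t j)) • R.θ (ag M s) • R.ξ t =
      R.θ (ag M s) • R.ξ t + R.al (lt s t j) R.e := by
  have : R.co (lt s t j) (R.θ (ag M s) • R.ξ t) = -R.e := by
    rw [R.smul_ξ h, map_sub, map_sub, R.co_x0, R.co_al, R.co_al]
    rcases lt_cases s t j with ⟨e, -⟩ | ⟨e, -⟩ <;> rw [e]
    · rw [M.symmetric t s, R.A_e s t h, M.diagonal, R.A_one]
      module
    · rw [R.A_e s t h, M.diagonal, R.A_one]
      module
  rw [R.θ_ag (lt s t j), this, map_neg, sub_neg_eq_add]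

lemma mp_poly {s t : S} (h : Lk M s t) (l : ℤ) {a b : K} (ha : a ∈ R.K0) (hb : b ∈ R.K0)
    (e : R.B (R.θ (ag M s) • R.ξ t) (R.θ (W (ag M s) (ag M t) l) • R.θ (ag M s) • R.ξ t) =
      2 * R.γ - (a + b * R.γ)) :
    R.r (M s t) ^ l + R.r (M s t) ^ (-l) - 2 =
      (a + b * (R.r (M s t) + (R.r (M s t))⁻¹)) * (R.r (M s t) + (R.r (M s t))⁻¹ - 2) := by
  obtain ⟨z, w, h0, h1, h2, -, h4⟩ := R.mp_key h
  have step : ∀ l : ℤ,
      R.B (R.θ (ag M s) • R.ξ t) (R.θ (W (ag M s) (ag M t) (l + 1)) • R.θ (ag M s) • R.ξ t) +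
        ∑ q, w q * mp_F (z q) (l + 1) =
      R.B (R.θ (ag M s) • R.ξ t) (R.θ (W (ag M s) (ag M t) l) • R.θ (ag M s) • R.ξ t) +
        ∑ q, w q * mp_F (z q) l := fun l => by
    have e1 := h2 _ (R.mp_B h).1 (R.mp_B h).2 (l + 1)
    rw [rt, add_sub_cancel_right (a := l), smul_app] at e1
    rw [W_succ, map_mul, mul_smul, ← map_lt _ _ _ (ag M), R.mp_step h, smul_add, map_add, e1]
    simp only [Fin.sum_univ_three, mp_F_succ (h1 _).1, add_sub_cancel_right]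
    ring
  have all : ∀ l : ℤ,
      R.B (R.θ (ag M s) • R.ξ t) (R.θ (W (ag M s) (ag M t) l) • R.θ (ag M s) • R.ξ t) +
        ∑ q, w q * mp_F (z q) l = 2 * R.γ := fun l => by
    induction l using Int.induction_on with
    | zero =>
      rw [W_zero, map_one, one_smul, R.B_smul, R.B_ξ_self]
      simp [mp_F, one_add_one_eq_two]
    | succ i ih => rw [step, ih]
    | pred i ih => rw [← step, sub_add_cancel, ih]
  have e2 := (h4 (fun q => mp_F (z q) l) (fun q => div_mem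
    (sub_mem (add_mem (zpow_mem (h1 q).2 _) (zpow_mem (h1 q).2 _)) (mp_two_mem _))
    (sub_mem (add_mem (h1 q).2 (inv_mem (h1 q).2)) (mp_two_mem _))) a ha b hb 0 (zero_mem _) 0
    (zero_mem _) (by linear_combination all l - e)).2
  rw [mp_F, div_eq_iff (mp_den (h1 0).1).1, h0] at e2
  linear_combination e2

lemma poly_eq (s t : S) (h : Lk M s t) (l : ℤ)
    (e : R.θ (W (ag M s) (ag M t) l) • R.θ (ag M s) • R.ξ t = R.θ (ag M s) • R.ξ t) :
    2 * (M s t : ℤ) ∣ l := by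
  have h1 := R.mp_poly h l (zero_mem _) (zero_mem _)
    (by rw [e, R.B_smul, R.B_ξ_self]; ring)
  have h2 := (R.root s t h).cos_eq (i := l) (j := 0)
    (by rw [neg_zero, zpow_zero]; linear_combination h1)
  simpa using h2

lemma poly_cm (s t : S) (h : Lk M s t) (l : ℤ)
    (e : R.cm (R.θ (ag M s) • R.ξ t) (R.θ (W (ag M s) (ag M t) l) • R.θ (ag M s) • R.ξ t)) :
    ∃ d : ℤ, -2 ≤ d ∧ d ≤ 2 ∧ 2 * (M s t : ℤ) ∣ l - d := by
  have hr := R.root s t h
  rcases e.2 with e | e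
  · have h1 := R.mp_poly h l (one_mem _) (zero_mem _) (by rw [e]; ring)
    rcases hr.cos_eq (i := l) (j := 1)
      (by rw [zpow_neg _ 1, zpow_one]; linear_combination h1) with h2 | h2
    · exact ⟨1, by omega, by omega, h2⟩
    · exact ⟨-1, by omega, by omega, by simpa using h2⟩
  · have h1 := R.mp_poly h l (mp_two_mem _) (one_mem _) (by rw [e]; ring)
    have hy := mul_inv_cancel₀ hr.ne
    rcases hr.cos_eq (i := l) (j := 2)
      (by rw [zpow_neg _ 2, zpow_ofNat, ← inv_pow]; linear_combination h1 + 2 * hy) with h2 | h2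
    · exact ⟨2, by omega, by omega, h2⟩
    · exact ⟨-2, by omega, by omega, by simpa using h2⟩

lemma cr_poly (i) (s t : S) (h : Lk M s t) (k : ℤ) (e : R.cr (R.θ (ag M s) • R.ξ t) (R.b i s t k)) :
    (M s t : ℤ) ∣ k ∨ (M s t : ℤ) ∣ k - 1 := by
  obtain ⟨z, w, h0, h1, h2, -, h4⟩ := R.mp_key h
  have e1 := h2 _ (R.mp_B h).1 (R.mp_B h).2 k
  have hg : ∀ q, qi (z q) k + qi (z q) (k - 1) ∈ R.K0 := fun q =>
    add_mem (mp_qi_mem (h1 q).2 _) (mp_qi_mem (h1 q).2 _)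
  have e2 : (qi (z 0) k + qi (z 0) (k - 1)) ^ 2 = 1 := by
    rw [cr, b_app, R.π_e, e1] at e
    rcases e with e | e
    · rw [(h4 _ hg (-1) (neg_mem (one_mem _)) 0 (zero_mem _) 0 (zero_mem _) 0 (zero_mem _)
        (by linear_combination -e)).2]
      ring
    · rw [(h4 _ hg 1 (one_mem _) 0 (zero_mem _) 0 (zero_mem _) 0 (zero_mem _)
        (by linear_combination -e)).2]
      ring
  have e3 : (z 0 + (z 0)⁻¹ + 2) * (qi (z 0) k * qi (z 0) (k - 1)) = 0 := by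
    linear_combination e2 - mp_cassini (h1 0).1 k
  rw [← (h1 0).1.qi_zero_iff, ← (h1 0).1.qi_zero_iff]
  exact mul_eq_zero.mp ((mul_eq_zero.mp e3).resolve_left (mp_den (h1 0).1).2)

lemma ncr_far (s x v : S) (h : Lk M s x) (h' : Lk M x v) :
    ¬ R.cr (R.θ (ag M s) • R.ξ s) (R.b none x v 2) := by
  intro e
  obtain ⟨z, w, h0, h1, -, h3, h4⟩ := R.mp_key h
  have hg : ∀ q, (z q + (z q)⁻¹) ^ 3 ∈ R.K0 := fun q =>
    pow_mem (add_mem (h1 q).2 (inv_mem (h1 q).2)) 3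
  have h2 := mp_two_mem R.K0
  have hz := zero_mem R.K0
  have ho := neg_mem (one_mem R.K0)
  obtain ⟨n0, n1, n2, n3⟩ := mp_ne (h1 0).1 (by exact_mod_cast R.seven s x h)
  have n4 := (mp_den (h1 0).1).2
  rw [cr, b_app, R.π_e, R.rt_two, R.A_e x v h', R.smul_ξ_self] at e
  simp only [map_add, LinearMap.add_apply, R.B_x0_al, R.B_al, map_sub, LinearMap.sub_apply,
    R.ip_ee, R.ip_eκ, R.ip_κκ, R.ip_symm R.κ R.e, h3] at e
  by_cases hv : s = v
  · rw [← hv, M.diagonal, R.A_one, map_smul, R.ip_symm R.κ R.e, R.ip_eκ, smul_eq_mul] at e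
    rcases e with e | e
    · have := (h4 _ hg 0 hz 2 h2 (-1) ho 0 hz (by linear_combination -e)).2
      exact mul_ne_zero (mul_ne_zero n0 n1) n4 (by linear_combination this)
    · have := (h4 _ hg 2 h2 2 h2 (-1) ho 0 hz (by linear_combination -e)).2
      exact mul_ne_zero n2 n3 (by linear_combination this)
  by_cases hm : M s v = 0
  · rw [hm, R.A_zero, map_smul, R.ip_symm R.κ R.e, R.ip_eκ, smul_eq_mul] at e
    rcases e with e | e
    · simpa using (h4 _ hg 0 hz 0 hz (-1) ho (-1) ho (by linear_combination -e)).1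
    · simpa using (h4 _ hg 2 h2 0 hz (-1) ho (-1) ho (by linear_combination -e)).1
  · rw [R.A_e s v ⟨hv, hm⟩, R.ip_κκ] at e
    rcases e with e | e
    · have := (h4 _ hg 0 hz 0 hz (-2) (neg_mem h2) 0 hz (by linear_combination -e)).2
      exact mul_ne_zero (mul_ne_zero n0 n0) n4 (by linear_combination this)
    · have := (h4 _ hg 2 h2 0 hz (-2) (neg_mem h2) 0 hz (by linear_combination -e)).2
      exact R.node s x h (by rw [← h0]; linear_combination this)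

end Mod

end Pool.Agent.Lib.MP_19b52f_al.XL.Md
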