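import Pool.Agent.Lib.MP_19b52f_al.XL.ModelA

/-! Construction of the space and of the representation. -/

namespace Pool.Agent.Lib.MP_19b52f_al.XL.Md

open Pool.Agent.Lib.MP_19b52f_al.EA Pool.Agent.Lib.MP_19b52f_al.EA2

variable {S : Type} {K U V : Type} [Field K] [AddCommGroup U] [Module K U] [AddCommGroup V]
  [Module K V] {M : CoxeterMatrix S}

theorem exists_rep [Finite S] [Finite K] [Finite U] (D : Dat M K U) :
    ∃ (V : Type) (_ : AddCommGroup V) (_ : Module K V) (_ : Finite V),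
      Nonempty (Rep M K U V) := by
  classical
  have := Fintype.ofFinite S
  let pr : S → ((S → U) × K) →ₗ[K] U := fun t => LinearMap.proj t ∘ₗ LinearMap.fst K _ _
  let co : S → ((S → U) × K) →ₗ[K] U := fun s =>
    (LinearMap.snd K _ _).smulRight (D.e - D.κ) - ∑ t, D.A (M s t) ∘ₗ pr t
  let al : S → U →ₗ[K] (S → U) × K := fun s =>
    LinearMap.inl K _ _ ∘ₗ LinearMap.single K (fun _ => U) s
  let B : ((S → U) × K) →ₗ[K] ((S → U) × K) →ₗ[K] K := ∑ s, D.ip.compl₁₂ (pr s) (co s) +
    (LinearMap.snd K _ _).smulRight (∑ t, D.ip (D.e - D.κ) ∘ₗ pr t)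
  have h1 : ∀ s y, co s y = y.2 • (D.e - D.κ) - ∑ t, D.A (M s t) (y.1 t) := fun s y => by
    simp [co, pr]
  have h2 : ∀ v w, B v w = ∑ s, D.ip (v.1 s) (co s w) + v.2 * ∑ t, D.ip (D.e - D.κ) (w.1 t) :=
    fun v w => by simp [B, pr]
  have h3 : ∀ s t u, co s (al t u) = -D.A (M s t) u := fun s t u => by
    rw [h1, Finset.sum_eq_single t (fun b _ hb => by simp [al, hb]) (by simp)]
    simp [al]
  have h4 : ∀ v w, B v w = B w v := fun v w => by
    generalize hd : D.e - D.κ = d at h1 h2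
    simp only [h2, h1, map_sub, map_smul, map_sum, smul_eq_mul, Finset.sum_sub_distrib,
      ← Finset.mul_sum, D.ip_symm d]
    rw [Finset.sum_comm (f := fun s t => D.ip (w.1 s) (D.A (M s t) (v.1 t)))]
    simp only [fun s t => show D.ip (w.1 t) (D.A (M t s) (v.1 s)) =
      D.ip (v.1 s) (D.A (M s t) (w.1 t)) by rw [← D.adj s t, D.ip_symm, M.symmetric t s]]
    ring
  refine ⟨(S → U) × K, inferInstance, inferInstance, inferInstance,
    ⟨⟨D, B, al, co, (0, 1), h4, fun s y u => ?_, h3, fun s => by simp [h1], by simp [h2]⟩⟩⟩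
  rw [h4, h2, Finset.sum_eq_single s (fun b _ hb => by simp [al, hb]) (by simp), D.ip_symm]
  simp [al]

lemma mr_self (R : Rep M K U V) (s : S) (u : U) : R.co s (R.al s u) = (2 : K) • u := by
  rw [R.co_al, M.diagonal, R.A_one, neg_smul, neg_neg]

/-- The reflection attached to a generator. -/
noncomputable def mr_sig (R : Rep M K U V) (s : S) : V ≃ₗ[K] V :=
  LinearEquiv.ofInvolutive (LinearMap.id - R.al s ∘ₗ R.co s) fun y => by
    simp only [LinearMap.sub_apply, LinearMap.id_apply, LinearMap.comp_apply, map_sub, mr_self,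
      map_smul]
    module

lemma mr_app (R : Rep M K U V) (s : S) (y : V) : mr_sig R s y = y - R.al s (R.co s y) := rfl

lemma mr_sq (R : Rep M K U V) (s : S) : mr_sig R s * mr_sig R s = 1 := by
  ext y
  simp only [LinearEquiv.mul_apply, mr_app, map_sub, mr_self, map_smul, LinearEquiv.coe_one, id]
  module

lemma mr_iso (R : Rep M K U V) (s : S) : mr_sig R s ∈ iso R.B := fun v w => by
  simp only [mr_app, map_sub, LinearMap.sub_apply]
  rw [R.B_symm (R.al s _) w, ← R.ip_co, ← R.ip_co, ← R.ip_co, mr_self, map_smul,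
    LinearMap.smul_apply, smul_eq_mul, R.ip_symm (R.co s w)]
  ring

lemma mr_braid (R : Rep M K U V) {s t : S} (h : Lk M s t) :
    W (mr_sig R s) (mr_sig R t) (M s t) = W (mr_sig R t) (mr_sig R s) (M s t) := by
  have n : ∀ s u, mr_sig R s (R.al s u) = -R.al s u := fun s u => by
    rw [mr_app, mr_self, map_smul]
    module
  have c : ∀ s t u, mr_sig R s (R.al t u) = R.al t u + R.al s (R.A (M s t) u) := fun s t u => by
    rw [mr_app, R.co_al, map_neg, sub_neg_eq_add]
  set f := mr_sig R s with hf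
  set g := mr_sig R t with hg
  have k : ∀ v ∈ Eg (R.A (M s t)) fun z => WR z (M s t),
      W f g (M s t) (R.al s v) = W g f (M s t) (R.al s v) ∧
        W f g (M s t) (R.al t v) = W g f (M s t) (R.al t v) := by
    rintro v ⟨z, P, hv⟩
    have a1 : f (R.al t v) = R.al t v + (z + z⁻¹) • R.al s v := by rw [c, hv, map_smul]
    have a2 : g (R.al s v) = R.al s v + (z + z⁻¹) • R.al t v := by
      rw [c, M.symmetric t s, hv, map_smul]
    have h1 := P.W_root (n s v) a1 (mr_sq R s) (n t v) a2 (mr_sq R t) (M s t)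
    have h2 := P.W_root (n t v) a2 (mr_sq R t) (n s v) a1 (mr_sq R s) (M s t)
    generalize R.al s v = x at h1 h2 ⊢
    generalize R.al t v = y at h1 h2 ⊢
    generalize (M s t : ℤ) = m at h1 h2 P ⊢
    have e1 := P.bb_add_m x y 1
    have e2 := P.bb_add_m x y 0
    have e3 := P.bb_add_m y x 1
    have e4 := P.bb_add_m y x 0
    rw [add_comm, P.bb_one] at e1 e3
    rw [zero_add, P.bb_zero, neg_neg] at e2 e4
    rw [e1, e2, lt_succ, ← hf, ← hg] at h1
    rw [e3, e4, lt_succ, ← hf, ← hg] at h2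
    by_cases h : Even m <;> simp only [lt, h, if_true, if_false] at h1 h2 <;>
      simp [h1.1, h1.2, h2.1, h2.2]
  have k1 : ∀ u, W f g (M s t) (R.al s u) = W g f (M s t) (R.al s u) := fun u =>
    LinearMap.eqOn_span (f := (W f g (M s t)).toLinearMap ∘ₗ R.al s)
      (g := (W g f (M s t)).toLinearMap ∘ₗ R.al s) (fun v hv => (k v hv).1) (R.span_all s t h u)
  have k2 : ∀ u, W f g (M s t) (R.al t u) = W g f (M s t) (R.al t u) := fun u =>
    LinearMap.eqOn_span (f := (W f g (M s t)).toLinearMap ∘ₗ R.al t)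
      (g := (W g f (M s t)).toLinearMap ∘ₗ R.al t) (fun v hv => (k v hv).2) (R.span_all s t h u)
  have o : ∀ w, ∃ a, (4 : K) • a - R.A (M s t) (R.A (M s t) a) = w := fun w => by
    refine (Submodule.span_le (p := LinearMap.range ((4 : K) • LinearMap.id -
      R.A (M s t) ∘ₗ R.A (M s t)))).2 ?_ (R.span_all s t h w)
    rintro v ⟨z, P, hv⟩
    refine ⟨(-((z - z⁻¹) ^ 2)⁻¹) • v, ?_⟩
    have e : -((z - z⁻¹) ^ 2)⁻¹ * (4 - (z + z⁻¹) * (z + z⁻¹)) = 1 := by
      rw [show 4 - (z + z⁻¹) * (z + z⁻¹) = -(z - z⁻¹) ^ 2 by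
        linear_combination (-4) * mul_inv_cancel₀ P.ne, neg_mul_neg,
        inv_mul_cancel₀ (pow_ne_zero _ P.den)]
    simp only [map_smul, LinearMap.sub_apply, LinearMap.smul_apply, LinearMap.id_apply,
      LinearMap.comp_apply, hv, smul_smul, ← sub_smul, e, one_smul]
  ext y
  obtain ⟨a, ha⟩ := o (R.co s y)
  obtain ⟨b, hb⟩ := o (R.co t y)
  let y0 := y - R.al s ((2 : K) • a + R.A (M s t) b) - R.al t ((2 : K) • b + R.A (M s t) a)
  have hfS : f ∈ MulAction.stabilizer (V ≃ₗ[K] V) y0 := by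
    have : R.co s y0 = 0 := by
      simp only [y0, map_sub, mr_self, R.co_al s t, ← ha, map_add, map_smul]
      module
    change mr_sig R s _ = _
    rw [mr_app, this, map_zero, sub_zero]
  have hgS : g ∈ MulAction.stabilizer (V ≃ₗ[K] V) y0 := by
    have : R.co t y0 = 0 := by
      simp only [y0, map_sub, mr_self, R.co_al t s, M.symmetric t s, ← hb, map_add, map_smul]
      module
    change mr_sig R t _ = _
    rw [mr_app, this, map_zero, sub_zero]
  have j1 : W f g (M s t) y0 = y0 := W_mem f g _ hfS hgS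
  have j2 : W g f (M s t) y0 = y0 := W_mem g f _ hgS hfS
  have j := j1.trans j2.symm
  simp only [y0, map_sub, k1, k2, sub_left_inj] at j
  exact j

theorem exists_mod (R : Rep M K U V) : Nonempty (Mod M K U V) := by
  refine ⟨⟨R, artinLift M (fun s => ⟨mr_sig R s, mr_iso R s⟩) fun s t hr h0 => ?_,
    fun s y => by rw [artinLift_ag]; rfl⟩⟩
  refine (iso R.B).subtype_injective ?_
  rw [map_omega, map_omega, omega_eq_W, omega_eq_W]
  exact mr_braid R ⟨hr, h0⟩

end Pool.Agent.Lib.MP_19b52f_al.XL.Md
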