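import Pool.Agent.Lib.MP_19b52f_al.XL.ModelC
import Pool.Agent.Lib.MP_19b52f_al.XL.ModelQ

/-! Two colours determine the cell. -/

namespace Pool.Agent.Lib.MP_19b52f_al.XL.Md

open Pool.Agent.Lib.MP_19b52f_al.EA Pool.Agent.Lib.MP_19b52f_al.EA2

variable {S : Type} {K U V : Type} [Field K] [AddCommGroup U] [Module K U] [AddCommGroup V]
  [Module K V] {M : CoxeterMatrix S}

lemma mu_rigid {z : K} {m : ℤ} (h : WR z m) (ψ : V ≃ₗ[K] V) {x y x' y' : V} {a a' k k' ε : ℤ}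
    (hε : ε = 1 ∨ ε = -1) (hd : 2 * m ∣ k' - k - ε * (a' - a)) (h0 : qi z (k' - k) ≠ 0)
    (ha : ψ (bb z x' y' a) = bb z x y k) (hb : ψ (bb z x' y' a') = bb z x y k') (j : ℤ) :
    ψ (bb z x' y' j) = bb z x y (k + ε * (j - a)) := by
  have h2 := congrArg ψ (h.bb_three x' y' a a' j)
  simp only [map_add, map_smul, ha, hb] at h2
  have h3 := h.bb_three x y k k' (k + ε * (j - a))
  rw [h.qi_congr (k := k' - (k + ε * (j - a))) (l := ε * (a' - j)) (hd.trans (dvd_of_eq (by ring))),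
    add_sub_cancel_left] at h3
  refine smul_right_injective V h0 ?_
  simp only [h3]
  rw [h.qi_congr hd]
  rcases hε with rfl | rfl
  · simpa only [one_mul] using h2
  · simp only [neg_one_mul, qi_neg]
    linear_combination (norm := module) -h2

lemma mu_poly {x y : K} (hx : x ≠ 0) (hy : y ≠ 0) {j : ℤ} (hj : j = 3 ∨ j = 5)
    (h1 : y + y⁻¹ = x + x⁻¹) (h2 : y ^ j + (y ^ j)⁻¹ = x + x⁻¹) :
    x ^ (4 : ℤ) = 1 ∨ (j = 5 ∧ x ^ (6 : ℤ) = 1) := by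
  have e := mul_inv_cancel₀ hy
  have k : (x ^ 2 + 1) * (x ^ 2 - 1) ^ 2 = 0 → x ^ (4 : ℤ) = 1 := fun c => by
    have : (x ^ 4 - 1) ^ 2 = 0 := by linear_combination (x ^ 2 + 1) * c
    rw [zpow_ofNat]
    exact sub_eq_zero.1 (pow_eq_zero_iff two_ne_zero |>.1 this)
  rcases hj with rfl | rfl <;> rw [zpow_ofNat, ← inv_pow, ← h1] at h2
  · have h3 : (y + y⁻¹) ^ 3 - 4 * (y + y⁻¹) = 0 := by
      linear_combination h2 + 3 * (y + y⁻¹) * e
    rw [h1, show (x + x⁻¹) ^ 3 - 4 * (x + x⁻¹) = (x ^ 2 + 1) * (x ^ 2 - 1) ^ 2 / x ^ 3 by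
      field_simp; ring, div_eq_zero_iff] at h3
    exact .inl (k (h3.resolve_right (pow_ne_zero _ hx)))
  · have h3 : (y + y⁻¹) ^ 5 - 5 * (y + y⁻¹) ^ 3 + 4 * (y + y⁻¹) = 0 := by
      linear_combination h2 + 5 * (y + y⁻¹) * ((y + y⁻¹) ^ 2 - y * y⁻¹ - 1) * e
    rw [h1, show (x + x⁻¹) ^ 5 - 5 * (x + x⁻¹) ^ 3 + 4 * (x + x⁻¹) =
      (x ^ 2 + 1) * (x ^ 2 - 1) ^ 2 * (x ^ 4 + x ^ 2 + 1) / x ^ 5 by field_simp; ring,
      div_eq_zero_iff] at h3
    refine (mul_eq_zero.1 (h3.resolve_right (pow_ne_zero _ hx))).imp k fun c => ⟨rfl, ?_⟩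
    rw [zpow_ofNat]
    linear_combination (x ^ 2 - 1) * c

namespace Mod
variable (R : Mod M K U V)

lemma mu_angle {i} {s t s' t' : S} {φ : iso R.B} {a a' k k' m m' : ℤ} {z z' : K} {v : U}
    (e1 : φ • R.b i s' t' a = R.b i s t k) (e2 : φ • R.b i s' t' a' = R.b i s t k')
    (h1 : R.π i v = v) (h2 : R.ip v v = 1) (hz : WR z m) (hz' : WR z' m')
    (hv : R.A (M s t) v = (z + z⁻¹) • v) (hv' : R.A (M s' t') v = (z' + z'⁻¹) • v) :
    z' ^ (a - a') + z' ^ (-(a - a')) = z ^ (k - k') + z ^ (-(k - k')) := by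
  have := R.B_smul φ (R.b i s' t' a v) (R.b i s' t' a' v)
  rw [← smul_app, ← smul_app, e1, e2, b_app, b_app, b_app, b_app, h1, R.B_rt hz hv, R.B_rt hz' hv',
    h2, mul_one, mul_one] at this
  exact this.symm

lemma mu_coh {i} {s t s' t' : S} {φ : iso R.B} {a a' k k' : ℤ} (h : Lk M s t) (h' : Lk M s' t')
    (e1 : φ • R.b i s' t' a = R.b i s t k) (e2 : φ • R.b i s' t' a' = R.b i s t k')
    (hm : M s' t' = M s t) {P : K → Prop} (hP : ∀ z, P z → WR z (M s t) ∧ qi z (k' - k) ≠ 0)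
    (hs : ∀ u, R.π i u ∈ Submodule.span K (Eg (R.A (M s t)) P)) :
    CohB M (R.b i) φ s' t' s t a k := by
  have h1 := R.mu_angle e1 e2 (R.π_T i) R.ip_T (.of_root (R.root s t h))
    (.of_root (R.root s' t' h')) (R.A_T' h) (R.A_T' h')
  rw [hm] at h1
  obtain ⟨ε, hε, hd⟩ : ∃ ε : ℤ, (ε = 1 ∨ ε = -1) ∧ 2 * (M s t : ℤ) ∣ k' - k - ε * (a' - a) :=
    ((R.root s t h).cos_eq h1).elim (fun e => ⟨1, .inl rfl, e.trans (dvd_of_eq (by ring))⟩)
      fun e => ⟨-1, .inr rfl, e.neg_right.trans (dvd_of_eq (by ring))⟩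
  refine ⟨hm, ε, hε, fun j => LinearMap.ext fun u => ?_⟩
  have := LinearMap.eqOn_span (f := φ • R.b i s' t' j) (g := R.b i s t (k + ε * (j - a))) ?_ (hs u)
  · simpa only [smul_app, b_app, R.π_π] using this
  rintro v ⟨z, hz, hv⟩
  obtain ⟨w, q⟩ := hP z hz
  have c : R.A (M s t) (R.π i v) = (z + z⁻¹) • R.π i v := by rw [← R.π_A, hv, map_smul]
  have c' : R.A (M s' t') (R.π i v) = (z + z⁻¹) • R.π i v := hm ▸ c
  have f1 := LinearMap.congr_fun e1 v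
  have f2 := LinearMap.congr_fun e2 v
  rw [smul_app, b_app, b_app, R.rt_eig w c, R.rt_eig w c'] at f1 f2 ⊢
  exact mu_rigid w φ.1 hε hd q f1 f2 j

lemma mu_diff {i} {s t s' t' : S} {φ : iso R.B} {a a' k k' j : ℤ} {v : U} (h : Lk M s t)
    (h' : Lk M s' t') (e1 : φ • R.b i s' t' a = R.b i s t k)
    (e2 : φ • R.b i s' t' a' = R.b i s t k') (h1 : R.π i v = v) (h2 : R.ip v v = 1)
    (hj : j = 3 ∨ j = 5) (hv : R.A (M s t) v = (R.r (M s t) + (R.r (M s t))⁻¹) • v)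
    (hv' : R.A (M s' t') v = (R.r (M s' t') ^ j + (R.r (M s' t') ^ j)⁻¹) • v) :
    (M s t : ℤ) ∣ 2 * (k - k') ∨ (j = 5 ∧ (M s t : ℤ) ∣ 3 * (k - k')) := by
  have r := R.root s t h
  have r' := R.root s' t' h'
  have a1 := R.mu_angle e1 e2 (R.π_T i) R.ip_T (.of_root r) (.of_root r') (R.A_T' h) (R.A_T' h')
  have a2 := R.mu_angle e1 e2 h1 h2 (.of_root r)
    (wr_pow r' (by exact_mod_cast R.seven s' t' h') (.inr hj)) hv hv'
  rw [zpow_neg, zpow_neg] at a1 a2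
  rw [zpow_comm] at a2
  refine (mu_poly (zpow_ne_zero _ r.ne) (zpow_ne_zero _ r'.ne) hj a1 a2).imp (fun e => ?_)
    (And.imp_right fun e => ?_) <;> rw [← zpow_mul, r.dvd] at e <;>
    exact (mul_dvd_mul_iff_left two_ne_zero).1 (e.trans (dvd_of_eq (by ring)))

lemma uniqP (i : S × S) (s t s' t' : S) (φ : iso R.B) (a a' k k' : ℤ) (h : Lk M s t)
    (hi : M i.1 i.2 = M s t) (h' : Lk M s' t')
    (e1 : φ • R.b (some i) s' t' a = R.b (some i) s t k)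
    (e2 : φ • R.b (some i) s' t' a' = R.b (some i) s t k') (hk : ¬ (M s t : ℤ) ∣ k - k') :
    CohB M (R.b (some i)) φ s' t' s t a k ∨ (M s' t' ≠ M s t ∧ (M s t : ℤ) ∣ 2 * (k - k')) := by
  by_cases hm : M s' t' = M s t
  · exact .inl (R.mu_coh h h' e1 e2 hm
      (fun z hz => ⟨.of_root hz, fun e => hk (dvd_sub_comm.1 (hz.qi_zero_iff.1 e))⟩)
      (R.span_P i s t h hi))
  · refine .inr ⟨hm, (R.mu_diff h h' e1 e2 (R.π_X i) (R.ip_X i) (.inl rfl)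
      (R.A_X i s t h _ ?_) (R.A_X i s' t' h' _ ?_)).resolve_right fun e => absurd e.1 (by decide)⟩
    · rw [if_pos hi.symm, zpow_one]
    · rw [if_neg (hi ▸ hm)]

lemma uniqY (s t s' t' : S) (φ : iso R.B) (a a' k k' : ℤ) (h : Lk M s t) (h' : Lk M s' t')
    (e1 : φ • R.b none s' t' a = R.b none s t k) (e2 : φ • R.b none s' t' a' = R.b none s t k')
    (hk : ∃ d : ℤ, 1 ≤ d ∧ d ≤ 3 ∧ ((M s t : ℤ) ∣ k - k' - d ∨ (M s t : ℤ) ∣ k - k' + d)) :
    CohB M (R.b none) φ s' t' s t a k := by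
  obtain ⟨d, d1, d3, hd⟩ := hk
  by_cases hm : M s' t' = M s t
  · refine R.mu_coh h h' e1 e2 hm (fun z hz => ⟨hz.1, fun e => hz.2 d d1 d3 ?_⟩) (R.span_Y s t h)
    rw [hz.1.qi_eq_zero] at e
    rcases hd with c | c
    · rw [hz.1.pow_congr (l := -(2 * d))
        ((mul_dvd_mul_left 2 c.neg_right).trans (dvd_of_eq (by ring))), zpow_neg] at e
      exact inv_eq_one.1 e
    · rwa [hz.1.pow_congr (l := 2 * d)
        ((mul_dvd_mul_left 2 c.neg_right).trans (dvd_of_eq (by ring)))] at e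
  have m7 := R.seven s t h
  have c : ∀ n : ℤ, (M s t : ℤ) ∣ n * (k - k') → (M s t : ℤ) ∣ n * d := fun n e => hd.elim
    (fun c => (dvd_sub e (c.mul_left n)).trans (dvd_of_eq (by ring)))
    fun c => (dvd_sub (c.mul_left n) e).trans (dvd_of_eq (by ring))
  rcases R.mu_diff (j := if M s' t' = 9 then 5 else 3) h h' e1 e2 (R.π_Y (s, t)) (R.ip_Y _)
    (by split_ifs <;> simp) (R.A_Y _ s t h _ (by rw [if_pos rfl, zpow_one]))
    (R.A_Y _ s' t' h' _ (by rw [if_neg hm])) with e | ⟨e, f⟩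
  · exact absurd (c 2 e) (not_dvd (by omega) (by omega) (by omega))
  · have g : M s' t' = 9 := by
      by_contra g
      rw [if_neg g] at e
      exact absurd e (by decide)
    obtain ⟨q, hq⟩ := c 3 f
    have q0 : 0 < q := by nlinarith
    have q1 : q < 2 := by nlinarith
    obtain rfl : q = 1 := by omega
    omega

end Mod

end Pool.Agent.Lib.MP_19b52f_al.XL.Md
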