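import Pool.Agent.Lib.MP_19b52f_al.XL.ModelN1
import Pool.Agent.Lib.MP_19b52f_al.XL.ModelN2
import Pool.Agent.Lib.MP_19b52f_al.XL.ModelD
import Pool.Agent.Lib.MP_19b52f_al.XL.ModelR
import Pool.Agent.Lib.MP_19b52f_al.XL.ModelU
import Pool.Agent.Lib.MP_19b52f_al.XL.ModelF
import Pool.Agent.Lib.MP_19b52f_al.XL.ModelP

/-! The finite model exists. -/

namespace Pool.Agent.Lib.MP_19b52f_al.XL

open Pool.Agent.Lib.MP_19b52f_al.EA Pool.Agent.Lib.MP_19b52f_al.EA2

namespace Md

variable {S : Type} {K U V : Type} [Field K] [AddCommGroup U] [Module K U] [AddCommGroup V]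
  [Module K V] {M : CoxeterMatrix S}

theorem exists_par [Finite S] (M : CoxeterMatrix S) (h : ∀ s t, s ≠ t → M s t = 0 ∨ 7 ≤ M s t) :
    ∃ (K : Type) (_ : Field K) (_ : Finite K), Nonempty (Par M K) := by
  obtain ⟨P⟩ := par0_complex M h
  obtain ⟨F, _, _, hF⟩ := par0_transfer P
  obtain ⟨K, _, _, ι, γ, ω, c, h1, h2⟩ := exists_ext F
  obtain ⟨Q, hQ⟩ := hF K ι
  exact ⟨K, inferInstance, inferInstance, ⟨{ Q with
    K0 := ι.fieldRange, mem := hQ, γ := γ, ω := ω, c := c, gen := h1, rho := h2 }⟩⟩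

/-- The parity counters. -/
abbrev Cn (S C : Type) : Type := Multiplicative (Option (S × S) → C → ZMod 2)

open Classical in
/-- The counter of one crossing. -/
noncomputable def cnt (β : Option (S × S) → U →ₗ[K] V) : Cn S (U →ₗ[K] V) :=
  Multiplicative.ofAdd fun i p => if p = β i ∨ p = -β i then 1 else 0

lemma cnt_sq (β : Option (S × S) → U →ₗ[K] V) : cnt β * cnt (fun i => -β i) = 1 := by
  refine Multiplicative.toAdd.injective ?_
  funext i p
  simp only [cnt, toAdd_mul, toAdd_ofAdd, Pi.add_apply, toAdd_one, Pi.zero_apply]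
  by_cases h : p = β i ∨ p = -β i
  · rw [if_pos h, if_pos (by rw [neg_neg]; exact h.symm)]
    decide
  · rw [if_neg h, if_neg (by rw [neg_neg]; exact fun e => h e.symm), add_zero]

lemma exists_cnt (R : Mod M K U V) : ∃ c : iso R.B → Artin M → Cn S (U →ₗ[K] V),
    (∀ φ g g', c φ (g * g') = c φ g * c (φ * R.θ g) g') ∧
      ∀ φ s, c φ (ag M s) = cnt fun i => φ • R.α i s := by
  refine exists_lab _ (fun φ r r' hr h0 => ?_)
  have h1 : ∀ i s t (j : ℕ), R.θ (W (ag M s) (ag M t) j) • R.α i (lt s t (j + 1)) =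
      R.b i s t (j + 1) := fun i s t j => by rw [← R.b_root, add_sub_cancel_right]
  simp only [mul_smul, h1, R.swap _ (⟨hr, h0⟩ : Lk M r r'), add_sub_add_right_eq_sub]
  exact pal_of_comm (E := fun k => cnt fun i => φ • R.b i r r' k) fun _ _ _ _ => mul_comm _ _

theorem gs_of_mod [Finite S] [Finite U] [Finite V] (R : Mod M K U V) : Nonempty (GS M) := by
  obtain ⟨c, hc, hc1⟩ := exists_cnt R
  have c1 : ∀ φ, c φ 1 = 1 := fun φ => by simpa using hc φ 1 1
  let Θ : Artin M →* Wm (iso R.B) (Cn S (U →ₗ[K] V)) :=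
    { toFun := fun g => ⟨fun φ => c φ g, R.θ g⟩
      map_one' := Wm.ext (funext c1) (map_one _)
      map_mul' := fun g g' => Wm.ext (funext fun φ => hc φ g g') (map_mul _ _ _) }
  have f1 : Finite (V ≃ₗ[K] V) := DFunLike.finite _
  have f2 : Finite (U →ₗ[K] V) := DFunLike.finite _
  have f3 : Finite (Wm (iso R.B) (Cn S (U →ₗ[K] V))) :=
    Finite.of_injective (fun x => (x.c, x.a)) fun x y e =>
      Wm.ext (congrArg Prod.fst e) (congrArg Prod.snd e)
  exact ⟨{
    Φ := Wm (iso R.B) (Cn S (U →ₗ[K] V))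
    θ := Θ
    sq := fun s => Wm.ext (funext fun φ => by
      change c φ _ * c (φ * R.θ _) _ = 1
      simp only [hc1, mul_smul, R.refl, smul_neg, cnt_sq]) (R.sq s)
    seven := R.seven
    C := U →ₗ[K] V
    actC := MulAction.compHom _ Wm.aHom
    smul_neg := fun φ c => smul_neg φ.a c
    α := R.α
    b := R.b
    refl := R.refl
    ne_neg := R.ne_neg
    root := fun i s t _ k => R.b_root i s t k
    add_m := fun i _ _ h => R.add_m i h
    swap := fun i _ _ h => R.swap i h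
    inj := fun i _ _ h => R.inj i h
    η := fun i x p => Multiplicative.toAdd (x.c 1) i p
    η_step := fun i x s p => by
      change Multiplicative.toAdd (x.c 1 * c (1 * x.a) _) i p = _
      rw [hc1, one_mul]
      rfl
    uniqP := fun i s t s' t' φ => R.uniqP i s t s' t' φ.a
    uniqY := fun s t s' t' φ => R.uniqY s t s' t' φ.a
    ap_inf := fun s u h h0 => (R.ap_inf s u h h0).imp id (.imp id fun e φ => e φ.a)
    ap_one := fun s t u h h1 h2 => (R.ap_one s t u h h1 h2).imp id (.imp id fun e φ => e φ.a)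
    ap_two := fun s t u v h h' h1 h2 =>
      (R.ap_two s t u v h h' h1 h2).imp id (.imp id fun e φ => e φ.a)
    V := V
    actV := MulAction.compHom _ Wm.aHom
    ξ := R.ξ
    ξ_swap := R.ξ_swap
    cm := R.cm
    cm_symm := R.cm_symm
    cm_irrefl := R.cm_irrefl
    cm_smul := fun φ => R.cm_smul φ.a
    ξ_inj := R.ξ_inj
    ξ_ne := R.ξ_ne
    cm_ξξ := R.cm_ξξ
    cm_ξμ := R.cm_ξμ
    far_self := R.far_self
    poly_eq := R.poly_eq
    poly_cm := R.poly_cm
    cr := fun _ => R.cr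
    cr_neg := fun _ => R.cr_neg
    cr_smul := fun _ φ => R.cr_smul φ.a
    cr_lk := R.cr_lk
    ncr_self := R.ncr_self
    ncr_far := R.ncr_far
    cr_poly := R.cr_poly }⟩

end Md

theorem exists_GS {S : Type} [Finite S] (M : CoxeterMatrix S)
    (h : ∀ s t, s ≠ t → M s t = 0 ∨ 7 ≤ M s t) : Nonempty (GS M) := by
  obtain ⟨K, _, _, ⟨P⟩⟩ := Md.exists_par M h
  obtain ⟨U, _, _, _, ⟨D⟩⟩ := Md.exists_dat P
  obtain ⟨V, _, _, _, ⟨R⟩⟩ := Md.exists_rep D
  obtain ⟨R⟩ := Md.exists_mod R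
  exact Md.gs_of_mod R

end Pool.Agent.Lib.MP_19b52f_al.XL
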