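import Pool.Agent.Lib.MP_19b52f_al.XL.Geo
import Pool.Agent.Lib.MP_19b52f_al.EA2.Base

/-! The data of the linear model and weak roots of unity. -/

namespace Pool.Agent.Lib.MP_19b52f_al.XL.Md

open Pool.Agent.Lib.MP_19b52f_al.EA Pool.Agent.Lib.MP_19b52f_al.EA2

variable {S : Type} {K U V : Type} [Field K] [AddCommGroup U] [Module K U] [AddCommGroup V]
  [Module K V]

/-- A root of `-1` of order `m` that is not a sign. -/
structure WR (z : K) (m : ℤ) : Prop where
  ne : z ≠ 0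
  pow : z ^ m = -1
  den : z - z⁻¹ ≠ 0

lemma WR.of_root {z : K} {m : ℤ} (h : Root z m) : WR z m := ⟨h.ne, h.pow_m, h.den⟩

namespace WR
variable {z : K} {m : ℤ} (h : WR z m)
include h

lemma qi_eq_zero {k : ℤ} : qi z k = 0 ↔ z ^ (2 * k) = 1 := by
  rw [qi, div_eq_zero_iff, sub_eq_zero, zpow_neg,
    ← mul_eq_one_iff_eq_inv₀ (zpow_ne_zero _ h.ne), ← zpow_add₀ h.ne, two_mul]
  simp [h.den]

lemma pow_congr {k l : ℤ} (e : 2 * m ∣ k - l) : z ^ k = z ^ l := by
  obtain ⟨q, hq⟩ := e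
  rw [← sub_add_cancel k l, zpow_add₀ h.ne, hq, mul_comm 2 m, mul_assoc, zpow_mul, h.pow, zpow_mul]
  norm_num

lemma qi_one : qi z 1 = 1 := by simpa [qi] using div_self h.den

lemma qi_add_m (k : ℤ) : qi z (k + m) = -qi z k := by
  rw [qi, qi, neg_add, zpow_add₀ h.ne, zpow_add₀ h.ne, zpow_neg z m, h.pow]
  simp only [inv_neg, inv_one]
  ring

lemma qi_congr {k l : ℤ} (e : 2 * m ∣ k - l) : qi z k = qi z l := by
  rw [qi, qi, zpow_neg, zpow_neg, h.pow_congr e]

lemma qi_three (a b k : ℤ) :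
    qi z (b - a) * qi z k = qi z (b - k) * qi z a + qi z (k - a) * qi z b := by
  have h1 := zpow_ne_zero a h.ne
  have h2 := zpow_ne_zero b h.ne
  have h3 := zpow_ne_zero k h.ne
  simp only [qi, neg_sub, zpow_sub₀ h.ne, zpow_neg]
  generalize z - z⁻¹ = D
  field_simp
  ring

lemma qi_two : qi z 2 = z + z⁻¹ := by
  rw [qi, div_eq_iff h.den, zpow_neg, zpow_ofNat]
  ring

variable (x y : V)

lemma bb_three (a b k : ℤ) : qi z (b - a) • bb z x y k =
    qi z (b - k) • bb z x y a + qi z (k - a) • bb z x y b := by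
  have h1 := h.qi_three a b k
  have h2 := h.qi_three (a - 1) (b - 1) (k - 1)
  simp only [sub_sub_sub_cancel_right] at h2
  simp only [bb, smul_add, smul_smul, h1, h2, add_smul]
  abel

lemma bb_add_m (k : ℤ) : bb z x y (k + m) = -bb z x y k := by
  rw [bb, bb, add_sub_right_comm, h.qi_add_m, h.qi_add_m]
  module

lemma bb_congr {k l : ℤ} (e : 2 * m ∣ k - l) : bb z x y k = bb z x y l := by
  rw [bb, bb, h.qi_congr e, h.qi_congr (k := k - 1) (l := l - 1) (by simpa using e)]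

lemma bb_one : bb z x y 1 = x := by simp [bb, h.qi_one]

lemma bb_zero : bb z x y 0 = -y := by simp [bb, qi_neg, h.qi_one]

lemma bb_two : bb z x y 2 = (z + z⁻¹) • x + y := by
  rw [bb, h.qi_two, show (2 : ℤ) - 1 = 1 by norm_num, h.qi_one, one_smul]

lemma bb_swap (k : ℤ) : bb z y x k = bb z x y (m + 1 - k) := by
  rw [bb, bb, show m + 1 - k = -(k - 1) + m by ring, show -(k - 1) + m - 1 = -k + m by ring,
    h.qi_add_m, h.qi_add_m, qi_neg, qi_neg, neg_neg, neg_neg, add_comm]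

lemma bb_rec (j : ℤ) : bb z x y (j + 2) = (z + z⁻¹) • bb z x y (j + 1) - bb z x y j := by
  have := h.bb_three x y j (j + 1) (j + 2)
  rw [add_sub_cancel_left, h.qi_one, one_smul, add_sub_cancel_left,
    show j + 1 - (j + 2) = -1 by ring, qi_neg, h.qi_one, h.qi_two] at this
  rw [this]
  module

variable {x y}

lemma form {B : V →ₗ[K] V →ₗ[K] K} {n : K} (xx : B x x = 2 * n) (yy : B y y = 2 * n)
    (xy : B x y = -(z + z⁻¹) * n) (yx : B y x = -(z + z⁻¹) * n) (i j : ℤ) :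
    B (bb z x y i) (bb z x y j) = (z ^ (i - j) + z ^ (-(i - j))) * n := by
  have h0 := h.ne
  have h1 := zpow_ne_zero i h0
  have h2 := zpow_ne_zero j h0
  have h3 := h.den
  have h4 : z ^ 2 - 1 ≠ 0 := fun e => h3 (by field_simp; linear_combination e)
  simp only [bb, map_add, map_smul, LinearMap.add_apply, LinearMap.smul_apply, smul_eq_mul, xx,
    yy, xy, yx, qi, neg_sub, zpow_sub₀ h0, zpow_neg, zpow_one]
  field_simp
  ring

lemma W_root {f g : V ≃ₗ[K] V} (fx : f x = -x) (fy : f y = y + (z + z⁻¹) • x) (ff : f * f = 1)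
    (gy : g y = -y) (gx : g x = x + (z + z⁻¹) • y) (gg : g * g = 1) (j : ℤ) :
    W f g j (lt x y (j + 1)) = bb z x y (j + 1) ∧ W f g j (lt x y j) = -bb z x y j := by
  have step : ∀ j : ℤ, lt f g j (lt x y j) = -lt x y j ∧
      lt f g j (lt x y (j + 1)) = lt x y (j + 1) + (z + z⁻¹) • lt x y j ∧
      lt f g j * lt f g j = 1 := fun j => by
    rw [lt_succ, lt, lt, lt]
    split_ifs
    exacts [⟨gy, gx, gg⟩, ⟨fx, fy, ff⟩]
  induction j using Int.induction_on with
  | zero => simp [h.bb_one, h.bb_zero]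
  | succ i ih =>
    obtain ⟨h1, h2, -⟩ := step (i + 1)
    rw [W_succ, LinearEquiv.mul_apply, LinearEquiv.mul_apply, h1, h2, map_add, map_smul, map_neg,
      add_assoc, one_add_one_eq_two, lt_add_two, ih.1, ih.2, h.bb_rec]
    exact ⟨by module, rfl⟩
  | pred i ih =>
    obtain ⟨h1, h2, h3⟩ := step (-i)
    have e : W f g (-i - 1) = W f g (-i) * lt f g (-i) := by
      have := W_succ f g (-i - 1)
      rw [sub_add_cancel] at this
      rw [this, mul_assoc, h3, mul_one]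
    have e2 := h.bb_rec x y (-i - 1)
    rw [e, sub_add_cancel, ← lt_add_two x y (-i - 1), LinearEquiv.mul_apply, LinearEquiv.mul_apply,
      h1, show -(i : ℤ) - 1 + 2 = -i + 1 by ring, h2, map_add, map_smul, map_neg, ih.1, ih.2,
      show -(i : ℤ) + 1 = -i - 1 + 2 by ring, e2, sub_add_cancel]
    exact ⟨neg_neg _, by module⟩

end WR

/-- The entries of the Gram matrix of the Tits form, with `-3` for the label infinity. -/
def gv {R : Type} [Field R] (r : ℕ → R) (m : ℕ) : R :=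
  if m = 0 then -3 else if m = 1 then 2 else -(r m + (r m)⁻¹)

/-- The number is not the product of two roots of one cell. -/
def Far (M : CoxeterMatrix S) (r : ℕ → K) (x : K) : Prop :=
  x ≠ 2 ∧ x ≠ -2 ∧ ∀ s t, Lk M s t → ∀ a : ℤ, x ≠ r (M s t) ^ a + r (M s t) ^ (-a)

/-- The roots of unity. -/
structure Par0 (M : CoxeterMatrix S) (K : Type) [Field K] where
  r : ℕ → K
  seven : ∀ s t, Lk M s t → 7 ≤ M s t
  two : (2 : K) ≠ 0
  root : ∀ s t, Lk M s t → Root (r (M s t)) (M s t)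
  far_inf : Far M r (-3)
  far_one : ∀ s t u, Lk M s t → u ≠ s → u ≠ t →
    Far M r (gv r (M u t) - gv r (M s t) * gv r (M u s))
  far_two : ∀ s t u v, Lk M s t → Lk M u v → s ≠ u → ¬ (t = u ∧ v = s) →
    Far M r (gv r (M s t) * gv r (M u v) * gv r (M s u) - gv r (M s t) * gv r (M s v) -
      gv r (M u v) * gv r (M t u) + gv r (M t v))
  node : ∀ s t, Lk M s t →
    (r (M s t) + (r (M s t))⁻¹) ^ 3 + 2 * (r (M s t) + (r (M s t))⁻¹) ^ 2 - 2 ≠ 0

/-- The roots of unity and three generic numbers. -/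
structure Par (M : CoxeterMatrix S) (K : Type) [Field K] extends Par0 M K where
  K0 : Subfield K
  mem : ∀ m, r m ∈ K0
  γ : K
  ω : K
  c : K
  gen : ∀ x0 ∈ K0, ∀ x1 ∈ K0, ∀ x2 ∈ K0, ∀ x3 ∈ K0, ∀ x4 ∈ K0,
    x0 + x1 * γ + x2 * ω + x3 * c + x4 * (c * γ) = 0 → x0 = 0 ∧ x1 = 0 ∧ x2 = 0 ∧ x3 = 0 ∧ x4 = 0
  rho : ω - γ ^ 2 ≠ 0

/-- The eigenvectors whose eigenvalue comes from a root with the property. -/
def Eg (A : U →ₗ[K] U) (P : K → Prop) : Set U := {v | ∃ z, P z ∧ A v = (z + z⁻¹) • v}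

/-- The coefficient space with one operator for each label. -/
structure Dat (M : CoxeterMatrix S) (K U : Type) [Field K] [AddCommGroup U] [Module K U]
    extends Par M K where
  ip : U →ₗ[K] U →ₗ[K] K
  A : ℕ → U →ₗ[K] U
  π : Option (S × S) → U →ₗ[K] U
  e : U
  κ : U
  T : U
  X : S × S → U
  Y : S × S → U
  ip_symm : ∀ u v, ip u v = ip v u
  adj : ∀ s t u v, ip (A (M s t) u) v = ip u (A (M s t) v)
  A_one : ∀ u, A 1 u = (-2 : K) • u
  span_all : ∀ s t, Lk M s t → ∀ u, u ∈ Submodule.span K (Eg (A (M s t)) fun z => WR z (M s t))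
  span_P : ∀ (i : S × S) s t, Lk M s t → M i.1 i.2 = M s t → ∀ u,
    π (some i) u ∈ Submodule.span K (Eg (A (M s t)) fun z => Root z (M s t))
  span_Y : ∀ s t, Lk M s t → ∀ u, π none u ∈ Submodule.span K (Eg (A (M s t)) fun z =>
    WR z (M s t) ∧ ∀ d : ℤ, 1 ≤ d → d ≤ 3 → z ^ (2 * d) ≠ 1)
  π_A : ∀ i s t u, π i (A (M s t) u) = A (M s t) (π i u)
  π_π : ∀ i u, π i (π i u) = π i u
  π_T : ∀ i, π i T = T
  ip_T : ip T T = 1
  A_T : ∀ s t, A (M s t) T = -gv r (M s t) • T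
  π_X : ∀ i, π (some i) (X i) = X i
  ip_X : ∀ i, ip (X i) (X i) = 1
  A_X : ∀ i s t, Lk M s t → ∀ z, z = r (M s t) ^ (if M s t = M i.1 i.2 then 1 else 3 : ℤ) →
    A (M s t) (X i) = (z + z⁻¹) • X i
  π_Y : ∀ i, π none (Y i) = Y i
  ip_Y : ∀ i, ip (Y i) (Y i) = 1
  A_Y : ∀ i s t, Lk M s t → ∀ z,
    z = r (M s t) ^ (if M s t = M i.1 i.2 then 1 else if M s t = 9 then 5 else 3 : ℤ) →
    A (M s t) (Y i) = (z + z⁻¹) • Y i
  π_e : ∀ i, π i e = e
  ip_ee : ip e e = 1
  ip_eκ : ip e κ = γ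
  ip_κκ : ip κ κ = ω
  A_e : ∀ s t, Lk M s t → A (M s t) e = κ
  A_zero : A 0 e = c • e
  dec : ∀ s t, Lk M s t → ∃ (z : Fin 3 → K) (v : Fin 3 → U), z 0 = r (M s t) ∧
    (∀ q, Root (z q) (M s t) ∧ z q ∈ K0 ∧ A (M s t) (v q) = (z q + (z q)⁻¹) • v q) ∧
    e = ∑ q, v q ∧ Function.Injective fun q => z q + (z q)⁻¹

/-- The space with the form and the root maps. -/
structure Rep (M : CoxeterMatrix S) (K U V : Type) [Field K] [AddCommGroup U] [Module K U]
    [AddCommGroup V] [Module K V] extends Dat M K U where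
  B : V →ₗ[K] V →ₗ[K] K
  al : S → U →ₗ[K] V
  co : S → V →ₗ[K] U
  x0 : V
  B_symm : ∀ v w, B v w = B w v
  ip_co : ∀ s y u, ip (co s y) u = B y (al s u)
  co_al : ∀ s t u, co s (al t u) = -A (M s t) u
  co_x0 : ∀ s, co s x0 = e - κ
  B_x0 : B x0 x0 = 0

/-- The isometry group of a bilinear form. -/
def iso (B : V →ₗ[K] V →ₗ[K] K) : Subgroup (V ≃ₗ[K] V) where
  carrier := {f | ∀ v w, B (f v) (f w) = B v w}
  one_mem' := fun _ _ => rfl
  mul_mem' := fun {f g} hf hg v w => (hf _ _).trans (hg v w)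
  inv_mem' := fun {f} hf v w => by rw [← hf]; simp

/-- The representation of the Artin group. -/
structure Mod (M : CoxeterMatrix S) (K U V : Type) [Field K] [AddCommGroup U] [Module K U]
    [AddCommGroup V] [Module K V] extends Rep M K U V where
  θ : Artin M →* iso B
  θ_ag : ∀ s y, θ (ag M s) • y = y - al s (co s y)

namespace Mod
variable {M : CoxeterMatrix S} (R : Mod M K U V)

/-- The root maps of the cell `s, t`. -/
def rt (s t : S) (k : ℤ) : U →ₗ[K] V := R.θ (W (ag M s) (ag M t) (k - 1)) • R.al (lt s t k)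

/-- The colours of the simple mirrors. -/
def α (i : Option (S × S)) (s : S) : U →ₗ[K] V := R.al s ∘ₗ R.π i

/-- The colours of the mirrors of a cell. -/
def b (i : Option (S × S)) (s t : S) (k : ℤ) : U →ₗ[K] V := R.rt s t k ∘ₗ R.π i

/-- The colours of the new walls. -/
def ξ (s : S) : V := R.x0 - R.al s R.e

/-- Commuting letters. -/
def cm (v w : V) : Prop := v ≠ w ∧ (R.B v w = 2 * R.γ - 1 ∨ R.B v w = R.γ - 2)

/-- A new wall crosses a mirror. -/
def cr (v : V) (β : U →ₗ[K] V) : Prop := R.B v (β R.e) = 1 ∨ R.B v (β R.e) = -1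

lemma B_smul (φ : iso R.B) (v w : V) : R.B (φ • v) (φ • w) = R.B v w := φ.2 v w

lemma smul_app (φ : iso R.B) (β : U →ₗ[K] V) (u : U) : (φ • β) u = φ • β u := rfl

lemma smul_eq (φ : iso R.B) (v : V) : φ • v = φ.1 v := rfl

lemma b_root (i s t k) : R.θ (W (ag M s) (ag M t) (k - 1)) • R.α i (lt s t k) = R.b i s t k := rfl

lemma b_app (i s t k u) : R.b i s t k u = R.rt s t k (R.π i u) := rfl

lemma α_app (i s u) : R.α i s u = R.al s (R.π i u) := rfl

end Mod

end Pool.Agent.Lib.MP_19b52f_al.XL.Md
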