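import Pool.Agent.Lib.MP_19b52f_al.XL.ModelA

/-! Basic formulas in the linear model. -/

namespace Pool.Agent.Lib.MP_19b52f_al.XL.Md

open Pool.Agent.Lib.MP_19b52f_al.EA Pool.Agent.Lib.MP_19b52f_al.EA2

variable {S : Type} {K U V : Type} [Field K] [AddCommGroup U] [Module K U] [AddCommGroup V]
  [Module K V] {M : CoxeterMatrix S}

namespace Mod
variable (R : Mod M K U V)

lemma B_al (s t : S) (u v : U) : R.B (R.al s u) (R.al t v) = -R.ip u (R.A (M s t) v) := by
  rw [← R.ip_co, R.co_al, map_neg, LinearMap.neg_apply, R.adj, M.symmetric t s]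

lemma B_al_self (s : S) (u v : U) : R.B (R.al s u) (R.al s v) = 2 * R.ip u v := by
  rw [R.B_al, M.diagonal, R.A_one, map_smul, smul_eq_mul]
  ring

lemma B_x0_al (s : S) (u : U) : R.B R.x0 (R.al s u) = R.ip (R.e - R.κ) u := by
  rw [← R.ip_co, R.co_x0]

lemma smul_al (s t : S) (u : U) :
    R.θ (ag M s) • R.al t u = R.al t u + R.al s (R.A (M s t) u) := by
  rw [R.θ_ag, R.co_al, map_neg, sub_neg_eq_add]

lemma smul_al_self (s : S) (u : U) : R.θ (ag M s) • R.al s u = -R.al s u := by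
  rw [R.smul_al, M.diagonal, R.A_one, map_smul]
  module

lemma sq (s : S) : R.θ (ag M s) * R.θ (ag M s) = 1 := by
  refine Subtype.ext (LinearEquiv.ext fun y => ?_)
  change R.θ (ag M s) • R.θ (ag M s) • y = y
  rw [R.θ_ag s y, smul_sub, R.smul_al_self, R.θ_ag]
  abel

lemma rt_eig {s t : S} {z : K} {m : ℤ} (h : WR z m) {v : U}
    (hv : R.A (M s t) v = (z + z⁻¹) • v) (k : ℤ) :
    R.rt s t k v = bb z (R.al s v) (R.al t v) k := by
  have h1 := h.W_root (x := R.al s v) (y := R.al t v) (f := (R.θ (ag M s)).1)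
    (g := (R.θ (ag M t)).1) (R.smul_al_self s v)
    ((R.smul_al s t v).trans (by rw [hv, map_smul])) (congrArg Subtype.val (R.sq s))
    (R.smul_al_self t v) ((R.smul_al t s v).trans (by rw [M.symmetric t s, hv, map_smul]))
    (congrArg Subtype.val (R.sq t)) (k - 1)
  rw [sub_add_cancel] at h1
  rw [← h1.1, rt, smul_app, map_W, smul_eq, ← map_lt _ _ _ (fun x => R.al x v)]
  exact congrArg (fun f : V ≃ₗ[K] V => f _) (map_W _ _ _ (iso R.B).subtype)

lemma B_rt {s t : S} {z : K} {m : ℤ} (h : WR z m) {v : U}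
    (hv : R.A (M s t) v = (z + z⁻¹) • v) (k l : ℤ) :
    R.B (R.rt s t k v) (R.rt s t l v) = (z ^ (k - l) + z ^ (-(k - l))) * R.ip v v := by
  rw [R.rt_eig h hv, R.rt_eig h hv]
  refine h.form (R.B_al_self _ _ _) (R.B_al_self _ _ _) ?_ ?_ k l
  · rw [R.B_al, hv, map_smul, smul_eq_mul, neg_mul]
  · rw [R.B_al, M.symmetric t s, hv, map_smul, smul_eq_mul, neg_mul]

lemma rt_two (s t : S) (v : U) : R.rt s t 2 v = R.al t v + R.al s (R.A (M s t) v) := by
  have h1 : W (ag M s) (ag M t) (2 - 1) = ag M s := by simp [W]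
  have h2 : lt s t 2 = t := by simp [lt]
  rw [rt, h1, h2, smul_app, R.smul_al]

lemma A_T' {s t : S} (h : Lk M s t) :
    R.A (M s t) R.T = (R.r (M s t) + (R.r (M s t))⁻¹) • R.T := by
  rw [R.A_T, gv, if_neg h.2, if_neg (M.off_diagonal s t h.1), neg_neg]

lemma B_bT {s t : S} (h : Lk M s t) (i) (k l : ℤ) :
    R.B (R.b i s t k R.T) (R.b i s t l R.T) =
      R.r (M s t) ^ (k - l) + R.r (M s t) ^ (-(k - l)) := by
  rw [b_app, b_app, R.π_T, R.B_rt (.of_root (R.root s t h)) (R.A_T' h), R.ip_T, mul_one]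

lemma refl (i s) : R.θ (ag M s) • R.α i s = -R.α i s := by
  ext u
  exact R.smul_al_self s _

lemma ne_neg (i s) : R.α i s ≠ -R.α i s := by
  intro e
  have h1 := congrArg (fun β : U →ₗ[K] V => R.B (R.al s R.T) (β R.T)) e
  simp only [α_app, LinearMap.neg_apply, R.π_T, map_neg, R.B_al_self, R.ip_T] at h1
  exact mul_ne_zero R.two R.two (by linear_combination h1)

lemma add_m (i) {s t : S} (h : Lk M s t) (k : ℤ) : R.b i s t (k + M s t) = -R.b i s t k := by
  ext u
  rw [LinearMap.neg_apply, b_app, b_app]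
  refine LinearMap.eqOn_span (f := R.rt s t (k + M s t)) (g := -R.rt s t k) ?_ (R.span_all s t h _)
  rintro v ⟨z, hz, hv⟩
  rw [LinearMap.neg_apply, R.rt_eig hz hv, R.rt_eig hz hv, hz.bb_add_m]

lemma swap (i) {s t : S} (h : Lk M s t) (k : ℤ) : R.b i t s k = R.b i s t (M s t + 1 - k) := by
  ext u
  rw [b_app, b_app]
  refine LinearMap.eqOn_span (f := R.rt t s k) (g := R.rt s t _) ?_ (R.span_all s t h _)
  rintro v ⟨z, hz, hv⟩
  rw [R.rt_eig hz hv, R.rt_eig hz (M.symmetric s t ▸ hv), hz.bb_swap]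

lemma inj (i) {s t : S} (h : Lk M s t) (k l : ℤ) (e : R.b i s t k = R.b i s t l) :
    2 * (M s t : ℤ) ∣ k - l := by
  have h1 := R.B_bT h i k l
  rw [e, R.B_bT h, sub_self] at h1
  simpa using (R.root s t h).cos_eq h1.symm

end Mod

end Pool.Agent.Lib.MP_19b52f_al.XL.Md
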