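import Pool.Agent.Lib.MP_19b52f_al.XL.ModelA

/-! Finite quotient fields and generic elements. -/

namespace Pool.Agent.Lib.MP_19b52f_al.XL.Md

open Pool.Agent.Lib.MP_19b52f_al.EA Pool.Agent.Lib.MP_19b52f_al.EA2

lemma mn0_jac : IsJacobsonRing ℤ := by
  rw [isJacobsonRing_iff_prime_eq]
  intro P hP
  by_cases h : P = ⊥
  · subst h
    rw [eq_bot_iff]
    intro x hx
    have := Ideal.mem_jacobson_bot.1 hx x
    rw [Int.isUnit_iff] at this
    have h0 : x = 0 := by rcases this with h | h <;> nlinarith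
    simp [h0]
  · have : P.IsMaximal := Ring.DimensionLEOne.maximalOfPrime h hP
    exact Ideal.jacobson_eq_self_of_isMaximal

lemma mn0_fin (F : Type) [Field F] [Module.Finite ℤ F] : Finite F := by
  refine Module.finite_of_fg_torsion F fun x => ?_
  obtain ⟨n, h0, hn⟩ : ∃ n : ℤ, n ≠ 0 ∧ (n : F) = 0 := by
    by_contra e
    push Not at e
    exact Int.not_isField (isField_of_isIntegral_of_isField (R := ℤ) (S := F)
      ((injective_iff_map_eq_zero _).2 fun n hn => by_contra fun h => e n h hn)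
      (Field.toIsField F))
  exact ⟨⟨n, mem_nonZeroDivisors_of_ne_zero h0⟩, by simp [Submonoid.smul_def, hn]⟩

theorem exists_quot {R : Type} [CommRing R] [IsDomain R] [Algebra.FiniteType ℤ R] {ι : Type}
    [Finite ι] (d : ι → R) :
    ∃ (F : Type) (_ : Field F) (_ : Finite F) (φ : R →+* F), ∀ i, d i ≠ 0 → φ (d i) ≠ 0 := by
  classical
  have := Fintype.ofFinite ι
  have := mn0_jac
  have : IsJacobsonRing R := isJacobsonRing_of_finiteType (A := ℤ)
  have h0 : (∏ i with d i ≠ 0, d i) ∉ Ideal.jacobson (⊥ : Ideal R) := by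
    rw [isJacobsonRing_iff_prime_eq.1 this ⊥ Ideal.isPrime_bot, Ideal.mem_bot]
    exact Finset.prod_ne_zero_iff.2 fun i hi => (Finset.mem_filter.1 hi).2
  rw [Ideal.jacobson, Ideal.mem_sInf] at h0
  push Not at h0
  obtain ⟨I, ⟨-, hI⟩, h1⟩ := h0
  let := Ideal.Quotient.field I
  have := finite_of_finite_type_of_isJacobsonRing ℤ (R ⧸ I)
  refine ⟨R ⧸ I, inferInstance, mn0_fin _, Ideal.Quotient.mk I, fun i hi e => h1 ?_⟩
  exact Ideal.mem_of_dvd _ (Finset.dvd_prod_of_mem _ (by simpa using hi))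
    (Ideal.Quotient.eq_zero_iff_mem.1 e)

theorem exists_ext (F : Type) [Field F] [Finite F] :
    ∃ (K : Type) (_ : Field K) (_ : Finite K) (ι : F →+* K) (γ ω c : K),
      (∀ x0 ∈ ι.fieldRange, ∀ x1 ∈ ι.fieldRange, ∀ x2 ∈ ι.fieldRange, ∀ x3 ∈ ι.fieldRange,
        ∀ x4 ∈ ι.fieldRange, x0 + x1 * γ + x2 * ω + x3 * c + x4 * (c * γ) = 0 →
          x0 = 0 ∧ x1 = 0 ∧ x2 = 0 ∧ x3 = 0 ∧ x4 = 0) ∧ ω - γ ^ 2 ≠ 0 := by
  obtain ⟨p, hp⟩ := CharP.exists F
  have : Fact p.Prime := ⟨CharP.char_is_prime F p⟩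
  let K := FiniteField.Extension F p 6
  let pb := Field.powerBasisOfFiniteOfSeparable F K
  have hd : pb.dim = 6 := pb.finrank.symm.trans (FiniteField.finrank_extension F p 6)
  have h : ∀ a : Fin 6 → F, ∑ i, a i • pb.gen ^ (i : ℕ) = 0 → ∀ i, a i = 0 := by
    have := Fintype.linearIndependent_iff.1 pb.basis.linearIndependent
    simp only [pb.basis_eq_pow] at this
    revert this
    generalize pb.gen = t
    rw [hd]
    exact id
  refine ⟨K, inferInstance, inferInstance, algebraMap F K, pb.gen, pb.gen ^ 3, pb.gen ^ 4, ?_, ?_⟩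
  · rintro _ ⟨a0, rfl⟩ _ ⟨a1, rfl⟩ _ ⟨a2, rfl⟩ _ ⟨a3, rfl⟩ _ ⟨a4, rfl⟩ e
    have k := h ![a0, a1, 0, a2, a3, a4] (by
      rw [← e]
      simp [Fin.sum_univ_six, Algebra.smul_def, pow_succ])
    exact ⟨by rw [show a0 = 0 from k 0, map_zero], by rw [show a1 = 0 from k 1, map_zero],
      by rw [show a2 = 0 from k 3, map_zero], by rw [show a3 = 0 from k 4, map_zero],
      by rw [show a4 = 0 from k 5, map_zero]⟩
  · intro e
    exact one_ne_zero (h ![0, 0, -1, 1, 0, 0] (by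
      rw [← e]
      simp [Fin.sum_univ_six, neg_add_eq_sub]) 3)

end Pool.Agent.Lib.MP_19b52f_al.XL.Md
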