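import Pool.Agent.Lib.MP_19b52f_al.XL.ModelA

/-! The roots of unity over the complex numbers. -/

namespace Pool.Agent.Lib.MP_19b52f_al.XL.Md

open Pool.Agent.Lib.MP_19b52f_al.EA Pool.Agent.Lib.MP_19b52f_al.EA2

/-- The standard roots of unity. -/
noncomputable def n1_r (m : ℕ) : ℂ := Complex.exp ((Real.pi / m : ℝ) * Complex.I)

/-- The real entries of the Gram matrix. -/
noncomputable def n1_g (m : ℕ) : ℝ :=
  if m = 0 then -3 else if m = 1 then 2 else -(2 * Real.cos (Real.pi / m))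

lemma n1_pow (m : ℕ) (a : ℤ) :
    n1_r m ^ a + n1_r m ^ (-a) = ((2 * Real.cos (a * (Real.pi / m)) : ℝ) : ℂ) := by
  rw [n1_r, ← Complex.exp_int_mul, ← Complex.exp_int_mul]
  push_cast
  rw [Complex.two_cos]
  congr 2 <;> ring

lemma n1_one (m : ℕ) : n1_r m + (n1_r m)⁻¹ = ((2 * Real.cos (Real.pi / m) : ℝ) : ℂ) := by
  simpa using n1_pow m 1

lemma n1_gv (m : ℕ) : gv n1_r m = (n1_g m : ℂ) := by
  rw [gv, n1_g, n1_one]
  split_ifs <;> simp

lemma n1_cos {m : ℕ} (hm : 7 ≤ m) : 3 / 2 ≤ 2 * Real.cos (Real.pi / m) := by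
  have h1 := Real.one_sub_sq_div_two_le_cos (x := Real.pi / m)
  have h2 : (7 : ℝ) ≤ m := by exact_mod_cast hm
  have h3 : Real.pi / m ≤ 4 / 7 := by
    rw [div_le_iff₀ (by linarith)]
    linarith [Real.pi_le_four]
  have h4 : 0 ≤ Real.pi / m := by positivity
  nlinarith

lemma n1_far {S : Type} (M : CoxeterMatrix S) {x : ℝ} (hx : x < -2) : Far M n1_r (x : ℂ) := by
  refine ⟨fun e => ?_, fun e => ?_, fun s t _ a e => ?_⟩
  · have : x = 2 := by exact_mod_cast e
    linarith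
  · have : x = -2 := by exact_mod_cast e
    linarith
  · rw [n1_pow, Complex.ofReal_inj] at e
    linarith [Real.neg_one_le_cos (a * (Real.pi / M s t))]

lemma n1_root {m : ℕ} (hm : 7 ≤ m) : Root (n1_r m) m := by
  refine root_of_prim (by omega) ?_
  have := Complex.isPrimitiveRoot_exp (2 * m) (by omega)
  have e : (m : ℂ) ≠ 0 := by exact_mod_cast (by omega : m ≠ 0)
  rwa [show 2 * Real.pi * Complex.I / ((2 * m : ℕ) : ℂ) = (Real.pi / m : ℝ) * Complex.I by
    push_cast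
    field_simp] at this

theorem par0_complex {S : Type} (M : CoxeterMatrix S)
    (h : ∀ s t, s ≠ t → M s t = 0 ∨ 7 ≤ M s t) : Nonempty (Par0 M ℂ) := by
  have h7 : ∀ s t, Lk M s t → 7 ≤ M s t := fun s t u => (h s t u.1).resolve_left u.2
  have hg : ∀ s t, s ≠ t → ∃ c : ℝ, 3 / 2 ≤ c ∧ n1_g (M s t) = -c := fun s t u => by
    rcases h s t u with e | e
    · exact ⟨3, by norm_num, by simp [n1_g, e]⟩
    · exact ⟨_, n1_cos e, by rw [n1_g, if_neg (by omega), if_neg (by omega)]⟩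
  have hd : ∀ s, n1_g (M s s) = 2 := fun s => by simp [n1_g]
  have hp : ∀ {a b : ℝ}, 3 / 2 ≤ a → 3 / 2 ≤ b → 9 / 4 ≤ a * b := fun _ _ => by nlinarith
  have hq : ∀ {a b : ℝ}, 3 / 2 ≤ a → 3 / 2 ≤ b → a ≤ a * b * b - a := fun {a b} ha hb => by
    have := hp hb hb
    nlinarith
  refine ⟨⟨n1_r, h7, two_ne_zero, fun s t u => n1_root (h7 s t u), ?_, fun s t u h1 h2 h3 => ?_,
    fun s t u v h1 h2 h3 h4 => ?_, fun s t u e => ?_⟩⟩
  · simpa using n1_far M (x := -3) (by norm_num)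
  · obtain ⟨a, ha, e1⟩ := hg u t h3
    obtain ⟨b, hb, e2⟩ := hg s t h1.1
    obtain ⟨c, hc, e3⟩ := hg u s h2
    simp only [n1_gv, ← Complex.ofReal_mul, ← Complex.ofReal_sub]
    refine n1_far M ?_
    rw [e1, e2, e3]
    linarith [hp hb hc]
  · simp only [n1_gv, ← Complex.ofReal_mul, ← Complex.ofReal_sub, ← Complex.ofReal_add]
    refine n1_far M ?_
    obtain ⟨a, ha, e1⟩ := hg s t h1.1
    obtain ⟨b, hb, e2⟩ := hg u v h2.1
    by_cases c1 : t = u
    · subst c1
      obtain ⟨d, hd', e3⟩ := hg s v fun e => h4 ⟨rfl, e.symm⟩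
      rw [e1, e2, e3, hd]
      linarith [hp ha hd', hq hb ha]
    · obtain ⟨e, he, e4⟩ := hg t u c1
      by_cases c2 : s = v
      · subst c2
        rw [M.symmetric s u, M.symmetric t s, e1, e2, e4, hd]
        linarith [hp hb he, hq ha hb]
      · obtain ⟨c, hc, e3⟩ := hg s u h3
        obtain ⟨d, hd', e5⟩ := hg s v c2
        have : n1_g (M t v) ≤ 2 := by
          by_cases c3 : t = v
          · rw [c3, hd]
          · obtain ⟨f, hf, e6⟩ := hg t v c3
            linarith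
        rw [e1, e2, e3, e4, e5]
        have := hp ha hb
        nlinarith [hp ha hd', hp hb he]
  · rw [n1_one] at e
    have h1 := n1_cos (h7 s t u)
    generalize 2 * Real.cos (Real.pi / M s t) = x at e h1
    have : x ^ 3 + 2 * x ^ 2 - 2 = 0 := by exact_mod_cast e
    nlinarith

end Pool.Agent.Lib.MP_19b52f_al.XL.Md
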