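import Pool.Agent.Lib.MP_19b52f_al.XL.ModelC

/-! The colours of the new walls at one chamber. -/

namespace Pool.Agent.Lib.MP_19b52f_al.XL.Md

open Pool.Agent.Lib.MP_19b52f_al.EA Pool.Agent.Lib.MP_19b52f_al.EA2

variable {S : Type} {K U V : Type} [Field K] [AddCommGroup U] [Module K U] [AddCommGroup V]
  [Module K V] {M : CoxeterMatrix S}

namespace Mod

lemma mt_symm {s t : S} (h : Lk M s t) : Lk M t s := ⟨h.1.symm, M.symmetric s t ▸ h.2⟩

variable (R : Mod M K U V)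

lemma mt_ne (a b c d : ℤ) (h : a = 1 ∨ b = 1 ∨ c = 1 ∨ d = 1) :
    (a : K) + b * R.γ + c * R.ω + d * R.c ≠ 0 := fun e => by
  obtain ⟨h0, h1, h2, h3, -⟩ := R.gen a (intCast_mem _ a) b (intCast_mem _ b) c (intCast_mem _ c)
    d (intCast_mem _ d) 0 (zero_mem _) (by rw [e, zero_mul, add_zero])
  rcases h with rfl | rfl | rfl | rfl <;> simp at *

lemma mt_self (s : S) : R.ip R.e (R.A (M s s) R.e) = -2 := by
  simp [R.A_one, R.ip_ee]

lemma mt_lk {s t : S} (h : Lk M s t) : R.ip R.e (R.A (M s t) R.e) = R.γ := by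
  rw [R.A_e s t h, R.ip_eκ]

lemma mt_g {s t : S} (h : s ≠ t) :
    R.ip R.e (R.A (M s t) R.e) = R.γ ∨ R.ip R.e (R.A (M s t) R.e) = R.c := by
  by_cases e : M s t = 0
  · exact Or.inr (by simp [e, R.A_zero, R.ip_ee])
  · exact Or.inl (R.mt_lk ⟨h, e⟩)

lemma mt_x0 (s : S) : R.B R.x0 (R.al s R.e) = 1 - R.γ := by
  rw [R.B_x0_al, map_sub, LinearMap.sub_apply, R.ip_ee, R.ip_symm, R.ip_eκ]

lemma mt_al (s t : S) : R.B (R.ξ s) (R.al t R.e) = 1 - R.γ + R.ip R.e (R.A (M s t) R.e) := by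
  rw [ξ, map_sub, LinearMap.sub_apply, R.mt_x0, R.B_al, sub_neg_eq_add]

lemma mt_ξx (s : S) : R.B (R.ξ s) R.x0 = R.γ - 1 := by
  rw [R.B_symm, ξ, map_sub, R.mt_x0, R.B_x0]
  ring

lemma mt_ξξ (s t : S) : R.B (R.ξ s) (R.ξ t) = 2 * R.γ - 2 - R.ip R.e (R.A (M s t) R.e) := by
  rw [show R.ξ t = R.x0 - R.al t R.e from rfl, map_sub, R.mt_ξx, R.mt_al]
  ring

lemma smul_ξ {s t : S} (h : Lk M s t) :
    R.θ (ag M s) • R.ξ t = R.x0 - R.al s R.e - R.al t R.e := by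
  rw [R.θ_ag, ξ, map_sub, R.co_x0, R.co_al, R.A_e s t h, sub_neg_eq_add, sub_add_cancel,
    sub_right_comm]

lemma smul_ξ_self (s : S) : R.θ (ag M s) • R.ξ s = R.x0 + R.al s R.κ := by
  rw [R.θ_ag, ξ, map_sub, R.co_x0, R.co_al, M.diagonal, R.A_one, sub_neg_eq_add, map_add, map_sub,
    map_smul]
  module

lemma B_ξ_self (s : S) : R.B (R.ξ s) (R.ξ s) = 2 * R.γ := by
  rw [R.mt_ξξ, R.mt_self]
  ring

lemma ξ_swap (s t : S) (h : Lk M s t) : R.θ (ag M s) • R.ξ t = R.θ (ag M t) • R.ξ s := by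
  rw [R.smul_ξ h, R.smul_ξ (mt_symm h), sub_right_comm]

lemma cm_symm (v w : V) (h : R.cm v w) : R.cm w v := by
  exact ⟨h.1.symm, R.B_symm v w ▸ h.2⟩

lemma cm_irrefl (v : V) : ¬ R.cm v v := by
  exact fun h => h.1 rfl

lemma cm_smul (φ : iso R.B) (v w : V) (h : R.cm v w) : R.cm (φ • v) (φ • w) := by
  exact ⟨fun e => h.1 (MulAction.injective φ e), (R.B_smul φ v w).symm ▸ h.2⟩

lemma ξ_inj (s t : S) (h : R.ξ s = R.ξ t) : s = t := by
  by_contra e
  have h1 := R.mt_ξξ s t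
  rw [← h, R.B_ξ_self] at h1
  rcases R.mt_g e with k | k <;> rw [k] at h1
  · exact R.mt_ne 2 1 0 0 (by simp) (by push_cast; linear_combination h1)
  · exact R.mt_ne 2 0 0 1 (by simp) (by push_cast; linear_combination h1)

lemma mt_μ (u : S) {s t : S} (h : Lk M s t) : R.B (R.ξ u) (R.θ (ag M s) • R.ξ t) =
    3 * R.γ - 3 - R.ip R.e (R.A (M u s) R.e) - R.ip R.e (R.A (M u t) R.e) := by
  rw [R.smul_ξ h, map_sub, map_sub, R.mt_ξx, R.mt_al, R.mt_al]
  ring

lemma ξ_ne (u s t : S) (h : Lk M s t) : R.ξ u ≠ R.θ (ag M s) • R.ξ t := by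
  intro e
  have h1 := R.mt_μ u h
  rw [← e, R.B_ξ_self] at h1
  by_cases a : u = s
  · rw [a, R.mt_self, R.mt_lk h] at h1
    exact one_ne_zero (by linear_combination h1 : (1 : K) = 0)
  by_cases b : u = t
  · rw [b, R.mt_self, R.mt_lk (mt_symm h)] at h1
    exact one_ne_zero (by linear_combination h1 : (1 : K) = 0)
  rcases R.mt_g a with k | k <;> rcases R.mt_g b with l | l <;> rw [k, l] at h1
  · exact R.mt_ne 3 1 0 0 (by simp) (by push_cast; linear_combination h1)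
  · exact R.mt_ne 3 0 0 1 (by simp) (by push_cast; linear_combination h1)
  · exact R.mt_ne 3 0 0 1 (by simp) (by push_cast; linear_combination h1)
  · exact R.mt_ne (-3) 1 0 (-2) (by simp) (by push_cast; linear_combination -h1)

lemma cm_ξξ (s t : S) : R.cm (R.ξ s) (R.ξ t) ↔ Lk M s t := by
  rw [cm, R.mt_ξξ]
  refine ⟨fun ⟨h1, h2⟩ => ⟨fun e => h1 (e ▸ rfl), fun e => ?_⟩,
    fun h => ⟨fun e => h.1 (R.ξ_inj s t e), Or.inr (by rw [R.mt_lk h]; ring)⟩⟩
  rw [e, R.A_zero, map_smul, R.ip_ee, smul_eq_mul] at h2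
  rcases h2 with k | k
  · exact R.mt_ne 1 0 0 1 (by simp) (by push_cast; linear_combination -k)
  · exact R.mt_ne 0 1 0 (-1) (by simp) (by push_cast; linear_combination k)

lemma cm_ξμ (u s t : S) (h : Lk M s t) :
    R.cm (R.ξ u) (R.θ (ag M s) • R.ξ t) ↔ u = s ∨ u = t := by
  rw [cm, R.mt_μ u h]
  refine ⟨fun ⟨_, h1⟩ => ?_, fun e => ⟨R.ξ_ne u s t h, Or.inl ?_⟩⟩
  · by_contra e
    push Not at e
    rcases R.mt_g e.1 with k | k <;> rcases R.mt_g e.2 with l | l <;> rw [k, l] at h1 <;>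
      rcases h1 with h1 | h1
    · exact R.mt_ne 2 1 0 0 (by simp) (by push_cast; linear_combination -h1)
    · exact R.mt_ne 1 0 0 0 (by simp) (by push_cast; linear_combination -h1)
    · exact R.mt_ne 2 0 0 1 (by simp) (by push_cast; linear_combination -h1)
    · exact R.mt_ne 1 (-1) 0 1 (by simp) (by push_cast; linear_combination -h1)
    · exact R.mt_ne 2 0 0 1 (by simp) (by push_cast; linear_combination -h1)
    · exact R.mt_ne 1 (-1) 0 1 (by simp) (by push_cast; linear_combination -h1)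
    · exact R.mt_ne (-2) 1 0 (-2) (by simp) (by push_cast; linear_combination h1)
    · exact R.mt_ne 1 (-2) 0 2 (by simp) (by push_cast; linear_combination -h1)
  · rcases e with rfl | rfl
    · rw [R.mt_self, R.mt_lk h]
      ring
    · rw [R.mt_self, R.mt_lk (mt_symm h)]
      ring

lemma far_self (s : S) :
    R.ξ s ≠ R.θ (ag M s) • R.ξ s ∧ ¬ R.cm (R.ξ s) (R.θ (ag M s) • R.ξ s) := by
  have h : R.B (R.ξ s) (R.θ (ag M s) • R.ξ s) = -1 - R.ω := by
    rw [R.smul_ξ_self, map_add, R.mt_ξx, ξ, map_sub, LinearMap.sub_apply, R.B_x0_al, R.B_al_self,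
      map_sub, LinearMap.sub_apply, R.ip_eκ, R.ip_κκ]
    ring
  refine ⟨fun e => ?_, fun ⟨_, e⟩ => ?_⟩
  · rw [← e, R.B_ξ_self] at h
    exact R.mt_ne 1 2 1 0 (by simp) (by push_cast; linear_combination h)
  · rw [h] at e
    rcases e with e | e
    · exact R.mt_ne 0 2 1 0 (by simp) (by push_cast; linear_combination -e)
    · exact R.mt_ne (-1) 1 1 0 (by simp) (by push_cast; linear_combination -e)

lemma cr_neg (v : V) (β : U →ₗ[K] V) (h : R.cr v β) : R.cr v (-β) := by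
  rw [cr, LinearMap.neg_apply, map_neg, neg_eq_iff_eq_neg, neg_inj]
  exact h.symm

lemma cr_smul (φ : iso R.B) (v : V) (β : U →ₗ[K] V) (h : R.cr v β) : R.cr (φ • v) (φ • β) := by
  rwa [cr, R.smul_app, R.B_smul]

lemma cr_lk (i) (s t : S) (h : Lk M s t) : R.cr (R.ξ t) (R.α i s) := by
  rw [cr, R.α_app, R.π_e, R.mt_al, R.mt_lk (mt_symm h)]
  exact Or.inl (by ring)

lemma ncr_self (s : S) : ¬ R.cr (R.ξ s) (R.α none s) := by
  rw [cr, R.α_app, R.π_e, R.mt_al, R.mt_self]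
  rintro (e | e)
  · exact R.mt_ne 2 1 0 0 (by simp) (by push_cast; linear_combination -e)
  · exact R.mt_ne 0 1 0 0 (by simp) (by push_cast; linear_combination -e)

end Mod

end Pool.Agent.Lib.MP_19b52f_al.XL.Md
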