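import Pool.Agent.Lib.MP_19b52f_al.XL.Coc
import Pool.Agent.Lib.MP_19b52f_al.XL.Cent

/-! The separation property for two removals, and its formal properties. -/

namespace Pool.Agent.Lib.MP_19b52f_al.XL

open Pool.Agent.Lib.MP_19b52f_al.EA Pool.Agent.Lib.MP_19b52f_al.EA2

variable {S : Type} {M : CoxeterMatrix S}

namespace GS
variable [Finite S] (G : GS M)

/-- If the label of `q` is a product of elements that commute with the two letters, then `q` is a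
product of morphisms that carry the two removals. -/
def SepR (o : G.Φ × Set G.V) (v : G.V) (q : Artin M) (o' : G.Φ × Set G.V) (w : G.V) : Prop :=
  Mem2 (PX G.Γ Zm (G.lk2 v)) (PX G.Γ Zm (G.lk2 w)) (G.ct o q o') →
    ∃ y g1 g2, q = g1 * g2 ∧ G.Car o v false g1 y ∧ G.Car y w false g2 o'

variable {G} {o o' o1 o2 z z' : G.Φ × Set G.V} {g q g1 g2 : Artin M} {v w : G.V} {ε ε' : Bool}

lemma Car.ct_mem (h : G.Car o v ε g o') : G.ct o g o' ∈ PX G.Γ Zm (G.lk2 v) := by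
  obtain ⟨h1, z, z', h2, h3, h4⟩ := h
  refine mem_lk_of_conj (D := (Set.range Sum.inl)ᶜ) (fun e => e ⟨v, rfl⟩) h1.ct_mem ε ?_
  have := h4.ct_mem
  rw [ct, h2.gauge, h3.gauge, h2.1] at this
  rw [ct]
  simpa only [mul_inv_rev, mul_assoc] using this

lemma SepR.of_car (h : G.Car o v false q o') (hw : w ∈ o'.2) : G.SepR o v q o' w :=
  fun _ => ⟨o', q, 1, (mul_one q).symm, h, (fv_remove h.1.ok.2 hw).car⟩

lemma SepR.symm (h : G.Vx o q o') (h1 : G.SepR o' w q⁻¹ o v) : G.SepR o v q o' w := by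
  rintro ⟨a, ha, b, hb, e⟩
  obtain ⟨y, k1, k2, e1, c1, c2⟩ :=
    h1 ⟨_, inv_mem hb, _, inv_mem ha, by rw [ct_inv h.fst, e, mul_inv_rev]⟩
  exact ⟨y, k2⁻¹, k1⁻¹, by rw [← mul_inv_rev, ← e1, inv_inv], c2.inv, c1.inv⟩

lemma SepR.rebase (h1 : G.Car o1 v false g1 o) (h : G.Vx o q o') (h2 : G.Car o' w false g2 o2)
    (h3 : G.SepR o1 v (g1 * q * g2) o2 w) : G.SepR o v q o' w := by
  intro hm
  obtain ⟨y, k1, k2, e, c1, c2⟩ := h3 (by
    rw [ct_mul (h1.1.mul h).fst, ct_mul h1.1.fst]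
    exact hm.mul h1.ct_mem h2.ct_mem)
  refine ⟨y, g1⁻¹ * k1, k2 * g2⁻¹, ?_, h1.inv.mul c1, c2.mul h2.inv⟩
  rw [mul_assoc, ← mul_assoc k1, ← e]
  group

end GS

end Pool.Agent.Lib.MP_19b52f_al.XL
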