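import Pool.Agent.Lib.MP_19b52f_al.XL.Sep
import Pool.Agent.Lib.MP_19b52f_al.XL.FreeY
import Pool.Agent.Lib.MP_19b52f_al.XL.ClA

/-! Separation in the classes of the first kind. -/

namespace Pool.Agent.Lib.MP_19b52f_al.XL

open Pool.Agent.Lib.MP_19b52f_al.EA Pool.Agent.Lib.MP_19b52f_al.EA2

variable {S : Type} {M : CoxeterMatrix S} {s t : S} {I : Set S}

namespace GS
variable (G : GS M)

open Classical in
/-- The letter `y` of a generator in `I` is sent to the square of the generator. -/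
noncomputable def κy (x : G.Φ) (I : Set S) : G.Lt → Artin M
  | .inr (.inr (.inl p)) => if p.1 = x ∧ p.2 ∈ I then ag M p.2 * ag M p.2 else 1
  | _ => 1

lemma sepa_y (x : G.Φ) (hs : s ∈ I) : G.κy x I (.inr (G.yL x s)) = ag M s * ag M s :=
  if_pos ⟨rfl, hs⟩

lemma sepa_κ (x : G.Φ) (I : Set S) (a : G.Lt) : G.κy x I a = 1 ∨
    ∃ u ∈ I, a = .inr (G.yL x u) ∧ G.κy x I a = ag M u * ag M u := by
  rcases a with a | a | ⟨y, u⟩ | a
  · exact .inl rfl
  · exact .inl rfl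
  · by_cases e : y = x ∧ u ∈ I
    · obtain ⟨rfl, e⟩ := e
      exact .inr ⟨u, e, rfl, G.sepa_y y e⟩
    · exact .inl (if_neg e)
  · exact .inl rfl

lemma κy_comm (x : G.Φ) (I : Set S) (a b : G.Lt) (h : G.Γ.Adj a b) :
    Commute (G.κy x I a) (G.κy x I b) := by
  rcases G.sepa_κ x I a with e | ⟨u, -, rfl, -⟩
  · exact e ▸ Commute.one_left _
  rcases G.sepa_κ x I b with e | ⟨r, -, rfl, -⟩
  · exact e ▸ Commute.one_right _
  obtain ⟨h1, h2⟩ := (G.adj_ll _ _).1 h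
  exact absurd (G.free_yy x fun e => h1 (by rw [e])) h2

/-- The homomorphism that reads the letters `y`. -/
noncomputable def ky (x : G.Φ) (I : Set S) : GP G.Γ Zm →* Artin M :=
  kap G.Γ (G.κy x I) (G.κy_comm x I)

variable {G} {x : G.Φ} {o o' : G.Φ × Set G.V} {g q : Artin M} {v w : G.V}

lemma ky_near (s : S) {r : GP G.Γ Zm} (h : r ∈ PX G.Γ Zm (G.lk2 (x • G.ξ s))) :
    G.ky x I r ∈ FI M (I \ {s}) := by
  refine kap_mem _ _ (fun a ha => ?_) h
  rcases G.sepa_κ x I a with e | ⟨u, hu, rfl, e⟩ <;> rw [e]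
  · exact one_mem _
  · exact sq_mem_FI ⟨hu, fun f => G.nadj_near_y x s (f ▸ ha.1)⟩

lemma ky_far (hI : Clq M I) (hs : s ∈ I) {r : GP G.Γ Zm}
    (h : r ∈ PX G.Γ Zm (G.lk2 (x • G.θ (ag M s) • G.ξ s))) : G.ky x I r ∈ FI M {s} := by
  refine kap_mem _ _ (fun a ha => ?_) h
  rcases G.sepa_κ x I a with e | ⟨u, hu, rfl, e⟩ <;> rw [e]
  · exact one_mem _
  · exact sq_mem_FI (by_contra fun f => G.nadj_far_y x (hI s hs u hu (Ne.symm f)) ha.1)

variable [Finite S]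

lemma ky_c_gen (hs : s ∈ I) : G.ky x I (G.c x (ag M s)) = ag M s * ag M s := by
  rw [ky, kap_c_gen _ _ fun _ => rfl, u, kap_pw_one (a := .inr (G.yL x s)), G.sepa_y x hs,
    Sum.elim_inr, L_yL_self, zpow_one]
  intro a h1 h2
  rcases G.sepa_κ x I a with e | ⟨r, -, rfl, -⟩
  · exact e
  · exact absurd (G.L_yL_ne x fun e => h1 (by rw [e])) h2

lemma ky_c_back (s : S) : G.ky x I (G.c (x * G.θ (ag M s)) (ag M s)) = 1 := by
  rw [ky, kap_c_gen _ _ fun _ => rfl, u]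
  refine kap_pw_zero _ _ fun a h2 => ?_
  rcases G.sepa_κ x I a with e | ⟨r, -, rfl, -⟩
  · exact e
  · exact absurd (G.L_yL_back x r s) h2

lemma ky_c (hg : g ∈ FI M I) : G.ky x I (G.c x g) = g := by
  induction hg using Subgroup.closure_induction with
  | mem g hg =>
    obtain ⟨s, hs, rfl⟩ := hg
    rw [c_mul, map_mul, ky_c_gen hs, ky_c_back, mul_one]
  | one => rw [c_one, map_one]
  | mul a b ha _ h1 h2 => rw [c_mul, G.θ_FI ha, mul_one, map_mul, h1, h2]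
  | inv a ha h1 =>
    have := c_inv x a
    rw [G.θ_FI ha, mul_one] at this
    rw [this, map_inv, h1]

lemma sepa_ct : G.ky x I (G.ct o q o') = G.ky x I (G.c o.1 q) := kap_ct _ _ (fun _ => rfl) _ _ _

lemma sepa_c (hq : q ∈ FI M I) (g : Artin M) : G.c x (q * g) = G.c x q * G.c x g := by
  rw [c_mul, G.θ_FI hq, mul_one]

lemma sep_nn (hI : Clq M I) (hs : s ∈ I) (ht : t ∈ I) (hq : q ∈ FI M I) :
    G.SepR (G.obA x I) (x • G.ξ s) q (G.obA x I) (x • G.ξ t) := by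
  intro h
  obtain ⟨a, ha, b, hb, e⟩ := h.map (G.ky x I) (fun _ => ky_near s) fun _ => ky_near t
  rw [sepa_ct, show (G.obA x I).1 = x from rfl, ky_c hq] at e
  exact ⟨_, a, b, e, car_FI hI hs ha, car_FI hI ht hb⟩

lemma sep_nf (hI : Clq M I) (hs : s ∈ I) (ht : t ∈ I) (h : s ≠ t)
    (hq : q * (ag M s)⁻¹ ∈ FI M I) : G.SepR (G.obA x I) (x • G.ξ t) q (G.mv (G.obA x I) s)
      (x • G.θ (ag M s) • G.ξ s) := by
  intro h0
  obtain ⟨a, ha, b, hb, e⟩ := h0.map (G.ky x I) (fun _ => ky_near t) fun _ => ky_far hI hs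
  obtain ⟨k, rfl⟩ := mem_FI_single hb
  rw [sepa_ct, show (G.obA x I).1 = x from rfl, ← inv_mul_cancel_right q (ag M s), sepa_c hq,
    map_mul, ky_c hq, ky_c_gen hs, ← eq_mul_inv_iff_mul_eq, mul_assoc a] at e
  have s2 : ag M s * ag M s ∈ FI M (I \ {t}) := sq_mem_FI ⟨hs, h⟩
  have := (car_FI (x := x) hI ht (e ▸ mul_mem ha (mul_mem (zpow_mem s2 k) (inv_mem s2)))).mul
    (car_mv_obA hI hs ht h)
  rw [inv_mul_cancel_right] at this
  exact SepR.of_car this (.inl rfl) h0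

lemma sepa_zpow (hg : G.θ g = 1) (k : ℤ) : G.c x (g ^ k) = G.c x g ^ k :=
  map_zpow (MonoidHom.mk' (fun a : G.θ.ker => G.c x a) fun a b => by
    rw [Subgroup.coe_mul, c_mul, show G.θ a = 1 from a.2, mul_one]) ⟨g, hg⟩ k

lemma sepa_prj (l : G.BL) (s : S) :
    prj (.inr l : G.Lt) (G.c x (ag M s)) = Multiplicative.ofAdd (G.L l x s) := by
  rw [c_gen, cs, map_mul, map_mul, u, prj_pw, gen, gen, prj_gv_ne Sum.inl_ne_inr,
    prj_gv_ne Sum.inl_ne_inr, one_mul, mul_one, Sum.elim_inr]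

lemma sep_ff (hI : Clq M I) (hs : s ∈ I) (hq : ag M s * q * (ag M s)⁻¹ ∈ FI M I) :
    G.SepR (G.mv (G.obA x I) s) (x • G.θ (ag M s) • G.ξ s) q (G.mv (G.obA x I) s)
      (x • G.θ (ag M s) • G.ξ s) := by
  intro h0
  obtain ⟨a, ha, b, hb, e⟩ := h0.map (G.ky x I) (fun _ => ky_far hI hs) fun _ => ky_far hI hs
  obtain ⟨k, hk⟩ := mem_FI_single (mul_mem ha hb)
  have e1 : q = (ag M s)⁻¹ * (ag M s * q * (ag M s)⁻¹ * ag M s) := by group
  rw [sepa_ct, show (G.mv (G.obA x I) s).1 = x * G.θ (ag M s) from rfl, e1, c_mul, c_inv, θ_inv,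
    obja_sq, sepa_c hq, map_mul, map_mul, map_inv, ky_c hq, ky_c_gen hs, hk] at e
  have e2 : q = (ag M s * ag M s) ^ k := by
    have c1 : Commute (ag M s) ((ag M s * ag M s) ^ k) :=
      ((Commute.refl _).mul_right (Commute.refl _)).zpow_right k
    calc q = ag M s * ((ag M s * ag M s)⁻¹ * (ag M s * q * (ag M s)⁻¹ * (ag M s * ag M s))) *
          (ag M s)⁻¹ := by group
      _ = _ := by rw [e, c1.eq, mul_inv_cancel_right]
  have n1 : (.inr (G.dL (x • G.α none s)) : G.Lt) ∉ G.lk2 (x • G.θ (ag M s) • G.ξ s) :=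
    fun f => G.nadj_far_d x s f.1
  have n2 : (.inr (G.dL (x • G.α none s)) : G.Lt) ∉ Set.range Sum.inl := by simp
  obtain ⟨a', ha', b', hb', e3⟩ := id h0
  have e4 := congrArg (prj (.inr (G.dL (x • G.α none s)) : G.Lt)) e3
  rw [map_mul, prj_PX n1 ha', prj_PX n1 hb', ct, map_mul, map_mul, map_inv, prj_PX n2 (γ_mem _),
    show (G.mv (G.obA x I) s).1 = x * G.θ (ag M s) from rfl, e2,
    sepa_zpow (by rw [map_mul, G.sq]), map_zpow, c_mul, obja_sq, map_mul, sepa_prj, sepa_prj,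
    L_dL_back, L_dL_self] at e4
  have e5 : k = 0 := by simpa using congrArg Multiplicative.toAdd e4
  rw [e5, zpow_zero] at e2
  subst e2
  exact SepR.of_car (fv_remove ((ok_obA x hI).mv ((mem_obA s).2 hs)) (.inl rfl)).car (.inl rfl) h0

lemma sepa_nf (hI : Clq M I) (hs : s ∈ I) (ht : t ∈ I) (h1 : G.Vx o q (G.mv (G.obA x I) t))
    (hc : G.Car (G.obA x I) (x • G.ξ s) false g o) (hq : g * q * (ag M t)⁻¹ ∈ FI M I)
    (h : x • G.ξ s = x • G.θ (ag M t) • G.ξ t ∨ G.cm (x • G.ξ s) (x • G.θ (ag M t) • G.ξ t)) :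
    G.SepR o (x • G.ξ s) q (G.mv (G.obA x I) t) (x • G.θ (ag M t) • G.ξ t) := by
  refine SepR.rebase hc h1 (fv_remove h1.ok.2 (.inl rfl)).car (sep_nf hI ht hs ?_ (by simpa))
  rintro rfl
  exact h.elim (fun f => (G.far_self t).1 (smul_left_cancel x f))
    fun f => (G.far_self t).2 ((G.cm_iff _ _ _).1 f)

theorem sepA (hI : Clq M I) (h : G.InA x I o g) (h1 : G.Vx o q o') (hv : v ∈ o.2) (hw : w ∈ o'.2)
    (hvw : v = w ∨ G.cm v w) : G.SepR o v q o' w := by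
  obtain ⟨g1, s, hs, ⟨rfl, c1, f1⟩ | ⟨rfl, rfl, f1⟩⟩ := h.std hI hv <;>
    obtain ⟨g2, t, ht, ⟨rfl, c2, f2⟩ | ⟨rfl, rfl, f2⟩⟩ := (h.of_vx hI h1).std hI hw
  · refine SepR.rebase c1 h1 c2.inv (sep_nn hI hs ht ?_)
    simpa [mul_assoc] using mul_mem (inv_mem f1) f2
  · refine sepa_nf hI hs ht h1 c1 ?_ hvw
    simpa [mul_assoc] using mul_mem (inv_mem f1) f2
  · refine SepR.symm h1 (sepa_nf hI ht hs h1.inv c2 ?_ (hvw.imp Eq.symm (G.cm_symm _ _)))
    simpa [mul_assoc] using mul_mem (inv_mem f2) f1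
  · obtain rfl : s = t := by
      by_contra e
      have := G.far_far (hI s hs t ht e)
      exact hvw.elim (fun f => this.1 (smul_left_cancel x f)) fun f => this.2 ((G.cm_iff _ _ _).1 f)
    refine sep_ff hI hs ?_
    simpa [mul_assoc] using mul_mem (inv_mem f1) f2

end GS

end Pool.Agent.Lib.MP_19b52f_al.XL
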