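import Pool.Agent.Lib.MP_19b52f_al.XL.Cell

/-! The labels are constant along the mirrors. -/

namespace Pool.Agent.Lib.MP_19b52f_al.XL

open Pool.Agent.Lib.MP_19b52f_al.EA Pool.Agent.Lib.MP_19b52f_al.EA2

variable {S : Type} {M : CoxeterMatrix S} {s t : S}

lemma winv_out {m p k : ℤ} (hp : Out m p) (hk : k = 0 ∨ k = 1) : ¬ m ∣ 2 * (k - p) := fun e => by
  rcases hk with rfl | rfl
  · exact hp.1 (by simpa using e)
  · exact hp.2 (dvd_neg.1 (by rwa [show -(2 * (p - 1)) = 2 * (1 - p) by ring]))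

lemma winv_Nw {m j k : ℤ} (hm : 0 < m) (h : ¬ m ∣ k - j) :
    Nw m j (k - 1) = Nw m j (k - m) + 1 := by
  have e1 := Nw_succ hm j (k - 1)
  have e2 := Nw_add hm j (k - m) 1
  rw [sub_add_cancel, if_neg h] at e1
  rw [mul_one, sub_add_cancel] at e2
  omega

namespace GS
variable (G : GS M)

lemma winv_jump {i : S × S} {x0 : G.Φ} {s0 t0 : S} (h0 : Lk M s0 t0) (hi : M i.1 i.2 = M s0 t0)
    (h : Lk M s t) (x : G.Φ) {k k0 : ℤ} (h1 : k0 = 0 ∨ k0 = 1)
    (hk : G.col (some i) x s t k = G.col (some i) x0 s0 t0 k0) :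
    ∃ e : ZMod 2, ∀ p, Out (M s0 t0) p →
      G.η (some i) (G.ch x s t (k - 1)) (G.col (some i) x0 s0 t0 p) =
        G.η (some i) (G.ch x s t (k - M s t)) (G.col (some i) x0 s0 t0 p) + e := by
  have key : ∀ a b, G.col (some i) x s t a = G.col (some i) x0 s0 t0 b ↔
      (x0⁻¹ * x) • G.b (some i) s t a = G.b (some i) s0 t0 b := fun a b => by
    rw [col, col, mul_smul, inv_smul_eq_iff]
  by_cases hc : ∃ p j, Out (M s0 t0) p ∧ G.col (some i) x0 s0 t0 p = G.col (some i) x s t j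
  · obtain ⟨p, j, hp, e⟩ := hc
    have n2 := winv_out hp h1
    rcases G.uniqP i s0 t0 s t (x0⁻¹ * x) k j k0 p h0 hi h ((key _ _).1 hk) ((key _ _).1 e.symm)
      (fun d => n2 (d.mul_left 2)) with ⟨em, ε, hε, hb⟩ | ⟨-, d⟩
    · refine ⟨1, fun q hq => ?_⟩
      have e2 : ε * ε = 1 := by rcases hε with rfl | rfl <;> norm_num
      have e3 : G.col (some i) x s t (k + ε * (q - k0)) = G.col (some i) x0 s0 t0 q := by
        rw [key, hb, add_sub_cancel_left, ← mul_assoc, e2, one_mul, add_sub_cancel]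
      have hm := G.seven s t h
      have n3 : ¬ (M s t : ℤ) ∣ k - (k + ε * (q - k0)) := fun d => by
        refine winv_out hq h1 ?_
        rw [← em, show 2 * (k0 - q) = 2 * ε * (k - (k + ε * (q - k0))) by
          linear_combination (2 * (q - k0)) * e2]
        exact d.mul_left _
      rw [← e3, G.η_in x _ h, G.η_in x _ h, winv_Nw (by omega) n3, Int.cast_add, Int.cast_one,
        add_assoc]
    · exact absurd d n2
  · refine ⟨0, fun p hp => ?_⟩
    have n : ∀ j, G.col (some i) x0 s0 t0 p ≠ G.col (some i) x s t j := fun j e => hc ⟨p, j, hp, e⟩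
    rw [G.η_out x _ h n, G.η_out x _ h n, add_zero]

/-- If a cell contains a wall of the arc, the bracket does not change when all the other walls of
the cell are crossed. -/
lemma br_opp {i : S × S} {x0 : G.Φ} {s0 t0 : S} (h0 : Lk M s0 t0) (hi : M i.1 i.2 = M s0 t0)
    (h : Lk M s t) (x : G.Φ) {k : ℤ}
    (hk : G.col (some i) x s t k = G.col (some i) x0 s0 t0 0 ∨
      G.col (some i) x s t k = G.col (some i) x0 s0 t0 1) :
    G.Br i x0 s0 t0 (G.ch x s t (k - 1)) ↔ G.Br i x0 s0 t0 (G.ch x s t (k - M s t)) := by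
  obtain ⟨e, he⟩ := hk.elim (G.winv_jump h0 hi h x (Or.inl rfl)) (G.winv_jump h0 hi h x (Or.inr rfl))
  refine forall₄_congr fun p q hp hq => ?_
  rw [he p hp, he q hq, add_add_add_comm, CharTwo.add_self_eq_zero, add_zero]

lemma winv_L (h : Lk M s t) (l : G.BL) (x : G.Φ) (k : ℤ) {r : S}
    (hr : ∀ i, G.ch x s t (k - M s t) • G.α i r = G.col i x s t k) :
    G.L l (G.ch x s t (k - M s t)) r = G.seq l x s t k := by
  rcases l with c | p | p
  · rw [seq, L, L, hr, G.col_edge x _ h]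
  · rw [seq, L, L, hr, G.col_edge x _ h]
  · rw [seq, L, L, hr, G.col_edge x _ h]
    by_cases hk : G.col (some p.1) x s t k = G.col (some p.1) p.2.1 p.2.2.1 p.2.2.2 0 ∨
        G.col (some p.1) x s t k = G.col (some p.1) p.2.1 p.2.2.1 p.2.2.2 1
    · classical
      exact if_congr (and_congr_right fun h0 => and_congr_right fun hi =>
        (G.br_opp h0 hi h x hk).symm) rfl rfl
    · rw [Lp, if_neg fun e => hk (Or.inl e), if_neg fun e => hk (Or.inr e), sub_self, ite_self,
        ite_self]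

theorem seq_swap (h : Lk M s t) (l : G.BL) (x : G.Φ) (k : ℤ) :
    G.seq l x t s k = G.seq l x s t (M s t + 1 - k) := by
  have e : G.ch x t s (k - 1) = G.ch x s t (M s t + 1 - k - M s t) := by
    rw [G.ch_swap x s t, show -(k - 1) = (M s t : ℤ) + 1 - k - M s t by ring]
  rw [seq, e]
  exact G.winv_L h l x _ fun i => by rw [← e, G.col_edge x i h.symm, G.col_swap x i h]

lemma seq_shift (l : G.BL) (x : G.Φ) (s t : S) (j k : ℤ) :
    G.seq l (G.ch x s t j) (lt s t (j + 1)) (lt s t j) k = G.seq l x s t (j + k) := by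
  rw [seq, seq, G.ch_shift, dih_lt_lt, add_sub_assoc]

lemma seq_back (h : Lk M s t) (l : G.BL) (x : G.Φ) (k : ℤ) :
    G.L l (G.ch x s t k) (lt s t k) = G.seq l x s t (k + M s t) := by
  have e := G.winv_L h l x (k + M s t) (r := lt s t k)
  rw [add_sub_cancel_right] at e
  exact e fun i => G.col_back x i h k

variable [Finite S]

lemma U_eq (x : G.Φ) (s t : S) (k : ℤ) :
    G.U x s t k = pw G.Γ (Sum.elim (fun _ => 0) fun l => G.seq l x s t k) := rfl

lemma U_swap (h : Lk M s t) (x : G.Φ) (k : ℤ) : G.U x t s k = G.U x s t (M s t + 1 - k) := by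
  rw [U_eq, U_eq, funext fun l => G.seq_swap h l x k]

lemma U_back (h : Lk M s t) (x : G.Φ) (k : ℤ) :
    G.u (G.ch x s t k) (lt s t k) = G.U x s t (k + M s t) := by
  rw [U_eq, u, funext fun l => G.seq_back h l x k]

end GS

end Pool.Agent.Lib.MP_19b52f_al.XL
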