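import Pool.Agent.Lib.MP_19b52f_al.EA2.Star
import Pool.Agent.Lib.MP_19b52f_al.XL.Winv

/-! The product of the base labels over a window is palindromic. -/

namespace Pool.Agent.Lib.MP_19b52f_al.XL

open Pool.Agent.Lib.MP_19b52f_al.EA Pool.Agent.Lib.MP_19b52f_al.EA2

lemma win_tel {R : Type} [Group R] {E g e : ℤ → R} {n : ℕ} (K : Subgroup R)
    (hE : ∀ j : ℕ, j < n → E (j + 1) = (g j)⁻¹ * g (j + 1) * e (j + 1))
    (hg : ∀ j : ℕ, j ≤ n → g j ∈ K) (hK : ∀ j : ℕ, j < n → e (j + 1) ∈ K)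
    (he : ∀ j : ℕ, j < n → ∀ x ∈ K, Commute (e (j + 1)) x)
    (h1 : ∀ k, Commute (g k) (g (k + 1))) (h2 : Commute (g 0) (g n)) : Pal E n := by
  rw [Pal, pp_rev E]
  have key : ∀ j : ℕ, j ≤ n → ∃ w, (∀ x ∈ K, Commute w x) ∧
      pp (fun j : ℕ => E (j + 1)) j = (g 0)⁻¹ * g j * w ∧
      rp (fun j : ℕ => E (j + 1)) j = g j * (g 0)⁻¹ * w := by
    intro j
    induction j with
    | zero => exact fun _ => ⟨1, by simp, by simp [pp], by simp [rp]⟩
    | succ j ih =>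
      intro hj
      obtain ⟨w, h3, h4, h5⟩ := ih (by omega)
      have k0 := hg 0 (by omega)
      have k1 := hg j (by omega)
      have k2 := hg (j + 1) hj
      push_cast at k0 k2
      refine ⟨e (j + 1) * w, fun x hx => (he j hj x hx).mul_left (h3 x hx), ?_, ?_⟩
      · rw [pp, h4, hE j hj, mul_assoc,
          (h3 _ (mul_mem (mul_mem (inv_mem k1) k2) (hK j hj))).eq]
        push_cast
        group
      · rw [rp, h5, hE j hj, (h1 j).inv_left.eq, mul_assoc, ← mul_assoc (e _),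
          (he j hj _ (mul_mem k1 (inv_mem k0))).eq]
        push_cast
        group
  obtain ⟨w, -, h4, h5⟩ := key n le_rfl
  rw [h4, h5, h2.inv_left.eq]

lemma win_ne {m : ℤ} (hm : 7 ≤ m) {f g : ℤ → ℤ} (h : Act m f g) {j : ℤ} (hj : g j ≠ 0) :
    f j ≠ 0 ∧ f (j + 1) ≠ 0 := by
  obtain ⟨h1, -, c, h2⟩ := h
  have e1 : g (j - 1) = 0 := by
    by_contra v
    exact seq_one (by omega) (h2 _ v) (h2 j hj) (by ring)
  have e2 : g (j + 1) = 0 := by
    by_contra v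
    exact seq_one (by omega) (h2 j hj) (h2 _ v) (by ring)
  have e3 := h1 j
  have e4 := h1 (j + 1)
  rw [add_sub_cancel_right] at e4
  omega

theorem pal_pw {Λ : Type} [Finite Λ] (Γ : SimpleGraph Λ) {m : ℕ} (hm : 7 ≤ m) (f : Λ → ℤ → ℤ)
    (h : ∀ l l', l ≠ l' → ¬ Γ.Adj l l' → (∀ k, f l k = 0 ∨ f l' k = 0) ∧ Cond m (f l) (f l')) :
    Pal (fun k => pw Γ fun l => f l k) m := by
  have hm' : (7 : ℤ) ≤ m := by exact_mod_cast hm
  obtain ⟨g, e, h0, h1⟩ : ∃ g e : Λ → ℤ → ℤ, (∀ l k, f l k = -g l (k - 1) + g l k + e l k) ∧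
      ∀ l, (Act m (f l) (g l) ∧ ∀ k, e l k = 0) ∨
        ((∀ u, ¬ Act m (f l) u) ∧ (∀ k, g l k = 0) ∧ ∀ k, e l k = f l k) := by
    have : ∀ l, ∃ g e : ℤ → ℤ, (∀ k, f l k = -g (k - 1) + g k + e k) ∧
        ((Act m (f l) g ∧ ∀ k, e k = 0) ∨
          ((∀ u, ¬ Act m (f l) u) ∧ (∀ k, g k = 0) ∧ ∀ k, e k = f l k)) := fun l => by
      by_cases u : ∃ u, Act m (f l) u
      · obtain ⟨u, hu⟩ := u
        exact ⟨u, fun _ => 0, fun k => by rw [hu.1 k]; ring, Or.inl ⟨hu, fun _ => rfl⟩⟩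
      · exact ⟨fun _ => 0, f l, fun k => by simp,
          Or.inr ⟨fun v hv => u ⟨v, hv⟩, fun _ => rfl, fun _ => rfl⟩⟩
    choose g e h0 h1 using this
    exact ⟨g, e, h0, h1⟩
  have hA : ∀ l i, g l i ≠ 0 → Act m (f l) (g l) := fun l i hi =>
    (h1 l).elim And.left fun u => absurd (u.2.1 i) hi
  have hB : ∀ l i, e l i ≠ 0 → (∀ u, ¬ Act m (f l) u) ∧ f l i ≠ 0 := fun l i hi =>
    (h1 l).elim (fun u => absurd (u.2 i) hi) fun u => ⟨u.1, u.2.2 i ▸ hi⟩
  have F1 : ∀ i j : ℤ, j = i ∨ j = i + 1 ∨ j = i + m → ∀ l l', g l i ≠ 0 → g l' j ≠ 0 →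
      l = l' ∨ Γ.Adj l l' := fun i j hij l l' hi hj => by
    by_contra v
    rw [not_or] at v
    obtain ⟨a, ha⟩ := (hA l i hi).pres hm' hi
    obtain ⟨b, hb⟩ := (hA l' j hj).pres hm' hj
    rcases (h l l' v.1 v.2).2 with u | u | ⟨k, u, -⟩ | ⟨u, u', u1, u2, u3⟩
    · exact ha (u a)
    · exact hb (u b)
    · exact ha ((hA l i hi).not_single hm' u a)
    · rw [u1.unique hm' (hA l i hi), u2.unique hm' (hA l' j hj)] at u3
      obtain ⟨c0, c1, -, c3⟩ := u3 i j hi hj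
      rcases hij with rfl | rfl | rfl
      · exact c0 (by simp)
      · exact c1 (by simp)
      · exact c3 (by simp)
  let X : Set Λ := {l | ∃ k : ℤ, 1 ≤ k ∧ k ≤ m ∧ f l k ≠ 0}
  have F2 : ∀ k : ℤ, 1 ≤ k → k ≤ m → ∀ l, e l k ≠ 0 → ∀ l' ∈ X, l = l' ∨ Γ.Adj l l' := by
    rintro k k1 k2 l hl l' ⟨k', k3, k4, hl'⟩
    by_contra v
    rw [not_or] at v
    rcases (h l l' v.1 v.2).2 with u | u | ⟨c, u, u'⟩ | ⟨u, u', u1, -⟩
    · exact (hB l k hl).2 (u k)
    · exact hl' (u k')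
    · have := seq_lin (by omega) (dvd_sub (u' k' hl') (u k (hB l k hl).2))
      omega
    · exact (hB l k hl).1 u u1
  have F3 : ∀ j : ℤ, 0 ≤ j → j ≤ m → ∀ l, g l j ≠ 0 → l ∈ X := fun j j1 j2 l hl => by
    have := win_ne hm' (hA l j hl) hl
    by_cases u : j = 0
    · exact ⟨j + 1, by omega, by omega, this.2⟩
    · exact ⟨j, by omega, j2, this.1⟩
  have F4 : ∀ i j : ℤ, j = i ∨ j = i + 1 ∨ j = i + m →
      Commute (pw Γ fun l => g l i) (pw Γ fun l => g l j) := fun i j hij =>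
    comm_PX2 (X := {l | g l i ≠ 0}) (Y := {l | g l j ≠ 0}) (fun a ha b hb => F1 i j hij a b ha hb)
      (pw_mem fun _ u => u) (pw_mem fun _ u => u)
  refine win_tel (g := fun k => pw Γ fun l => g l k) (e := fun k => pw Γ fun l => e l k)
    (PX Γ Zm X) (fun j hj => ?_) (fun j hj => pw_mem (F3 j (by omega) (by omega)))
    (fun j hj => pw_mem fun l hl => ⟨j + 1, by omega, by omega, (hB l _ hl).2⟩)
    (fun j hj x hx => comm_PX2 (X := {l | e l (j + 1) ≠ 0})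
      (F2 (j + 1) (by omega) (by omega)) (pw_mem fun _ u => u) hx)
    (fun k => F4 k _ (Or.inr (Or.inl rfl))) (F4 0 _ (Or.inr (Or.inr (by simp))))
  simp only [h0, add_sub_cancel_right]
  rw [pw_add (n := fun l => -g l j + g l (j + 1)), pw_add (n := fun l => -g l j), pw_neg]
  · exact fun a ha b hb hab => (F1 j j (Or.inl rfl) a b ha hb).resolve_left hab
  · exact fun a b ha hb => F1 j _ (Or.inr (Or.inl rfl)) a b (by simpa using ha) hb
  · intro a b ha hb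
    have : a ∈ X := by
      by_cases u : g a j = 0
      · exact F3 (j + 1) (by omega) (by omega) a (by simpa [u] using ha)
      · exact F3 j (by omega) (by omega) a u
    exact (F2 (j + 1) (by omega) (by omega) b hb a this).imp Eq.symm SimpleGraph.Adj.symm

variable {S : Type} {M : CoxeterMatrix S} {s t : S}

theorem GS.window [Finite S] (G : GS M) (h : Lk M s t) (x : G.Φ) : Pal (G.U x s t) (M s t) := by
  have := pal_pw G.Γ (G.seven s t h)
    (fun l k => Sum.elim (fun _ => 0) (fun l => G.seq l x s t k) l) (by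
      rintro (v | l) (w | l') h1 h2
      · exact ⟨fun _ => Or.inl rfl, Or.inl fun _ => rfl⟩
      · exact ⟨fun _ => Or.inl rfl, Or.inl fun _ => rfl⟩
      · exact ⟨fun _ => Or.inr rfl, Or.inr (Or.inl fun _ => rfl)⟩
      · rw [G.adj_ll, not_and, not_not] at h2
        have h3 := h2 fun e => h1 (congrArg _ e)
        exact ⟨fun k => h3.1 _ _, h3.2 x s t h⟩)
  rw [show G.U x s t = _ from funext (G.U_eq x s t)]
  exact this

end Pool.Agent.Lib.MP_19b52f_al.XL
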