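import Pool.Agent.Lib.MP_19b52f_al.XL.Pw

/-! A nonempty trivial word in a right-angled Artin group has a cancelling pair. -/

namespace Pool.Agent.Lib.MP_19b52f_al.XL

open Pool.Agent.Lib.MP_19b52f_al.EA Pool.Agent.Lib.MP_19b52f_al.EA2

variable {Ω : Type} (Γ : SimpleGraph Ω)

/-- The value of a word. -/
def ev (w : List (Ω × Bool)) : GP Γ Zm := (w.map fun a => gen Γ a.1 (sgn a.2)).prod

/-- The word has two opposite letters, and all letters between them are adjacent to them. -/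
def HasCancel (w : List (Ω × Bool)) : Prop :=
  ∃ w1 w2 w3 v ε, w = w1 ++ (v, ε) :: (w2 ++ (v, !ε) :: w3) ∧ ∀ a ∈ w2, Γ.Adj v a.1

open Classical in
/-- The occurrences of a vertex, with the cosets of the initial segments. -/
noncomputable def word_occ (v : Ω) :
    List (Ω × Bool) → GP Γ Zm → List ((GP Γ Zm ⧸ PX Γ Zm (Γ.neighborSet v)) × Bool)
  | [], _ => []
  | a :: w, p => if a.1 = v then (↑p, a.2) :: word_occ v w p
      else word_occ v w (p * gen Γ a.1 (sgn a.2))

variable {Γ}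

lemma word_cons (a : Ω × Bool) (w : List (Ω × Bool)) :
    ev Γ (a :: w) = gen Γ a.1 (sgn a.2) * ev Γ w := rfl

lemma word_nil {v : Ω} {w : List (Ω × Bool)} {p : GP Γ Zm} (h : word_occ Γ v w p = []) :
    ∀ a ∈ w, a.1 ≠ v := by
  induction w generalizing p with
  | nil => simp
  | cons a w ih =>
    rw [word_occ] at h
    split_ifs at h with e
    exact List.forall_mem_cons.2 ⟨e, ih h⟩

lemma word_head {v : Ω} {w : List (Ω × Bool)} {p : GP Γ Zm} {x ε L}
    (h : word_occ Γ v w p = (x, ε) :: L) :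
    ∃ w2 w3, w = w2 ++ (v, ε) :: w3 ∧ x = ↑(p * ev Γ w2) := by
  induction w generalizing p with
  | nil => simp [word_occ] at h
  | cons a w ih =>
    rw [word_occ] at h
    split_ifs at h with e
    · obtain ⟨h1, h2⟩ := Prod.mk.inj (List.cons.inj h).1
      exact ⟨[], w, by rw [← e, ← h2]; rfl, by rw [← h1, ev, List.map_nil, List.prod_nil, mul_one]⟩
    · obtain ⟨w2, w3, rfl, h1⟩ := ih h
      exact ⟨a :: w2, w3, rfl, by rw [h1, word_cons, mul_assoc]⟩

lemma word_pair {v : Ω} {w : List (Ω × Bool)} {p : GP Γ Zm} {x ε L1 L2}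
    (h : word_occ Γ v w p = L1 ++ (x, ε) :: (x, !ε) :: L2) : ∃ w1 w2 w3,
      w = w1 ++ (v, ε) :: (w2 ++ (v, !ε) :: w3) ∧ ev Γ w2 ∈ PX Γ Zm (Γ.neighborSet v) := by
  induction w generalizing p L1 with
  | nil => simp [word_occ] at h
  | cons a w ih =>
    rw [word_occ] at h
    split_ifs at h with e
    · cases L1 with
      | nil =>
        obtain ⟨h0, h3⟩ := List.cons.inj h
        obtain ⟨h1, h2⟩ := Prod.mk.inj h0
        obtain ⟨w2, w3, rfl, h4⟩ := word_head h3
        refine ⟨[], w2, w3, by rw [← e, ← h2]; rfl, ?_⟩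
        rwa [← h1, QuotientGroup.eq, inv_mul_cancel_left] at h4
      | cons _ L1 =>
        obtain ⟨w1, w2, w3, rfl, h1⟩ := ih (List.cons.inj h).2
        exact ⟨a :: w1, w2, w3, rfl, h1⟩
    · obtain ⟨w1, w2, w3, rfl, h1⟩ := ih h
      exact ⟨a :: w1, w2, w3, rfl, h1⟩

lemma word_free {w : List (Ω × Bool)} {Z : Set Ω} {v : Ω} (hv : v ∉ Z) (h : ev Γ w ∈ PX Γ Zm Z) :
    FreeGroup.mk (word_occ Γ v w 1) = 1 := by
  classical
  let κ : Ω → SD (GP Γ Zm) (GP Γ Zm ⧸ PX Γ Zm (Γ.neighborSet v)) := fun u =>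
    if u = v then .inl (.of ↑(1 : GP Γ Zm)) else .inr (gen Γ u 1)
  have k1 : ∀ u, Γ.Adj v u → Commute (κ v) (κ u) := fun u hu => by
    simp only [κ, if_pos, if_neg hu.ne']
    refine sd_comm ?_
    rw [MulAction.Quotient.smul_mk, smul_eq_mul, mul_one, eq_comm, QuotientGroup.eq, inv_one,
      one_mul]
    exact gen_mem (X := Γ.neighborSet v) hu 1
  have k2 : ∀ a b, Γ.Adj a b → Commute (κ a) (κ b) := fun a b hab => by
    by_cases ha : a = v
    · exact ha ▸ k1 b (ha ▸ hab)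
    · by_cases hb : b = v
      · exact hb ▸ (k1 a (hb ▸ hab.symm)).symm
      · simp only [κ, if_neg ha, if_neg hb]
        exact (gv_comm hab _ _).map _
  have k3 : ∀ (w : List (Ω × Bool)) (p : GP Γ Zm),
      (.inr p * kap Γ κ k2 (ev Γ w)).left = FreeGroup.mk (word_occ Γ v w p) := fun w => by
    induction w with
    | nil => exact fun p => by simp [ev, word_occ, FreeGroup.one_eq_mk]
    | cons a w ih =>
      intro p
      rw [word_cons, map_mul, kap_gen, word_occ]
      split_ifs with e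
      · rw [← List.singleton_append, ← FreeGroup.mul_mk, ← ih]
        cases a.2
        · change _ = (FreeGroup.of (QuotientGroup.mk p))⁻¹ * _
          simp [κ, e, sgn]
        · change _ = FreeGroup.of (QuotientGroup.mk p) * _
          simp [κ, e, sgn]
      · rw [← ih, map_mul, mul_assoc]
        cases a.2 <;> simp [κ, e, sgn, gen_neg]
  obtain ⟨g, hg⟩ := kap_mem κ k2 (K := SemidirectProduct.inr.range)
    (fun u hu => ⟨gen Γ u 1, (if_neg fun e : u = v => hv (e ▸ hu)).symm⟩) h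
  rw [← k3, ← hg, ← map_mul]
  rfl

theorem word_mem {w : List (Ω × Bool)} {Z : Set Ω} (h : ev Γ w ∈ PX Γ Zm Z) :
    (∀ a ∈ w, a.1 ∈ Z) ∨ HasCancel Γ w := by
  induction hn : w.length using Nat.strong_induction_on generalizing w Z with
  | _ n ih =>
    refine or_iff_not_imp_left.2 fun h1 => ?_
    push Not at h1
    obtain ⟨a, ha, hv⟩ := h1
    obtain ⟨L, h2, h3⟩ := FreeGroup.Red.exact.1 (word_free hv h)
    rw [FreeGroup.Red.nil_iff.1 h3] at h2
    rcases h2.cases_head with h4 | ⟨L', h4, -⟩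
    · exact absurd rfl (word_nil h4 a ha)
    · generalize e : word_occ Γ a.1 w 1 = L0 at h4
      obtain ⟨⟩ := h4
      obtain ⟨w1, w2, w3, rfl, h5⟩ := word_pair e
      rcases ih w2.length (by rw [← hn]; simp; omega) h5 rfl with h6 | ⟨u1, u2, u3, u, ε, rfl, h6⟩
      · exact ⟨w1, w2, w3, _, _, rfl, h6⟩
      · exact ⟨w1 ++ _ :: u1, u2, u3 ++ _ :: w3, u, ε, by simp; exact ⟨rfl, rfl⟩, h6⟩

theorem word_one {w : List (Ω × Bool)} (h : ev Γ w = 1) : w = [] ∨ HasCancel Γ w :=
  (word_mem (Z := ∅) (h ▸ one_mem _)).imp_left fun h1 => List.eq_nil_iff_forall_not_mem.2 h1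

end Pool.Agent.Lib.MP_19b52f_al.XL
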